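import Pool.Agent.Lib.MP_aa8fd2_nt.Quadratic

/-!
The ambiguous class argument in quadratic extensions of number fields.
-/

set_option linter.unusedSectionVars false

namespace Pool.Agent.Lib.MP_aa8fd2_nt

open IsDedekindDomain HeightOneSpectrum NumberField Module

section

variable {K L : Type*} [Field K] [NumberField K] [Field L] [NumberField L] [Algebra K L]

lemma map_mem_EU_iff (x : Kˣ) : Units.map (algebraMap K L : K →* L) x ∈ EU L ↔ x ∈ EU K := by
  rw [mem_EU, mem_EU]
  constructor
  · intro h v hv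
    obtain ⟨w, rfl⟩ := exists_above K L v
    have h1 := h w (fun h2 => hv ((two_mem_below_iff K w).2 h2))
    rw [ord_algebraMap_eq, mul_eq_zero] at h1
    rcases h1 with h1 | h1
    · exfalso
      have := w.asIdeal.ramificationIdx_pos (𝓞 K)
      exact this.ne' (by exact_mod_cast h1)
    · exact h1
  · intro h w hw
    rw [ord_algebraMap_eq, h (below K w) (fun h2 => hw ((two_mem_below_iff K w).1 h2)), mul_zero]

lemma sU_mem_EU (s : L ≃ₐ[K] L) {x : Lˣ} (hx : x ∈ EU L) : sU s x ∈ EU L := by
  rw [mem_EU] at hx ⊢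
  intro w hw
  rw [ord_sU]
  exact hx _ (fun h => hw ((two_mem_cm s w).1 h))

/-- the automorphism on 2-units -/
noncomputable def sE (s : L ≃ₐ[K] L) : EU L →* EU L :=
  ((sU s).comp (EU L).subtype).codRestrict (EU L) (fun x => sU_mem_EU s x.2)

lemma sE_val (s : L ≃ₐ[K] L) (x : EU L) : ((sE s x : EU L) : Lˣ) = sU s x := rfl

variable (K L) in
/-- inclusion of 2-units -/
noncomputable def jE : EU K →* EU L :=
  ((Units.map (algebraMap K L : K →* L)).comp (EU K).subtype).codRestrict (EU L)
    (fun x => (map_mem_EU_iff x.1).2 x.2)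

lemma jE_val (x : EU K) : ((jE K L x : EU L) : Lˣ) = Units.map (algebraMap K L : K →* L) x.1 := rfl

lemma unitsMap_injective : Function.Injective (Units.map (algebraMap K L : K →* L)) := by
  intro x y hxy
  ext
  exact (algebraMap K L).injective (congrArg Units.val hxy)

lemma jE_injective : Function.Injective (jE K L) := by
  intro x y hxy
  apply Subtype.ext
  exact unitsMap_injective (congrArg Subtype.val hxy)

/-- norms of 2-units -/
noncomputable def NS (s : L ≃ₐ[K] L) : Subgroup Kˣ :=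
  ((EU L).map (nrm (sU s))).comap (Units.map (algebraMap K L : K →* L))

lemma mem_NS {s : L ≃ₐ[K] L} {x : Kˣ} : x ∈ NS s ↔ ∃ η ∈ EU L, η * sU s η =
    Units.map (algebraMap K L : K →* L) x := Iff.rfl

lemma card_sq_eq_one {F : Type*} [Field F] [CharZero F] (E : Subgroup Fˣ) (P : Subgroup E)
    (hE : (-1 : Fˣ) ∈ E) (hP : (⟨-1, hE⟩ : E) ∈ P) :
    Nat.card {x : P // (x : E) ^ 2 = 1} = 2 := by
  have hne : (-1 : Fˣ) ≠ 1 := by
    intro h
    have h1 : (-1 : F) = 1 := congrArg Units.val h
    norm_num at h1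
  rw [Nat.card_eq_two_iff' (⟨1, by simp⟩ : {x : P // (x : E) ^ 2 = 1})]
  refine ⟨⟨⟨⟨-1, hE⟩, hP⟩, by ext; simp⟩, ?_, ?_⟩
  · intro h
    apply hne
    exact congrArg (fun z : {x : P // (x : E) ^ 2 = 1} => ((z.1.1 : E) : Fˣ)) h
  · rintro ⟨⟨⟨x, hxE⟩, hxP⟩, hx⟩ hx1
    have h2 : x ^ 2 = 1 := congrArg Subtype.val hx
    have h3 : (x : F) ^ 2 = 1 := by
      have := congrArg Units.val h2
      simpa using this
    have h4 : x = 1 ∨ x = -1 := by
      rcases sq_eq_one_iff.1 h3 with h | h
      · left; ext; exact h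
      · right; ext; exact h
    rcases h4 with h | h
    · exfalso; apply hx1
      apply Subtype.ext; apply Subtype.ext; apply Subtype.ext; exact h
    · apply Subtype.ext; apply Subtype.ext; apply Subtype.ext; exact h

lemma neg_one_mem_EU (K : Type*) [Field K] [NumberField K] : (-1 : Kˣ) ∈ EU K := by
  rw [mem_EU]
  intro v _
  have h : ord v ((-1 : Kˣ) ^ 2) = 0 := by
    rw [neg_one_sq, ord_one]
  rw [ord_pow] at h
  push_cast at h
  linarith

lemma range_jE [Algebra.IsQuadraticExtension K L] {s : L ≃ₐ[K] L}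
    (hs : ∀ g : L ≃ₐ[K] L, g = 1 ∨ g = s) : (jE K L).range = fixP (sE s) := by
  ext x
  rw [mem_fixP]
  constructor
  · rintro ⟨y, rfl⟩
    apply Subtype.ext
    ext
    exact s.commutes _
  · intro h
    obtain ⟨y, hy⟩ := fixed_unit_mem hs (x := (x : Lˣ)) (congrArg Subtype.val h)
    have hyE : y ∈ EU K := by
      rw [← map_mem_EU_iff (L := L), hy]
      exact x.2
    exact ⟨⟨y, hyE⟩, Subtype.ext hy⟩

/-- the group of `ℤ`-rank of fixed points and elements of norm 1 -/
lemma finrank_fixP [Algebra.IsQuadraticExtension K L] {s : L ≃ₐ[K] L}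
    (hs : ∀ g : L ≃ₐ[K] L, g = 1 ∨ g = s) :
    finrank ℤ (Additive (fixP (sE s))) = finrank ℤ (Additive (EU K)) := by
  let e : EU K ≃* fixP (sE s) :=
    (MonoidHom.ofInjective jE_injective).trans (MulEquiv.subgroupCongr (range_jE hs))
  exact (LinearEquiv.finrank_eq (MulEquiv.toAdditive e).toIntLinearEquiv).symm

lemma finrank_fixM {E : Type*} [CommGroup E] [Module.Finite ℤ (Additive E)] (s : E →* E)
    (hs : ∀ x, s (s x) = x) :
    finrank ℤ (Additive (fixM s)) + finrank ℤ (Additive (fixP s)) = finrank ℤ (Additive E) := by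
  let f : Additive E →ₗ[ℤ] Additive E := (MonoidHom.toAdditive (nrm s)).toIntLinearMap
  have h1 := Submodule.finrank_quotient_add_finrank (LinearMap.ker f)
  rw [LinearEquiv.finrank_eq f.quotKerEquivRange] at h1
  have hM : finrank ℤ (Additive (fixM s)) = finrank ℤ (LinearMap.ker f) := by
    let e : Additive (fixM s) ≃+ LinearMap.ker f :=
      { toFun := fun x => ⟨Additive.ofMul ((Additive.toMul x : fixM s) : E), (Additive.toMul x).2⟩
        invFun := fun x => Additive.ofMul ⟨Additive.toMul x.1, x.2⟩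
        left_inv := fun _ => rfl
        right_inv := fun _ => rfl
        map_add' := fun _ _ => rfl }
    exact LinearEquiv.finrank_eq e.toIntLinearEquiv
  let Psub : Submodule ℤ (Additive E) :=
    LinearMap.ker ((MonoidHom.toAdditive (dif s)).toIntLinearMap : Additive E →ₗ[ℤ] Additive E)
  have hP : finrank ℤ (Additive (fixP s)) = finrank ℤ Psub := by
    let e : Additive (fixP s) ≃+ Psub :=
      { toFun := fun x => ⟨Additive.ofMul ((Additive.toMul x : fixP s) : E), (Additive.toMul x).2⟩
        invFun := fun x => Additive.ofMul ⟨Additive.toMul x.1, x.2⟩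
        left_inv := fun _ => rfl
        right_inv := fun _ => rfl
        map_add' := fun _ _ => rfl }
    exact LinearEquiv.finrank_eq e.toIntLinearEquiv
  have hr : LinearMap.range f ≤ Psub := by
    rintro _ ⟨x, rfl⟩
    show dif s (nrm s (Additive.toMul x)) = 1
    simp [hs, mul_comm]
  have h2 : finrank ℤ (LinearMap.range f) ≤ finrank ℤ Psub := Submodule.finrank_mono hr
  have h3 : finrank ℤ Psub ≤ finrank ℤ (LinearMap.range f) := by
    let g : Psub →ₗ[ℤ] LinearMap.range f :=
      ((2 : ℤ) • Psub.subtype).codRestrict (LinearMap.range f) (by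
        intro x
        refine ⟨x.1, ?_⟩
        have hx : s (Additive.toMul x.1) = Additive.toMul x.1 := by
          have := x.2
          have h4 : dif s (Additive.toMul x.1) = 1 := this
          rw [dif_apply, div_eq_one] at h4
          exact h4.symm
        show nrm s (Additive.toMul x.1) = (Additive.toMul x.1) ^ (2 : ℤ)
        rw [nrm_apply, hx]
        simp [pow_two, zpow_ofNat])
    by_contra hcon
    push Not at hcon
    have h5 := Submodule.finrank_quotient_add_finrank (LinearMap.ker g)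
    rw [LinearEquiv.finrank_eq g.quotKerEquivRange] at h5
    have h6 : finrank ℤ (LinearMap.range g) ≤ finrank ℤ (LinearMap.range f) :=
      Submodule.finrank_le _
    have h7 : finrank ℤ (LinearMap.ker g) = 0 := by
      rw [Module.finrank_eq_zero_iff]
      rintro ⟨x, hx⟩
      refine ⟨2, two_ne_zero, ?_⟩
      apply Subtype.ext
      apply Subtype.ext
      have := congrArg Subtype.val (LinearMap.mem_ker.1 hx)
      exact this
    omega
  omega

instance finite_sub {E : Type*} [CommGroup E] [Module.Finite ℤ (Additive E)] (P : Subgroup E) :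
    Module.Finite ℤ (Additive P) := by
  have : IsNoetherian ℤ (Additive E) := inferInstance
  let f : Additive P →ₗ[ℤ] Additive E := (MonoidHom.toAdditive P.subtype).toIntLinearMap
  have hf : Function.Injective f := by
    intro x y h
    exact Subtype.val_injective h
  exact Module.Finite.of_injective f hf

/-- the index formula -/
theorem herbrand_index [Algebra.IsQuadraticExtension K L] {s : L ≃ₐ[K] L} (hs1 : s ≠ 1)
    (hs : ∀ g : L ≃ₐ[K] L, g = 1 ∨ g = s) (hss : ∀ x, s (s x) = x)
    (hunr : Unr2 K L) (hK : OddExp K) :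
    2 ^ (2 * finrank ℤ (Additive (EU K))) =
      (NS s).relIndex (EU K) * 2 ^ finrank ℤ (Additive (EU L)) := by
  obtain ⟨m, hm, hm'⟩ := hK
  have hsE : ∀ a, sE s (sE s a) = a := by
    intro a
    apply Subtype.ext
    ext
    exact hss _
  have hH1 : ∀ a : EU L, a * sE s a = 1 → ∃ b, a = b / sE s b := by
    intro a ha
    obtain ⟨η, hη, hη'⟩ := H1_ker_trivial (A := Lˣ) (D := DivG (S2 L)) (sA := sU s) (sD := sDiv s)
      (d := dv (S2 L)) (dv_sU s) (hilbert90 hs1 hss) hm (fun D hD => inv_div hs hunr hm' D hD)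
      (e := (a : Lˣ)) a.2 (congrArg Subtype.val ha)
    exact ⟨⟨η, hη⟩, Subtype.ext hη'⟩
  have hid := index_identity hsE hH1
  rw [sqr_relIndex, sqr_relIndex] at hid
  have hnegP : (⟨-1, neg_one_mem_EU L⟩ : EU L) ∈ fixP (sE s) := by
    rw [mem_fixP]
    apply Subtype.ext
    ext
    rw [sE_val, sU_val]
    simp
  have hnegM : (⟨-1, neg_one_mem_EU L⟩ : EU L) ∈ fixM (sE s) := by
    rw [mem_fixM]
    apply Subtype.ext
    ext
    simp [sE_val]
  have hc1 := card_sq_eq_one (EU L) (fixP (sE s)) (neg_one_mem_EU L) hnegP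
  have hc2 := card_sq_eq_one (EU L) (fixM (sE s)) (neg_one_mem_EU L) hnegM
  rw [hc1, hc2] at hid
  have hNS : ((nrm (sE s)).range).relIndex (fixP (sE s)) = (NS s).relIndex (EU K) := by
    rw [← range_jE hs, ← Subgroup.index_comap, Subgroup.relIndex]
    congr 1
    ext x
    rw [Subgroup.mem_comap, Subgroup.mem_subgroupOf, mem_NS]
    constructor
    · rintro ⟨y, hy⟩
      exact ⟨y.1, y.2, congrArg Subtype.val hy⟩
    · rintro ⟨y, hyE, hy⟩
      exact ⟨⟨y, hyE⟩, Subtype.ext hy⟩
  rw [hNS] at hid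
  have hr1 := finrank_fixP (K := K) (L := L) hs
  have hr2 := finrank_fixM (sE s) hsE
  rw [hr1] at hid hr2
  rw [← hr2, pow_add, two_mul, pow_add]
  have h2 : (0 : ℕ) < 2 := by norm_num
  have : 2 ^ finrank ℤ (Additive (EU K)) =
      (NS s).relIndex (EU K) * 2 ^ finrank ℤ (Additive (fixM (sE s))) := by
    apply Nat.eq_of_mul_eq_mul_right h2
    rw [hid]; ring
  nth_rewrite 1 [this]
  ring

/-- propagation of odd exponent -/
theorem oddExp_of_norms [Algebra.IsQuadraticExtension K L] {s : L ≃ₐ[K] L} (hs1 : s ≠ 1)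
    (hs : ∀ g : L ≃ₐ[K] L, g = 1 ∨ g = s) (hss : ∀ x, s (s x) = x)
    (hunr : Unr2 K L) (hK : OddExp K)
    (hN : ∀ x : Kˣ, x ∈ EU K → (∃ y : Lˣ, y * sU s y = Units.map (algebraMap K L : K →* L) x) →
      x ∈ NS s) : OddExp L := by
  obtain ⟨m, hm, hm'⟩ := hK
  refine odd_exponent (A := Lˣ) (D := DivG (S2 L)) (sA := sU s) (sD := sDiv s)
      (d := dv (S2 L)) (dv_sU s) (sDiv_sDiv s hss) (hilbert90 hs1 hss) hm
      (fun D hD => (inv_div hs hunr hm' D hD).imp fun z hz => hz.2) ?_
      (n := Nat.card (ClassGroup (𝓞 L))) Nat.card_pos.ne'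
      (fun D => exists_pow_principal (S2 L) D)
  intro x hx
  have hfix : sU s (x * sU s x) = x * sU s x := by
    ext
    simp [hss, mul_comm]
  obtain ⟨y, hy⟩ := fixed_unit_mem hs hfix
  have hyE : y ∈ EU K := by
    rw [← map_mem_EU_iff (L := L), hy]
    exact hx
  obtain ⟨η, hη, hη'⟩ := hN y hyE ⟨x, hy.symm⟩
  refine ⟨η, hη, ?_⟩
  rw [← hy, ← hη']
  rfl

end

end Pool.Agent.Lib.MP_aa8fd2_nt
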