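import Pool.Agent.Lib.MP_aa8fd2_nt.ExReal

set_option autoImplicit false
set_option linter.unusedSectionVars false

/-! The residual representation. -/

namespace Pool.Agent.Lib.MP_aa8fd2_nt

open IntermediateField NumberField Matrix

section mat

variable {k : Type*} [Field k] [CharP k 2] {w : k}

lemma w_cube (hw : w ^ 2 + w + 1 = 0) : w ^ 3 = 1 := by
  linear_combination (w - 1) * hw

lemma w_ne (hw : w ^ 2 + w + 1 = 0) : w ≠ 0 := by
  rintro rfl
  norm_num at hw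

variable (w) in
/-- the matrix of the generating translation, as a plain matrix -/
def tm : Matrix (Fin 3) (Fin 3) k := !![0, 1, 0; 0, 0, 1; w, 0, 0]

variable (w) in
/-- the matrix of the multiplication by 7, as a plain matrix -/
def dm : Matrix (Fin 3) (Fin 3) k := !![1, 0, 0; 0, w, 0; 0, 0, w ^ 2]

lemma tm_cube : tm w ^ 3 = Matrix.scalar (Fin 3) w := by
  ext i j
  fin_cases i <;> fin_cases j <;> simp [tm, pow_succ, Matrix.mul_apply, Fin.sum_univ_three]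

lemma dm_cube (hw : w ^ 2 + w + 1 = 0) : dm w ^ 3 = 1 := by
  have h3 := w_cube hw
  have h6 : (w ^ 2) ^ 3 = 1 := by
    calc (w ^ 2) ^ 3 = (w ^ 3) ^ 2 := by ring
      _ = 1 := by rw [h3, one_pow]
  ext i j
  fin_cases i <;> fin_cases j <;>
    simp [dm, pow_succ, Matrix.mul_apply, Fin.sum_univ_three]
  · linear_combination h3
  · linear_combination h6

lemma dm_tm (hw : w ^ 2 + w + 1 = 0) : dm w * tm w = tm w ^ 7 * dm w := by
  have h3 := w_cube hw
  have h7 : tm w ^ 7 = Matrix.scalar (Fin 3) (w ^ 2) * tm w := by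
    have : tm w ^ 7 = tm w ^ 3 * tm w ^ 3 * tm w := by
      rw [← pow_add, ← pow_succ]
    rw [this, tm_cube, ← map_mul, ← sq]
  rw [h7]
  ext i j
  fin_cases i <;> fin_cases j <;>
    simp [dm, tm, Matrix.mul_apply, Fin.sum_univ_three]
  · linear_combination -h3
  · linear_combination -w * h3

/-- the matrix `T` -/
noncomputable def TT (hw : w ^ 2 + w + 1 = 0) : GL (Fin 3) k :=
  Matrix.GeneralLinearGroup.mkOfDetNeZero (tm w) (by
    have : (tm w).det = w := by simp [tm, Matrix.det_fin_three]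
    rw [this]; exact w_ne hw)

/-- the matrix `D` -/
noncomputable def DD (hw : w ^ 2 + w + 1 = 0) : GL (Fin 3) k :=
  Matrix.GeneralLinearGroup.mkOfDetNeZero (dm w) (by
    have : (dm w).det = w ^ 3 := by simp [dm, Matrix.det_fin_three]; ring
    rw [this, w_cube hw]; exact one_ne_zero)

lemma TT_val (hw : w ^ 2 + w + 1 = 0) : (TT hw : Matrix (Fin 3) (Fin 3) k) = tm w := rfl

lemma DD_val (hw : w ^ 2 + w + 1 = 0) : (DD hw : Matrix (Fin 3) (Fin 3) k) = dm w := rfl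

lemma TT_nine (hw : w ^ 2 + w + 1 = 0) : TT hw ^ 9 = 1 := by
  apply Units.ext
  rw [Units.val_pow_eq_pow_val, TT_val, Units.val_one]
  have : tm w ^ 9 = (tm w ^ 3) ^ 3 := by rw [← pow_mul]
  rw [this, tm_cube, ← map_pow, w_cube hw, map_one]

lemma DD_three (hw : w ^ 2 + w + 1 = 0) : DD hw ^ 3 = 1 := by
  apply Units.ext
  rw [Units.val_pow_eq_pow_val, DD_val, Units.val_one, dm_cube hw]

lemma DD_TT (hw : w ^ 2 + w + 1 = 0) : DD hw * TT hw = TT hw ^ 7 * DD hw := by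
  apply Units.ext
  rw [Units.val_mul, Units.val_mul, Units.val_pow_eq_pow_val, DD_val, TT_val, dm_tm hw]

lemma DD_TT_pow (hw : w ^ 2 + w + 1 = 0) (n : ℕ) :
    DD hw * TT hw ^ n = TT hw ^ (7 * n) * DD hw := by
  induction n with
  | zero => simp
  | succ n ih =>
    rw [pow_succ, ← mul_assoc, ih, mul_assoc, DD_TT, ← mul_assoc, ← pow_add]
    congr 2

lemma DD_pow_TT_pow (hw : w ^ 2 + w + 1 = 0) (m n : ℕ) :
    DD hw ^ m * TT hw ^ n = TT hw ^ (7 ^ m * n) * DD hw ^ m := by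
  induction m generalizing n with
  | zero => simp
  | succ m ih =>
    rw [pow_succ, mul_assoc, DD_TT_pow, ← mul_assoc, ih, mul_assoc]
    congr 2
    ring

lemma TT_pow_eq (hw : w ^ 2 + w + 1 = 0) {m n : ℕ} (h : (m : ZMod 9) = n) :
    TT hw ^ m = TT hw ^ n := by
  rw [ZMod.natCast_eq_natCast_iff] at h
  exact pow_eq_pow_of_modEq h (TT_nine hw)

lemma DD_pow_eq (hw : w ^ 2 + w + 1 = 0) {m n : ℕ} (h : (m : ZMod 3) = n) :
    DD hw ^ m = DD hw ^ n := by
  rw [ZMod.natCast_eq_natCast_iff] at h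
  exact pow_eq_pow_of_modEq h (DD_three hw)

/-- the representation of the affine group -/
noncomputable def rr (hw : w ^ 2 + w + 1 = 0) (a : ZMod 9) (e : ZMod 3) : GL (Fin 3) k :=
  TT hw ^ a.val * DD hw ^ e.val

lemma rr_mul (hw : w ^ 2 + w + 1 = 0) (a a' : ZMod 9) (e e' : ZMod 3) :
    rr hw (a + mu e * a') (e + e') = rr hw a e * rr hw a' e' := by
  unfold rr
  have h1 : TT hw ^ a.val * DD hw ^ e.val * (TT hw ^ a'.val * DD hw ^ e'.val) =
      TT hw ^ (a.val + 7 ^ e.val * a'.val) * DD hw ^ (e.val + e'.val) := by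
    rw [pow_add, pow_add, mul_assoc, ← mul_assoc (DD hw ^ e.val), DD_pow_TT_pow]
    group
  rw [h1]
  congr 1
  · apply TT_pow_eq
    push_cast
    have h7 : ∀ e : ZMod 3, (7 : ZMod 9) ^ e.val = mu e := by decide
    rw [h7, ZMod.natCast_val, ZMod.natCast_val, ZMod.natCast_val, ZMod.cast_id', id, id, id]
  · apply DD_pow_eq
    push_cast
    rw [ZMod.natCast_val, ZMod.natCast_val, ZMod.natCast_val, ZMod.cast_id', id, id, id]

end mat

section

variable {F : Type*} [Field F] [NumberField F] {φ : F} {Ω : Type*} [Field Ω] [Algebra F Ω]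
  [IsAlgClosure F Ω] {ζ t : Ω}

variable {k : Type*} [Field k] [CharP k 2] {w : k}

/-- the residual representation, as a representation of the Galois group of `LL` -/
noncomputable def Dat.rep [Normal F Ω] (D : Dat (algebraMap F Ω φ) ζ t)
    (hw : w ^ 2 + w + 1 = 0) : (LL F ζ t ≃ₐ[F] LL F ζ t) →* GL (Fin 3) k :=
  MonoidHom.mk' (fun h => rr hw (D.ia h) (D.ie h)) (by
    intro h h'
    rw [(D.idx_mul h h').1, (D.idx_mul h h').2, rr_mul])

lemma Dat.rep_apply [Normal F Ω] (D : Dat (algebraMap F Ω φ) ζ t)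
    (hw : w ^ 2 + w + 1 = 0) (h : LL F ζ t ≃ₐ[F] LL F ζ t) :
    D.rep hw h = rr hw (D.ia h) (D.ie h) := rfl

lemma exists_dat (hφ : φ ^ 2 = φ + 1) :
    ∃ ζ t : Ω, Dat (algebraMap F Ω φ) ζ t := by
  have : CharZero Ω := charZero_of_injective_algebraMap (algebraMap F Ω).injective
  have : IsAlgClosed Ω := IsAlgClosure.isAlgClosed F
  have : NeZero ((9 : ℕ) : Ω) := ⟨by norm_num⟩
  obtain ⟨ζ, hζ⟩ := HasEnoughRootsOfUnity.exists_primitiveRoot Ω 9
  obtain ⟨t, ht⟩ := IsAlgClosed.exists_pow_nat_eq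
    (8 * ((2 * algebraMap F Ω φ - 1) + (2 * ζ ^ 3 + 1))) (n := 9) (by norm_num)
  exact ⟨ζ, t, ⟨by rw [← map_pow, hφ, map_add, map_one], hζ, ht⟩⟩

/-- The explicit example, except for the arithmetic of `AA`. -/
theorem exists_example_core (hφ : φ ^ 2 = φ + 1)
    (hF : Module.finrank ℚ F = 2) (w : k) (hw : w ^ 2 + w + 1 = 0)
    (D : Dat (algebraMap F Ω φ) ζ t) :
    ∃ (r : (LL F ζ t ≃ₐ[F] LL F ζ t) →* GL (Fin 3) k),
      AA F ζ t ≤ LL F ζ t ∧ FiniteDimensional F (LL F ζ t) ∧ FiniteDimensional F (AA F ζ t) ∧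
      IsGalois F (LL F ζ t) ∧ IsGalois F (AA F ζ t) ∧
      (∃ n, Module.finrank F (LL F ζ t) = 3 ^ n) ∧ TotReal (LL F ζ t) ∧ Unr6 (LL F ζ t) ∧
      (∃ g, (r g : Matrix (Fin 3) (Fin 3) k) = !![0, 1, 0; 0, 0, 1; w, 0, 0]) ∧
      (∃ g, (r g : Matrix (Fin 3) (Fin 3) k) = !![1, 0, 0; 0, w, 0; 0, 0, w ^ 2]) ∧
      (∀ z : LL F ζ t ≃ₐ[F] LL F ζ t, (∀ x : LL F ζ t, (x : Ω) ∈ AA F ζ t → z x = x) →
        ∃ a : k, (r z : Matrix (Fin 3) (Fin 3) k) = Matrix.scalar (Fin 3) a) := by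
  have : Normal F Ω := IsAlgClosure.normal F Ω
  refine ⟨D.rep hw, D.AA_le_LL, D.LL_fin, D.AA_fin, D.LL_galois, D.AA_galois, D.LL_finrank,
    D.totReal hφ hF, D.unr6, ?_, ?_, ?_⟩
  · obtain ⟨g, h1, h2⟩ := D.exists_gal hφ hF 1 0
    refine ⟨g, ?_⟩
    rw [D.rep_apply, h1, h2]
    have h3 : (1 : ZMod 9).val = 1 := by decide
    have h4 : (0 : ZMod 3).val = 0 := by decide
    rw [rr, h3, h4, pow_zero, pow_one, mul_one, TT_val]
    rfl
  · obtain ⟨g, h1, h2⟩ := D.exists_gal hφ hF 0 1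
    refine ⟨g, ?_⟩
    rw [D.rep_apply, h1, h2]
    have h3 : (0 : ZMod 9).val = 0 := by decide
    have h4 : (1 : ZMod 3).val = 1 := by decide
    rw [rr, h3, h4, pow_zero, pow_one, one_mul, DD_val]
    rfl
  · intro z hz
    obtain ⟨h1, h2⟩ := D.idx_of_fix_AA z hz
    rw [D.rep_apply, h2]
    have h3 : ∀ a : ZMod 9, 3 * a = 0 → ∃ j : ZMod 3, a.val = 3 * j.val := by decide
    obtain ⟨j, hj⟩ := h3 _ h1
    refine ⟨w ^ j.val, ?_⟩
    have h4 : (0 : ZMod 3).val = 0 := by decide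
    rw [rr, hj, h4, pow_zero, mul_one, pow_mul, Units.val_pow_eq_pow_val,
      Units.val_pow_eq_pow_val, TT_val, tm_cube, ← map_pow]

end

end Pool.Agent.Lib.MP_aa8fd2_nt
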