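import Mathlib

/-!
Number fields given with a complete list of real embeddings: norms, discriminant bound, principality
of primes, units with all signatures.
-/

set_option autoImplicit false

namespace Pool.Agent.Lib.MP_aa8fd2_nt

open NumberField Module

variable {K : Type*} [Field K] [NumberField K]

/-- `f` is a complete list of the embeddings of `K` into `ℂ`, and they are all real. -/
structure RealList {n : ℕ} (f : Fin n → (K →+* ℝ)) : Prop where
  inj : Function.Injective f
  card : finrank ℚ K = n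

namespace RealList

variable {n : ℕ} {f : Fin n → (K →+* ℝ)} (h : RealList f)

/-- the complex embedding attached to the real embedding `f i` -/
noncomputable def toC (f : Fin n → (K →+* ℝ)) (i : Fin n) : K →ₐ[ℚ] ℂ :=
  ((Complex.ofRealHom).comp (f i)).toRatAlgHom

@[simp] lemma toC_apply (i : Fin n) (x : K) : toC f i x = (f i x : ℂ) := rfl

include h

lemma toC_bijective : Function.Bijective (toC f) := by
  have hc : Fintype.card (K →ₐ[ℚ] ℂ) = Fintype.card (Fin n) := by
    rw [AlgHom.card, h.card, Fintype.card_fin]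
  rw [Fintype.bijective_iff_injective_and_card]
  refine ⟨?_, hc.symm⟩
  intro i j hij
  apply h.inj
  ext x
  have h1 : toC f i x = toC f j x := by rw [hij]
  rw [toC_apply, toC_apply] at h1
  exact_mod_cast h1

/-- the indices as complex embeddings -/
noncomputable def equiv : Fin n ≃ (K →ₐ[ℚ] ℂ) := Equiv.ofBijective _ h.toC_bijective

@[simp] lemma equiv_apply (i : Fin n) (x : K) : h.equiv i x = (f i x : ℂ) := rfl

lemma exists_eq (σ : K →+* ℂ) : ∃ i, ∀ x, σ x = (f i x : ℂ) := by
  obtain ⟨i, hi⟩ := h.toC_bijective.2 σ.toRatAlgHom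
  refine ⟨i, fun x => ?_⟩
  have : toC f i x = σ.toRatAlgHom x := by rw [hi]
  exact this.symm

lemma exists_eq_real (σ : K →+* ℝ) : ∃ i, σ = f i := by
  obtain ⟨i, hi⟩ := h.exists_eq ((Complex.ofRealHom).comp σ)
  refine ⟨i, ?_⟩
  ext x
  have := hi x
  simpa using this

lemma isTotallyReal : IsTotallyReal K := by
  refine ⟨fun v => ?_⟩
  rw [InfinitePlace.isReal_iff]
  rw [ComplexEmbedding.isReal_iff]
  obtain ⟨i, hi⟩ := h.exists_eq v.embedding
  ext x
  rw [ComplexEmbedding.conjugate_coe_eq, hi x]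
  simp

lemma norm_eq (x : K) : ((Algebra.norm ℚ x : ℚ) : ℝ) = ∏ i, f i x := by
  have h1 := Algebra.norm_eq_prod_embeddings ℚ ℂ x
  rw [← h.equiv.prod_comp] at h1
  simp only [equiv_apply] at h1
  have h2 : (((Algebra.norm ℚ x : ℚ) : ℝ) : ℂ) = ((∏ i, f i x : ℝ) : ℂ) := by
    push_cast
    simpa using h1
  exact_mod_cast h2

lemma pos : 0 < n := by
  rw [← h.card]
  exact finrank_pos

lemma nrComplexPlaces_eq_zero : InfinitePlace.nrComplexPlaces K = 0 := by
  have := h.isTotallyReal
  exact IsTotallyReal.nrComplexPlaces_eq_zero K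

lemma rank_eq : Units.rank K = n - 1 := by
  have := h.isTotallyReal
  rw [Units.rank, InfinitePlace.card_eq_nrRealPlaces_add_nrComplexPlaces,
    h.nrComplexPlaces_eq_zero, ← IsTotallyReal.finrank K, h.card, add_zero]

lemma torsion_eq (ζ : (𝓞 K)ˣ) (hζ : ζ ∈ Units.torsion K) : ζ = 1 ∨ ζ = -1 := by
  obtain ⟨m, hm, hζm⟩ := isOfFinOrder_iff_pow_eq_one.1 ((CommGroup.mem_torsion _).1 hζ)
  have h0 : Fin n := ⟨0, h.pos⟩
  have h1 : (f h0 ((ζ : 𝓞 K) : K)) ^ m = 1 := by
    rw [← map_pow, ← map_pow, ← Units.val_pow_eq_pow_val, hζm]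
    simp
  have h2 : |f h0 ((ζ : 𝓞 K) : K)| = 1 := by
    have := abs_pow (f h0 ((ζ : 𝓞 K) : K)) m
    rw [h1, abs_one] at this
    exact (pow_eq_one_iff_of_nonneg (abs_nonneg _) hm.ne').1 this.symm
  rcases (abs_eq zero_le_one).1 h2 with h3 | h3
  · left
    ext
    apply (f h0).injective
    simpa using h3
  · right
    ext
    apply (f h0).injective
    simpa using h3

/-- The discriminant bound from an explicit family of integers. -/
lemma abs_discr_le (b : Fin n → 𝓞 K) (D : ℝ)
    (hD : (Matrix.of fun i j => f i ((b j : 𝓞 K) : K)).det ^ 2 = D) (hD0 : D ≠ 0) :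
    ((|discr K| : ℤ) : ℝ) ≤ D := by
  classical
  have hcard : Fintype.card (Free.ChooseBasisIndex ℤ (𝓞 K)) = Fintype.card (Fin n) := by
    rw [← finrank_eq_card_chooseBasisIndex, RingOfIntegers.rank, h.card, Fintype.card_fin]
  let e : Free.ChooseBasisIndex ℤ (𝓞 K) ≃ Fin n := Fintype.equivOfCardEq hcard
  let B : Basis (Fin n) ℤ (𝓞 K) := (RingOfIntegers.basis K).reindex e
  let B' : Basis (Fin n) ℚ K := (integralBasis K).reindex e
  have hBB' : ∀ i, B' i = ((B i : 𝓞 K) : K) := by
    intro i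
    simp [B, B', integralBasis_apply]
  have h1 : ((discr K : ℤ) : ℝ) = (Matrix.of fun i j => f i ((B j : 𝓞 K) : K)).det ^ 2 := by
    have h2 : ((discr K : ℤ) : ℚ) = Algebra.discr ℚ B' := by
      rw [coe_discr, ← Algebra.discr_reindex ℚ (integralBasis K) e]
      congr 1
      ext i
      simp [B']
    have h3 := Algebra.discr_eq_det_embeddingsMatrixReindex_pow_two ℚ ℂ (B' : Fin n → K) h.equiv
    rw [← h2] at h3
    have h4 : Algebra.embeddingsMatrixReindex ℚ ℂ (B' : Fin n → K) h.equiv =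
        ((Matrix.of fun i j => f i ((B j : 𝓞 K) : K)).map (Complex.ofRealHom)).transpose := by
      ext i j
      simp [Algebra.embeddingsMatrixReindex, Algebra.embeddingsMatrix, hBB']
    rw [h4, Matrix.det_transpose, ← RingHom.mapMatrix_apply, ← RingHom.map_det] at h3
    have h5 : (((discr K : ℤ) : ℝ) : ℂ) =
        (((Matrix.of fun i j => f i ((B j : 𝓞 K) : K)).det ^ 2 : ℝ) : ℂ) := by
      push_cast
      simpa using h3
    exact_mod_cast h5
  let P : Matrix (Fin n) (Fin n) ℤ := fun i j => B.repr (b j) i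
  have h6 : (Matrix.of fun i j => f i ((b j : 𝓞 K) : K)) =
      (Matrix.of fun i j => f i ((B j : 𝓞 K) : K)) * P.map (Int.castRingHom ℝ) := by
    ext i j
    rw [Matrix.mul_apply, Matrix.of_apply]
    conv_lhs => rw [← B.sum_repr (b j)]
    simp only [map_sum, zsmul_eq_mul, map_mul, map_intCast]
    refine Finset.sum_congr rfl fun k _ => ?_
    rw [Matrix.of_apply, Matrix.map_apply, mul_comm]
    rfl
  rw [h6, Matrix.det_mul, mul_pow, ← h1, ← RingHom.mapMatrix_apply, ← RingHom.map_det] at hD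
  have hP0 : P.det ≠ 0 := by
    intro h0
    rw [h0] at hD
    simp at hD
    exact hD0 hD.symm
  have hP1 : (1 : ℝ) ≤ ((Int.castRingHom ℝ) P.det) ^ 2 := by
    have : (1 : ℤ) ≤ P.det ^ 2 := by
      have := sq_pos_of_ne_zero hP0
      omega
    have h7 : ((1 : ℤ) : ℝ) ≤ ((P.det ^ 2 : ℤ) : ℝ) := by exact_mod_cast this
    simpa using h7
  have hd : (0 : ℝ) ≤ ((discr K : ℤ) : ℝ) := by rw [h1]; positivity
  have hd' : ((|discr K| : ℤ) : ℝ) = ((discr K : ℤ) : ℝ) := by
    rw [Int.cast_abs, abs_of_nonneg hd]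
  rw [hd', ← hD]
  exact le_mul_of_one_le_right hd hP1

omit h [NumberField K] in
/-- The sign of a unit at the `i`-th embedding, as an element of `ZMod 2`. -/
noncomputable def sgn (f : Fin n → (K →+* ℝ)) (v : (𝓞 K)ˣ) (i : Fin n) : ZMod 2 :=
  if 0 < f i ((v : 𝓞 K) : K) then 0 else 1

omit h [NumberField K] in
lemma ne_zero_apply (v : (𝓞 K)ˣ) (i : Fin n) : f i ((v : 𝓞 K) : K) ≠ 0 := by
  rw [map_ne_zero]
  exact RingOfIntegers.coe_ne_zero_iff.2 v.ne_zero

omit h [NumberField K] in
lemma sgn_mul (v w : (𝓞 K)ˣ) : sgn f (v * w) = sgn f v + sgn f w := by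
  ext i
  simp only [sgn, Pi.add_apply, Units.val_mul, map_mul]
  rcases lt_or_gt_of_ne (ne_zero_apply (f := f) v i) with h1 | h1 <;>
  rcases lt_or_gt_of_ne (ne_zero_apply (f := f) w i) with h2 | h2
  · rw [if_pos (mul_pos_of_neg_of_neg h1 h2), if_neg h1.not_gt, if_neg h2.not_gt]
    decide
  · rw [if_neg (mul_neg_of_neg_of_pos h1 h2).not_gt, if_neg h1.not_gt, if_pos h2]
    decide
  · rw [if_neg (mul_neg_of_pos_of_neg h1 h2).not_gt, if_pos h1, if_neg h2.not_gt]
    decide
  · rw [if_pos (mul_pos h1 h2), if_pos h1, if_pos h2]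
    decide

omit h [NumberField K] in
/-- The sign homomorphism. -/
noncomputable def sgnHom (f : Fin n → (K →+* ℝ)) : Additive (𝓞 K)ˣ →+ (Fin n → ZMod 2) where
  toFun v := sgn f v.toMul
  map_zero' := by
    ext i
    simp [sgn]
  map_add' v w := sgn_mul _ _

omit h [NumberField K] in
lemma sgnHom_apply (v : (𝓞 K)ˣ) : sgnHom f (Additive.ofMul v) = sgn f v := rfl

/-- If `n` units have independent sign vectors, all totally positive units are squares. -/
lemma isSquare_of_pos (u : Fin n → (𝓞 K)ˣ) (c : Matrix (Fin n) (Fin n) (ZMod 2))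
    (hc : (Matrix.of fun i j => sgn f (u j) i) * c = 1)
    (v : (𝓞 K)ˣ) (hv : ∀ i, 0 < f i ((v : 𝓞 K) : K)) : ∃ w : (𝓞 K)ˣ, v = w ^ 2 := by
  classical
  let g : (ZMod 2 × (Fin (Units.rank K) → ZMod 2)) →ₗ[ZMod 2] (Fin n → ZMod 2) :=
    { toFun := fun p => p.1 • (fun _ => 1) + ∑ i, p.2 i • sgn f (Units.fundSystem K i)
      map_add' := by
        intro p q
        simp only [Prod.fst_add, Prod.snd_add, Pi.add_apply, add_smul, Finset.sum_add_distrib]
        abel
      map_smul' := by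
        intro a p
        simp only [Prod.smul_fst, Prod.smul_snd, Pi.smul_apply, smul_eq_mul, RingHom.id_apply,
          smul_add, Finset.smul_sum, mul_smul] }
  have hrep : ∀ v : (𝓞 K)ˣ, ∃ (a : ℤ) (e : Fin (Units.rank K) → ℤ),
      v = (-1) ^ a * ∏ i, Units.fundSystem K i ^ e i := by
    intro v
    obtain ⟨⟨ζ, e⟩, he, -⟩ := Units.exist_unique_eq_mul_prod K v
    rcases h.torsion_eq ζ ζ.2 with h1 | h1
    · exact ⟨0, e, by rw [he, h1]; simp⟩
    · exact ⟨1, e, by rw [he, h1]; simp⟩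
  have hsg : ∀ (a : ℤ) (e : Fin (Units.rank K) → ℤ),
      sgn f ((-1) ^ a * ∏ i, Units.fundSystem K i ^ e i) =
        g ((a : ZMod 2), fun i => (e i : ZMod 2)) := by
    intro a e
    have h1 : sgn f (-1 : (𝓞 K)ˣ) = fun _ => 1 := by
      ext i
      simp [sgn]
    rw [← sgnHom_apply]
    change sgnHom f (Additive.ofMul ((-1 : (𝓞 K)ˣ) ^ a) +
      Additive.ofMul (∏ i, Units.fundSystem K i ^ e i)) = _
    rw [map_add, ofMul_zpow, map_zsmul, sgnHom_apply, h1, ofMul_prod, map_sum]
    simp only [ofMul_zpow, map_zsmul, sgnHom_apply]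
    change _ = (a : ZMod 2) • (fun _ => 1) + ∑ i, (e i : ZMod 2) • sgn f (Units.fundSystem K i)
    congr 1
    · ext i
      simp
    · refine Finset.sum_congr rfl fun i _ => ?_
      ext j
      simp
  have hsurj : Function.Surjective g := by
    rw [← LinearMap.range_eq_top, eq_top_iff]
    intro y _
    have hy : y = ∑ j, (c.mulVec y) j • sgn f (u j) := by
      have h2 : (1 : Matrix (Fin n) (Fin n) (ZMod 2)).mulVec y = y := Matrix.one_mulVec y
      rw [← hc, ← Matrix.mulVec_mulVec] at h2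
      conv_lhs => rw [← h2]
      ext i
      simp [Matrix.mulVec, dotProduct, mul_comm]
    rw [hy]
    refine Submodule.sum_mem _ fun j _ => Submodule.smul_mem _ _ ?_
    obtain ⟨a, e, hae⟩ := hrep (u j)
    rw [hae, hsg]
    exact LinearMap.mem_range_self g _
  have hinj : Function.Injective g := by
    rw [LinearMap.injective_iff_surjective_of_finrank_eq_finrank]
    · exact hsurj
    · rw [Module.finrank_prod, Module.finrank_self, Module.finrank_fin_fun,
        Module.finrank_fin_fun, h.rank_eq]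
      have := h.pos
      omega
  obtain ⟨a, e, hae⟩ := hrep v
  have h0 : sgn f v = 0 := by
    ext i
    simp [sgn, hv i]
  rw [hae, hsg] at h0
  have h3 : ((a : ZMod 2), fun i => (e i : ZMod 2)) =
      (0 : ZMod 2 × (Fin (Units.rank K) → ZMod 2)) := hinj (by rw [h0, map_zero])
  have ha : (2 : ℤ) ∣ a := by
    have := congrArg Prod.fst h3
    exact (ZMod.intCast_zmod_eq_zero_iff_dvd a 2).1 this
  have he : ∀ i, (2 : ℤ) ∣ e i := by
    intro i
    have := congrFun (congrArg Prod.snd h3) i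
    exact (ZMod.intCast_zmod_eq_zero_iff_dvd (e i) 2).1 this
  obtain ⟨a', rfl⟩ := ha
  choose e' he' using he
  refine ⟨(-1) ^ a' * ∏ i, Units.fundSystem K i ^ e' i, ?_⟩
  rw [hae, mul_pow, ← Finset.prod_pow]
  congr 1
  · rw [zpow_mul, ← zpow_natCast, ← zpow_mul, ← zpow_mul, mul_comm]
    rfl
  · refine Finset.prod_congr rfl fun i _ => ?_
    rw [he' i, ← zpow_natCast, ← zpow_mul, mul_comm]
    rfl

end RealList

end Pool.Agent.Lib.MP_aa8fd2_nt
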