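import Mathlib
import Pool.Agent.Lib.MP_aa8fd2_nt.RealList

/-!
Sextic fields `ℚ(φ, x)`, `φ^2 = φ + 1`, `x^3 = A x + B0 + B1 φ`: norms of elements, all embeddings,
discriminant.
-/

set_option autoImplicit false

namespace Pool.Agent.Lib.MP_aa8fd2_nt

open NumberField Module

/-- multiplication in `ℤ[φ]` on pairs `(a, b) ↔ a + b φ` -/
def mulP (u v : ℤ × ℤ) : ℤ × ℤ := (u.1 * v.1 + u.2 * v.2, u.1 * v.2 + u.2 * v.1 + u.2 * v.2)

/-- the relative norm of `c0 + c1 x + c2 x^2` as a pair -/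
def relN (A : ℤ) (b c0 c1 c2 : ℤ × ℤ) : ℤ × ℤ :=
  mulP c0 (mulP c0 c0) + mulP b (mulP c1 (mulP c1 c1)) + mulP (mulP b b) (mulP c2 (mulP c2 c2))
    - A • mulP c0 (mulP c1 c1) + (2 * A) • mulP c0 (mulP c0 c2) + (A ^ 2) • mulP c0 (mulP c2 c2)
    - A • mulP b (mulP c1 (mulP c2 c2)) - (3 : ℤ) • mulP b (mulP c0 (mulP c1 c2))

/-- the norm of `c0 + c1 x + c2 x^2` -/
def absN (A : ℤ) (b c0 c1 c2 : ℤ × ℤ) : ℤ :=
  (relN A b c0 c1 c2).1 ^ 2 + (relN A b c0 c1 c2).1 * (relN A b c0 c1 c2).2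
    - (relN A b c0 c1 c2).2 ^ 2

/-- the value of a pair at `φ` -/
def evP {R : Type*} [CommRing R] (φ : R) (u : ℤ × ℤ) : R := (u.1 : R) + (u.2 : R) * φ

lemma evP_mul {R : Type*} [CommRing R] {φ : R} (hφ : φ ^ 2 = φ + 1) (u v : ℤ × ℤ) :
    evP φ (mulP u v) = evP φ u * evP φ v := by
  simp only [evP, mulP]
  push_cast
  linear_combination (-(u.2 : R) * (v.2 : R)) * hφ

lemma evP_add {R : Type*} [CommRing R] (φ : R) (u v : ℤ × ℤ) :
    evP φ (u + v) = evP φ u + evP φ v := by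
  simp only [evP, Prod.fst_add, Prod.snd_add]
  push_cast
  ring

lemma evP_sub {R : Type*} [CommRing R] (φ : R) (u v : ℤ × ℤ) :
    evP φ (u - v) = evP φ u - evP φ v := by
  simp only [evP, Prod.fst_sub, Prod.snd_sub]
  push_cast
  ring

lemma evP_smul {R : Type*} [CommRing R] (φ : R) (n : ℤ) (u : ℤ × ℤ) :
    evP φ (n • u) = n * evP φ u := by
  simp only [evP, Prod.smul_fst, Prod.smul_snd, smul_eq_mul]
  push_cast
  ring

/-- the value of `c0 + c1 x + c2 x^2` -/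
def evC {R : Type*} [CommRing R] (φ x : R) (c : (ℤ × ℤ) × (ℤ × ℤ) × (ℤ × ℤ)) : R :=
  evP φ c.1 + evP φ c.2.1 * x + evP φ c.2.2 * x ^ 2

lemma prod_three {R : Type*} [CommRing R] {φ r0 r1 r2 : R} {A : ℤ} {b : ℤ × ℤ}
    (hφ : φ ^ 2 = φ + 1) (h1 : r0 + r1 + r2 = 0) (h2 : r0 * r1 + r0 * r2 + r1 * r2 = -(A : R))
    (h3 : r0 * r1 * r2 = evP φ b) (c : (ℤ × ℤ) × (ℤ × ℤ) × (ℤ × ℤ)) :
    evC φ r0 c * evC φ r1 c * evC φ r2 c = evP φ (relN A b c.1 c.2.1 c.2.2) := by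
  have hA : (A : R) = -(r0 * r1 + r0 * r2 + r1 * r2) := by rw [h2]; ring
  simp only [relN, evP_add, evP_sub, evP_smul, evP_mul hφ, evC, ← h3]
  push_cast
  rw [hA]
  have h4 : r2 = -r0 - r1 := by linear_combination h1
  subst h4
  ring

/-- `(1 + √5)/2` -/
noncomputable def gP : ℝ := (1 + √5) / 2

/-- `(1 - √5)/2` -/
noncomputable def gQ : ℝ := (1 - √5) / 2

lemma gP_sq : gP ^ 2 = gP + 1 := by
  have h : √5 ^ 2 = 5 := Real.sq_sqrt (by norm_num)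
  simp only [gP]
  linear_combination (1 / 4) * h

lemma gQ_sq : gQ ^ 2 = gQ + 1 := by
  have h : √5 ^ 2 = 5 := Real.sq_sqrt (by norm_num)
  simp only [gQ]
  linear_combination (1 / 4) * h

lemma gP_add_gQ : gP + gQ = 1 := by
  simp only [gP, gQ]
  ring

lemma gP_mul_gQ : gP * gQ = -1 := by
  have h : √5 ^ 2 = 5 := Real.sq_sqrt (by norm_num)
  simp only [gP, gQ]
  linear_combination (-1 / 4) * h

lemma gP_bounds : 1.618 < gP ∧ gP < 1.6181 := by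
  have h1 : (2.236 : ℝ) < √5 := by
    rw [Real.lt_sqrt (by norm_num)]
    norm_num
  have h2 : √5 < (2.2361 : ℝ) := by
    rw [Real.sqrt_lt' (by norm_num)]
    norm_num
  simp only [gP]
  constructor <;> linarith

lemma gQ_bounds : -0.6181 < gQ ∧ gQ < -0.618 := by
  have h1 := gP_bounds
  have h2 := gP_add_gQ
  constructor <;> linarith

/-- the six values of `φ` -/
noncomputable def pv : Fin 6 → ℝ := ![gP, gP, gP, gQ, gQ, gQ]

/-- The real roots of `X^3 - A X - b(φ)` for the two real values of `φ`. -/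
structure RealRoots (A : ℤ) (b : ℤ × ℤ) (r : Fin 6 → ℝ) : Prop where
  lt01 : r 0 < r 1
  lt12 : r 1 < r 2
  lt34 : r 3 < r 4
  lt45 : r 4 < r 5
  e1 : r 0 + r 1 + r 2 = 0
  e2 : r 0 * r 1 + r 0 * r 2 + r 1 * r 2 = -(A : ℝ)
  e3 : r 0 * r 1 * r 2 = evP gP b
  e1' : r 3 + r 4 + r 5 = 0
  e2' : r 3 * r 4 + r 3 * r 5 + r 4 * r 5 = -(A : ℝ)
  e3' : r 3 * r 4 * r 5 = evP gQ b

lemma RealRoots.cube {A : ℤ} {b : ℤ × ℤ} {r : Fin 6 → ℝ} (h : RealRoots A b r) (i : Fin 6) :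
    (r i) ^ 3 = A * r i + evP (pv i) b := by
  obtain ⟨-, -, -, -, e1, e2, e3, e1', e2', e3'⟩ := h
  fin_cases i
  · show (r 0) ^ 3 = A * r 0 + evP gP b
    rw [← e3]
    linear_combination (r 0) ^ 2 * e1 - r 0 * e2
  · show (r 1) ^ 3 = A * r 1 + evP gP b
    rw [← e3]
    linear_combination (r 1) ^ 2 * e1 - r 1 * e2
  · show (r 2) ^ 3 = A * r 2 + evP gP b
    rw [← e3]
    linear_combination (r 2) ^ 2 * e1 - r 2 * e2
  · show (r 3) ^ 3 = A * r 3 + evP gQ b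
    rw [← e3']
    linear_combination (r 3) ^ 2 * e1' - r 3 * e2'
  · show (r 4) ^ 3 = A * r 4 + evP gQ b
    rw [← e3']
    linear_combination (r 4) ^ 2 * e1' - r 4 * e2'
  · show (r 5) ^ 3 = A * r 5 + evP gQ b
    rw [← e3']
    linear_combination (r 5) ^ 2 * e1' - r 5 * e2'

lemma cube_half_neg {t : ℝ} (h : t < 0) : t ^ 3 / 2 < 0 := by
  have : t ^ 3 < 0 := Odd.pow_neg (by decide) h
  linarith

lemma cube_half_pos {t : ℝ} (h : 0 < t) : 0 < t ^ 3 / 2 := by positivity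

lemma sg_pos {t : ℝ} (h : 0 < t) : (if 0 < t then (0 : ZMod 2) else 1) = 0 := if_pos h

lemma sg_neg {t : ℝ} (h : t < 0) : (if 0 < t then (0 : ZMod 2) else 1) = 1 := if_neg h.not_gt

/-- Three real roots of `X^3 - A X - B` from three sign changes. -/
lemma exists_three_roots (A B x0 x1 x2 x3 : ℝ) (h01 : x0 < x1) (h12 : x1 < x2) (h23 : x2 < x3)
    (s0 : x0 ^ 3 - A * x0 - B < 0) (s1 : 0 < x1 ^ 3 - A * x1 - B)
    (s2 : x2 ^ 3 - A * x2 - B < 0) (s3 : 0 < x3 ^ 3 - A * x3 - B) :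
    ∃ r0 r1 r2 : ℝ, x0 < r0 ∧ r0 < x1 ∧ x1 < r1 ∧ r1 < x2 ∧ x2 < r2 ∧ r2 < x3 ∧
      r0 + r1 + r2 = 0 ∧ r0 * r1 + r0 * r2 + r1 * r2 = -A ∧ r0 * r1 * r2 = B := by
  have hc : Continuous fun x : ℝ => x ^ 3 - A * x - B := by fun_prop
  obtain ⟨r0, ⟨h0a, h0b⟩, h0⟩ := intermediate_value_Ioo h01.le hc.continuousOn ⟨s0, s1⟩
  obtain ⟨r1, ⟨h1a, h1b⟩, h1⟩ := intermediate_value_Ioo' h12.le hc.continuousOn ⟨s2, s1⟩
  obtain ⟨r2, ⟨h2a, h2b⟩, h2⟩ := intermediate_value_Ioo h23.le hc.continuousOn ⟨s2, s3⟩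
  simp only at h0 h1 h2
  have d01 : r0 - r1 ≠ 0 := by intro h; linarith
  have d02 : r0 - r2 ≠ 0 := by intro h; linarith
  have d12 : r1 - r2 ≠ 0 := by intro h; linarith
  have a01 : r0 ^ 2 + r0 * r1 + r1 ^ 2 = A := by
    apply mul_left_cancel₀ d01
    linear_combination h0 - h1
  have a02 : r0 ^ 2 + r0 * r2 + r2 ^ 2 = A := by
    apply mul_left_cancel₀ d02
    linear_combination h0 - h2
  have hs : r0 + r1 + r2 = 0 := by
    have : (r1 - r2) * (r0 + r1 + r2) = 0 := by linear_combination a01 - a02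
    rcases mul_eq_zero.1 this with h | h
    · exact absurd h d12
    · exact h
  refine ⟨r0, r1, r2, h0a, h0b, h1a, h1b, h2a, h2b, hs, ?_, ?_⟩
  · linear_combination (r0 + r1) * hs - a01
  · linear_combination (r0 * r1) * hs + h0 - r0 * a01

/-- Three real roots of `X^3 - A X - B` from three sign changes, with gaps. -/
lemma exists_three_roots' (A B a0 b0 a1 b1 a2 b2 : ℝ) (h0 : a0 < b0) (h1 : a1 < b1) (h2 : a2 < b2)
    (h01 : b0 ≤ a1) (h12 : b1 ≤ a2)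
    (s0 : a0 ^ 3 - A * a0 - B < 0) (t0 : 0 < b0 ^ 3 - A * b0 - B)
    (s1 : 0 < a1 ^ 3 - A * a1 - B) (t1 : b1 ^ 3 - A * b1 - B < 0)
    (s2 : a2 ^ 3 - A * a2 - B < 0) (t2 : 0 < b2 ^ 3 - A * b2 - B) :
    ∃ r0 r1 r2 : ℝ, (a0 < r0 ∧ r0 < b0) ∧ (a1 < r1 ∧ r1 < b1) ∧ (a2 < r2 ∧ r2 < b2) ∧
      r0 + r1 + r2 = 0 ∧ r0 * r1 + r0 * r2 + r1 * r2 = -A ∧ r0 * r1 * r2 = B := by
  have hc : Continuous fun x : ℝ => x ^ 3 - A * x - B := by fun_prop
  obtain ⟨r0, ⟨h0a, h0b⟩, h0⟩ := intermediate_value_Ioo h0.le hc.continuousOn ⟨s0, t0⟩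
  obtain ⟨r1, ⟨h1a, h1b⟩, h1⟩ := intermediate_value_Ioo' h1.le hc.continuousOn ⟨t1, s1⟩
  obtain ⟨r2, ⟨h2a, h2b⟩, h2⟩ := intermediate_value_Ioo h2.le hc.continuousOn ⟨s2, t2⟩
  simp only at h0 h1 h2
  have d01 : r0 - r1 ≠ 0 := by intro h; linarith
  have d02 : r0 - r2 ≠ 0 := by intro h; linarith
  have d12 : r1 - r2 ≠ 0 := by intro h; linarith
  have a01 : r0 ^ 2 + r0 * r1 + r1 ^ 2 = A := by
    apply mul_left_cancel₀ d01
    linear_combination h0 - h1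
  have a02 : r0 ^ 2 + r0 * r2 + r2 ^ 2 = A := by
    apply mul_left_cancel₀ d02
    linear_combination h0 - h2
  have hs : r0 + r1 + r2 = 0 := by
    have : (r1 - r2) * (r0 + r1 + r2) = 0 := by linear_combination a01 - a02
    rcases mul_eq_zero.1 this with h | h
    · exact absurd h d12
    · exact h
  refine ⟨r0, r1, r2, ⟨h0a, h0b⟩, ⟨h1a, h1b⟩, ⟨h2a, h2b⟩, hs, ?_, ?_⟩
  · linear_combination (r0 + r1) * hs - a01
  · linear_combination (r0 * r1) * hs + h0 - r0 * a01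

/-- The full package of embeddings. -/
structure Sextic (K : Type*) [Field K] [NumberField K] (A : ℤ) (b : ℤ × ℤ) (φ x : K)
    (r : Fin 6 → ℝ) (f : Fin 6 → (K →+* ℝ)) : Prop where
  hφ : φ ^ 2 = φ + 1
  hx : x ^ 3 = A * x + evP φ b
  roots : RealRoots A b r
  list : RealList f
  fφ : ∀ i, f i φ = pv i
  fx : ∀ i, f i x = r i

section

variable {K : Type*} [Field K] [NumberField K]

lemma exists_idx {A : ℤ} {b : ℤ × ℤ} {φ x : K} {r : Fin 6 → ℝ} (hφ : φ ^ 2 = φ + 1)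
    (hx : x ^ 3 = A * x + evP φ b) (hr : RealRoots A b r) (σ : K →+* ℂ) :
    ∃ i, σ φ = (pv i : ℂ) ∧ σ x = (r i : ℂ) := by
  have h1 : (σ φ) ^ 2 = σ φ + 1 := by rw [← map_pow, hφ, map_add, map_one]
  have h2 : (σ x) ^ 3 = A * σ x + evP (σ φ) b := by
    rw [← map_pow, hx, map_add, map_mul, map_intCast]
    simp [evP]
  have hP : ((gP : ℝ) : ℂ) + ((gQ : ℝ) : ℂ) = 1 := by exact_mod_cast gP_add_gQ
  have hQ : ((gP : ℝ) : ℂ) * ((gQ : ℝ) : ℂ) = -1 := by exact_mod_cast gP_mul_gQ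
  have h3 : (σ φ - gP) * (σ φ - gQ) = 0 := by
    linear_combination h1 - σ φ * hP + hQ
  have key : ∀ (g : ℝ) (r0 r1 r2 : ℝ), σ φ = g → r0 + r1 + r2 = 0 →
      r0 * r1 + r0 * r2 + r1 * r2 = -(A : ℝ) → r0 * r1 * r2 = evP g b →
      σ x = r0 ∨ σ x = r1 ∨ σ x = r2 := by
    intro g r0 r1 r2 hg e1 e2 e3
    have e1' : (r0 : ℂ) + r1 + r2 = 0 := by exact_mod_cast e1
    have e2' : (r0 : ℂ) * r1 + r0 * r2 + r1 * r2 = -(A : ℂ) := by
      have : (((r0 * r1 + r0 * r2 + r1 * r2 : ℝ)) : ℂ) = ((-(A : ℝ) : ℝ) : ℂ) := by rw [e2]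
      push_cast at this
      exact this
    have e3' : (r0 : ℂ) * r1 * r2 = evP (g : ℂ) b := by
      have : ((r0 * r1 * r2 : ℝ) : ℂ) = ((evP g b : ℝ) : ℂ) := by rw [e3]
      simpa [evP] using this
    rw [hg] at h2
    have h4 : (σ x - r0) * ((σ x - r1) * (σ x - r2)) = 0 := by
      linear_combination h2 - (σ x) ^ 2 * e1' + σ x * e2' - e3'
    rcases mul_eq_zero.1 h4 with h | h
    · exact Or.inl (sub_eq_zero.1 h)
    · rcases mul_eq_zero.1 h with h | h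
      · exact Or.inr (Or.inl (sub_eq_zero.1 h))
      · exact Or.inr (Or.inr (sub_eq_zero.1 h))
  rcases mul_eq_zero.1 h3 with h | h
  · have hg := sub_eq_zero.1 h
    rcases key gP (r 0) (r 1) (r 2) hg hr.e1 hr.e2 hr.e3 with h | h | h
    · exact ⟨0, hg, h⟩
    · exact ⟨1, hg, h⟩
    · exact ⟨2, hg, h⟩
  · have hg := sub_eq_zero.1 h
    rcases key gQ (r 3) (r 4) (r 5) hg hr.e1' hr.e2' hr.e3' with h | h | h
    · exact ⟨3, hg, h⟩
    · exact ⟨4, hg, h⟩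
    · exact ⟨5, hg, h⟩

lemma exists_sextic {A : ℤ} {b : ℤ × ℤ} {φ x : K} {r : Fin 6 → ℝ} (hφ : φ ^ 2 = φ + 1)
    (hx : x ^ 3 = A * x + evP φ b) (hr : RealRoots A b r) (h6 : finrank ℚ K = 6)
    (hgen : ∀ σ τ : K →+* ℂ, σ φ = τ φ → σ x = τ x → σ = τ) :
    ∃ f : Fin 6 → (K →+* ℝ), Sextic K A b φ x r f := by
  classical
  choose idx hidx using exists_idx (K := K) hφ hx hr
  have hinj : Function.Injective idx := by
    intro σ τ h
    apply hgen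
    · rw [(hidx σ).1, (hidx τ).1, h]
    · rw [(hidx σ).2, (hidx τ).2, h]
  have hcard : Fintype.card (K →+* ℂ) = Fintype.card (Fin 6) := by
    rw [Embeddings.card, h6, Fintype.card_fin]
  have hbij : Function.Bijective idx :=
    (Fintype.bijective_iff_injective_and_card idx).2 ⟨hinj, hcard⟩
  have hreal : ∀ σ : K →+* ℂ, ComplexEmbedding.IsReal σ := by
    intro σ
    rw [ComplexEmbedding.isReal_iff]
    apply hgen
    · rw [ComplexEmbedding.conjugate_coe_eq, (hidx σ).1]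
      simp
    · rw [ComplexEmbedding.conjugate_coe_eq, (hidx σ).2]
      simp
  choose g hg using hbij.2
  refine ⟨fun i => (hreal (g i)).embedding, hφ, hx, hr, ⟨?_, h6⟩, ?_, ?_⟩
  · intro i j hij
    have h1 : g i = g j := by
      ext y
      rw [← ComplexEmbedding.IsReal.coe_embedding_apply (hreal (g i)) y,
        ← ComplexEmbedding.IsReal.coe_embedding_apply (hreal (g j)) y]
      have := congrArg (fun s : K →+* ℝ => (s y : ℂ)) hij
      simpa using this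
    rw [← hg i, ← hg j, h1]
  · intro i
    have h1 := ComplexEmbedding.IsReal.coe_embedding_apply (hreal (g i)) φ
    rw [(hidx (g i)).1, hg i] at h1
    exact_mod_cast h1
  · intro i
    have h1 := ComplexEmbedding.IsReal.coe_embedding_apply (hreal (g i)) x
    rw [(hidx (g i)).2, hg i] at h1
    exact_mod_cast h1

end

end Pool.Agent.Lib.MP_aa8fd2_nt
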