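import Mathlib
import Pool.Agent.Lib.MP_aa8fd2_nt.Sextic

/-!
Sextic fields: integrality, norms, discriminant bound, Minkowski bound, principality.
-/

set_option autoImplicit false

namespace Pool.Agent.Lib.MP_aa8fd2_nt

open NumberField Module

section

variable {K : Type*} [Field K]

lemma isIntegral_phi {φ : K} (hφ : φ ^ 2 = φ + 1) : IsIntegral ℤ φ := by
  refine ⟨Polynomial.X ^ 2 - Polynomial.X - 1, by monicity!, ?_⟩
  simp only [Polynomial.eval₂_sub, Polynomial.eval₂_pow, Polynomial.eval₂_X, Polynomial.eval₂_one]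
  linear_combination hφ

lemma isIntegral_evP {φ : K} (hφ : φ ^ 2 = φ + 1) (u : ℤ × ℤ) : IsIntegral ℤ (evP φ u) := by
  unfold evP
  exact (isIntegral_algebraMap (R := ℤ) (x := u.1)).add
    ((isIntegral_algebraMap (R := ℤ) (x := u.2)).mul (isIntegral_phi hφ))

lemma isIntegral_x {φ x : K} (hφ : φ ^ 2 = φ + 1) {A : ℤ} {b : ℤ × ℤ}
    (hx : x ^ 3 = A * x + evP φ b) : IsIntegral ℤ x := by
  let R := integralClosure ℤ K
  let B : R := ⟨evP φ b, isIntegral_evP hφ b⟩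
  have h1 : IsIntegral R x := by
    refine ⟨Polynomial.X ^ 3 - Polynomial.C (A : R) * Polynomial.X - Polynomial.C B,
      by monicity!, ?_⟩
    simp only [Polynomial.eval₂_sub, Polynomial.eval₂_pow, Polynomial.eval₂_X,
      Polynomial.eval₂_mul, Polynomial.eval₂_C]
    have : algebraMap R K B = evP φ b := rfl
    rw [this, hx, map_intCast]
    ring
  exact isIntegral_trans (R := ℤ) x h1

lemma isIntegral_evC {φ x : K} (hφ : φ ^ 2 = φ + 1) {A : ℤ} {b : ℤ × ℤ}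
    (hx : x ^ 3 = A * x + evP φ b) (c : (ℤ × ℤ) × (ℤ × ℤ) × (ℤ × ℤ)) :
    IsIntegral ℤ (evC φ x c) := by
  unfold evC
  exact ((isIntegral_evP hφ _).add ((isIntegral_evP hφ _).mul (isIntegral_x hφ hx))).add
    ((isIntegral_evP hφ _).mul ((isIntegral_x hφ hx).pow 2))

end

namespace Sextic

variable {K : Type*} [Field K] [NumberField K] {A : ℤ} {b : ℤ × ℤ} {φ x : K} {r : Fin 6 → ℝ}
  {f : Fin 6 → (K →+* ℝ)} (h : Sextic K A b φ x r f)

include h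

/-- the integer `c0 + c1 x + c2 x^2` -/
noncomputable def elt (c : (ℤ × ℤ) × (ℤ × ℤ) × (ℤ × ℤ)) : 𝓞 K :=
  ⟨evC φ x c, isIntegral_evC h.hφ h.hx c⟩

lemma elt_coe (c : (ℤ × ℤ) × (ℤ × ℤ) × (ℤ × ℤ)) : ((h.elt c : 𝓞 K) : K) = evC φ x c := rfl

lemma f_evC (c : (ℤ × ℤ) × (ℤ × ℤ) × (ℤ × ℤ)) (i : Fin 6) :
    f i (evC φ x c) = evC (pv i) (r i) c := by
  simp only [evC, evP, map_add, map_mul, map_intCast, map_pow, h.fφ, h.fx]

lemma prod_evC (c : (ℤ × ℤ) × (ℤ × ℤ) × (ℤ × ℤ)) :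
    ∏ i, f i (evC φ x c) = absN A b c.1 c.2.1 c.2.2 := by
  rw [Fin.prod_univ_six]
  simp only [h.f_evC]
  have h1 := prod_three gP_sq h.roots.e1 h.roots.e2 h.roots.e3 c
  have h2 := prod_three gQ_sq h.roots.e1' h.roots.e2' h.roots.e3' c
  have e0 : pv 0 = gP := rfl
  have e1 : pv 1 = gP := rfl
  have e2 : pv 2 = gP := rfl
  have e3 : pv 3 = gQ := rfl
  have e4 : pv 4 = gQ := rfl
  have e5 : pv 5 = gQ := rfl
  rw [e0, e1, e2, e3, e4, e5, h1]
  rw [mul_assoc, mul_assoc, ← mul_assoc (evC gQ (r 3) c), h2]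
  simp only [evP, absN]
  push_cast
  have a1 := gP_add_gQ
  have a2 := gP_mul_gQ
  generalize ((relN A b c.1 c.2.1 c.2.2).1 : ℝ) = u
  generalize ((relN A b c.1 c.2.1 c.2.2).2 : ℝ) = v
  linear_combination (u * v) * a1 + v ^ 2 * a2

lemma norm_elt (c : (ℤ × ℤ) × (ℤ × ℤ) × (ℤ × ℤ)) :
    Algebra.norm ℤ (h.elt c) = absN A b c.1 c.2.1 c.2.2 := by
  have h1 := h.list.norm_eq (evC φ x c)
  rw [h.prod_evC] at h1
  have h2 : ((Algebra.norm ℤ (h.elt c) : ℤ) : ℚ) = Algebra.norm ℚ (evC φ x c) := by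
    rw [← h.elt_coe c]
    exact Algebra.coe_norm_int (h.elt c)
  have h3 : (((Algebra.norm ℤ (h.elt c) : ℤ) : ℚ) : ℝ) = ((absN A b c.1 c.2.1 c.2.2 : ℤ) : ℝ) := by
    rw [h2, h1]
  exact_mod_cast h3

/-- a prime containing an element of norm at most its own norm is principal -/
lemma eq_span_of_mem {P : Ideal (𝓞 K)} (c : (ℤ × ℤ) × (ℤ × ℤ) × (ℤ × ℤ))
    (hc : h.elt c ∈ P) (h0 : absN A b c.1 c.2.1 c.2.2 ≠ 0)
    (hle : (absN A b c.1 c.2.1 c.2.2).natAbs ≤ Ideal.absNorm P) : P = Ideal.span {h.elt c} := by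
  have h1 : Ideal.span {h.elt c} ≤ P := by
    rw [Ideal.span_singleton_le_iff_mem]
    exact hc
  have h2 : Ideal.absNorm (Ideal.span {h.elt c}) = (absN A b c.1 c.2.1 c.2.2).natAbs := by
    rw [Ideal.absNorm_span_singleton, h.norm_elt]
  obtain ⟨J, hJ⟩ := Ideal.dvd_iff_le.2 h1
  have h3 : Ideal.absNorm (Ideal.span {h.elt c}) = Ideal.absNorm P * Ideal.absNorm J := by
    rw [hJ, map_mul]
  have h4 : 0 < Ideal.absNorm (Ideal.span {h.elt c}) := by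
    rw [h2]
    exact Int.natAbs_pos.2 h0
  have h5 : Ideal.absNorm J = 1 := by
    rw [h3] at h4
    have hJ0 : 0 < Ideal.absNorm J := by
      rcases Nat.eq_zero_or_pos (Ideal.absNorm J) with h | h
      · rw [h, mul_zero] at h4
        exact absurd h4 (lt_irrefl _)
      · exact h
    have hP0 : 0 < Ideal.absNorm P := by
      rcases Nat.eq_zero_or_pos (Ideal.absNorm P) with h | h
      · rw [h, zero_mul] at h4
        exact absurd h4 (lt_irrefl _)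
      · exact h
    have h6 : Ideal.absNorm P * Ideal.absNorm J ≤ Ideal.absNorm P * 1 := by
      rw [← h3, h2, mul_one]
      exact hle
    have := Nat.le_of_mul_le_mul_left h6 hP0
    omega
  rw [Ideal.absNorm_eq_one_iff] at h5
  rw [h5, Ideal.mul_top] at hJ
  exact hJ.symm

lemma isPrincipal_of_mem {P : Ideal (𝓞 K)} (c : (ℤ × ℤ) × (ℤ × ℤ) × (ℤ × ℤ))
    (hc : h.elt c ∈ P) (h0 : absN A b c.1 c.2.1 c.2.2 ≠ 0)
    (hle : (absN A b c.1 c.2.1 c.2.2).natAbs ≤ Ideal.absNorm P) : Submodule.IsPrincipal P := by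
  rw [h.eq_span_of_mem c hc h0 hle]
  exact ⟨⟨_, rfl⟩⟩

end Sextic

/-- the Vandermonde matrix of three numbers -/
def vdm3 (r0 r1 r2 : ℝ) : Matrix (Fin 3) (Fin 3) ℝ :=
  !![1, r0, r0 ^ 2; 1, r1, r1 ^ 2; 1, r2, r2 ^ 2]

lemma det_vdm3 (r0 r1 r2 : ℝ) : (vdm3 r0 r1 r2).det = (r1 - r0) * (r2 - r0) * (r2 - r1) := by
  simp only [vdm3, Matrix.det_fin_three, Matrix.of_apply, Matrix.cons_val', Matrix.cons_val_zero,
    Matrix.cons_val_one, Matrix.cons_val_fin_one, Matrix.cons_val]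
  ring

lemma det_vdm3_sq (r0 r1 r2 A B : ℝ) (e1 : r0 + r1 + r2 = 0)
    (e2 : r0 * r1 + r0 * r2 + r1 * r2 = -A) (e3 : r0 * r1 * r2 = B) :
    (vdm3 r0 r1 r2).det ^ 2 = 4 * A ^ 3 - 27 * B ^ 2 := by
  rw [det_vdm3]
  have h2 : r2 = -r0 - r1 := by linear_combination e1
  subst h2
  have hA : A = r0 ^ 2 + r0 * r1 + r1 ^ 2 := by linear_combination e2
  subst hA
  rw [← e3]
  ring

/-- the index conversion -/
def e33 : Fin 3 ⊕ Fin 3 ≃ Fin 6 := finSumFinEquiv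

lemma det_six (V W : Matrix (Fin 3) (Fin 3) ℝ) (p q : ℝ) :
    (Matrix.fromBlocks V (p • V) W (q • W)).det = (q - p) ^ 3 * V.det * W.det := by
  have h1 : Matrix.fromBlocks V (p • V) W (q • W) =
      Matrix.fromBlocks V 0 0 W *
        Matrix.fromBlocks 1 (p • (1 : Matrix (Fin 3) (Fin 3) ℝ)) 1
          (q • (1 : Matrix (Fin 3) (Fin 3) ℝ)) := by
    rw [Matrix.fromBlocks_multiply]
    simp
  rw [h1, Matrix.det_mul, Matrix.det_fromBlocks_zero₂₁, Matrix.det_fromBlocks_one₁₁, one_mul,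
    ← sub_smul, Matrix.det_smul, Matrix.det_one, Fintype.card_fin]
  ring

namespace Sextic

variable {K : Type*} [Field K] [NumberField K] {A : ℤ} {b : ℤ × ℤ} {φ x : K} {r : Fin 6 → ℝ}
  {f : Fin 6 → (K →+* ℝ)} (h : Sextic K A b φ x r f)

include h

lemma abs_discr_le (D : ℤ) (hD : D = 125 * ((4 * A ^ 3 - 27 * (mulP b b).1) ^ 2 -
    27 * (4 * A ^ 3 - 27 * (mulP b b).1) * (mulP b b).2 - 27 ^ 2 * (mulP b b).2 ^ 2))
    (hD0 : D ≠ 0) : |discr K| ≤ D := by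
  classical
  let c : Fin 6 → (ℤ × ℤ) × (ℤ × ℤ) × (ℤ × ℤ) :=
    ![((1, 0), (0, 0), (0, 0)), ((0, 0), (1, 0), (0, 0)), ((0, 0), (0, 0), (1, 0)),
      ((0, 1), (0, 0), (0, 0)), ((0, 0), (0, 1), (0, 0)), ((0, 0), (0, 0), (0, 1))]
  have h1 : (Matrix.of fun i j => f i ((h.elt (c j) : 𝓞 K) : K)).det =
      (Matrix.fromBlocks (vdm3 (r 0) (r 1) (r 2)) (gP • vdm3 (r 0) (r 1) (r 2))
        (vdm3 (r 3) (r 4) (r 5)) (gQ • vdm3 (r 3) (r 4) (r 5))).det := by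
    rw [← Matrix.det_submatrix_equiv_self e33]
    congr 1
    ext i j
    rw [Matrix.submatrix_apply, Matrix.of_apply, h.elt_coe, h.f_evC]
    rcases i with i | i <;> rcases j with j | j <;> fin_cases i <;> fin_cases j <;>
      simp [e33, c, evC, evP, pv, vdm3, Matrix.fromBlocks, finSumFinEquiv, Fin.natAdd,
        Fin.castAdd, Fin.castLE]
  have hq : (gQ - gP) ^ 2 = 5 := by
    have a1 := gP_add_gQ
    have a2 := gP_mul_gQ
    linear_combination (gP + gQ + 1) * a1 - 4 * a2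
  have hb : ∀ g : ℝ, g ^ 2 = g + 1 → (evP g b) ^ 2 = evP g (mulP b b) := by
    intro g hg
    rw [evP_mul hg, sq]
  have h2 : (Matrix.of fun i j => f i ((h.elt (c j) : 𝓞 K) : K)).det ^ 2 = (D : ℝ) := by
    rw [h1, det_six, mul_pow, mul_pow,
      det_vdm3_sq _ _ _ _ _ h.roots.e1 h.roots.e2 h.roots.e3,
      det_vdm3_sq _ _ _ _ _ h.roots.e1' h.roots.e2' h.roots.e3', hb gP gP_sq, hb gQ gQ_sq, hD]
    have h3 : ((gQ - gP) ^ 3) ^ 2 = 125 := by
      calc ((gQ - gP) ^ 3) ^ 2 = ((gQ - gP) ^ 2) ^ 3 := by ring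
        _ = 125 := by rw [hq]; norm_num
    rw [h3]
    simp only [evP]
    push_cast
    have a1 := gP_add_gQ
    have a2 := gP_mul_gQ
    generalize ((mulP b b).1 : ℝ) = u
    generalize ((mulP b b).2 : ℝ) = v
    linear_combination (-125 * 27 * v * (4 * (A : ℝ) ^ 3 - 27 * u)) * a1 + 125 * 27 ^ 2 * v ^ 2 * a2
  have h4 := h.list.abs_discr_le (fun j => h.elt (c j)) (D : ℝ) h2 (by exact_mod_cast hD0)
  exact_mod_cast h4

omit h in
lemma absNorm_le_of_minkowski (h : Sextic K A b φ x r f) (D : ℤ) (N : ℕ) (hD : |discr K| ≤ D)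
    (hN : D * 720 ^ 2 < (46656 * (N + 1)) ^ 2) (n : ℕ)
    (hn : (n : ℝ) ≤ (4 / Real.pi) ^ InfinitePlace.nrComplexPlaces K *
      ((Nat.factorial (finrank ℚ K)) / (finrank ℚ K : ℝ) ^ (finrank ℚ K) * √|discr K|)) :
    n ≤ N := by
  rw [h.list.nrComplexPlaces_eq_zero, h.list.card, pow_zero, one_mul] at hn
  have hd : (0 : ℝ) ≤ ((|discr K| : ℤ) : ℝ) := by exact_mod_cast abs_nonneg _
  have h1 : √((|discr K| : ℤ) : ℝ) * 720 < 46656 * ((N : ℝ) + 1) := by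
    have h2 : (√((|discr K| : ℤ) : ℝ) * 720) ^ 2 < (46656 * ((N : ℝ) + 1)) ^ 2 := by
      rw [mul_pow, Real.sq_sqrt hd]
      have h3 : ((|discr K| : ℤ) : ℝ) ≤ (D : ℝ) := by exact_mod_cast hD
      have h4 : (D : ℝ) * 720 ^ 2 < (46656 * ((N : ℝ) + 1)) ^ 2 := by exact_mod_cast hN
      nlinarith
    exact lt_of_pow_lt_pow_left₀ 2 (by positivity) h2
  have h5 : (n : ℝ) < (N : ℝ) + 1 := by
    refine lt_of_le_of_lt hn ?_
    have h6 : ((Nat.factorial 6 : ℕ) : ℝ) = 720 := by norm_num [Nat.factorial]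
    rw [h6]
    have h7 : ((|discr K| : ℤ) : ℝ) = |((discr K : ℤ) : ℝ)| := by push_cast; rfl
    rw [h7] at h1
    have h8 : (720 : ℝ) / ((6 : ℕ) : ℝ) ^ 6 = 720 / 46656 := by norm_num
    rw [h8, div_mul_eq_mul_div, div_lt_iff₀ (by norm_num)]
    linarith
  have h9 : n < N + 1 := by exact_mod_cast h5
  omega

end Sextic

universe u

/-- from a statement about the residue field at `P` to a statement about `P` -/
theorem Sextic.residue {K : Type u} [Field K] [NumberField K] {A : ℤ} {b : ℤ × ℤ}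
    {φ x : K} {r : Fin 6 → ℝ} {f : Fin 6 → (K →+* ℝ)} (h : Sextic K A b φ x r f)
    (P : Ideal (𝓞 K)) (hP : P.IsPrime) (hP0 : P ≠ ⊥)
    (Q : ℕ → ((ℤ × ℤ) × (ℤ × ℤ) × (ℤ × ℤ)) → Prop)
    (hff : ∀ (k : Type u) [Field k] [Fintype k] (φ x : k), φ ^ 2 = φ + 1 →
      x ^ 3 = A * x + evP φ b → Fintype.card k = Ideal.absNorm P →
      ((2 : 𝓞 K) ∈ P → (2 : k) = 0) →
      ∃ c, evC φ x c = 0 ∧ Q (Fintype.card k) c) :
    ∃ c, h.elt c ∈ P ∧ Q (Ideal.absNorm P) c := by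
  classical
  have hmax : P.IsMaximal := hP.isMaximal hP0
  let _ : Field (𝓞 K ⧸ P) := Ideal.Quotient.field _
  have hfin : Finite (𝓞 K ⧸ P) := Ideal.finiteQuotientOfFreeOfNeBot _ hP0
  let _ : Fintype (𝓞 K ⧸ P) := Fintype.ofFinite _
  have hcard : Fintype.card (𝓞 K ⧸ P) = Ideal.absNorm P := by
    rw [Ideal.absNorm_apply, Submodule.cardQuot_apply, Nat.card_eq_fintype_card]
  let π := Ideal.Quotient.mk P
  let φ' : 𝓞 K := ⟨φ, isIntegral_phi h.hφ⟩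
  let x' : 𝓞 K := ⟨x, isIntegral_x h.hφ h.hx⟩
  have hφc : algebraMap (𝓞 K) K φ' = φ := rfl
  have hxc : algebraMap (𝓞 K) K x' = x := rfl
  have hφ' : φ' ^ 2 = φ' + 1 := by
    apply RingOfIntegers.ext
    change algebraMap (𝓞 K) K (φ' ^ 2) = algebraMap (𝓞 K) K (φ' + 1)
    rw [map_pow, map_add, map_one, hφc]
    exact h.hφ
  have hx' : x' ^ 3 = A * x' + evP φ' b := by
    apply RingOfIntegers.ext
    change algebraMap (𝓞 K) K (x' ^ 3) = algebraMap (𝓞 K) K (A * x' + evP φ' b)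
    simp only [evP, map_pow, map_add, map_mul, map_intCast, hφc, hxc]
    exact h.hx
  have helt : ∀ c, h.elt c = evC φ' x' c := by
    intro c
    apply RingOfIntegers.ext
    rw [h.elt_coe]
    change _ = algebraMap (𝓞 K) K (evC φ' x' c)
    simp only [evC, evP, map_pow, map_add, map_mul, map_intCast, hφc, hxc]
  have hev : ∀ c, π (evC φ' x' c) = evC (π φ') (π x') c := by
    intro c
    simp [evC, evP]
  obtain ⟨c, hc, hQ⟩ := hff (𝓞 K ⧸ P) (π φ') (π x')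
    (by rw [← map_pow, hφ', map_add, map_one])
    (by rw [← map_pow, hx', map_add, map_mul, map_intCast]; simp [evP])
    hcard
    (by
      intro h2
      have := Ideal.Quotient.eq_zero_iff_mem.2 h2
      rwa [map_ofNat] at this)
  refine ⟨c, ?_, by rw [← hcard]; exact hQ⟩
  rw [helt, ← Ideal.Quotient.eq_zero_iff_mem]
  change π _ = 0
  rw [hev, hc]

theorem Sextic.isPrincipalIdealRing {K : Type u} [Field K] [NumberField K] {A : ℤ} {b : ℤ × ℤ}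
    {φ x : K} {r : Fin 6 → ℝ} {f : Fin 6 → (K →+* ℝ)} (h : Sextic K A b φ x r f)
    (D : ℤ) (hD : D = 125 * ((4 * A ^ 3 - 27 * (mulP b b).1) ^ 2 -
    27 * (4 * A ^ 3 - 27 * (mulP b b).1) * (mulP b b).2 - 27 ^ 2 * (mulP b b).2 ^ 2))
    (hD0 : D ≠ 0) (N : ℕ) (hN : D * 720 ^ 2 < (46656 * (N + 1)) ^ 2)
    (hff : ∀ (k : Type u) [Field k] [Fintype k] (φ x : k), φ ^ 2 = φ + 1 →
      x ^ 3 = A * x + evP φ b → Fintype.card k ≤ N →
      ∃ c, evC φ x c = 0 ∧ absN A b c.1 c.2.1 c.2.2 ≠ 0 ∧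
        (absN A b c.1 c.2.1 c.2.2).natAbs ≤ Fintype.card k) :
    IsPrincipalIdealRing (𝓞 K) := by
  apply RingOfIntegers.isPrincipalIdealRing_of_isPrincipal_of_norm_le_of_isPrime
  intro I hI hIN
  have h1 : Ideal.absNorm (I : Ideal (𝓞 K)) ≤ N :=
    Sextic.absNorm_le_of_minkowski h D N (h.abs_discr_le D hD hD0) hN _ hIN
  have hI0 : (I : Ideal (𝓞 K)) ≠ ⊥ := nonZeroDivisors.coe_ne_zero I
  obtain ⟨c, hc, hc0, hcle⟩ := h.residue (I : Ideal (𝓞 K)) hI hI0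
    (fun q c => absN A b c.1 c.2.1 c.2.2 ≠ 0 ∧ (absN A b c.1 c.2.1 c.2.2).natAbs ≤ q)
    (fun k _ _ φ x hφ hx hk _ => hff k φ x hφ hx (by rw [hk]; exact h1))
  exact h.isPrincipal_of_mem c hc hc0 hcle

/-- the unique prime above 2 -/
theorem Sextic.prime_two {K : Type u} [Field K] [NumberField K] {A : ℤ} {b : ℤ × ℤ}
    {φ x : K} {r : Fin 6 → ℝ} {f : Fin 6 → (K →+* ℝ)} (h : Sextic K A b φ x r f)
    (c2 : (ℤ × ℤ) × (ℤ × ℤ) × (ℤ × ℤ)) (hc0 : absN A b c2.1 c2.2.1 c2.2.2 ≠ 0)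
    (hff : ∀ (k : Type u) [Field k] [Fintype k] (φ x : k), φ ^ 2 = φ + 1 →
      x ^ 3 = A * x + evP φ b → (2 : k) = 0 →
      evC φ x c2 = 0 ∧ (absN A b c2.1 c2.2.1 c2.2.2).natAbs ≤ Fintype.card k)
    (P : Ideal (𝓞 K)) (hP : P.IsPrime) (h2 : (2 : 𝓞 K) ∈ P) : P = Ideal.span {h.elt c2} := by
  have hP0 : P ≠ ⊥ := by
    rintro rfl
    rw [Ideal.mem_bot] at h2
    exact two_ne_zero h2
  obtain ⟨c, hc, rfl, hcle⟩ := h.residue P hP hP0
    (fun q c => c = c2 ∧ (absN A b c2.1 c2.2.1 c2.2.2).natAbs ≤ q)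
    (fun k _ _ φ x hφ hx _ h2k => ⟨c2, (hff k φ x hφ hx (h2k h2)).1, rfl,
      (hff k φ x hφ hx (h2k h2)).2⟩)
  exact h.eq_span_of_mem c hc hc0 hcle

/-- elements of norm `±1` are units -/
theorem Sextic.exists_unit {K : Type u} [Field K] [NumberField K] {A : ℤ} {b : ℤ × ℤ}
    {φ x : K} {r : Fin 6 → ℝ} {f : Fin 6 → (K →+* ℝ)} (h : Sextic K A b φ x r f)
    (c : (ℤ × ℤ) × (ℤ × ℤ) × (ℤ × ℤ)) (hc : (absN A b c.1 c.2.1 c.2.2).natAbs = 1) :
    ∃ u : (𝓞 K)ˣ, (u : 𝓞 K) = h.elt c := by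
  have h1 : IsUnit (Algebra.norm ℤ (h.elt c)) := by
    rw [h.norm_elt, Int.isUnit_iff_natAbs_eq]
    exact hc
  have h2 : IsUnit (h.elt c) := by
    rw [NumberField.isUnit_iff_norm]
    rw [Int.isUnit_iff_abs_eq] at h1
    have h3 := Algebra.coe_norm_int (h.elt c)
    rw [RingOfIntegers.coe_norm, ← h3]
    exact_mod_cast h1
  exact ⟨h2.unit, rfl⟩

end Pool.Agent.Lib.MP_aa8fd2_nt
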