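import Mathlib
import Pool.Agent.Lib.MP_aa8fd2_nt.SexticNorm

/-!
Solutions of `φ^2 = φ + 1`, `x^3 = A x + b(φ)` in small finite fields.
-/

set_option autoImplicit false

namespace Pool.Agent.Lib.MP_aa8fd2_nt

open Module

/-- coefficient vectors -/
abbrev Cf := (ℤ × ℤ) × (ℤ × ℤ) × (ℤ × ℤ)

lemma evP_map {R S : Type*} [CommRing R] [CommRing S] (g : R →+* S) (φ : R) (u : ℤ × ℤ) :
    g (evP φ u) = evP (g φ) u := by
  simp [evP]

lemma evC_map {R S : Type*} [CommRing R] [CommRing S] (g : R →+* S) (φ x : R) (c : Cf) :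
    g (evC φ x c) = evC (g φ) (g x) c := by
  simp [evC, evP]

/-- the conclusion wanted for a finite field -/
def Good (A : ℤ) (b : ℤ × ℤ) (q : ℕ) {k : Type*} [CommRing k] (φ x : k) : Prop :=
  ∃ c : Cf, evC φ x c = 0 ∧ absN A b c.1 c.2.1 c.2.2 ≠ 0 ∧
        (absN A b c.1 c.2.1 c.2.2).natAbs ≤ q

lemma ff_prime {k : Type*} [Field k] [Fintype k] {A : ℤ} {b : ℤ × ℤ} {φ x : k}
    (hφ : φ ^ 2 = φ + 1) (hx : x ^ 3 = A * x + evP φ b) {p : ℕ} (hp : p.Prime)
    (hcard : Fintype.card k = p) (L : List Cf)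
    (hdec : ∀ φ x : ZMod p, φ ^ 2 = φ + 1 → x ^ 3 = A * x + evP φ b →
      ∃ c ∈ L, evC φ x c = 0 ∧ absN A b c.1 c.2.1 c.2.2 ≠ 0 ∧
        (absN A b c.1 c.2.1 c.2.2).natAbs ≤ p) :
    Good A b (Fintype.card k) φ x := by
  let e : ZMod p ≃+* k := ZMod.ringEquivOfPrime k hp hcard
  have h1 : (e.symm φ) ^ 2 = e.symm φ + 1 := by rw [← map_pow, hφ, map_add, map_one]
  have h2 : (e.symm x) ^ 3 = A * e.symm x + evP (e.symm φ) b := by
    rw [← map_pow, hx, map_add, map_mul, map_intCast]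
    congr 1
    exact evP_map (e.symm : k →+* ZMod p) φ b
  obtain ⟨c, -, hc, hc1, hc2⟩ := hdec _ _ h1 h2
  refine ⟨c, ?_, hc1, by rw [hcard]; exact hc2⟩
  have h3 := congrArg e hc
  rw [map_zero] at h3
  have h4 := evC_map (e : ZMod p →+* k) (e.symm φ) (e.symm x) c
  simp only [RingEquiv.coe_toRingHom, RingEquiv.apply_symm_apply] at h4
  rw [← h4]
  exact h3

/-- in a field with `p^2` elements in which `φ` is not in the prime field -/
lemma exists_repr {k : Type*} [Field k] [Fintype k] (p : ℕ) [Fact p.Prime] [CharP k p]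
    (hcard : Fintype.card k = p ^ 2) {φ : k} (hφ : φ ^ 2 = φ + 1)
    (hno : ∀ a : ZMod p, a ^ 2 ≠ a + 1) :
    (∀ a b : ZMod p, (ZMod.castHom (dvd_refl p) k a) + (ZMod.castHom (dvd_refl p) k b) * φ = 0 →
      a = 0 ∧ b = 0) ∧
    ∀ x : k, ∃ a b : ZMod p,
      x = (ZMod.castHom (dvd_refl p) k a) + (ZMod.castHom (dvd_refl p) k b) * φ := by
  have h1 : ∀ a b : ZMod p,
      (ZMod.castHom (dvd_refl p) k a) + (ZMod.castHom (dvd_refl p) k b) * φ = 0 →
      a = 0 ∧ b = 0 := by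
    intro a b hab
    have hinj : Function.Injective (ZMod.castHom (dvd_refl p) k) := RingHom.injective _
    by_cases hb : b = 0
    · rw [hb, map_zero, zero_mul, add_zero] at hab
      exact ⟨hinj (by rw [hab, map_zero]), hb⟩
    · exfalso
      apply hno (-a / b)
      apply hinj
      have hb' : ZMod.castHom (dvd_refl p) k b ≠ 0 := by
        rw [Ne, map_eq_zero]
        exact hb
      have h2 : ZMod.castHom (dvd_refl p) k (-a / b) = φ := by
        rw [map_div₀, map_neg, div_eq_iff hb']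
        linear_combination -hab
      rw [map_pow, map_add, map_one, h2, hφ]
  refine ⟨h1, ?_⟩
  let g : ZMod p × ZMod p → k := fun ab =>
    (ZMod.castHom (dvd_refl p) k ab.1) + (ZMod.castHom (dvd_refl p) k ab.2) * φ
  have hg : Function.Injective g := by
    rintro ⟨a, b⟩ ⟨a', b'⟩ h
    have h3 := h1 (a - a') (b - b') (by
      rw [map_sub, map_sub]
      have : g (a, b) = g (a', b') := h
      simp only [g] at this
      linear_combination this)
    rw [Prod.mk.injEq]
    exact ⟨sub_eq_zero.1 h3.1, sub_eq_zero.1 h3.2⟩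
  have hbij : Function.Bijective g := by
    rw [Fintype.bijective_iff_injective_and_card]
    refine ⟨hg, ?_⟩
    rw [Fintype.card_prod, ZMod.card, hcard, sq]
  intro x
  obtain ⟨⟨a, b⟩, h⟩ := hbij.2 x
  exact ⟨a, b, h.symm⟩

lemma pow_le_cases {p n : ℕ} (hp : p.Prime) (hn : 2 ≤ n) (h : p ^ n ≤ 55) :
    p = 2 ∨ p = 3 ∨ (p = 5 ∧ n = 2) ∨ (p = 7 ∧ n = 2) := by
  have h2 : p ^ 2 ≤ 55 := (Nat.pow_le_pow_right hp.pos hn).trans h
  have h3 : p ≤ 7 := by nlinarith
  have h4 := hp.two_le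
  interval_cases p
  · simp
  · simp
  · exact absurd hp (by norm_num)
  · have : n < 3 := by
      by_contra h5
      push Not at h5
      have := Nat.pow_le_pow_right (show 0 < 5 by norm_num) h5
      omega
    right; right; left
    exact ⟨rfl, by omega⟩
  · exact absurd hp (by norm_num)
  · have : n < 3 := by
      by_contra h5
      push Not at h5
      have := Nat.pow_le_pow_right (show 0 < 7 by norm_num) h5
      omega
    right; right; right
    exact ⟨rfl, by omega⟩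

lemma four_le_card {k : Type*} [Field k] [Fintype k] {φ : k} (hφ : φ ^ 2 = φ + 1)
    (h2 : (2 : k) = 0) : 4 ≤ Fintype.card k := by
  obtain ⟨p, hp⟩ := CharP.exists k
  obtain ⟨n, hprime, hcard⟩ := FiniteField.card k p
  have hp2 : p ∣ 2 := (CharP.cast_eq_zero_iff k p 2).1 (by exact_mod_cast h2)
  have hp2' : p = 2 := (Nat.prime_dvd_prime_iff_eq hprime Nat.prime_two).1 hp2
  subst hp2'
  have hn : (n : ℕ) ≠ 1 := by
    intro hn
    rw [hn, pow_one] at hcard
    let e : ZMod 2 ≃+* k := ZMod.ringEquivOfPrime k Nat.prime_two hcard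
    have h1 : (e.symm φ) ^ 2 = e.symm φ + 1 := by rw [← map_pow, hφ, map_add, map_one]
    have h3 : ∀ a : ZMod 2, a ^ 2 ≠ a + 1 := by decide
    exact h3 _ h1
  have hn2 : 2 ≤ (n : ℕ) := by
    have := n.pos
    omega
  rw [hcard]
  calc 4 = 2 ^ 2 := by norm_num
    _ ≤ 2 ^ (n : ℕ) := Nat.pow_le_pow_right (by norm_num) hn2

end Pool.Agent.Lib.MP_aa8fd2_nt
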