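import Mathlib
import Pool.Agent.Lib.MP_aa8fd2_nt.SexticNorm

/-!
Degree arguments: a sextic field containing `φ, x` is generated by them.
-/

set_option autoImplicit false

namespace Pool.Agent.Lib.MP_aa8fd2_nt

open NumberField Module IntermediateField

lemma three_dvd_of_cube {K : Type*} [Field K] [NumberField K] (π u v : K)
    (hπ : IsIntegral ℤ π) (hu : IsIntegral ℤ u) (hv : IsIntegral ℤ v) (huv : u * v = 1)
    (h : π ^ 3 = 2 * u) : 3 ∣ finrank ℚ K := by
  let π' : 𝓞 K := ⟨π, hπ⟩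
  let u' : 𝓞 K := ⟨u, hu⟩
  let v' : 𝓞 K := ⟨v, hv⟩
  have h1 : π' ^ 3 = 2 * u' := by
    apply RingOfIntegers.ext
    change algebraMap (𝓞 K) K (π' ^ 3) = algebraMap (𝓞 K) K (2 * u')
    rw [map_pow, map_mul, map_ofNat]
    exact h
  have h2 : u' * v' = 1 := by
    apply RingOfIntegers.ext
    change algebraMap (𝓞 K) K (u' * v') = algebraMap (𝓞 K) K 1
    rw [map_mul, map_one]
    exact huv
  have h3 := congrArg (Algebra.norm ℤ) h1
  have h4 := congrArg (Algebra.norm ℤ) h2
  rw [map_mul, map_one] at h4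
  have h5 : (Algebra.norm ℤ u').natAbs = 1 := by
    have := congrArg Int.natAbs h4
    rw [Int.natAbs_mul, Int.natAbs_one] at this
    exact Nat.eq_one_of_mul_eq_one_right this
  have h6 : Algebra.norm ℤ (2 : 𝓞 K) = 2 ^ finrank ℚ K := by
    have := Algebra.norm_algebraMap (S := 𝓞 K) (2 : ℤ)
    rw [RingOfIntegers.rank] at this
    simpa using this
  rw [map_pow, map_mul, h6] at h3
  have h7 := congrArg Int.natAbs h3
  rw [Int.natAbs_pow, Int.natAbs_mul, Int.natAbs_pow, h5, mul_one] at h7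
  have h8 : (Algebra.norm ℤ π').natAbs ^ 3 = 2 ^ finrank ℚ K := h7
  have h9 := congrArg (fun m => m.factorization 2) h8
  simp only [Nat.factorization_pow, Finsupp.smul_apply, smul_eq_mul] at h9
  rw [Nat.Prime.factorization_self Nat.prime_two, mul_one] at h9
  exact ⟨_, h9.symm⟩

lemma two_dvd_of_phi {K : Type*} [Field K] [NumberField K] (φ : K) (hφ : φ ^ 2 = φ + 1) :
    2 ∣ finrank ℚ K := by
  have hirr : Irreducible (Polynomial.X ^ 2 - Polynomial.X - 1 : Polynomial ℚ) := by
    have hm : (Polynomial.X ^ 2 - Polynomial.X - 1 : Polynomial ℚ).Monic := by monicity!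
    have hd : (Polynomial.X ^ 2 - Polynomial.X - 1 : Polynomial ℚ).natDegree = 2 := by
      compute_degree!
    rw [hm.irreducible_iff_roots_eq_zero_of_degree_le_three (by rw [hd]) (by rw [hd]; norm_num)]
    rw [Multiset.eq_zero_iff_forall_notMem]
    intro a ha
    rw [Polynomial.mem_roots hm.ne_zero, Polynomial.IsRoot.def] at ha
    simp only [Polynomial.eval_sub, Polynomial.eval_pow, Polynomial.eval_X,
      Polynomial.eval_one] at ha
    have h5 : (2 * a - 1) ^ 2 = 5 := by linear_combination 4 * ha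
    have h6 : IsSquare (5 : ℚ) := ⟨2 * a - 1, by rw [← h5, sq]⟩
    have h7 : ¬ IsSquare (5 : ℚ) := by
      rw [show (5 : ℚ) = ((5 : ℕ) : ℚ) by norm_num, Rat.isSquare_natCast_iff]
      rintro ⟨r, hr⟩
      have : r ≤ 5 := by nlinarith
      interval_cases r <;> omega
    exact h7 h6
  have hmin : minpoly ℚ φ = Polynomial.X ^ 2 - Polynomial.X - 1 := by
    symm
    apply minpoly.eq_of_irreducible_of_monic hirr
    · simp only [map_sub, map_pow, Polynomial.aeval_X, map_one]
      linear_combination hφ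
    · monicity!
  have h1 : finrank ℚ ℚ⟮φ⟯ = 2 := by
    rw [adjoin.finrank (Algebra.IsIntegral.isIntegral φ), hmin]
    compute_degree!
  rw [← h1]
  exact Dvd.intro _ (finrank_mul_finrank ℚ ℚ⟮φ⟯ K)

/-- generation from divisibility by 3 in the subfield -/
lemma gen_of_six {K : Type*} [Field K] [NumberField K] (φ x : K) (hφ : φ ^ 2 = φ + 1)
    (h6 : finrank ℚ K = 6)
    (h3 : 3 ∣ finrank ℚ (adjoin ℚ {φ, x} : IntermediateField ℚ K)) :
    ∀ σ τ : K →+* ℂ, σ φ = τ φ → σ x = τ x → σ = τ := by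
  have hφm : φ ∈ (adjoin ℚ {φ, x} : IntermediateField ℚ K) :=
    subset_adjoin ℚ {φ, x} (Set.mem_insert _ _)
  have h2 : 2 ∣ finrank ℚ (adjoin ℚ {φ, x} : IntermediateField ℚ K) := by
    apply two_dvd_of_phi ⟨φ, hφm⟩
    apply Subtype.ext
    exact hφ
  have h66 : 6 ∣ finrank ℚ (adjoin ℚ {φ, x} : IntermediateField ℚ K) :=
    Nat.Coprime.mul_dvd_of_dvd_of_dvd (by norm_num) h2 h3
  have hle : finrank ℚ (adjoin ℚ {φ, x} : IntermediateField ℚ K) ≤ 6 := by
    rw [← h6]
    exact (adjoin ℚ {φ, x} : IntermediateField ℚ K).toSubalgebra.toSubmodule.finrank_le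
  have hpos : 0 < finrank ℚ (adjoin ℚ {φ, x} : IntermediateField ℚ K) := finrank_pos
  have heq : finrank ℚ (adjoin ℚ {φ, x} : IntermediateField ℚ K) = 6 :=
    le_antisymm hle (Nat.le_of_dvd hpos h66)
  have htop : (adjoin ℚ {φ, x} : IntermediateField ℚ K) = ⊤ := by
    apply eq_of_le_of_finrank_eq le_top
    rw [heq, finrank_top', h6]
  intro σ τ hσφ hσx
  have h7 : (σ.toRatAlgHom.comp (⊤ : IntermediateField ℚ K).val) =
      (τ.toRatAlgHom.comp (⊤ : IntermediateField ℚ K).val) := by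
    apply algHom_ext_of_eq_adjoin ℚ htop.symm
    intro y hy
    rcases hy with rfl | hy
    · exact hσφ
    · rw [Set.mem_singleton_iff] at hy
      subst hy
      exact hσx
  ext y
  have := congrArg (fun s : (⊤ : IntermediateField ℚ K) →ₐ[ℚ] ℂ => s ⟨y, mem_top⟩) h7
  exact this

end Pool.Agent.Lib.MP_aa8fd2_nt
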