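import Pool.Agent.Lib.MP_aa8fd2_nt.Ambig

/-!
Propagation of: one prime above 2 and odd class exponent, in quadratic extensions.
-/

set_option linter.unusedSectionVars false

namespace Pool.Agent.Lib.MP_aa8fd2_nt

open IsDedekindDomain HeightOneSpectrum NumberField Module InfinitePlace

/-- exactly one prime above 2 and odd class exponent away from 2 -/
structure PK (K : Type*) [Field K] [NumberField K] : Prop where
  one : Nat.card (S2 K) = 1
  odd : OddExp K

section

variable (K : Type*) [Field K] [NumberField K]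

lemma card_S2_pos : 0 < Nat.card (S2 K) := by
  have hp : (Ideal.span {(2 : ℤ)}).IsPrime := by
    rw [Ideal.span_singleton_prime (by norm_num)]
    exact Int.prime_two
  obtain ⟨⟨P, hP, hPv⟩⟩ :=
    (inferInstance : Nonempty (Ideal.primesOver (Ideal.span {(2 : ℤ)}) (𝓞 K)))
  have h2 : (2 : 𝓞 K) ∈ P := by
    have h3 : (2 : ℤ) ∈ Ideal.span {(2 : ℤ)} := Ideal.mem_span_singleton_self 2
    rw [hPv.over] at h3
    have h4 : algebraMap ℤ (𝓞 K) 2 ∈ P := h3
    simpa using h4
  have hP0 : P ≠ ⊥ := by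
    rintro rfl
    rw [Ideal.mem_bot] at h2
    exact two_ne_zero h2
  have : Nonempty (S2 K) := ⟨⟨⟨P, hP, hP0⟩, h2⟩⟩
  exact Nat.card_pos

lemma finrank_EU_of_totallyComplex [IsTotallyComplex K] :
    finrank ℤ (Additive (EU K)) + 1 = nrComplexPlaces K + Nat.card (S2 K) := by
  rw [finrank_EU, Units.rank, card_eq_nrRealPlaces_add_nrComplexPlaces,
    IsTotallyComplex.nrRealPlaces_eq_zero]
  have := IsTotallyComplex.finrank K
  have h2 : 0 < finrank ℚ K := finrank_pos
  omega

lemma finrank_EU_of_totallyReal [IsTotallyReal K] :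
    finrank ℤ (Additive (EU K)) + 1 = finrank ℚ K + Nat.card (S2 K) := by
  rw [finrank_EU, Units.rank, card_eq_nrRealPlaces_add_nrComplexPlaces,
    IsTotallyReal.nrComplexPlaces_eq_zero, ← IsTotallyReal.finrank]
  have h2 : 0 < finrank ℚ K := finrank_pos
  omega

/-- number of square classes of 2-units -/
lemma card_EU_sq : ((EU K).map (sqr Kˣ)).relIndex (EU K) =
    2 ^ (finrank ℤ (Additive (EU K)) + 1) := by
  rw [sqr_relIndex, pow_succ]
  congr 1
  rw [Nat.card_eq_two_iff' (⟨1, by simp⟩ : {x : EU K // (x : Kˣ) ^ 2 = 1})]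
  refine ⟨⟨⟨-1, neg_one_mem_EU K⟩, by simp⟩, ?_, ?_⟩
  · intro h
    have hne : (-1 : Kˣ) ≠ 1 := by
      intro h
      have h1 : (-1 : K) = 1 := congrArg Units.val h
      norm_num at h1
    apply hne
    exact congrArg (fun z : {x : EU K // (x : Kˣ) ^ 2 = 1} => (z.1 : Kˣ)) h
  · rintro ⟨⟨x, hxE⟩, hx⟩ hx1
    have h3 : (x : K) ^ 2 = 1 := by
      have := congrArg Units.val hx
      simpa using this
    have h4 : x = 1 ∨ x = -1 := by
      rcases sq_eq_one_iff.1 h3 with h | h
      · left; ext; exact h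
      · right; ext; exact h
    rcases h4 with h | h
    · exfalso; apply hx1
      apply Subtype.ext; apply Subtype.ext; exact h
    · apply Subtype.ext; apply Subtype.ext; exact h

lemma card_EU_sq_of_PK [IsTotallyComplex K] (h : PK K) :
    ((EU K).map (sqr Kˣ)).relIndex (EU K) = 2 ^ (nrComplexPlaces K + 1) := by
  rw [card_EU_sq]
  have := finrank_EU_of_totallyComplex K
  rw [h.one] at this
  rw [this]

end

section

variable {K L : Type*} [Field K] [NumberField K] [Field L] [NumberField L] [Algebra K L]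
  [Algebra.IsQuadraticExtension K L]

lemma finrank_quadratic : finrank ℚ L = 2 * finrank ℚ K := by
  rw [← Module.finrank_mul_finrank ℚ K L, Algebra.IsQuadraticExtension.finrank_eq_two K L, mul_comm]

/-- (A1): propagation over a totally complex field -/
theorem propagate_complex [IsTotallyComplex K] (hK : PK K) (hunr : Unr2 K L)
    {s : L ≃ₐ[K] L} (hs1 : s ≠ 1)
    (hs : ∀ g : L ≃ₐ[K] L, g = 1 ∨ g = s) (hss : ∀ x, s (s x) = x) :
    PK L ∧ EU K ≤ NS s := by
  have hL : IsTotallyComplex L := isTotallyComplex_of_algebra K L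
  have h1 := herbrand_index hs1 hs hss hunr hK.odd
  have h2 := finrank_EU_of_totallyComplex K
  have h3 := finrank_EU_of_totallyComplex L
  rw [hK.one] at h2
  have h4 := finrank_quadratic (K := K) (L := L)
  rw [IsTotallyComplex.finrank, IsTotallyComplex.finrank] at h4
  have h5 := card_S2_pos L
  have h6 : finrank ℤ (Additive (EU L)) = 2 * finrank ℤ (Additive (EU K)) + (Nat.card (S2 L) - 1) := by
    omega
  rw [h6, pow_add] at h1
  have h7 : (0 : ℕ) < 2 ^ (2 * finrank ℤ (Additive (EU K))) := by positivity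
  have h8 : (NS s).relIndex (EU K) * 2 ^ (Nat.card (S2 L) - 1) = 1 := by
    apply Nat.eq_of_mul_eq_mul_left h7
    rw [mul_one]
    nth_rewrite 2 [h1]
    ring
  have h9 := Nat.eq_one_of_mul_eq_one_right h8
  have h10 := Nat.eq_one_of_mul_eq_one_left h8
  have hle : EU K ≤ NS s := Subgroup.relIndex_eq_one.1 h9
  refine ⟨⟨?_, ?_⟩, hle⟩
  · have : Nat.card (S2 L) - 1 = 0 := by
      by_contra hne
      have := Nat.one_lt_two_pow hne
      omega
    omega
  · exact oddExp_of_norms hs1 hs hss hunr hK.odd (fun x hx _ => hle hx)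

end

section real

variable (M : Type*) [Field M] [NumberField M]

/-- totally positive elements -/
def TP : Subgroup Mˣ where
  carrier := {x | ∀ φ : M →+* ℝ, 0 < φ x}
  mul_mem' := by
    intro a b ha hb φ
    rw [Units.val_mul, map_mul]
    exact mul_pos (ha φ) (hb φ)
  one_mem' := by
    intro φ
    simp
  inv_mem' := by
    intro a ha φ
    rw [Units.val_inv_eq_inv_val, map_inv₀]
    exact inv_pos.2 (ha φ)

lemma mem_TP {x : Mˣ} : x ∈ TP M ↔ ∀ φ : M →+* ℝ, 0 < φ x := Iff.rfl

/-- the element 2 -/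
noncomputable def twoU : Mˣ := Units.mk0 2 two_ne_zero

lemma twoU_mem_EU : twoU M ∈ EU M := by
  rw [mem_EU]
  intro v hv
  rw [ord_eq_zero_iff]
  have h : ((twoU M : Mˣ) : M) = algebraMap (𝓞 M) M 2 := by
    rw [map_ofNat]; rfl
  rw [h]
  have h1 : v.valuation M (algebraMap (𝓞 M) M 2) = v.intValuation 2 := valuation_of_algebraMap v 2
  rw [h1]
  exact intValuation_eq_one_iff.2 hv

/-- the square class condition: totally positive elements with even orders away from 2
are, up to squares, `1` or `2` -/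
def XM : Prop := ∀ x : Mˣ, (∀ φ : M →+* ℝ, 0 < φ x) →
  (∀ v : HeightOneSpectrum (𝓞 M), (2 : 𝓞 M) ∉ v.asIdeal → Even (ord v x)) →
  ∃ y : Mˣ, x = y ^ 2 ∨ x = twoU M * y ^ 2

/-- the signature map -/
noncomputable def sgn : Mˣ →* ((M →+* ℝ) → SignTypeˣ) :=
  MonoidHom.pi (fun φ => (Units.map ((signHom : ℝ →*₀ SignType) : ℝ →* SignType)).comp
    (Units.map (φ : M →* ℝ)))

lemma sgn_val (x : Mˣ) (φ : M →+* ℝ) : ((sgn M x φ : SignTypeˣ) : SignType) = SignType.sign (φ x) :=
  rfl

lemma ker_sgn : (sgn M).ker = TP M := by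
  ext x
  rw [MonoidHom.mem_ker, mem_TP]
  constructor
  · intro h φ
    have h1 := congrArg (fun u : SignTypeˣ => (u : SignType)) (congrFun h φ)
    rw [sgn_val] at h1
    exact sign_eq_one_iff.1 h1
  · intro h
    funext φ
    apply Units.ext
    rw [sgn_val]
    exact sign_eq_one_iff.2 (h φ)

instance finite_realEmb : Finite (M →+* ℝ) := by
  apply Finite.of_injective (β := M →+* ℂ) (fun φ => (algebraMap ℝ ℂ).comp φ)
  intro φ ψ h
  ext x
  have := congrArg (fun f : M →+* ℂ => f x) h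
  simpa using this

lemma card_realEmb_le : Nat.card (M →+* ℝ) ≤ finrank ℚ M := by
  rw [← NumberField.Embeddings.card M ℂ, ← Nat.card_eq_fintype_card]
  apply Nat.card_le_card_of_injective (fun φ : M →+* ℝ => (algebraMap ℝ ℂ).comp φ)
  intro φ ψ h
  ext x
  have := congrArg (fun f : M →+* ℂ => f x) h
  simpa using this

lemma card_signs : Nat.card ((M →+* ℝ) → SignTypeˣ) = 2 ^ Nat.card (M →+* ℝ) := by
  have h2 : Nat.card SignTypeˣ = 2 := by
    rw [Nat.card_eq_two_iff' (1 : SignTypeˣ)]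
    refine ⟨-1, ?_, ?_⟩
    · intro h
      have := congrArg Units.val h
      revert this
      decide
    · intro y hy
      have h3 : ∀ z : SignType, z ≠ 0 → z ≠ 1 → z = -1 := by decide
      apply Units.ext
      exact h3 _ y.ne_zero (fun h => hy (Units.ext h))
  rw [Nat.card_fun, h2]

lemma relIndex_le_two {G : Type*} [CommGroup G] {H T : Subgroup G} {a : G}
    (h : ∀ t ∈ T, t ∈ H ∨ a⁻¹ * t ∈ H) : H.relIndex T ≤ 2 := by
  classical
  rw [Subgroup.relIndex, Subgroup.index_eq_card]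
  by_cases hT : ∃ t0 ∈ T, t0 ∉ H
  · obtain ⟨t0, ht0, ht0'⟩ := hT
    let f : Bool → T ⧸ (H.subgroupOf T) := fun b =>
      if b then (QuotientGroup.mk (1 : T)) else QuotientGroup.mk (⟨t0, ht0⟩ : T)
    have hf : Function.Surjective f := by
      intro y
      obtain ⟨⟨t, ht⟩, rfl⟩ := QuotientGroup.mk_surjective y
      rcases h t ht with h1 | h1
      · refine ⟨true, ?_⟩
        show QuotientGroup.mk (1 : T) = _
        rw [QuotientGroup.eq, Subgroup.mem_subgroupOf]
        simpa using h1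
      · refine ⟨false, ?_⟩
        show QuotientGroup.mk (⟨t0, ht0⟩ : T) = _
        rw [QuotientGroup.eq, Subgroup.mem_subgroupOf]
        have h2 := (h t0 ht0).resolve_left ht0'
        have h3 := H.mul_mem (H.inv_mem h2) h1
        have h4 : (a⁻¹ * t0)⁻¹ * (a⁻¹ * t) = t0⁻¹ * t := by
          rw [mul_inv_rev, inv_inv, mul_assoc, mul_inv_cancel_left]
        rw [h4] at h3
        exact h3
    have := Nat.card_le_card_of_surjective f hf
    simpa using this
  · push Not at hT
    have : Subsingleton (T ⧸ (H.subgroupOf T)) := by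
      constructor
      intro x y
      obtain ⟨x, rfl⟩ := QuotientGroup.mk_surjective x
      obtain ⟨y, rfl⟩ := QuotientGroup.mk_surjective y
      rw [QuotientGroup.eq, Subgroup.mem_subgroupOf]
      exact hT _ (x⁻¹ * y).2
    have h1 : Nat.card (T ⧸ (H.subgroupOf T)) ≤ 1 := Finite.card_le_one_iff_subsingleton.2 this
    omega

/-- two-unit version of `XM` -/
lemma EU_of_sq {y : Mˣ} (h : y ^ 2 ∈ EU M) : y ∈ EU M := by
  rw [mem_EU] at h ⊢
  intro v hv
  have := h v hv
  rw [ord_pow] at this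
  push_cast at this
  linarith

lemma sq_relIndex_le (hX : XM M) :
    ((EU M).map (sqr Mˣ)).relIndex (TP M ⊓ EU M) ≤ 2 := by
  apply relIndex_le_two (a := twoU M)
  rintro t ⟨ht1, ht2⟩
  obtain ⟨y, hy | hy⟩ := hX t ht1 (fun v hv => by rw [(mem_EU M).1 ht2 v hv]; exact Even.zero)
  · left
    refine ⟨y, ?_, hy.symm⟩
    apply EU_of_sq
    rw [← hy]; exact ht2
  · right
    refine ⟨y, ?_, ?_⟩
    · apply EU_of_sq
      have : y ^ 2 = (twoU M)⁻¹ * t := by rw [hy, inv_mul_cancel_left]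
      rw [this]
      exact (EU M).mul_mem ((EU M).inv_mem (twoU_mem_EU M)) ht2
    · rw [hy, inv_mul_cancel_left]; rfl

/-- counting consequence of `XM` -/
theorem XM_count [IsTotallyReal M] (hX : XM M) :
    Nat.card (S2 M) = 1 ∧ (TP M).relIndex (EU M) = 2 ^ finrank ℚ M ∧
      ∀ f : (M →+* ℝ) → SignTypeˣ, ∃ ε ∈ EU M, sgn M ε = f := by
  have h1 := card_EU_sq M
  rw [finrank_EU_of_totallyReal] at h1
  have hle : (EU M).map (sqr Mˣ) ≤ TP M ⊓ EU M := by
    rintro _ ⟨y, hy, rfl⟩
    refine ⟨?_, ?_⟩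
    · intro φ
      rw [sqr_apply, Units.val_pow_eq_pow_val, map_pow]
      have : φ y ≠ 0 := by
        rw [map_ne_zero]; exact y.ne_zero
      positivity
    · exact (EU M).pow_mem hy 2
  have h2 := Subgroup.relIndex_mul_relIndex _ _ _ hle (inf_le_right : TP M ⊓ EU M ≤ EU M)
  rw [h1, Subgroup.inf_relIndex_right] at h2
  have h3 := sq_relIndex_le M hX
  let f : EU M →* ((M →+* ℝ) → SignTypeˣ) := (sgn M).comp (EU M).subtype
  have h4 : (TP M).relIndex (EU M) = Nat.card f.range := by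
    rw [← Subgroup.index_ker, Subgroup.relIndex, ← ker_sgn]
    rfl
  have h5 : Nat.card f.range ≤ 2 ^ Nat.card (M →+* ℝ) := by
    rw [← card_signs]
    exact Nat.card_le_card_of_injective _ Subtype.val_injective
  have h6 := card_realEmb_le M
  have h7 := card_S2_pos M
  have h8 : (2 : ℕ) ^ Nat.card (M →+* ℝ) ≤ 2 ^ finrank ℚ M := Nat.pow_le_pow_right (by norm_num) h6
  have h9 : 2 ^ (finrank ℚ M + Nat.card (S2 M)) ≤ 2 * 2 ^ finrank ℚ M := by
    rw [← h2, h4]
    exact Nat.mul_le_mul h3 (h5.trans h8)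
  have h10 : Nat.card (S2 M) = 1 := by
    have : 2 ^ (finrank ℚ M + Nat.card (S2 M)) ≤ 2 ^ (finrank ℚ M + 1) := by
      rw [pow_succ 2 (finrank ℚ M), mul_comm _ 2]; exact h9
    have := (Nat.pow_le_pow_iff_right (by norm_num : 1 < 2)).1 this
    omega
  rw [h10] at h2
  have h11 : Nat.card f.range = 2 ^ finrank ℚ M := by
    apply le_antisymm (h5.trans h8)
    rw [h4, pow_succ, mul_comm] at h2
    have : 2 * 2 ^ finrank ℚ M ≤ 2 * Nat.card f.range := by
      rw [mul_comm 2 (2 ^ _), ← h2, mul_comm]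
      exact Nat.mul_le_mul_right _ h3
    omega
  refine ⟨h10, by rw [h4, h11], ?_⟩
  have h12 : f.range = ⊤ := by
    apply Subgroup.eq_top_of_card_eq
    rw [card_signs]
    apply le_antisymm h5
    rw [h11]; exact h8
  intro g
  obtain ⟨ε, hε⟩ := (MonoidHom.range_eq_top.1 h12) g
  exact ⟨ε, ε.2, hε⟩

lemma oddExp_of_no_two_torsion (h : ∀ D : DivG (S2 M), (∃ z : Mˣ, dv (S2 M) z = D ^ 2) →
    ∃ z : Mˣ, dv (S2 M) z = D) : OddExp M := by
  have stepC : ∀ (a : ℕ) (x : DivG (S2 M)), (∃ z : Mˣ, dv (S2 M) z = x ^ (2 ^ a)) →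
      ∃ z : Mˣ, dv (S2 M) z = x := by
    intro a
    induction a with
    | zero => intro x hx; simpa using hx
    | succ a ih =>
      rintro x ⟨z, hz⟩
      apply h
      apply ih
      exact ⟨z, by rw [hz, ← pow_mul, pow_succ, mul_comm]⟩
  obtain ⟨a, m', hm', hn'⟩ := Nat.exists_eq_two_pow_mul_odd
    (Nat.card_pos (α := ClassGroup (𝓞 M))).ne'
  refine ⟨m', hm', fun x => ?_⟩
  apply stepC a
  obtain ⟨z, hz⟩ := exists_pow_principal (K := M) (S2 M) x
  exact ⟨z, by rw [hz, ← pow_mul, hn', mul_comm]⟩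

/-- (A2), first part -/
theorem PK_of_XM [IsTotallyReal M] (hX : XM M) : PK M := by
  obtain ⟨h1, -, h3⟩ := XM_count M hX
  refine ⟨h1, oddExp_of_no_two_torsion M ?_⟩
  rintro D ⟨z, hz⟩
  obtain ⟨ε, hε, hε'⟩ := h3 (sgn M z)
  have hpos : ε * z ∈ TP M := by
    rw [← ker_sgn, MonoidHom.mem_ker, map_mul, hε']
    funext φ
    apply Units.ext
    have h4 : ∀ u : SignTypeˣ, u * u = 1 := by
      intro u
      have h5 : ∀ z : SignType, z ≠ 0 → z * z = 1 := by decide
      exact Units.ext (h5 _ u.ne_zero)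
    exact congrArg Units.val (h4 _)
  have hdv : dv (S2 M) (ε * z) = D ^ 2 := by
    rw [map_mul, show dv (S2 M) ε = 1 from hε, one_mul, hz]
  have hord : ∀ v : HeightOneSpectrum (𝓞 M), (2 : 𝓞 M) ∉ v.asIdeal → Even (ord v (ε * z)) := by
    intro v hv
    have h5 := congrArg (fun D' : DivG (S2 M) =>
      Multiplicative.toAdd D' (⟨v, hv⟩ : {v // v ∉ S2 M})) hdv
    simp only [toAdd_pow, Finsupp.smul_apply] at h5
    rw [dv_apply] at h5
    exact ⟨Multiplicative.toAdd D ⟨v, hv⟩, by rw [h5, two_nsmul]⟩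
  have hsq : ∀ y : Mˣ, dv (S2 M) (y ^ 2) = D ^ 2 → dv (S2 M) y = D := by
    intro y hy
    apply Multiplicative.toAdd.injective
    ext v
    have h5 := congrArg (fun D' : DivG (S2 M) => Multiplicative.toAdd D' v) hy
    simp only [map_pow, toAdd_pow, two_nsmul, Finsupp.add_apply] at h5
    omega
  obtain ⟨y, hy | hy⟩ := hX _ hpos hord
  · exact ⟨y, hsq y (by rw [← hy, hdv])⟩
  · refine ⟨y, hsq y ?_⟩
    rw [hy, map_mul, show dv (S2 M) (twoU M) = 1 from twoU_mem_EU M, one_mul] at hdv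
    exact hdv

end real

end Pool.Agent.Lib.MP_aa8fd2_nt
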