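import Pool.Agent.Lib.MP_aa8fd2_nt.Basic
import Pool.Agent.Lib.MP_aa8fd2_nt.Propagate

set_option autoImplicit false

/-! Interface definitions (version 2) for the modules of MP_aa8fd2_nt. -/

namespace Pool.Agent.Lib.MP_aa8fd2_nt

open NumberField

section

variable {F Ω : Type*} [Field F] [NumberField F] [Field Ω] [Algebra F Ω]

/-- `x` is a 2-unit: `x` and `x⁻¹` become integral after multiplication by a power of 2. -/
def IsTwoUnit (x : Ω) : Prop :=
  x ≠ 0 ∧ ∃ m : ℕ, IsIntegral ℤ (2 ^ m * x) ∧ IsIntegral ℤ (2 ^ m * x⁻¹)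

/-- Inertia groups at primes not above 6 act trivially on `K` (tested in every finite Galois
extension containing `K`). -/
def Unr6 (K : IntermediateField F Ω) : Prop :=
  ∀ K' : IntermediateField F Ω, K ≤ K' → ∀ _ : FiniteDimensional F K', IsGalois F K' →
    ∀ Q : Ideal (𝓞 K'), Q.IsPrime → (6 : 𝓞 K') ∉ Q →
      ∀ σ : K' ≃ₐ[F] K', (∀ x y : 𝓞 K', (y : K') = σ x → y - x ∈ Q) →
        ∀ x : K', (x : Ω) ∈ K → σ x = x

/-- `K` is totally complex. -/
def TotComplex (K : IntermediateField F Ω) : Prop :=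
  ∀ i : K →+* ℂ, ∃ x : K, (i x).im ≠ 0

/-- `K` is totally real. -/
def TotReal (K : IntermediateField F Ω) : Prop :=
  ∀ i : K →+* ℂ, ∀ x : K, (i x).im = 0

end

end Pool.Agent.Lib.MP_aa8fd2_nt
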