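import Mathlib
import Pool.Agent.Lib.MP_aa8fd2_nt.Setup

/-!
`XM K` from: class number one, totally positive units are squares, one prime above 2 of odd
ramification index.
-/

set_option autoImplicit false

namespace Pool.Agent.Lib.MP_aa8fd2_nt

open NumberField IsDedekindDomain HeightOneSpectrum

variable {K : Type*} [Field K] [NumberField K]

lemma exists_sq_of_even (hpid : IsPrincipalIdealRing (𝓞 K)) (x : Kˣ)
    (hx : ∀ v : HeightOneSpectrum (𝓞 K), Even (ord v x)) :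
    ∃ (u : (𝓞 K)ˣ) (y : Kˣ), x = Units.map (algebraMap (𝓞 K) K : 𝓞 K →* K) u * y ^ 2 := by
  classical
  have hcard : Nat.card (ClassGroup (𝓞 K)) = 1 := by
    rw [Nat.card_eq_fintype_card]
    exact card_classGroup_eq_one_iff.2 hpid
  let g : HeightOneSpectrum (𝓞 K) →₀ ℤ :=
    Finsupp.ofSupportFinite (fun v => ord v x / 2) (by
      refine (finite_ord_ne_zero (R := 𝓞 K) x).subset ?_
      intro v hv h0
      apply hv
      show ord v x / 2 = 0
      rw [h0]
      rfl)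
  obtain ⟨y, hy⟩ := exists_ord_eq_mul (K := K) g
  have hy' : ∀ v : HeightOneSpectrum (𝓞 K), ord v y = ord v x / 2 := by
    intro v
    rw [hy v, hcard, Nat.cast_one, one_mul]
    rfl
  obtain ⟨u, hu⟩ := exists_unit_of_ord_eq_zero K (x * (y ^ 2)⁻¹) (by
    intro v
    rw [ord_mul, ord_inv, ord_pow, hy' v]
    obtain ⟨m, hm⟩ := hx v
    push_cast
    omega)
  refine ⟨u, y, ?_⟩
  rw [hu, inv_mul_cancel_right]

lemma ord_generator (v : HeightOneSpectrum (𝓞 K)) {π : 𝓞 K} (hπ : v.asIdeal = Ideal.span {π})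
    (p : Kˣ) (hp : (p : K) = algebraMap (𝓞 K) K π) : ord v p = 1 := by
  have h0 : π ≠ 0 := by
    rintro rfl
    rw [map_zero] at hp
    exact p.ne_zero hp
  have h1 := valuation_eq_exp_neg_ord v p
  rw [hp, valuation_of_algebraMap, intValuation_singleton v h0 hπ, WithZero.exp_inj] at h1
  omega

lemma ord_two_of_not_mem (v : HeightOneSpectrum (𝓞 K)) (hv : (2 : 𝓞 K) ∉ v.asIdeal) :
    ord v (twoU K) = 0 := (mem_EU K).1 (twoU_mem_EU K) v hv

theorem XM_of_pid (hpid : IsPrincipalIdealRing (𝓞 K))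
    (hsq : ∀ u : (𝓞 K)ˣ, (∀ φ : K →+* ℝ, 0 < φ ((u : 𝓞 K) : K)) → ∃ w : (𝓞 K)ˣ, u = w ^ 2)
    (π : 𝓞 K) (hπ : ∀ v : HeightOneSpectrum (𝓞 K), (2 : 𝓞 K) ∈ v.asIdeal →
      v.asIdeal = Ideal.span {π}) (e : ℕ) (he : Odd e) (w : (𝓞 K)ˣ)
    (h2 : (2 : 𝓞 K) * w = π ^ e) : XM K := by
  have key : ∀ x : Kˣ, (∀ φ : K →+* ℝ, 0 < φ x) → (∀ v : HeightOneSpectrum (𝓞 K), Even (ord v x)) →
      ∃ y : Kˣ, x = y ^ 2 := by
    intro x hx hev
    obtain ⟨u, y, huy⟩ := exists_sq_of_even hpid x hev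
    obtain ⟨w, hw⟩ := hsq u (by
      intro φ
      have h1 := hx φ
      rw [huy, Units.val_mul, map_mul, Units.val_pow_eq_pow_val, map_pow] at h1
      have h3 : 0 < (φ (y : K)) ^ 2 := by
        have : φ (y : K) ≠ 0 := by
          rw [map_ne_zero]
          exact y.ne_zero
        positivity
      exact (mul_pos_iff_of_pos_right h3).1 h1)
    refine ⟨Units.map (algebraMap (𝓞 K) K : 𝓞 K →* K) w * y, ?_⟩
    rw [huy, hw, mul_pow, map_pow]
  have hπ0 : π ≠ 0 := by
    rintro rfl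
    have : (2 : 𝓞 K) * w = 0 := by
      rw [h2, zero_pow he.pos.ne']
    rcases mul_eq_zero.1 this with h | h
    · exact two_ne_zero h
    · exact w.ne_zero h
  have hπK : algebraMap (𝓞 K) K π ≠ 0 := by
    rw [Ne, map_eq_zero_iff _ (RingOfIntegers.coe_injective)]
    exact hπ0
  have hord2 : ∀ v : HeightOneSpectrum (𝓞 K), (2 : 𝓞 K) ∈ v.asIdeal → ord v (twoU K) = e := by
    intro v hv
    have h3 := ord_generator v (hπ v hv) (Units.mk0 _ hπK) rfl
    have h4 : twoU K * Units.map (algebraMap (𝓞 K) K : 𝓞 K →* K) w = (Units.mk0 _ hπK) ^ e := by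
      ext
      rw [Units.val_mul, Units.val_pow_eq_pow_val]
      have := congrArg (algebraMap (𝓞 K) K) h2
      rw [map_mul, map_pow, map_ofNat] at this
      exact this
    have h5 := congrArg (ord v) h4
    rw [ord_mul, ord_unit, ord_pow, h3, add_zero, mul_one] at h5
    exact h5
  intro x hx hev
  by_cases hodd : ∀ v : HeightOneSpectrum (𝓞 K), (2 : 𝓞 K) ∈ v.asIdeal → Even (ord v x)
  · obtain ⟨y, hy⟩ := key x hx (fun v => by
      by_cases hv : (2 : 𝓞 K) ∈ v.asIdeal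
      · exact hodd v hv
      · exact hev v hv)
    exact ⟨y, Or.inl hy⟩
  · push Not at hodd
    obtain ⟨v0, hv0, hv0odd⟩ := hodd
    have huniq : ∀ v : HeightOneSpectrum (𝓞 K), (2 : 𝓞 K) ∈ v.asIdeal → v = v0 := by
      intro v hv
      apply HeightOneSpectrum.ext
      rw [hπ v hv, hπ v0 hv0]
    obtain ⟨y, hy⟩ := key (twoU K * x) (by
        intro φ
        rw [Units.val_mul, map_mul]
        refine mul_pos ?_ (hx φ)
        have : ((twoU K : Kˣ) : K) = 2 := rfl
        rw [this, map_ofNat]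
        norm_num) (fun v => by
      rw [ord_mul]
      by_cases hv : (2 : 𝓞 K) ∈ v.asIdeal
      · rw [huniq v hv, hord2 v0 hv0]
        rw [Int.not_even_iff_odd] at hv0odd
        have : Odd ((e : ℕ) : ℤ) := by exact_mod_cast he
        exact this.add_odd hv0odd
      · rw [ord_two_of_not_mem v hv, zero_add]
        exact hev v hv)
    refine ⟨y * (twoU K)⁻¹, Or.inr ?_⟩
    rw [mul_pow, ← hy, inv_pow, sq]
    calc x = x * ((twoU K * twoU K) * (twoU K * twoU K)⁻¹) := by rw [mul_inv_cancel, mul_one]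
      _ = _ := by ac_rfl

end Pool.Agent.Lib.MP_aa8fd2_nt
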