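import Mathlib
import Pool.Agent.Lib.MP_aa8fd2_nt.RealList
import Pool.Agent.Lib.MP_aa8fd2_nt.Gen6
import Pool.Agent.Lib.MP_aa8fd2_nt.FFields
import Pool.Agent.Lib.MP_aa8fd2_nt.XMof

/-!
The quadratic field `ℚ(φ)`, `φ^2 = φ + 1`.
-/

set_option autoImplicit false

namespace Pool.Agent.Lib.MP_aa8fd2_nt

open NumberField Module IntermediateField IsDedekindDomain

universe u

lemma gen_F {K : Type u} [Field K] [NumberField K] (φ : K) (hφ : φ ^ 2 = φ + 1)
    (h2 : finrank ℚ K = 2) : ∀ σ τ : K →+* ℂ, σ φ = τ φ → σ = τ := by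
  have hφm : φ ∈ (adjoin ℚ {φ} : IntermediateField ℚ K) :=
    subset_adjoin ℚ {φ} (Set.mem_singleton _)
  have hdvd : 2 ∣ finrank ℚ (adjoin ℚ {φ} : IntermediateField ℚ K) := by
    apply two_dvd_of_phi ⟨φ, hφm⟩
    apply Subtype.ext
    exact hφ
  have hle : finrank ℚ (adjoin ℚ {φ} : IntermediateField ℚ K) ≤ 2 := by
    rw [← h2]
    exact (adjoin ℚ {φ} : IntermediateField ℚ K).toSubalgebra.toSubmodule.finrank_le
  have hpos : 0 < finrank ℚ (adjoin ℚ {φ} : IntermediateField ℚ K) := finrank_pos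
  have heq : finrank ℚ (adjoin ℚ {φ} : IntermediateField ℚ K) = 2 :=
    le_antisymm hle (Nat.le_of_dvd hpos hdvd)
  have htop : (adjoin ℚ {φ} : IntermediateField ℚ K) = ⊤ := by
    apply eq_of_le_of_finrank_eq le_top
    rw [heq, finrank_top', h2]
  intro σ τ hσφ
  have h7 : (σ.toRatAlgHom.comp (⊤ : IntermediateField ℚ K).val) =
      (τ.toRatAlgHom.comp (⊤ : IntermediateField ℚ K).val) := by
    apply algHom_ext_of_eq_adjoin ℚ htop.symm
    intro y hy
    rw [Set.mem_singleton_iff] at hy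
    subst hy
    exact hσφ
  ext y
  have := congrArg (fun s : (⊤ : IntermediateField ℚ K) →ₐ[ℚ] ℂ => s ⟨y, mem_top⟩) h7
  exact this

/-- the two values of `φ` -/
noncomputable def pv2 : Fin 2 → ℝ := ![gP, gQ]

lemma exists_list_F {K : Type u} [Field K] [NumberField K] (φ : K) (hφ : φ ^ 2 = φ + 1)
    (h2 : finrank ℚ K = 2) :
    ∃ f : Fin 2 → (K →+* ℝ), RealList f ∧ ∀ i, f i φ = pv2 i := by
  classical
  have hgen := gen_F φ hφ h2
  have hidx : ∀ σ : K →+* ℂ, ∃ i, σ φ = (pv2 i : ℂ) := by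
    intro σ
    have h1 : (σ φ) ^ 2 = σ φ + 1 := by rw [← map_pow, hφ, map_add, map_one]
    have hP : ((gP : ℝ) : ℂ) + ((gQ : ℝ) : ℂ) = 1 := by exact_mod_cast gP_add_gQ
    have hQ : ((gP : ℝ) : ℂ) * ((gQ : ℝ) : ℂ) = -1 := by exact_mod_cast gP_mul_gQ
    have h3 : (σ φ - gP) * (σ φ - gQ) = 0 := by
      linear_combination h1 - σ φ * hP + hQ
    rcases mul_eq_zero.1 h3 with h | h
    · exact ⟨0, sub_eq_zero.1 h⟩
    · exact ⟨1, sub_eq_zero.1 h⟩
  choose idx hidx using hidx
  have hinj : Function.Injective idx := by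
    intro σ τ h
    apply hgen
    rw [hidx σ, hidx τ, h]
  have hcard : Fintype.card (K →+* ℂ) = Fintype.card (Fin 2) := by
    rw [Embeddings.card, h2, Fintype.card_fin]
  have hbij : Function.Bijective idx :=
    (Fintype.bijective_iff_injective_and_card idx).2 ⟨hinj, hcard⟩
  have hreal : ∀ σ : K →+* ℂ, ComplexEmbedding.IsReal σ := by
    intro σ
    rw [ComplexEmbedding.isReal_iff]
    apply hgen
    rw [ComplexEmbedding.conjugate_coe_eq, hidx σ]
    simp
  choose g hg using hbij.2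
  refine ⟨fun i => (hreal (g i)).embedding, ⟨?_, h2⟩, ?_⟩
  · intro i j hij
    have h1 : g i = g j := by
      ext y
      rw [← ComplexEmbedding.IsReal.coe_embedding_apply (hreal (g i)) y,
        ← ComplexEmbedding.IsReal.coe_embedding_apply (hreal (g j)) y]
      have := congrArg (fun s : K →+* ℝ => (s y : ℂ)) hij
      simpa using this
    rw [← hg i, ← hg j, h1]
  · intro i
    have h1 := ComplexEmbedding.IsReal.coe_embedding_apply (hreal (g i)) φ
    rw [hidx (g i), hg i] at h1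
    exact_mod_cast h1

/-- The square class condition for `ℚ(√5)`. -/
theorem XM_F {K : Type u} [Field K] [NumberField K] (φ : K) (hφ : φ ^ 2 = φ + 1)
    (h2 : finrank ℚ K = 2) : XM K := by
  classical
  obtain ⟨f, hf, hfφ⟩ := exists_list_F φ hφ h2
  obtain ⟨hp1, hp2⟩ := gP_bounds
  obtain ⟨hq1, hq2⟩ := gQ_bounds
  let φ' : 𝓞 K := ⟨φ, isIntegral_phi hφ⟩
  have hφc : algebraMap (𝓞 K) K φ' = φ := rfl
  have hφ' : φ' ^ 2 = φ' + 1 := by
    apply RingOfIntegers.ext
    change algebraMap (𝓞 K) K (φ' ^ 2) = algebraMap (𝓞 K) K (φ' + 1)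
    rw [map_pow, map_add, map_one, hφc]
    exact hφ
  have hdisc : |discr K| ≤ 5 := by
    have h5 := hf.abs_discr_le ![1, φ'] 5 (by
      rw [Matrix.det_fin_two]
      simp only [Matrix.of_apply, Matrix.cons_val_zero, Matrix.cons_val_one, map_one]
      have h6 : f 0 ((φ' : 𝓞 K) : K) = gP := hfφ 0
      have h7 : f 1 ((φ' : 𝓞 K) : K) = gQ := hfφ 1
      rw [h6, h7]
      have a1 := gP_add_gQ
      have a2 := gP_mul_gQ
      linear_combination (gP + gQ + 1) * a1 - 4 * a2) (by norm_num)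
    exact_mod_cast h5
  have hpid : IsPrincipalIdealRing (𝓞 K) := by
    apply RingOfIntegers.isPrincipalIdealRing_of_abs_discr_lt
    rw [hf.nrComplexPlaces_eq_zero, h2]
    have : ((|discr K| : ℤ) : ℝ) ≤ 5 := by exact_mod_cast hdisc
    norm_num [Nat.factorial]
    push_cast at this
    linarith
  have hφunit : IsUnit φ' := IsUnit.of_mul_eq_one (φ' - 1) (by linear_combination hφ')
  obtain ⟨uφ, huφ⟩ := hφunit
  refine XM_of_pid hpid ?_ 2 ?_ 1 (by decide) 1 (by norm_num)
  · intro v hv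
    refine hf.isSquare_of_pos ![-1, uφ] !![1, 0; 1, 1] ?_ v (fun i => hv (f i))
    have h00 : RealList.sgn f (-1 : (𝓞 K)ˣ) 0 = 1 := by simp [RealList.sgn]
    have h01 : RealList.sgn f (-1 : (𝓞 K)ˣ) 1 = 1 := by simp [RealList.sgn]
    have h10 : RealList.sgn f uφ 0 = 0 := by
      rw [RealList.sgn, huφ, if_pos]
      have h6 : f 0 ((φ' : 𝓞 K) : K) = gP := hfφ 0
      rw [h6]
      linarith
    have h11 : RealList.sgn f uφ 1 = 1 := by
      rw [RealList.sgn, huφ, if_neg]
      have h6 : f 1 ((φ' : 𝓞 K) : K) = gQ := hfφ 1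
      rw [h6]
      linarith
    have : (Matrix.of fun i j => RealList.sgn f ((![-1, uφ] : Fin 2 → (𝓞 K)ˣ) j) i) =
        !![1, 0; 1, 1] := by
      ext i j
      fin_cases i <;> fin_cases j
      · exact h00
      · exact h10
      · exact h01
      · exact h11
    rw [this]
    decide
  · intro v hv
    have hle : Ideal.span {(2 : 𝓞 K)} ≤ v.asIdeal := by
      rw [Ideal.span_singleton_le_iff_mem]
      exact hv
    have hP0 : v.asIdeal ≠ ⊥ := v.ne_bot
    have hmax : v.asIdeal.IsMaximal := v.isMaximal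
    let _ : Field (𝓞 K ⧸ v.asIdeal) := Ideal.Quotient.field _
    have hfin : Finite (𝓞 K ⧸ v.asIdeal) := Ideal.finiteQuotientOfFreeOfNeBot _ hP0
    let _ : Fintype (𝓞 K ⧸ v.asIdeal) := Fintype.ofFinite _
    have hcard : Fintype.card (𝓞 K ⧸ v.asIdeal) = Ideal.absNorm v.asIdeal := by
      rw [Ideal.absNorm_apply, Submodule.cardQuot_apply, Nat.card_eq_fintype_card]
    have h4 : 4 ≤ Ideal.absNorm v.asIdeal := by
      rw [← hcard]
      apply four_le_card (φ := Ideal.Quotient.mk v.asIdeal φ')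
      · rw [← map_pow, hφ', map_add, map_one]
      · have := Ideal.Quotient.eq_zero_iff_mem.2 hv
        rwa [map_ofNat] at this
    have h5 : Ideal.absNorm (Ideal.span {(2 : 𝓞 K)}) = 4 := by
      rw [Ideal.absNorm_span_singleton]
      have := Algebra.norm_algebraMap (S := 𝓞 K) (2 : ℤ)
      rw [RingOfIntegers.rank, h2] at this
      simp only [map_ofNat] at this
      rw [this]
      norm_num
    obtain ⟨J, hJ⟩ := Ideal.dvd_iff_le.2 hle
    have h6 : Ideal.absNorm v.asIdeal * Ideal.absNorm J = 4 := by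
      rw [← map_mul, ← hJ, h5]
    have h7 : Ideal.absNorm J = 1 := by
      have h8 : Ideal.absNorm J ≠ 0 := by
        intro h
        rw [h, mul_zero] at h6
        omega
      have h9 : Ideal.absNorm J ≤ 1 := by
        by_contra h
        push Not at h
        have : 4 * 2 ≤ Ideal.absNorm v.asIdeal * Ideal.absNorm J := Nat.mul_le_mul h4 h
        omega
      omega
    rw [Ideal.absNorm_eq_one_iff] at h7
    rw [h7, Ideal.mul_top] at hJ
    exact hJ.symm

end Pool.Agent.Lib.MP_aa8fd2_nt
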