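import Mathlib
import Pool.Agent.Lib.MP_aa8fd2_nt.SexticNorm
import Pool.Agent.Lib.MP_aa8fd2_nt.XMof
import Pool.Agent.Lib.MP_aa8fd2_nt.FFields

/-!
The square class condition for a sextic field from finite certificates.
-/

set_option autoImplicit false

namespace Pool.Agent.Lib.MP_aa8fd2_nt

open NumberField Module IsDedekindDomain

universe u

/-- The certificate for the square class condition. -/
theorem Sextic.xm {K : Type u} [Field K] [NumberField K] {A : ℤ} {b : ℤ × ℤ}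
    {φ x : K} {r : Fin 6 → ℝ} {f : Fin 6 → (K →+* ℝ)} (h : Sextic K A b φ x r f)
    (D : ℤ) (hD : D = 125 * ((4 * A ^ 3 - 27 * (mulP b b).1) ^ 2 -
    27 * (4 * A ^ 3 - 27 * (mulP b b).1) * (mulP b b).2 - 27 ^ 2 * (mulP b b).2 ^ 2))
    (hD0 : D ≠ 0) (N : ℕ) (hN : D * 720 ^ 2 < (46656 * (N + 1)) ^ 2)
    (hff : ∀ (k : Type u) [Field k] [Fintype k] (φ x : k), φ ^ 2 = φ + 1 →
      x ^ 3 = A * x + evP φ b → Fintype.card k ≤ N → Good A b (Fintype.card k) φ x)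
    (cu : Fin 6 → Cf) (hcu : ∀ j, (absN A b (cu j).1 (cu j).2.1 (cu j).2.2).natAbs = 1)
    (S : Matrix (Fin 6) (Fin 6) (ZMod 2))
    (hS : ∀ i j, (if 0 < evC (pv i) (r i) (cu j) then (0 : ZMod 2) else 1) = S i j)
    (c : Matrix (Fin 6) (Fin 6) (ZMod 2)) (hSc : S * c = 1)
    (c2 : Cf) (hc2 : absN A b c2.1 c2.2.1 c2.2.2 ≠ 0)
    (hff2 : ∀ (k : Type u) [Field k] [Fintype k] (φ x : k), φ ^ 2 = φ + 1 →
      x ^ 3 = A * x + evP φ b → (2 : k) = 0 →
      evC φ x c2 = 0 ∧ (absN A b c2.1 c2.2.1 c2.2.2).natAbs ≤ Fintype.card k)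
    (e : ℕ) (he : Odd e) (cw : Cf) (hcw : (absN A b cw.1 cw.2.1 cw.2.2).natAbs = 1)
    (hw : 2 * evC φ x cw = (evC φ x c2) ^ e) : XM K := by
  have hpid := h.isPrincipalIdealRing D hD hD0 N hN hff
  choose u hu using fun j => h.exists_unit (cu j) (hcu j)
  obtain ⟨w, hw'⟩ := h.exists_unit cw hcw
  refine XM_of_pid hpid ?_ (h.elt c2) ?_ e he w ?_
  · intro v hv
    refine h.list.isSquare_of_pos u c ?_ v (fun i => hv (f i))
    have : (Matrix.of fun i j => RealList.sgn f (u j) i) = S := by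
      ext i j
      rw [Matrix.of_apply, ← hS i j, RealList.sgn, hu j, h.elt_coe, h.f_evC]
    rw [this, hSc]
  · intro v hv
    exact h.prime_two c2 hc2 hff2 v.asIdeal v.isPrime hv
  · apply RingOfIntegers.ext
    change algebraMap (𝓞 K) K (2 * (w : 𝓞 K)) = algebraMap (𝓞 K) K (h.elt c2 ^ e)
    rw [map_mul, map_pow, map_ofNat, hw']
    exact hw

end Pool.Agent.Lib.MP_aa8fd2_nt
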