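import Mathlib
import Pool.Agent.Lib.MP_aa8fd2_nt.Gen6
import Pool.Agent.Lib.MP_aa8fd2_nt.FFields
import Pool.Agent.Lib.MP_aa8fd2_nt.SexticXM

/-!
The sextic field `ℚ(φ, x)`, `x^3 = 3 x - 1`.
-/

set_option autoImplicit false

namespace Pool.Agent.Lib.MP_aa8fd2_nt

open NumberField Module IntermediateField

universe u

set_option maxRecDepth 100000 in
lemma ffK0_prime (p : ℕ) (hp : p.Prime) (h13 : p ≤ 13) :
    ∀ φ x : ZMod p, φ ^ 2 = φ + 1 → x ^ 3 = (3 : ℤ) * x + evP φ (-1, 0) →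
      ∃ c ∈ ([] : List Cf), evC φ x c = 0 ∧ absN 3 (-1, 0) c.1 c.2.1 c.2.2 ≠ 0 ∧
        (absN 3 (-1, 0) c.1 c.2.1 c.2.2).natAbs ≤ p := by
  interval_cases p <;> first
    | (exfalso; revert hp; norm_num; done)
    | decide

/-- in characteristic 2 the residue field has at least 64 elements -/
lemma card_K0_two {k : Type*} [Field k] [Fintype k] {φ x : k} (hφ : φ ^ 2 = φ + 1)
    (hx : x ^ 3 = (3 : ℤ) * x + evP φ (-1, 0)) (h2 : (2 : k) = 0) : 64 ≤ Fintype.card k := by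
  obtain ⟨p, hp⟩ := CharP.exists k
  obtain ⟨n, hprime, hcard⟩ := FiniteField.card k p
  have hp2 : p ∣ 2 := (CharP.cast_eq_zero_iff k p 2).1 (by exact_mod_cast h2)
  have hp2' : p = 2 := (Nat.prime_dvd_prime_iff_eq hprime Nat.prime_two).1 hp2
  subst hp2'
  simp only [evP] at hx
  push_cast at hx
  have hx3 : x ^ 3 = x + 1 := by linear_combination hx + (x - 1) * h2
  have hx4 : x ^ 4 = x ^ 2 + x := by linear_combination x * hx3
  have hx7 : x ^ 7 = 1 := by
    linear_combination (x ^ 4 + x ^ 2 + x + 1) * hx3 + (x ^ 2 + x) * h2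
  have hφ3 : φ ^ 3 = 1 := by linear_combination (φ + 1) * hφ + φ * h2
  have hx0 : x ≠ 0 := by
    intro h
    rw [h] at hx3
    have : (1 : k) = 0 := by linear_combination -hx3
    exact one_ne_zero this
  have hx1 : x ≠ 1 := by
    intro h
    rw [h] at hx3
    have : (1 : k) = 0 := by linear_combination -hx3
    exact one_ne_zero this
  have hφ1 : φ ≠ 1 := by
    intro h
    rw [h] at hφ
    have : (1 : k) = 0 := by linear_combination -hφ
    exact one_ne_zero this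
  have hφ0 : φ ≠ 0 := by
    intro h
    rw [h] at hφ
    have : (1 : k) = 0 := by linear_combination -hφ
    exact one_ne_zero this
  have h64 : ¬ (n : ℕ) < 6 := by
    intro hn
    have hc1 := FiniteField.pow_card x
    have hc2 := FiniteField.pow_card φ
    rw [hcard] at hc1 hc2
    have hn1 := n.pos
    generalize (n : ℕ) = m at *
    interval_cases m
    · -- n = 1
      have : φ * (φ - 1) = 0 := by
        norm_num at hc2
        linear_combination hc2
      rcases mul_eq_zero.1 this with h | h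
      · exact hφ0 h
      · exact hφ1 (sub_eq_zero.1 h)
    · -- n = 2
      norm_num at hc1
      have : x ^ 2 = 0 := by linear_combination hc1 - hx4
      exact hx0 (pow_eq_zero_iff (by norm_num) |>.1 this)
    · -- n = 3
      norm_num at hc2
      have : φ * (φ - 1) = 0 := by
        linear_combination hc2 - (φ ^ 5 + φ ^ 2) * hφ3
      rcases mul_eq_zero.1 this with h | h
      · exact hφ0 h
      · exact hφ1 (sub_eq_zero.1 h)
    · -- n = 4
      norm_num at hc1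
      have : x * (x - 1) = 0 := by
        linear_combination hc1 - (x ^ 9 + x ^ 2) * hx7
      rcases mul_eq_zero.1 this with h | h
      · exact hx0 h
      · exact hx1 (sub_eq_zero.1 h)
    · -- n = 5
      norm_num at hc2
      have : φ * (φ - 1) = 0 := by
        linear_combination hc2 - (φ ^ 29 + φ ^ 26 + φ ^ 23 + φ ^ 20 + φ ^ 17 + φ ^ 14 + φ ^ 11 +
          φ ^ 8 + φ ^ 5 + φ ^ 2) * hφ3
      rcases mul_eq_zero.1 this with h | h
      · exact hφ0 h
      · exact hφ1 (sub_eq_zero.1 h)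
  rw [hcard]
  calc 64 = 2 ^ 6 := by norm_num
    _ ≤ 2 ^ (n : ℕ) := Nat.pow_le_pow_right (by norm_num) (by omega)

/-- the finite field statement for `K_0` -/
theorem ffK0 (k : Type*) [Field k] [Fintype k] (φ x : k) (hφ : φ ^ 2 = φ + 1)
    (hx : x ^ 3 = (3 : ℤ) * x + evP φ (-1, 0)) (hN : Fintype.card k ≤ 13) :
    Good 3 (-1, 0) (Fintype.card k) φ x := by
  obtain ⟨p, hp⟩ := CharP.exists k
  obtain ⟨n, hprime, hcard⟩ := FiniteField.card k p
  have : Fact p.Prime := ⟨hprime⟩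
  have hp0 : (p : k) = 0 := CharP.cast_eq_zero k p
  by_cases hn : (n : ℕ) = 1
  · rw [hn, pow_one] at hcard
    exact ff_prime hφ hx hprime hcard [] (ffK0_prime p hprime (hcard ▸ hN))
  · have hn2 : 2 ≤ (n : ℕ) := by
      have := n.pos
      omega
    have h55 : p ^ (n : ℕ) ≤ 55 := by
      rw [← hcard]
      omega
    rcases pow_le_cases hprime hn2 h55 with rfl | rfl | ⟨rfl, h2⟩ | ⟨rfl, h2⟩
    · have h2 : (2 : k) = 0 := by exact_mod_cast hp0
      have := card_K0_two hφ hx h2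
      omega
    · simp only [evP] at hx
      push_cast at hx
      have h2 : (3 : k) = 0 := by exact_mod_cast hp0
      have hx0 : x + 1 = 0 := by
        have h3 : (x + 1) ^ 3 = 0 := by
          linear_combination hx + (x ^ 2 + 2 * x) * h2
        exact pow_eq_zero_iff (by norm_num) |>.1 h3
      refine ⟨((1, 0), (1, 0), (0, 0)), ?_, by decide, ?_⟩
      · simp only [evC, evP]
        push_cast
        linear_combination hx0
      · rw [hcard]
        calc _ = 3 ^ 2 := by decide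
          _ ≤ 3 ^ (n : ℕ) := Nat.pow_le_pow_right (by norm_num) hn2
    · rw [hcard, h2] at hN
      norm_num at hN
    · rw [hcard, h2] at hN
      norm_num at hN

lemma three_dvd_of_cubic {K : Type*} [Field K] [NumberField K] (x : K)
    (hx : x ^ 3 = 3 * x - 1) : 3 ∣ finrank ℚ K := by
  have hm : (Polynomial.X ^ 3 - 3 * Polynomial.X + 1 : Polynomial ℚ).Monic := by monicity!
  have hd : (Polynomial.X ^ 3 - 3 * Polynomial.X + 1 : Polynomial ℚ).natDegree = 3 := by
    compute_degree!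
  have hirr : Irreducible (Polynomial.X ^ 3 - 3 * Polynomial.X + 1 : Polynomial ℚ) := by
    rw [hm.irreducible_iff_roots_eq_zero_of_degree_le_three (by rw [hd]; norm_num) (by rw [hd])]
    rw [Multiset.eq_zero_iff_forall_notMem]
    intro a ha
    rw [Polynomial.mem_roots hm.ne_zero, Polynomial.IsRoot.def] at ha
    simp only [Polynomial.eval_sub, Polynomial.eval_pow, Polynomial.eval_X, Polynomial.eval_add,
      Polynomial.eval_mul, Polynomial.eval_ofNat, Polynomial.eval_one] at ha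
    have hint : IsIntegral ℤ a := by
      refine ⟨Polynomial.X ^ 3 - 3 * Polynomial.X + 1, by monicity!, ?_⟩
      simp only [Polynomial.eval₂_add, Polynomial.eval₂_sub, Polynomial.eval₂_pow,
        Polynomial.eval₂_X, Polynomial.eval₂_mul, Polynomial.eval₂_ofNat, Polynomial.eval₂_one]
      exact ha
    obtain ⟨m, hm'⟩ := IsIntegrallyClosed.isIntegral_iff.1 hint
    have h1 : m ^ 3 - 3 * m + 1 = 0 := by
      have : ((m : ℚ)) ^ 3 - 3 * (m : ℚ) + 1 = 0 := by
        have h2 : (m : ℚ) = a := hm'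
        rw [h2]
        exact ha
      exact_mod_cast this
    have h2 : m * (3 - m ^ 2) = 1 := by linear_combination -h1
    have h3 : m = 1 ∨ m = -1 := Int.isUnit_iff.1 (IsUnit.of_mul_eq_one _ h2)
    rcases h3 with rfl | rfl <;> norm_num at h1
  have hmin : minpoly ℚ x = Polynomial.X ^ 3 - 3 * Polynomial.X + 1 := by
    symm
    apply minpoly.eq_of_irreducible_of_monic hirr
    · simp only [map_sub, map_pow, Polynomial.aeval_X, map_one, map_add, map_mul, map_ofNat]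
      linear_combination hx
    · exact hm
  have h1 : finrank ℚ ℚ⟮x⟯ = 3 := by
    rw [adjoin.finrank (Algebra.IsIntegral.isIntegral x), hmin, hd]
  rw [← h1]
  exact Dvd.intro _ (finrank_mul_finrank ℚ ℚ⟮x⟯ K)

lemma gen_K0 {K : Type u} [Field K] [NumberField K] (φ x : K) (hφ : φ ^ 2 = φ + 1)
    (hx : x ^ 3 = 3 * x - 1) (h6 : finrank ℚ K = 6) :
    ∀ σ τ : K →+* ℂ, σ φ = τ φ → σ x = τ x → σ = τ := by
  apply gen_of_six φ x hφ h6
  have hxm : x ∈ (adjoin ℚ {φ, x} : IntermediateField ℚ K) :=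
    subset_adjoin ℚ {φ, x} (Set.mem_insert_of_mem _ (Set.mem_singleton _))
  exact three_dvd_of_cubic (⟨x, hxm⟩ : (adjoin ℚ {φ, x} : IntermediateField ℚ K))
    (Subtype.ext hx)

/-- the real roots for `K_0`, with their positions -/
lemma roots_K0 : ∃ r : Fin 6 → ℝ, RealRoots 3 (-1, 0) r ∧
    (-2 < r 0 ∧ r 0 < -1.7) ∧ (0.3 < r 1 ∧ r 1 < 0.4) ∧ (1.5 < r 2 ∧ r 2 < 1.6) ∧
    (-2 < r 3 ∧ r 3 < -1.7) ∧ (0.3 < r 4 ∧ r 4 < 0.4) ∧ (1.5 < r 5 ∧ r 5 < 1.6) := by
  obtain ⟨r0, r1, r2, h0, h1, h2, e1, e2, e3⟩ := exists_three_roots' 3 (-1)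
    (-2) (-1.7) 0.3 0.4 1.5 1.6 (by norm_num) (by norm_num) (by norm_num) (by norm_num)
    (by norm_num) (by norm_num) (by norm_num) (by norm_num) (by norm_num) (by norm_num)
    (by norm_num)
  refine ⟨![r0, r1, r2, r0, r1, r2], ⟨?_, ?_, ?_, ?_, e1, ?_, ?_, e1, ?_, ?_⟩, h0, h1, h2, h0,
    h1, h2⟩
  · show r0 < r1
    linarith [h0.2, h1.1]
  · show r1 < r2
    linarith [h1.2, h2.1]
  · show r0 < r1
    linarith [h0.2, h1.1]
  · show r1 < r2
    linarith [h1.2, h2.1]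
  · simpa using e2
  · simpa [evP] using e3
  · simpa using e2
  · simpa [evP] using e3

/-- six units of `K_0` -/
def cu0 : Fin 6 → Cf :=
  ![((-1, 0), (0, 0), (0, 0)), ((0, 1), (0, 0), (0, 0)), ((0, 0), (1, 0), (0, 0)),
    ((-1, 0), (1, 0), (0, 0)), ((0, 1), (1, 0), (0, 0)), ((0, -1), (1, 0), (0, 0))]

lemma cu0_norm : ∀ j, (absN 3 (-1, 0) (cu0 j).1 (cu0 j).2.1 (cu0 j).2.2).natAbs = 1 := by decide

/-- signs of the units of `K_0` -/
def S0m : Matrix (Fin 6) (Fin 6) (ZMod 2) :=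
  !![1, 0, 1, 1, 1, 1; 1, 0, 0, 1, 0, 1; 1, 0, 0, 0, 0, 1; 1, 1, 1, 1, 1, 1; 1, 1, 0, 1, 1, 0;
    1, 1, 0, 0, 0, 0]

/-- inverse of the sign matrix -/
def S0i : Matrix (Fin 6) (Fin 6) (ZMod 2) :=
  !![1, 0, 0, 1, 0, 1; 1, 0, 0, 1, 0, 0; 1, 0, 1, 0, 1, 1; 0, 1, 1, 0, 0, 0; 0, 1, 1, 0, 1, 1;
    1, 0, 1, 1, 0, 1]

set_option maxRecDepth 100000 in
lemma S0_mul : S0m * S0i = 1 := by decide

lemma signs_K0 (r : Fin 6 → ℝ)
    (h0 : -2 < r 0 ∧ r 0 < -1.7) (h1 : 0.3 < r 1 ∧ r 1 < 0.4) (h2 : 1.5 < r 2 ∧ r 2 < 1.6)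
    (h3 : -2 < r 3 ∧ r 3 < -1.7) (h4 : 0.3 < r 4 ∧ r 4 < 0.4) (h5 : 1.5 < r 5 ∧ r 5 < 1.6) :
    ∀ i j, (if 0 < evC (pv i) (r i) (cu0 j) then (0 : ZMod 2) else 1) = S0m i j := by
  obtain ⟨hp1, hp2⟩ := gP_bounds
  obtain ⟨hq1, hq2⟩ := gQ_bounds
  have hF : ∀ i j, evC (pv i) (r i) (cu0 j) =
      ![-1, pv i, r i, -1 + r i, pv i + r i, -pv i + r i] j := by
    intro i j
    fin_cases j <;> simp [evC, evP, cu0]
  intro i j
  rw [hF]
  fin_cases i <;> fin_cases j
  · exact sg_neg (show (-1 : ℝ) < 0 by norm_num)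
  · exact sg_pos (show (0 : ℝ) < gP by linarith)
  · exact sg_neg (show (r 0 : ℝ) < 0 by linarith)
  · exact sg_neg (show (-1 + r 0 : ℝ) < 0 by linarith)
  · exact sg_neg (show (gP + r 0 : ℝ) < 0 by linarith)
  · exact sg_neg (show (-gP + r 0 : ℝ) < 0 by linarith)
  · exact sg_neg (show (-1 : ℝ) < 0 by norm_num)
  · exact sg_pos (show (0 : ℝ) < gP by linarith)
  · exact sg_pos (show (0 : ℝ) < r 1 by linarith)
  · exact sg_neg (show (-1 + r 1 : ℝ) < 0 by linarith)
  · exact sg_pos (show (0 : ℝ) < gP + r 1 by linarith)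
  · exact sg_neg (show (-gP + r 1 : ℝ) < 0 by linarith)
  · exact sg_neg (show (-1 : ℝ) < 0 by norm_num)
  · exact sg_pos (show (0 : ℝ) < gP by linarith)
  · exact sg_pos (show (0 : ℝ) < r 2 by linarith)
  · exact sg_pos (show (0 : ℝ) < -1 + r 2 by linarith)
  · exact sg_pos (show (0 : ℝ) < gP + r 2 by linarith)
  · exact sg_neg (show (-gP + r 2 : ℝ) < 0 by linarith)
  · exact sg_neg (show (-1 : ℝ) < 0 by norm_num)
  · exact sg_neg (show (gQ : ℝ) < 0 by linarith)
  · exact sg_neg (show (r 3 : ℝ) < 0 by linarith)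
  · exact sg_neg (show (-1 + r 3 : ℝ) < 0 by linarith)
  · exact sg_neg (show (gQ + r 3 : ℝ) < 0 by linarith)
  · exact sg_neg (show (-gQ + r 3 : ℝ) < 0 by linarith)
  · exact sg_neg (show (-1 : ℝ) < 0 by norm_num)
  · exact sg_neg (show (gQ : ℝ) < 0 by linarith)
  · exact sg_pos (show (0 : ℝ) < r 4 by linarith)
  · exact sg_neg (show (-1 + r 4 : ℝ) < 0 by linarith)
  · exact sg_neg (show (gQ + r 4 : ℝ) < 0 by linarith)
  · exact sg_pos (show (0 : ℝ) < -gQ + r 4 by linarith)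
  · exact sg_neg (show (-1 : ℝ) < 0 by norm_num)
  · exact sg_neg (show (gQ : ℝ) < 0 by linarith)
  · exact sg_pos (show (0 : ℝ) < r 5 by linarith)
  · exact sg_pos (show (0 : ℝ) < -1 + r 5 by linarith)
  · exact sg_pos (show (0 : ℝ) < gQ + r 5 by linarith)
  · exact sg_pos (show (0 : ℝ) < -gQ + r 5 by linarith)

/-- The square class condition for the sextic field `x^3 = 3 x - 1`. -/
theorem XM_K0 {K : Type u} [Field K] [NumberField K] (φ x : K) (hφ : φ ^ 2 = φ + 1)
    (hx : x ^ 3 = 3 * x - 1) (h6 : finrank ℚ K = 6) : XM K := by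
  obtain ⟨r, hr, h0, h1, h2, h3, h4, h5⟩ := roots_K0
  have hx' : x ^ 3 = (3 : ℤ) * x + evP φ (-1, 0) := by
    simp only [evP]
    push_cast
    linear_combination hx
  obtain ⟨f, h⟩ := exists_sextic hφ hx' hr h6 (gen_K0 φ x hφ hx h6)
  refine h.xm 820125 (by decide) (by decide) 13 (by norm_num) ?_ cu0 cu0_norm S0m
    (signs_K0 r h0 h1 h2 h3 h4 h5) S0i S0_mul ((2, 0), (0, 0), (0, 0)) (by decide) ?_ 1
    (by decide) ((1, 0), (0, 0), (0, 0)) (by decide) ?_
  · intro k _ _ φ x hφ hx hk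
    exact ffK0 k φ x hφ hx hk
  · intro k _ _ φ x hφ hx h2k
    refine ⟨?_, ?_⟩
    · simp only [evC, evP]
      push_cast
      linear_combination h2k
    · exact (show (absN 3 (-1, 0) (2, 0) (0, 0) (0, 0)).natAbs = 64 by decide) ▸
        card_K0_two hφ hx h2k
  · simp only [evC, evP]
    push_cast
    ring

end Pool.Agent.Lib.MP_aa8fd2_nt
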