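import Mathlib
import Pool.Agent.Lib.MP_aa8fd2_nt.FFields

/-!
Finite field analysis for the sextic field `x^3 = 6 x + 2 (2 φ - 1)`.
-/

set_option autoImplicit false

namespace Pool.Agent.Lib.MP_aa8fd2_nt

open Module

/-- candidates for `K_1` -/
def L1 : List Cf :=
  [((-1, 2), (1, 0), (0, 0)), ((-1, 0), (1, 0), (0, 0)), ((1, 0), (1, 0), (0, 0))]

set_option maxRecDepth 100000 in
lemma ffK1_prime (p : ℕ) (hp : p.Prime) (h55 : p ≤ 55) :
    ∀ φ x : ZMod p, φ ^ 2 = φ + 1 → x ^ 3 = (6 : ℤ) * x + evP φ (-2, 4) →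
      ∃ c ∈ L1, evC φ x c = 0 ∧ absN 6 (-2, 4) c.1 c.2.1 c.2.2 ≠ 0 ∧
        (absN 6 (-2, 4) c.1 c.2.1 c.2.2).natAbs ≤ p := by
  interval_cases p <;> first
    | (exfalso; revert hp; norm_num; done)
    | decide

lemma no_phi_seven' : ∀ a : ZMod 7, a ^ 2 ≠ a + 1 := by decide

set_option maxRecDepth 100000 in
lemma sol_K1 : ∀ a b : ZMod 7, (a ^ 3 + 3 * a * b ^ 2 + b ^ 3 - 6 * a + 2 = 0 ∧
    3 * a ^ 2 * b + 3 * a * b ^ 2 + 2 * b ^ 3 - 6 * b - 4 = 0) →
    (a = 3 ∧ b = 1) ∨ (a = 5 ∧ b = 3) ∨ (a = 6 ∧ b = 3) := by decide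

/-- the finite field statement for `K_1` -/
theorem ffK1 (k : Type*) [Field k] [Fintype k] (φ x : k) (hφ : φ ^ 2 = φ + 1)
    (hx : x ^ 3 = (6 : ℤ) * x + evP φ (-2, 4)) (hN : Fintype.card k ≤ 55) :
    Good 6 (-2, 4) (Fintype.card k) φ x := by
  obtain ⟨p, hp⟩ := CharP.exists k
  obtain ⟨n, hprime, hcard⟩ := FiniteField.card k p
  have : Fact p.Prime := ⟨hprime⟩
  have hp0 : (p : k) = 0 := CharP.cast_eq_zero k p
  by_cases hn : (n : ℕ) = 1
  · rw [hn, pow_one] at hcard
    exact ff_prime hφ hx hprime hcard L1 (ffK1_prime p hprime (hcard ▸ hN))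
  · have hn2 : 2 ≤ (n : ℕ) := by
      have := n.pos
      omega
    simp only [evP] at hx
    push_cast at hx
    rcases pow_le_cases hprime hn2 (hcard ▸ hN) with rfl | rfl | ⟨rfl, h2⟩ | ⟨rfl, h2⟩
    · have h2 : (2 : k) = 0 := by exact_mod_cast hp0
      have hx0 : x = 0 := by
        have h3 : x ^ 3 = 0 := by
          rw [hx]
          linear_combination (3 * x - 1 + 2 * φ) * h2
        exact pow_eq_zero_iff (by norm_num) |>.1 h3
      refine ⟨((-2, 0), (1, 0), (0, 0)), ?_, by decide, ?_⟩
      · simp only [evC, evP]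
        push_cast
        rw [hx0]
        linear_combination -h2
      · rw [hcard]
        calc _ = 2 ^ 2 := by decide
          _ ≤ 2 ^ (n : ℕ) := Nat.pow_le_pow_right (by norm_num) hn2
    · have h2 : (3 : k) = 0 := by exact_mod_cast hp0
      have hx0 : x + 1 + φ = 0 := by
        have h3 : (x + 1 + φ) ^ 3 = 0 := by
          have h4 : (x + 1 + φ) ^ 3 = x ^ 3 + 1 + φ ^ 3 +
              3 * (x ^ 2 * (1 + φ) + x * (1 + φ) ^ 2 + φ + φ ^ 2) := by ring
          have h5 : φ ^ 3 = 2 * φ + 1 := by linear_combination (φ + 1) * hφ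
          rw [h4, hx, h5]
          linear_combination (2 * x + 2 * φ + (x ^ 2 * (1 + φ) + x * (1 + φ) ^ 2 + φ + φ ^ 2)) * h2
        exact pow_eq_zero_iff (by norm_num) |>.1 h3
      refine ⟨((0, -1), (-1, 0), (1, 0)), ?_, by decide, ?_⟩
      · simp only [evC, evP]
        push_cast
        linear_combination (x - 2 - φ) * hx0 + hφ + (1 + φ) * h2
      · rw [hcard]
        calc _ = 3 ^ 2 := by decide
          _ ≤ 3 ^ (n : ℕ) := Nat.pow_le_pow_right (by norm_num) hn2
    · have h5 : (5 : k) = 0 := by exact_mod_cast hp0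
      have hφ3 : φ = 3 := by
        have h3 : (φ - 3) ^ 2 = 0 := by linear_combination hφ + (2 - φ) * h5
        exact sub_eq_zero.1 (pow_eq_zero_iff (by norm_num) |>.1 h3)
      have h6 : x * ((x - 1) * (x + 1)) = 0 := by
        rw [hφ3] at hx
        linear_combination hx + (x + 2) * h5
      rcases mul_eq_zero.1 h6 with h7 | h7
      · refine ⟨((-1, 2), (1, 0), (0, 0)), ?_, by decide, ?_⟩
        · simp only [evC, evP]
          push_cast
          rw [hφ3, h7]
          linear_combination h5
        · rw [hcard, h2]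
          decide
      · rcases mul_eq_zero.1 h7 with h7 | h7
        · refine ⟨((-1, 0), (1, 0), (0, 0)), ?_, by decide, ?_⟩
          · simp only [evC, evP]
            push_cast
            linear_combination h7
          · rw [hcard, h2]
            decide
        · refine ⟨((1, 0), (1, 0), (0, 0)), ?_, by decide, ?_⟩
          · simp only [evC, evP]
            push_cast
            linear_combination h7
          · rw [hcard, h2]
            decide
    · have h7 : (7 : k) = 0 := by exact_mod_cast hp0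
      rw [h2] at hcard
      obtain ⟨hind, hrep⟩ := exists_repr 7 hcard hφ no_phi_seven'
      obtain ⟨a, b, hab⟩ := hrep x
      have h3 := hind (a ^ 3 + 3 * a * b ^ 2 + b ^ 3 - 6 * a + 2)
        (3 * a ^ 2 * b + 3 * a * b ^ 2 + 2 * b ^ 3 - 6 * b - 4) (by
          simp only [map_add, map_sub, map_mul, map_pow, map_ofNat]
          rw [hab] at hx
          generalize (ZMod.castHom (dvd_refl 7) k) a = u at *
          generalize (ZMod.castHom (dvd_refl 7) k) b = v at *
          linear_combination hx - (3 * u * v ^ 2 + v ^ 3 * (φ + 1)) * hφ)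
      rcases sol_K1 a b h3 with ⟨ha, hb⟩ | ⟨ha, hb⟩ | ⟨ha, hb⟩
      · rw [ha, hb, map_ofNat, map_one] at hab
        refine ⟨((-3, 0), (0, 0), (1, 0)), ?_, by decide, ?_⟩
        · simp only [evC, evP]
          push_cast
          rw [hab]
          linear_combination hφ + (1 + φ) * h7
        · rw [hcard]
          decide
      · rw [ha, hb, map_ofNat, map_ofNat] at hab
        refine ⟨((2, -3), (1, 0), (0, 0)), ?_, by decide, ?_⟩
        · simp only [evC, evP]
          push_cast
          rw [hab]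
          linear_combination h7
        · rw [hcard]
          decide
      · rw [ha, hb, map_ofNat, map_ofNat] at hab
        refine ⟨((1, -3), (1, 0), (0, 0)), ?_, by decide, ?_⟩
        · simp only [evC, evP]
          push_cast
          rw [hab]
          linear_combination h7
        · rw [hcard]
          decide

end Pool.Agent.Lib.MP_aa8fd2_nt
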