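import Mathlib
import Pool.Agent.Lib.MP_aa8fd2_nt.Gen6
import Pool.Agent.Lib.MP_aa8fd2_nt.FFK1
import Pool.Agent.Lib.MP_aa8fd2_nt.SexticXM

/-!
The sextic field `ℚ(φ, x)`, `x^3 = 6 x + 2 (2 φ - 1)`.
-/

set_option autoImplicit false

namespace Pool.Agent.Lib.MP_aa8fd2_nt

open NumberField Module IntermediateField

universe u

lemma gen_K1 {K : Type u} [Field K] [NumberField K] (φ x : K) (hφ : φ ^ 2 = φ + 1)
    (hx : x ^ 3 = 6 * x + 2 * (2 * φ - 1)) (h6 : finrank ℚ K = 6) :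
    ∀ σ τ : K →+* ℂ, σ φ = τ φ → σ x = τ x → σ = τ := by
  apply gen_of_six φ x hφ h6
  have hφm : φ ∈ (adjoin ℚ {φ, x} : IntermediateField ℚ K) :=
    subset_adjoin ℚ {φ, x} (Set.mem_insert _ _)
  have hxm : x ∈ (adjoin ℚ {φ, x} : IntermediateField ℚ K) :=
    subset_adjoin ℚ {φ, x} (Set.mem_insert_of_mem _ (Set.mem_singleton _))
  generalize (adjoin ℚ {φ, x} : IntermediateField ℚ K) = E at *
  let φ' : E := ⟨φ, hφm⟩
  let x' : E := ⟨x, hxm⟩
  have hφ' : φ' ^ 2 = φ' + 1 := Subtype.ext hφ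
  have hx' : x' ^ 3 = 6 * x' + 2 * (2 * φ' - 1) := Subtype.ext hx
  have hx'' : x' ^ 3 = (6 : ℤ) * x' + evP φ' (-2, 4) := by
    simp only [evP]
    push_cast
    linear_combination hx'
  have key : ∀ c : Cf, IsIntegral ℤ (evC φ' x' c) := fun c => isIntegral_evC hφ' hx'' c
  apply three_dvd_of_cube (evC φ' x' ((-2, 0), (1, 0), (0, 0)))
    (evC φ' x' ((-5, 2), (9, 0), (-3, 0)))
    (evC φ' x' ((1065, -658), (-873, 540), (-456, 282))) (key _) (key _) (key _)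
  · simp only [evC, evP]
    push_cast
    linear_combination ((-846) * φ' * x' + (1368) * x' + (918) * φ' + (-1485)) * hx' +
      ((564) * x' ^ 2 + (-2304) * x' + (2356)) * hφ'
  · simp only [evC, evP]
    push_cast
    linear_combination hx'

/-- the real roots for `K_1`, with their positions -/
lemma roots_K1 : ∃ r : Fin 6 → ℝ, RealRoots 6 (-2, 4) r ∧
    (-2 < r 0 ∧ r 0 < -1.65) ∧ (-1.6 < r 1 ∧ r 1 < -0.65) ∧ (2.5 < r 2 ∧ r 2 < 3) ∧
    (-3 < r 3 ∧ r 3 < -2.5) ∧ (0.65 < r 4 ∧ r 4 < 1.6) ∧ (1.65 < r 5 ∧ r 5 < 2) := by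
  obtain ⟨hp1, hp2⟩ := gP_bounds
  obtain ⟨hq1, hq2⟩ := gQ_bounds
  obtain ⟨r0, r1, r2, h0, h1, h2, e1, e2, e3⟩ := exists_three_roots' 6 (evP gP (-2, 4))
    (-2) (-1.65) (-1.6) (-0.65) 2.5 3 (by norm_num) (by norm_num) (by norm_num) (by norm_num)
    (by norm_num)
    (by norm_num [evP]; linarith) (by norm_num [evP]; linarith) (by norm_num [evP]; linarith)
    (by norm_num [evP]; linarith) (by norm_num [evP]; linarith) (by norm_num [evP]; linarith)
  obtain ⟨r3, r4, r5, h3, h4, h5, e1', e2', e3'⟩ := exists_three_roots' 6 (evP gQ (-2, 4))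
    (-3) (-2.5) (0.65) (1.6) 1.65 2 (by norm_num) (by norm_num) (by norm_num) (by norm_num)
    (by norm_num)
    (by norm_num [evP]; linarith) (by norm_num [evP]; linarith) (by norm_num [evP]; linarith)
    (by norm_num [evP]; linarith) (by norm_num [evP]; linarith) (by norm_num [evP]; linarith)
  refine ⟨![r0, r1, r2, r3, r4, r5], ⟨?_, ?_, ?_, ?_, e1, ?_, e3, e1', ?_, e3'⟩, h0, h1, h2, h3,
    h4, h5⟩
  · show r0 < r1
    linarith [h0.2, h1.1]
  · show r1 < r2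
    linarith [h1.2, h2.1]
  · show r3 < r4
    linarith [h3.2, h4.1]
  · show r4 < r5
    linarith [h4.2, h5.1]
  · simpa using e2
  · simpa using e2'

/-- six units of `K_1` -/
def cu1 : Fin 6 → Cf :=
  ![((-1, 0), (0, 0), (0, 0)), ((0, 1), (0, 0), (0, 0)), ((-1, 1), (1, 0), (0, 0)),
    ((0, 1), (1, 0), (0, 0)), ((-5, 2), (9, 0), (-3, 0)), ((3, 2), (9, 0), (3, 0))]

lemma cu1_norm : ∀ j, (absN 6 (-2, 4) (cu1 j).1 (cu1 j).2.1 (cu1 j).2.2).natAbs = 1 := by decide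

/-- signs of the units of `K_1` -/
def S1m : Matrix (Fin 6) (Fin 6) (ZMod 2) :=
  !![1, 0, 1, 1, 1, 0; 1, 0, 1, 0, 1, 0; 1, 0, 0, 0, 0, 0; 1, 1, 1, 1, 1, 1; 1, 1, 1, 0, 1, 0;
    1, 1, 0, 0, 1, 0]

/-- inverse of the sign matrix -/
def S1i : Matrix (Fin 6) (Fin 6) (ZMod 2) :=
  !![0, 0, 1, 0, 0, 0; 0, 1, 0, 0, 1, 0; 0, 0, 0, 0, 1, 1; 1, 1, 0, 0, 0, 0; 0, 1, 1, 0, 1, 1;
    1, 1, 0, 1, 1, 0]

set_option maxRecDepth 100000 in
lemma S1_mul : S1m * S1i = 1 := by decide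

lemma signs_K1 (r : Fin 6 → ℝ) (hr : RealRoots 6 (-2, 4) r)
    (h0 : -2 < r 0 ∧ r 0 < -1.65) (h1 : -1.6 < r 1 ∧ r 1 < -0.65) (h2 : 2.5 < r 2 ∧ r 2 < 3)
    (h3 : -3 < r 3 ∧ r 3 < -2.5) (h4 : 0.65 < r 4 ∧ r 4 < 1.6) (h5 : 1.65 < r 5 ∧ r 5 < 2) :
    ∀ i j, (if 0 < evC (pv i) (r i) (cu1 j) then (0 : ZMod 2) else 1) = S1m i j := by
  obtain ⟨hp1, hp2⟩ := gP_bounds
  obtain ⟨hq1, hq2⟩ := gQ_bounds
  have hF : ∀ i j, evC (pv i) (r i) (cu1 j) =
      ![-1, pv i, -1 + pv i + r i, pv i + r i, (r i - 2) ^ 3 / 2, (r i + 2) ^ 3 / 2] j := by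
    intro i j
    have hc := hr.cube i
    simp only [evP] at hc
    push_cast at hc
    fin_cases j
    · simp [evC, evP, cu1]
    · simp [evC, evP, cu1]
    · simp [evC, evP, cu1]
    · simp [evC, evP, cu1]
    · simp [evC, evP, cu1]
      linear_combination (-1 / 2) * hc
    · simp [evC, evP, cu1]
      linear_combination (-1 / 2) * hc
  intro i j
  rw [hF]
  fin_cases i <;> fin_cases j
  · exact sg_neg (show (-1 : ℝ) < 0 by norm_num)
  · exact sg_pos (show (0 : ℝ) < gP by linarith)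
  · exact sg_neg (show (-1 + gP + r 0 : ℝ) < 0 by linarith)
  · exact sg_neg (show (gP + r 0 : ℝ) < 0 by linarith)
  · exact sg_neg (show ((r 0 - 2) ^ 3 / 2 : ℝ) < 0 from cube_half_neg (by linarith))
  · exact sg_pos (show (0 : ℝ) < (r 0 + 2) ^ 3 / 2 from cube_half_pos (by linarith))
  · exact sg_neg (show (-1 : ℝ) < 0 by norm_num)
  · exact sg_pos (show (0 : ℝ) < gP by linarith)
  · exact sg_neg (show (-1 + gP + r 1 : ℝ) < 0 by linarith)
  · exact sg_pos (show (0 : ℝ) < gP + r 1 by linarith)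
  · exact sg_neg (show ((r 1 - 2) ^ 3 / 2 : ℝ) < 0 from cube_half_neg (by linarith))
  · exact sg_pos (show (0 : ℝ) < (r 1 + 2) ^ 3 / 2 from cube_half_pos (by linarith))
  · exact sg_neg (show (-1 : ℝ) < 0 by norm_num)
  · exact sg_pos (show (0 : ℝ) < gP by linarith)
  · exact sg_pos (show (0 : ℝ) < -1 + gP + r 2 by linarith)
  · exact sg_pos (show (0 : ℝ) < gP + r 2 by linarith)
  · exact sg_pos (show (0 : ℝ) < (r 2 - 2) ^ 3 / 2 from cube_half_pos (by linarith))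
  · exact sg_pos (show (0 : ℝ) < (r 2 + 2) ^ 3 / 2 from cube_half_pos (by linarith))
  · exact sg_neg (show (-1 : ℝ) < 0 by norm_num)
  · exact sg_neg (show (gQ : ℝ) < 0 by linarith)
  · exact sg_neg (show (-1 + gQ + r 3 : ℝ) < 0 by linarith)
  · exact sg_neg (show (gQ + r 3 : ℝ) < 0 by linarith)
  · exact sg_neg (show ((r 3 - 2) ^ 3 / 2 : ℝ) < 0 from cube_half_neg (by linarith))
  · exact sg_neg (show ((r 3 + 2) ^ 3 / 2 : ℝ) < 0 from cube_half_neg (by linarith))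
  · exact sg_neg (show (-1 : ℝ) < 0 by norm_num)
  · exact sg_neg (show (gQ : ℝ) < 0 by linarith)
  · exact sg_neg (show (-1 + gQ + r 4 : ℝ) < 0 by linarith)
  · exact sg_pos (show (0 : ℝ) < gQ + r 4 by linarith)
  · exact sg_neg (show ((r 4 - 2) ^ 3 / 2 : ℝ) < 0 from cube_half_neg (by linarith))
  · exact sg_pos (show (0 : ℝ) < (r 4 + 2) ^ 3 / 2 from cube_half_pos (by linarith))
  · exact sg_neg (show (-1 : ℝ) < 0 by norm_num)
  · exact sg_neg (show (gQ : ℝ) < 0 by linarith)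
  · exact sg_pos (show (0 : ℝ) < -1 + gQ + r 5 by linarith)
  · exact sg_pos (show (0 : ℝ) < gQ + r 5 by linarith)
  · exact sg_neg (show ((r 5 - 2) ^ 3 / 2 : ℝ) < 0 from cube_half_neg (by linarith))
  · exact sg_pos (show (0 : ℝ) < (r 5 + 2) ^ 3 / 2 from cube_half_pos (by linarith))

/-- The square class condition for the sextic field `x^3 = 6 x + 2 (2 φ - 1)`. -/
theorem XM_K1 {K : Type u} [Field K] [NumberField K] (φ x : K) (hφ : φ ^ 2 = φ + 1)
    (hx : x ^ 3 = 6 * x + 2 * (2 * φ - 1)) (h6 : finrank ℚ K = 6) : XM K := by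
  obtain ⟨r, hr, h0, h1, h2, h3, h4, h5⟩ := roots_K1
  have hx' : x ^ 3 = (6 : ℤ) * x + evP φ (-2, 4) := by
    simp only [evP]
    push_cast
    linear_combination hx
  obtain ⟨f, h⟩ := exists_sextic hφ hx' hr h6 (gen_K1 φ x hφ hx h6)
  refine h.xm 13122000 (by decide) (by decide) 55 (by norm_num) ?_ cu1 cu1_norm S1m
    (signs_K1 r hr h0 h1 h2 h3 h4 h5) S1i S1_mul ((-2, 0), (1, 0), (0, 0)) (by decide) ?_ 3
    (by decide) ((-5, 2), (9, 0), (-3, 0)) (by decide) ?_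
  · intro k _ _ φ x hφ hx hk
    exact ffK1 k φ x hφ hx hk
  · intro k _ _ φ x hφ hx h2k
    have hx0 : x = 0 := by
      have h3 : x ^ 3 = 0 := by
        simp only [evP] at hx
        push_cast at hx
        rw [hx]
        linear_combination (3 * x - 1 + 2 * φ) * h2k
      exact pow_eq_zero_iff (by norm_num) |>.1 h3
    refine ⟨?_, ?_⟩
    · simp only [evC, evP]
      push_cast
      rw [hx0]
      linear_combination -h2k
    · exact (show (absN 6 (-2, 4) (-2, 0) (1, 0) (0, 0)).natAbs = 4 by decide) ▸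
        four_le_card hφ h2k
  · simp only [evC, evP]
    push_cast
    linear_combination -hx

end Pool.Agent.Lib.MP_aa8fd2_nt
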