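import Mathlib
import Pool.Agent.Lib.MP_aa8fd2_nt.FFields

/-!
Finite field analysis for the sextic field `x^3 = 6 x + 2 (2 - φ)`.
-/

set_option autoImplicit false

namespace Pool.Agent.Lib.MP_aa8fd2_nt

open Module

/-- candidates for `K_2` -/
def L2 : List Cf :=
  [((0, 0), (1, 0), (0, 0)), ((1, 1), (1, 0), (0, 0)),
   ((0, -1), (1, 0), (0, 0)), ((-1, -1), (1, 0), (0, 0)), ((2, -1), (1, 0), (0, 0)),
   ((-3, 2), (1, 0), (0, 0)), ((-1, 1), (1, 0), (0, 0)), ((3, 2), (1, 0), (0, 0)),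
   ((-3, 0), (1, 0), (0, 0)), ((-1, 3), (1, 0), (0, 0)), ((-3, -3), (-3, -1), (0, 2)),
   ((0, 1), (1, 0), (0, 0)), ((-3, -3), (-1, 0), (0, 1)), ((0, -3), (1, 0), (0, 0))]

set_option maxRecDepth 100000 in
lemma ffK2_prime (p : ℕ) (hp : p.Prime) (h55 : p ≤ 55) :
    ∀ φ x : ZMod p, φ ^ 2 = φ + 1 → x ^ 3 = (6 : ℤ) * x + evP φ (4, -2) →
      ∃ c ∈ L2, evC φ x c = 0 ∧ absN 6 (4, -2) c.1 c.2.1 c.2.2 ≠ 0 ∧
        (absN 6 (4, -2) c.1 c.2.1 c.2.2).natAbs ≤ p := by
  interval_cases p <;> first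
    | (exfalso; revert hp; norm_num; done)
    | decide

lemma no_phi_seven : ∀ a : ZMod 7, a ^ 2 ≠ a + 1 := by decide

set_option maxRecDepth 100000 in
lemma no_sol_K2 : ∀ a b : ZMod 7, ¬ (a ^ 3 + 3 * a * b ^ 2 + b ^ 3 - 6 * a - 4 = 0 ∧
    3 * a ^ 2 * b + 3 * a * b ^ 2 + 2 * b ^ 3 - 6 * b + 2 = 0) := by decide

/-- the finite field statement for `K_2` -/
theorem ffK2 (k : Type*) [Field k] [Fintype k] (φ x : k) (hφ : φ ^ 2 = φ + 1)
    (hx : x ^ 3 = (6 : ℤ) * x + evP φ (4, -2)) (hN : Fintype.card k ≤ 55) :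
    Good 6 (4, -2) (Fintype.card k) φ x := by
  obtain ⟨p, hp⟩ := CharP.exists k
  obtain ⟨n, hprime, hcard⟩ := FiniteField.card k p
  have : Fact p.Prime := ⟨hprime⟩
  have hp0 : (p : k) = 0 := CharP.cast_eq_zero k p
  by_cases hn : (n : ℕ) = 1
  · rw [hn, pow_one] at hcard
    exact ff_prime hφ hx hprime hcard L2 (ffK2_prime p hprime (hcard ▸ hN))
  · have hn2 : 2 ≤ (n : ℕ) := by
      have := n.pos
      omega
    simp only [evP] at hx
    push_cast at hx
    rcases pow_le_cases hprime hn2 (hcard ▸ hN) with rfl | rfl | ⟨rfl, h2⟩ | ⟨rfl, h2⟩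
    · have hx0 : x = 0 := by
        have h3 : x ^ 3 = 0 := by
          have h2 : (2 : k) = 0 := by exact_mod_cast hp0
          rw [hx]
          linear_combination (3 * x + 2 - φ) * h2
        exact pow_eq_zero_iff (by norm_num) |>.1 h3
      refine ⟨((0, 0), (1, 0), (0, 0)), ?_, by decide, ?_⟩
      · simp [evC, evP, hx0]
      · rw [hcard]
        calc _ = 2 ^ 2 := by decide
          _ ≤ 2 ^ (n : ℕ) := Nat.pow_le_pow_right (by norm_num) hn2
    · have hx0 : x + 1 + φ = 0 := by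
        have h3 : (x + 1 + φ) ^ 3 = 0 := by
          have h2 : (3 : k) = 0 := by exact_mod_cast hp0
          have h4 : (x + 1 + φ) ^ 3 = x ^ 3 + 1 + φ ^ 3 +
              3 * (x ^ 2 * (1 + φ) + x * (1 + φ) ^ 2 + φ + φ ^ 2) := by ring
          have h5 : φ ^ 3 = 2 * φ + 1 := by linear_combination (φ + 1) * hφ
          rw [h4, hx, h5]
          linear_combination (2 * x + 2 + (x ^ 2 * (1 + φ) + x * (1 + φ) ^ 2 + φ + φ ^ 2)) * h2
        exact pow_eq_zero_iff (by norm_num) |>.1 h3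
      refine ⟨((1, 1), (1, 0), (0, 0)), ?_, by decide, ?_⟩
      · simp only [evC, evP]
        push_cast
        linear_combination hx0
      · rw [hcard]
        calc _ = 3 ^ 2 := by decide
          _ ≤ 3 ^ (n : ℕ) := Nat.pow_le_pow_right (by norm_num) hn2
    · exfalso
      have h5 : (5 : k) = 0 := by exact_mod_cast hp0
      have hφ3 : φ = 3 := by
        have h3 : (φ - 3) ^ 2 = 0 := by linear_combination hφ + (2 - φ) * h5
        exact sub_eq_zero.1 (pow_eq_zero_iff (by norm_num) |>.1 h3)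
      rw [hφ3] at hx
      have hx3 : x ^ 3 = x - 2 := by linear_combination hx + x * h5
      have hx5 : x ^ 5 = -2 * x ^ 2 + x + (-2) := by linear_combination (x ^ 2 + 1) * hx3
      have h25 : x ^ 25 = x := by
        have := FiniteField.pow_card x
        rw [hcard, h2] at this
        simpa using this
      have hE : x = (-2) ^ 5 * (-2 * x ^ 2 + x + (-2)) ^ 2 + (-2 * x ^ 2 + x + (-2)) + (-2) ^ 5 := by
        calc x = (x ^ 5) ^ 5 := by rw [← pow_mul]; exact h25.symm
          _ = (-2 * x ^ 2 + x + (-2)) ^ 5 := by rw [hx5]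
          _ = (-2 * x ^ 2) ^ 5 + x ^ 5 + (-2) ^ 5 := by rw [add_pow_char, add_pow_char]
          _ = (-2) ^ 5 * (x ^ 5) ^ 2 + x ^ 5 + (-2) ^ 5 := by ring
          _ = _ := by rw [hx5]
      have h3 : 3 * (x ^ 2 + x + 1) = 0 := by
        linear_combination hE - (128 * x - 128) * hx3 - (83 * x ^ 2 - 103 * x + 83) * h5
      have h1 : x ^ 2 + x + 1 = 0 := by
        linear_combination 2 * h3 - (x ^ 2 + x + 1) * h5
      have hx1 : x = 3 := by linear_combination (x - 1) * h1 - hx3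
      rw [hx1] at h1
      have : (1 : k) = 0 := by linear_combination 2 * h1 - 5 * h5
      exact one_ne_zero this
    · exfalso
      rw [h2] at hcard
      obtain ⟨hind, hrep⟩ := exists_repr 7 hcard hφ no_phi_seven
      obtain ⟨a, b, hab⟩ := hrep x
      have h3 := hind (a ^ 3 + 3 * a * b ^ 2 + b ^ 3 - 6 * a - 4)
        (3 * a ^ 2 * b + 3 * a * b ^ 2 + 2 * b ^ 3 - 6 * b + 2) (by
          simp only [map_add, map_sub, map_mul, map_pow, map_ofNat]
          rw [hab] at hx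
          generalize (ZMod.castHom (dvd_refl 7) k) a = u at *
          generalize (ZMod.castHom (dvd_refl 7) k) b = v at *
          linear_combination hx - (3 * u * v ^ 2 + v ^ 3 * (φ + 1)) * hφ)
      exact no_sol_K2 a b h3

end Pool.Agent.Lib.MP_aa8fd2_nt
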