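import Mathlib
import Pool.Agent.Lib.MP_aa8fd2_nt.Gen6
import Pool.Agent.Lib.MP_aa8fd2_nt.FFK2
import Pool.Agent.Lib.MP_aa8fd2_nt.SexticXM

/-!
The sextic field `ℚ(φ, x)`, `x^3 = 6 x + 2 (2 - φ)`.
-/

set_option autoImplicit false

namespace Pool.Agent.Lib.MP_aa8fd2_nt

open NumberField Module IntermediateField

universe u

lemma gen_K2 {K : Type u} [Field K] [NumberField K] (φ x : K) (hφ : φ ^ 2 = φ + 1)
    (hx : x ^ 3 = 6 * x + 2 * (2 - φ)) (h6 : finrank ℚ K = 6) :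
    ∀ σ τ : K →+* ℂ, σ φ = τ φ → σ x = τ x → σ = τ := by
  apply gen_of_six φ x hφ h6
  have hφm : φ ∈ (adjoin ℚ {φ, x} : IntermediateField ℚ K) :=
    subset_adjoin ℚ {φ, x} (Set.mem_insert _ _)
  have hxm : x ∈ (adjoin ℚ {φ, x} : IntermediateField ℚ K) :=
    subset_adjoin ℚ {φ, x} (Set.mem_insert_of_mem _ (Set.mem_singleton _))
  generalize (adjoin ℚ {φ, x} : IntermediateField ℚ K) = E at *
  let φ' : E := ⟨φ, hφm⟩
  let x' : E := ⟨x, hxm⟩
  have hφ' : φ' ^ 2 = φ' + 1 := Subtype.ext hφ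
  have hx' : x' ^ 3 = 6 * x' + 2 * (2 - φ') := Subtype.ext hx
  have hx'' : x' ^ 3 = (6 : ℤ) * x' + evP φ' (4, -2) := by
    simp only [evP]
    push_cast
    linear_combination hx'
  apply three_dvd_of_cube x' (3 * x' + 2 - φ')
    ((-269 - 431 * φ') + (-6 - 9 * φ') * x' + (45 + 72 * φ') * x' ^ 2)
  · exact isIntegral_x hφ' hx''
  · have := isIntegral_evC hφ' hx'' ((2, -1), (3, 0), (0, 0))
    have h2 : evC φ' x' ((2, -1), (3, 0), (0, 0)) = 3 * x' + 2 - φ' := by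
      simp only [evC, evP]
      push_cast
      ring
    rwa [h2] at this
  · have := isIntegral_evC hφ' hx'' ((-269, -431), (-6, -9), (45, 72))
    have h2 : evC φ' x' ((-269, -431), (-6, -9), (45, 72)) =
        (-269 - 431 * φ') + (-6 - 9 * φ') * x' + (45 + 72 * φ') * x' ^ 2 := by
      simp only [evC, evP]
      push_cast
      ring
    rwa [h2] at this
  · linear_combination (135 + 216 * φ') * hx' + (-1 + 9 * x' - 72 * x' ^ 2) * hφ'
  · linear_combination hx'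

/-- the real roots for `K_2`, with their positions -/
lemma roots_K2 : ∃ r : Fin 6 → ℝ, RealRoots 6 (4, -2) r ∧
    (-3 < r 0 ∧ r 0 < -2) ∧ (-1 < r 1 ∧ r 1 < 0) ∧ (2 < r 2 ∧ r 2 < 3) ∧
    (-2 < r 3 ∧ r 3 < -1.65) ∧ (-1.6 < r 4 ∧ r 4 < -1) ∧ (2 < r 5 ∧ r 5 < 3) := by
  obtain ⟨hp1, hp2⟩ := gP_bounds
  obtain ⟨hq1, hq2⟩ := gQ_bounds
  obtain ⟨r0, r1, r2, h0, h1, h2, e1, e2, e3⟩ := exists_three_roots' 6 (evP gP (4, -2))
    (-3) (-2) (-1) 0 2 3 (by norm_num) (by norm_num) (by norm_num) (by norm_num) (by norm_num)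
    (by norm_num [evP]; linarith) (by norm_num [evP]; linarith) (by norm_num [evP]; linarith)
    (by norm_num [evP]; linarith) (by norm_num [evP]; linarith) (by norm_num [evP]; linarith)
  obtain ⟨r3, r4, r5, h3, h4, h5, e1', e2', e3'⟩ := exists_three_roots' 6 (evP gQ (4, -2))
    (-2) (-1.65) (-1.6) (-1) 2 3 (by norm_num) (by norm_num) (by norm_num) (by norm_num)
    (by norm_num)
    (by norm_num [evP]; linarith) (by norm_num [evP]; linarith) (by norm_num [evP]; linarith)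
    (by norm_num [evP]; linarith) (by norm_num [evP]; linarith) (by norm_num [evP]; linarith)
  refine ⟨![r0, r1, r2, r3, r4, r5], ⟨?_, ?_, ?_, ?_, e1, ?_, e3, e1', ?_, e3'⟩, h0, h1, h2, h3,
    h4, h5⟩
  · show r0 < r1
    linarith [h0.2, h1.1]
  · show r1 < r2
    linarith [h1.2, h2.1]
  · show r3 < r4
    linarith [h3.2, h4.1]
  · show r4 < r5
    linarith [h4.2, h5.1]
  · simpa using e2
  · simpa using e2'

/-- six units of `K_2` -/
def cu2 : Fin 6 → Cf :=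
  ![((-1, 0), (0, 0), (0, 0)), ((0, 1), (0, 0), (0, 0)), ((1, 0), (1, 0), (0, 0)),
    ((1, -1), (1, 0), (0, 0)), ((6, -1), (9, 0), (3, 0)), ((2, -1), (3, 0), (0, 0))]

lemma cu2_norm : ∀ j, (absN 6 (4, -2) (cu2 j).1 (cu2 j).2.1 (cu2 j).2.2).natAbs = 1 := by decide

/-- signs of the units of `K_2` -/
def S2m : Matrix (Fin 6) (Fin 6) (ZMod 2) :=
  !![1, 0, 1, 1, 1, 1; 1, 0, 0, 1, 0, 1; 1, 0, 0, 0, 0, 0; 1, 1, 1, 1, 0, 1; 1, 1, 1, 0, 0, 1;
    1, 1, 0, 0, 0, 0]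

/-- inverse of the sign matrix -/
def S2i : Matrix (Fin 6) (Fin 6) (ZMod 2) :=
  !![0, 0, 1, 0, 0, 0; 0, 0, 1, 0, 0, 1; 0, 1, 1, 1, 0, 1; 0, 0, 0, 1, 1, 0; 1, 0, 1, 1, 0, 1;
    0, 1, 1, 1, 1, 0]

set_option maxRecDepth 100000 in
lemma S2_mul : S2m * S2i = 1 := by decide

lemma signs_K2 (r : Fin 6 → ℝ) (hr : RealRoots 6 (4, -2) r)
    (h0 : -3 < r 0 ∧ r 0 < -2) (h1 : -1 < r 1 ∧ r 1 < 0) (h2 : 2 < r 2 ∧ r 2 < 3)
    (h3 : -2 < r 3 ∧ r 3 < -1.65) (h4 : -1.6 < r 4 ∧ r 4 < -1) (h5 : 2 < r 5 ∧ r 5 < 3) :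
    ∀ i j, (if 0 < evC (pv i) (r i) (cu2 j) then (0 : ZMod 2) else 1) = S2m i j := by
  obtain ⟨hp1, hp2⟩ := gP_bounds
  obtain ⟨hq1, hq2⟩ := gQ_bounds
  have hF : ∀ i j, evC (pv i) (r i) (cu2 j) =
      ![-1, pv i, 1 + r i, 1 - pv i + r i, (r i + 2) ^ 3 / 2, (r i) ^ 3 / 2] j := by
    intro i j
    have hc := hr.cube i
    simp only [evP] at hc
    push_cast at hc
    fin_cases j
    · simp [evC, evP, cu2]
    · simp [evC, evP, cu2]
    · simp [evC, evP, cu2]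
    · simp [evC, evP, cu2]
      ring
    · simp [evC, evP, cu2]
      linear_combination (-1 / 2) * hc
    · simp [evC, evP, cu2]
      linear_combination (-1 / 2) * hc
  intro i j
  rw [hF]
  fin_cases i <;> fin_cases j
  · exact sg_neg (show (-1 : ℝ) < 0 by norm_num)
  · exact sg_pos (show (0 : ℝ) < gP by linarith)
  · exact sg_neg (show (1 + r 0 : ℝ) < 0 by linarith)
  · exact sg_neg (show (1 - gP + r 0 : ℝ) < 0 by linarith)
  · exact sg_neg (show ((r 0 + 2) ^ 3 / 2 : ℝ) < 0 from cube_half_neg (by linarith))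
  · exact sg_neg (show ((r 0) ^ 3 / 2 : ℝ) < 0 from cube_half_neg (by linarith))
  · exact sg_neg (show (-1 : ℝ) < 0 by norm_num)
  · exact sg_pos (show (0 : ℝ) < gP by linarith)
  · exact sg_pos (show (0 : ℝ) < 1 + r 1 by linarith)
  · exact sg_neg (show (1 - gP + r 1 : ℝ) < 0 by linarith)
  · exact sg_pos (show (0 : ℝ) < (r 1 + 2) ^ 3 / 2 from cube_half_pos (by linarith))
  · exact sg_neg (show ((r 1) ^ 3 / 2 : ℝ) < 0 from cube_half_neg (by linarith))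
  · exact sg_neg (show (-1 : ℝ) < 0 by norm_num)
  · exact sg_pos (show (0 : ℝ) < gP by linarith)
  · exact sg_pos (show (0 : ℝ) < 1 + r 2 by linarith)
  · exact sg_pos (show (0 : ℝ) < 1 - gP + r 2 by linarith)
  · exact sg_pos (show (0 : ℝ) < (r 2 + 2) ^ 3 / 2 from cube_half_pos (by linarith))
  · exact sg_pos (show (0 : ℝ) < (r 2) ^ 3 / 2 from cube_half_pos (by linarith))
  · exact sg_neg (show (-1 : ℝ) < 0 by norm_num)
  · exact sg_neg (show (gQ : ℝ) < 0 by linarith)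
  · exact sg_neg (show (1 + r 3 : ℝ) < 0 by linarith)
  · exact sg_neg (show (1 - gQ + r 3 : ℝ) < 0 by linarith)
  · exact sg_pos (show (0 : ℝ) < (r 3 + 2) ^ 3 / 2 from cube_half_pos (by linarith))
  · exact sg_neg (show ((r 3) ^ 3 / 2 : ℝ) < 0 from cube_half_neg (by linarith))
  · exact sg_neg (show (-1 : ℝ) < 0 by norm_num)
  · exact sg_neg (show (gQ : ℝ) < 0 by linarith)
  · exact sg_neg (show (1 + r 4 : ℝ) < 0 by linarith)
  · exact sg_pos (show (0 : ℝ) < 1 - gQ + r 4 by linarith)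
  · exact sg_pos (show (0 : ℝ) < (r 4 + 2) ^ 3 / 2 from cube_half_pos (by linarith))
  · exact sg_neg (show ((r 4) ^ 3 / 2 : ℝ) < 0 from cube_half_neg (by linarith))
  · exact sg_neg (show (-1 : ℝ) < 0 by norm_num)
  · exact sg_neg (show (gQ : ℝ) < 0 by linarith)
  · exact sg_pos (show (0 : ℝ) < 1 + r 5 by linarith)
  · exact sg_pos (show (0 : ℝ) < 1 - gQ + r 5 by linarith)
  · exact sg_pos (show (0 : ℝ) < (r 5 + 2) ^ 3 / 2 from cube_half_pos (by linarith))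
  · exact sg_pos (show (0 : ℝ) < (r 5) ^ 3 / 2 from cube_half_pos (by linarith))

/-- The square class condition for the sextic field `x^3 = 6 x + 2 (2 - φ)`. -/
theorem XM_K2 {K : Type u} [Field K] [NumberField K] (φ x : K) (hφ : φ ^ 2 = φ + 1)
    (hx : x ^ 3 = 6 * x + 2 * (2 - φ)) (h6 : finrank ℚ K = 6) : XM K := by
  obtain ⟨r, hr, h0, h1, h2, h3, h4, h5⟩ := roots_K2
  have hx' : x ^ 3 = (6 : ℤ) * x + evP φ (4, -2) := by
    simp only [evP]
    push_cast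
    linear_combination hx
  obtain ⟨f, h⟩ := exists_sextic hφ hx' hr h6 (gen_K2 φ x hφ hx h6)
  refine h.xm 13122000 (by decide) (by decide) 55 (by norm_num) ?_ cu2 cu2_norm S2m
    (signs_K2 r hr h0 h1 h2 h3 h4 h5) S2i S2_mul ((0, 0), (1, 0), (0, 0)) (by decide) ?_ 3
    (by decide) ((2, -1), (3, 0), (0, 0)) (by decide) ?_
  · intro k _ _ φ x hφ hx hk
    exact ffK2 k φ x hφ hx hk
  · intro k _ _ φ x hφ hx h2k
    have hx0 : x = 0 := by
      have h3 : x ^ 3 = 0 := by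
        simp only [evP] at hx
        push_cast at hx
        rw [hx]
        linear_combination (3 * x + 2 - φ) * h2k
      exact pow_eq_zero_iff (by norm_num) |>.1 h3
    refine ⟨by simp [evC, evP, hx0], ?_⟩
    exact (show (absN 6 (4, -2) (0, 0) (1, 0) (0, 0)).natAbs = 4 by decide) ▸ four_le_card hφ h2k
  · simp only [evC, evP]
    push_cast
    linear_combination -hx

end Pool.Agent.Lib.MP_aa8fd2_nt
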