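import Pool.Agent.Lib.MP_aa8fd2_nt.Setup

set_option autoImplicit false

/-!
Norm relation for a Galois extension with group of order 9 and exponent 3:
`XM` for the base field and for the cubic subextensions implies `XM` for the top field.
-/

namespace Pool.Agent.Lib.MP_aa8fd2_nt

open IsDedekindDomain HeightOneSpectrum NumberField Module

section twosq

variable (M : Type*) [Field M] [CharZero M]

/-- the subgroup of elements of the form `y ^ 2` or `2 * y ^ 2` -/
noncomputable def TwoSq : Subgroup Mˣ where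
  carrier := {x | ∃ y : Mˣ, x = y ^ 2 ∨ x = Units.mk0 (2 : M) two_ne_zero * y ^ 2}
  mul_mem' := by
    rintro a b ⟨y, hy⟩ ⟨z, hz⟩
    rcases hy with rfl | rfl <;> rcases hz with rfl | rfl
    · exact ⟨y * z, Or.inl (by rw [mul_pow])⟩
    · exact ⟨y * z, Or.inr (by rw [mul_pow, mul_left_comm])⟩
    · exact ⟨y * z, Or.inr (by rw [mul_pow, mul_assoc])⟩
    · refine ⟨Units.mk0 (2 : M) two_ne_zero * (y * z), Or.inl ?_⟩
      rw [mul_pow, mul_pow, mul_mul_mul_comm, sq (Units.mk0 (2 : M) two_ne_zero)]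
  one_mem' := ⟨1, Or.inl (by simp)⟩
  inv_mem' := by
    rintro a ⟨y, hy⟩
    rcases hy with rfl | rfl
    · exact ⟨y⁻¹, Or.inl (by rw [inv_pow])⟩
    · refine ⟨(Units.mk0 (2 : M) two_ne_zero)⁻¹ * y⁻¹, Or.inr ?_⟩
      rw [mul_pow, mul_inv, ← inv_pow]
      rw [sq (Units.mk0 (2 : M) two_ne_zero)⁻¹, ← mul_assoc, ← mul_assoc, mul_inv_cancel, one_mul]

lemma mem_TwoSq {x : Mˣ} : x ∈ TwoSq M ↔
    ∃ y : Mˣ, x = y ^ 2 ∨ x = Units.mk0 (2 : M) two_ne_zero * y ^ 2 := Iff.rfl

lemma sq_mem_TwoSq (x : Mˣ) : x ^ 2 ∈ TwoSq M := ⟨x, Or.inl rfl⟩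

end twosq

section normstep

variable {K L : Type*} [Field K] [NumberField K] [Field L] [NumberField L] [Algebra K L]

/-- product over the Galois group -/
noncomputable def prodAut (K : Type*) {L : Type*} [Field K] [NumberField K] [Field L]
    [NumberField L] [Algebra K L] (x : Lˣ) : Lˣ := ∏ s : L ≃ₐ[K] L, sU s x

lemma ord_prod {ι : Type*} (s : Finset ι) (w : HeightOneSpectrum (𝓞 L)) (f : ι → Lˣ) :
    ord w (∏ i ∈ s, f i) = ∑ i ∈ s, ord w (f i) := by
  classical
  induction s using Finset.induction_on with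
  | empty => simp [ord_one]
  | insert a s ha ih => rw [Finset.prod_insert ha, Finset.sum_insert ha, ord_mul, ih]

lemma odd_ramificationIdx [IsGalois K L] (hodd : Odd (finrank K L))
    (w : HeightOneSpectrum (𝓞 L)) : Odd (w.asIdeal.ramificationIdx (𝓞 K)) := by
  have h := Ideal.ncard_primesOver_mul_ramificationIdxIn_mul_inertiaDegIn
    (below K w).asIdeal (𝓞 L) (L ≃ₐ[K] L)
  rw [IsGalois.card_aut_eq_finrank] at h
  have h2 := Ideal.ramificationIdxIn_eq_ramificationIdx (below K w).asIdeal w.asIdeal (L ≃ₐ[K] L)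
  rw [← h2]
  rw [← h] at hodd
  exact (Nat.odd_mul.1 (Nat.odd_mul.1 hodd).2).1

theorem prodAut_mem_TwoSq [IsGalois K L] (hodd : Odd (finrank K L)) (hreal : IsTotallyReal L)
    (hK : XM K) (x : Lˣ) (hpos : ∀ φ : L →+* ℝ, 0 < φ x)
    (hev : ∀ v : HeightOneSpectrum (𝓞 L), (2 : 𝓞 L) ∉ v.asIdeal → Even (ord v x)) :
    prodAut K x ∈ TwoSq L := by
  set y : Kˣ := Units.map (Algebra.norm K : L →* K) x with hy
  have hyx : Units.map (algebraMap K L : K →* L) y = prodAut K x := by
    apply Units.ext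
    rw [Units.coe_map, MonoidHom.coe_coe, hy, Units.coe_map, Algebra.norm_eq_prod_automorphisms,
      prodAut, Units.coe_prod]
    rfl
  have h1 : ∀ φ : K →+* ℝ, 0 < φ y := by
    intro φ
    -- extend `φ` to `L`
    let _ : Algebra K ℂ := ((algebraMap ℝ ℂ).comp φ).toAlgebra
    obtain ⟨ψ⟩ : Nonempty (L →ₐ[K] ℂ) := ⟨IsAlgClosed.lift⟩
    have hψ : ComplexEmbedding.IsReal (ψ : L →+* ℂ) := by
      have := IsTotallyReal.isReal (InfinitePlace.mk (ψ : L →+* ℂ))
      exact InfinitePlace.isReal_mk_iff.1 this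
    set ψ' : L →+* ℝ := hψ.embedding with hψ'
    have hψK : ∀ z : K, ψ' (algebraMap K L z) = φ z := by
      intro z
      apply Complex.ofReal_injective
      have h3 := ComplexEmbedding.IsReal.coe_embedding_apply hψ (algebraMap K L z)
      rw [← hψ'] at h3
      rw [h3]
      exact ψ.commutes z
    have h4 : (φ y : ℝ) = ∏ s : L ≃ₐ[K] L, ψ' (s x) := by
      rw [← hψK]
      have h5 := congrArg (fun u : Lˣ => (u : L)) hyx
      simp only [Units.coe_map, MonoidHom.coe_coe] at h5
      rw [h5, prodAut, Units.coe_prod, map_prod]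
      rfl
    rw [h4]
    apply Finset.prod_pos
    intro s _
    exact hpos (ψ'.comp (s : L →+* L))
  have h2 : ∀ v : HeightOneSpectrum (𝓞 K), (2 : 𝓞 K) ∉ v.asIdeal → Even (ord v y) := by
    intro v hv
    obtain ⟨w, rfl⟩ := exists_above K L v
    have hw : (2 : 𝓞 L) ∉ w.asIdeal := fun h => hv ((two_mem_below_iff K w).2 h)
    have h3 := ord_algebraMap_eq K w y
    rw [hyx, prodAut, ord_prod] at h3
    have h4 : Even (∑ s : L ≃ₐ[K] L, ord w (sU s x)) := by
      apply Finset.even_sum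
      intro s _
      rw [ord_sU]
      exact hev _ (fun h => hw ((two_mem_cm s w).1 h))
    rw [h3] at h4
    have h5 := odd_ramificationIdx (K := K) hodd w
    rcases Int.even_mul.1 h4 with h | h
    · exfalso
      rw [Int.even_coe_nat] at h
      exact (Nat.not_even_iff_odd.2 h5) h
    · exact h
  obtain ⟨z, hz⟩ := hK y h1 h2
  rw [← hyx]
  refine ⟨Units.map (algebraMap K L : K →* L) z, ?_⟩
  rcases hz with hz | hz
  · left
    rw [hz, map_pow]
  · right
    rw [hz, map_mul, map_pow]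
    congr 1
    apply Units.ext
    show algebraMap K L 2 = 2
    rw [map_ofNat]

end normstep

section main

variable {F A : Type*} [Field F] [NumberField F] [Field A] [NumberField A] [Algebra F A]

lemma prod_zpowers {G M : Type*} [Group G] [Fintype G] [CommMonoid M] (σ : G) (h1 : σ ≠ 1)
    (h3 : σ ^ 3 = 1) [Fintype (Subgroup.zpowers σ)] (f : G → M) :
    ∏ h : Subgroup.zpowers σ, f h = f 1 * f σ * f σ⁻¹ := by
  classical
  have hinv : σ⁻¹ = σ ^ 2 := by
    rw [inv_eq_iff_mul_eq_one, ← pow_succ']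
    exact h3
  have hord : orderOf σ = 3 := orderOf_eq_prime h3 h1
  have h2 : σ ≠ σ⁻¹ := by
    intro h
    rw [hinv, sq] at h
    exact h1 (right_eq_mul.1 h)
  have h1' : (1 : G) ≠ σ⁻¹ := by
    intro h
    exact h1 (inv_eq_one.1 h.symm)
  have hmem : ∀ y : G, y ∈ ({1, σ, σ⁻¹} : Finset G) ↔ y ∈ Subgroup.zpowers σ := by
    intro y
    rw [mem_zpowers_iff_mem_range_orderOf, hord, hinv]
    simp only [Finset.mem_insert, Finset.mem_singleton, Finset.mem_image, Finset.mem_range]
    constructor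
    · rintro (rfl | rfl | rfl)
      · exact ⟨0, by norm_num, pow_zero _⟩
      · exact ⟨1, by norm_num, pow_one _⟩
      · exact ⟨2, by norm_num, rfl⟩
    · rintro ⟨n, hn, rfl⟩
      interval_cases n
      · left; exact pow_zero _
      · right; left; exact pow_one _
      · right; right; rfl
  have h := Finset.prod_subtype (F := (inferInstance : Fintype (Subgroup.zpowers σ)))
    (p := fun y => y ∈ Subgroup.zpowers σ) ({1, σ, σ⁻¹} : Finset G) hmem f
  rw [Finset.prod_insert, Finset.prod_insert, Finset.prod_singleton] at h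
  · rw [mul_assoc, h]
  · rw [Finset.mem_singleton]; exact h2
  · rw [Finset.mem_insert, Finset.mem_singleton, not_or]
    exact ⟨fun h => h1 h.symm, h1'⟩

/-- product over a subgroup of order three -/
lemma prodAut_fixedField (σ : A ≃ₐ[F] A) (h1 : σ ≠ 1) (h3 : σ ^ 3 = 1) (x : Aˣ) :
    prodAut (IntermediateField.fixedField (Subgroup.zpowers σ)) x = x * sU σ x * sU σ⁻¹ x := by
  classical
  have : Fintype (Subgroup.zpowers σ) := Fintype.ofFinite _
  have h := prod_zpowers σ h1 h3 (fun s => sU s x)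
  have e1 : sU (1 : A ≃ₐ[F] A) x = x := by
    apply Units.ext; rfl
  rw [e1] at h
  rw [← h, prodAut]
  symm
  apply Fintype.prod_equiv (IntermediateField.subgroupEquivAlgEquiv (Subgroup.zpowers σ)).toEquiv
  intro s
  apply Units.ext
  rfl

/-- **Norm relation.** If `A/F` is Galois with group of order 9 and exponent 3, `A` totally real,
then `XM` for `F` and for the cubic subextensions implies `XM A`. -/
theorem XM_of_cubics [IsGalois F A] (hcard : finrank F A = 9) (hexp : ∀ σ : A ≃ₐ[F] A, σ ^ 3 = 1)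
    (hreal : IsTotallyReal A) (hF : XM F)
    (h : ∀ K : IntermediateField F A, finrank F K = 3 → XM K) : XM A := by
  classical
  intro x hpos hev
  show x ∈ TwoSq A
  -- cubic subfields
  have hcub : ∀ σ : A ≃ₐ[F] A, σ ≠ 1 → x * sU σ x * sU σ⁻¹ x ∈ TwoSq A := by
    intro σ hσ
    rw [← prodAut_fixedField σ hσ (hexp σ)]
    have hc : finrank (IntermediateField.fixedField (Subgroup.zpowers σ)) A = 3 := by
      rw [IntermediateField.finrank_fixedField_eq_card, Nat.card_zpowers,
        orderOf_eq_prime (hexp σ) hσ]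
    have hK : finrank F (IntermediateField.fixedField (Subgroup.zpowers σ)) = 3 := by
      have h4 := finrank_mul_finrank F (IntermediateField.fixedField (Subgroup.zpowers σ)) A
      rw [hc, hcard] at h4
      omega
    exact prodAut_mem_TwoSq (by rw [hc]; decide) hreal (h _ hK) x hpos hev
  have hbase : prodAut F x ∈ TwoSq A :=
    prodAut_mem_TwoSq (by rw [hcard]; decide) hreal hF x hpos hev
  -- the combinatorial part
  let e := Fintype.equivFin (A ≃ₐ[F] A)
  let R : Finset (A ≃ₐ[F] A) := Finset.univ.filter (fun σ => e σ < e σ⁻¹)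
  let R' : Finset (A ≃ₐ[F] A) := Finset.univ.filter (fun σ => e σ⁻¹ < e σ)
  have hR1 : ∀ σ ∈ R, σ ≠ 1 := by
    rintro σ hσ rfl
    rw [Finset.mem_filter, inv_one] at hσ
    exact lt_irrefl _ hσ.2
  have hinvR : ∏ σ ∈ R, sU σ⁻¹ x = ∏ σ ∈ R', sU σ x := by
    apply Finset.prod_nbij' (fun σ => σ⁻¹) (fun σ => σ⁻¹)
    · intro σ hσ
      rw [Finset.mem_filter] at hσ ⊢
      rw [inv_inv]
      exact ⟨Finset.mem_univ _, hσ.2⟩
    · intro σ hσ
      rw [Finset.mem_filter] at hσ ⊢
      rw [inv_inv]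
      exact ⟨Finset.mem_univ _, hσ.2⟩
    · intro σ _; exact inv_inv σ
    · intro σ _; exact inv_inv σ
    · intro σ _; rfl
  have hcardR : R.card = R'.card := by
    apply Finset.card_nbij' (fun σ => σ⁻¹) (fun σ => σ⁻¹)
    · intro σ hσ
      rw [Finset.mem_coe, Finset.mem_filter] at hσ ⊢
      refine ⟨Finset.mem_univ _, ?_⟩
      show e _ < e _
      simpa using hσ.2
    · intro σ hσ
      rw [Finset.mem_coe, Finset.mem_filter] at hσ ⊢
      refine ⟨Finset.mem_univ _, ?_⟩
      show e _ < e _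
      simpa using hσ.2
    · intro σ _; exact inv_inv σ
    · intro σ _; exact inv_inv σ
  have huniv : (Finset.univ : Finset (A ≃ₐ[F] A)) = insert 1 (R ∪ R') := by
    ext σ
    simp only [Finset.mem_univ, Finset.mem_insert, Finset.mem_union, true_iff]
    rcases lt_trichotomy (e σ) (e σ⁻¹) with h4 | h4 | h4
    · right; left
      rw [Finset.mem_filter]; exact ⟨Finset.mem_univ _, h4⟩
    · left
      have h5 := e.injective h4
      have h6 : σ ^ 2 = 1 := by
        rw [sq]
        nth_rewrite 2 [h5]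
        exact mul_inv_cancel σ
      have h7 := hexp σ
      rw [pow_succ, h6, one_mul] at h7
      exact h7
    · right; right
      rw [Finset.mem_filter]; exact ⟨Finset.mem_univ _, h4⟩
  have h1not : (1 : A ≃ₐ[F] A) ∉ R ∪ R' := by
    rw [Finset.mem_union, not_or, Finset.mem_filter, Finset.mem_filter, inv_one]
    exact ⟨fun h => lt_irrefl _ h.2, fun h => lt_irrefl _ h.2⟩
  have hdisj : Disjoint R R' := by
    rw [Finset.disjoint_left]
    intro σ h4 h5
    rw [Finset.mem_filter] at h4 h5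
    exact lt_asymm h4.2 h5.2
  have hcard4 : R.card = 4 := by
    have h4 : (Finset.univ : Finset (A ≃ₐ[F] A)).card = 9 := by
      rw [Finset.card_univ, ← Nat.card_eq_fintype_card, IsGalois.card_aut_eq_finrank, hcard]
    rw [huniv, Finset.card_insert_of_notMem h1not, Finset.card_union_of_disjoint hdisj,
      ← hcardR] at h4
    omega
  have hprod : ∏ σ ∈ R, (x * sU σ x * sU σ⁻¹ x) = x ^ 4 * (∏ σ ∈ R, sU σ x) *
      ∏ σ ∈ R', sU σ x := by
    rw [Finset.prod_mul_distrib, Finset.prod_mul_distrib, Finset.prod_const, hcard4, hinvR]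
  have hall : prodAut F x = x * ((∏ σ ∈ R, sU σ x) * ∏ σ ∈ R', sU σ x) := by
    rw [prodAut, huniv, Finset.prod_insert h1not, Finset.prod_union hdisj]
    congr 1
  have hmem : ∏ σ ∈ R, (x * sU σ x * sU σ⁻¹ x) ∈ TwoSq A :=
    Subgroup.prod_mem _ (fun σ hσ => hcub σ (hR1 σ hσ))
  have h4 : x ^ 4 ∈ TwoSq A := by
    have := sq_mem_TwoSq A (x ^ 2)
    rwa [← pow_mul] at this
  have hfin : x = prodAut F x * x ^ 4 * (∏ σ ∈ R, (x * sU σ x * sU σ⁻¹ x))⁻¹ := by
    rw [hprod, hall, eq_mul_inv_iff_mul_eq]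
    ac_rfl
  rw [hfin]
  exact Subgroup.mul_mem _ (Subgroup.mul_mem _ hbase h4) (Subgroup.inv_mem _ hmem)

end main

end Pool.Agent.Lib.MP_aa8fd2_nt
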