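import Pool.Agent.Lib.MP_aa8fd2_nt.ExSub
import Pool.Agent.Lib.MP_aa8fd2_nt.ExRep
import Pool.Agent.Lib.MP_aa8fd2_nt.NormRel
import Pool.Agent.Lib.MP_aa8fd2_nt.FieldF
import Pool.Agent.Lib.MP_aa8fd2_nt.FieldK0
import Pool.Agent.Lib.MP_aa8fd2_nt.FieldK1
import Pool.Agent.Lib.MP_aa8fd2_nt.FieldK2

set_option autoImplicit false

/-! The explicit example: the field `A` satisfies `XM`. -/

namespace Pool.Agent.Lib.MP_aa8fd2_nt

open NumberField

/-- (M4+M5) the explicit example; `w` a primitive cube root of unity of `k` (char 2). -/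
theorem exists_example {F Ω : Type} [Field F] [NumberField F] (φ : F) (hφ : φ ^ 2 = φ + 1)
    (hF : Module.finrank ℚ F = 2) [Field Ω] [Algebra F Ω] [IsAlgClosure F Ω]
    {k : Type} [Field k] [CharP k 2] (w : k) (hw : w ^ 2 + w + 1 = 0) :
    ∃ (L A : IntermediateField F Ω) (_ : FiniteDimensional F L) (_ : FiniteDimensional F A)
      (_ : NumberField A) (r : (L ≃ₐ[F] L) →* GL (Fin 3) k),
      A ≤ L ∧ IsGalois F L ∧ IsGalois F A ∧ (∃ n, Module.finrank F L = 3 ^ n) ∧ TotReal L ∧ Unr6 L ∧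
      XM A ∧
      (∃ g, (r g : Matrix (Fin 3) (Fin 3) k) = !![0, 1, 0; 0, 0, 1; w, 0, 0]) ∧
      (∃ g, (r g : Matrix (Fin 3) (Fin 3) k) = !![1, 0, 0; 0, w, 0; 0, 0, w ^ 2]) ∧
      (∀ z : L ≃ₐ[F] L, (∀ x : L, (x : Ω) ∈ A → z x = x) →
        ∃ a : k, (r z : Matrix (Fin 3) (Fin 3) k) = Matrix.scalar (Fin 3) a) := by
  have : Normal F Ω := IsAlgClosure.normal F Ω
  obtain ⟨ζ, t, D⟩ := exists_dat (Ω := Ω) hφ
  obtain ⟨r, hAL, hL, hA, gL, gA, h3, hreal, hunr, h5, h6, h7⟩ :=
    exists_example_core hφ hF w hw D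
  have nfA : NumberField (AA F ζ t) := by
    have : FiniteDimensional F (AA F ζ t) := hA
    exact NumberField.of_module_finite F (AA F ζ t)
  refine ⟨LL F ζ t, AA F ζ t, hL, hA, nfA, r, hAL, gL, gA, h3, hreal, hunr, ?_, h5, h6, h7⟩
  have nfL : NumberField (LL F ζ t) := by
    have : FiniteDimensional F (LL F ζ t) := hL
    exact NumberField.of_module_finite F (LL F ζ t)
  refine XM_of_cubics (D.finrank_AA hφ hF) D.galA_cube ?_ (XM_F φ hφ hF) ?_
  · -- totally real
    have hi : Function.Injective (IntermediateField.inclusion hAL) :=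
      (IntermediateField.inclusion hAL).injective
    refine ⟨fun v => ?_⟩
    rw [← InfinitePlace.mk_embedding v, InfinitePlace.isReal_mk_iff,
      ComplexEmbedding.isReal_iff]
    -- extend the embedding to L
    let : Algebra (AA F ζ t) (LL F ζ t) := (IntermediateField.inclusion hAL).toRingHom.toAlgebra
    have hTower : IsScalarTower F (AA F ζ t) (LL F ζ t) := IsScalarTower.of_algebraMap_eq fun x => rfl
    have hfin : FiniteDimensional (AA F ζ t) (LL F ζ t) := Module.Finite.right F _ _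
    let i : (AA F ζ t) →+* ℂ := v.embedding
    let : Algebra (AA F ζ t) ℂ := i.toAlgebra
    let j : (LL F ζ t) →ₐ[AA F ζ t] ℂ := IsAlgClosed.lift
    ext x
    have hx : i x = j (algebraMap (AA F ζ t) (LL F ζ t) x) := (j.commutes x).symm
    have h2 := hreal (j : (LL F ζ t) →+* ℂ) (algebraMap (AA F ζ t) (LL F ζ t) x)
    change starRingEnd ℂ (i x) = i x
    rw [hx]
    exact Complex.conj_eq_iff_im.2 h2
  · intro K hK
    have hKfin : FiniteDimensional F K := FiniteDimensional.of_finrank_pos (by rw [hK]; norm_num)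
    have nfK : NumberField K := NumberField.of_module_finite F K
    have h6' : Module.finrank ℚ K = 6 := by
      rw [← Module.finrank_mul_finrank ℚ F K, hF, hK]
    have hφK : (algebraMap F K φ) ^ 2 = algebraMap F K φ + 1 := by
      rw [← map_pow, hφ, map_add, map_one]
    obtain ⟨x, hx | hx | hx | hx⟩ := D.cubic_subfield hφ hF K hK
    · exact XM_K0 _ x hφK hx h6'
    · exact XM_K1 _ x hφK hx h6'
    · refine XM_K2 (1 - algebraMap F K φ) x (by linear_combination hφK) ?_ h6'
      rw [hx, hφK]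
      ring
    · exact XM_K2 _ x hφK hx h6'

end Pool.Agent.Lib.MP_aa8fd2_nt
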