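import Pool.Agent.Lib.MP_aa8fd2_nt.Setup

set_option autoImplicit false

/-! Trivial inertia implies unramified. -/

namespace Pool.Agent.Lib.MP_aa8fd2_nt

open NumberField

/-- A Galois extension of number fields is unramified at a prime whose inertia group is trivial. -/
theorem isUnramifiedAt_of_inertia {F K : Type*} [Field F] [NumberField F] [Field K]
    [NumberField K] [Algebra F K] [IsGalois F K] (Q : Ideal (𝓞 K)) [Q.IsPrime]
    (h : ∀ σ : K ≃ₐ[F] K, (∀ x y : 𝓞 K, (y : K) = σ x → y - x ∈ Q) → σ = 1) :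
    Algebra.IsUnramifiedAt (𝓞 F) Q := by
  have hG : IsGaloisGroup (K ≃ₐ[F] K) (𝓞 F) (𝓞 K) :=
    IsGaloisGroup.of_isFractionRing (K ≃ₐ[F] K) (𝓞 F) (𝓞 K) F K
  have hI : Ideal.inertia (K ≃ₐ[F] K) Q = ⊥ := by
    rw [eq_bot_iff]
    intro σ hσ
    rw [Subgroup.mem_bot]
    apply h σ
    intro x y hxy
    have h1 : σ • x - x ∈ Q := hσ x
    have h2 : y = σ • x := by
      apply RingOfIntegers.ext
      rw [hxy]
      exact (algebraMap.coe_smul' σ x K).symm
    rw [h2]; exact h1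
  have h3 := Ideal.card_inertia_eq_ramificationIdxIn (G := K ≃ₐ[F] K) (Q.under (𝓞 F)) Q
  rw [hI, Ideal.ramificationIdxIn_eq_ramificationIdx (Q.under (𝓞 F)) Q (K ≃ₐ[F] K)] at h3
  rw [← Ideal.ramificationIdx_eq_one_iff, ← h3]
  simp

/-- (U) -/
theorem isUnramifiedAt_of_unr6 {F Ω : Type*} [Field F] [NumberField F] [Field Ω] [Algebra F Ω]
    (K : IntermediateField F Ω) [FiniteDimensional F K] [IsGalois F K] (hu : Unr6 K)
    (Q : Ideal (𝓞 K)) [Q.IsPrime] (hQ : (6 : 𝓞 K) ∉ Q) : Algebra.IsUnramifiedAt (𝓞 F) Q := by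
  have : NumberField K := NumberField.of_module_finite F K
  apply isUnramifiedAt_of_inertia
  intro σ hσ
  apply AlgEquiv.ext
  intro x
  exact hu K le_rfl inferInstance inferInstance Q inferInstance hQ σ hσ x x.2

end Pool.Agent.Lib.MP_aa8fd2_nt
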