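import Pool.Agent.Lib.MP_aa8fd2_nt.Propagate
import Pool.Agent.Lib.MP_aa8fd2_nt.Unram

set_option autoImplicit false

/-! Quadratic characters of `Gal(N/A)`. -/

namespace Pool.Agent.Lib.MP_aa8fd2_nt

open NumberField IntermediateField IsDedekindDomain HeightOneSpectrum

/-- An eigenvector for a quadratic character. -/
theorem exists_eigenvector {F N : Type*} [Field F] [Field N] [Algebra F N] [FiniteDimensional F N]
    (W : Subgroup (N ≃ₐ[F] N)) (χ : W →* ℤˣ) :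
    ∃ y : N, y ≠ 0 ∧ ∀ σ : W, (σ : N ≃ₐ[F] N) y = ((χ σ : ℤˣ) : ℤ) * y := by
  classical
  have hfin : Finite W := inferInstance
  have := Fintype.ofFinite W
  have hli : LinearIndependent N (fun σ : W => ((MonoidHomClass.toMonoidHom
      (σ : N ≃ₐ[F] N) : N →* N) : N → N)) := by
    refine (linearIndependent_monoidHom N N).comp
      (fun σ : W => (MonoidHomClass.toMonoidHom (σ : N ≃ₐ[F] N) : N →* N)) ?_
    intro σ τ h
    apply Subtype.ext
    apply AlgEquiv.ext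
    intro x
    exact DFunLike.congr_fun h x
  have hne : ∑ σ : W, (((χ σ : ℤˣ) : ℤ) : N) • ((MonoidHomClass.toMonoidHom
      (σ : N ≃ₐ[F] N) : N →* N) : N → N) ≠ 0 := by
    intro h0
    rw [Fintype.linearIndependent_iff] at hli
    have h1 := hli (fun σ => (((χ σ : ℤˣ) : ℤ) : N)) h0 1
    simp at h1
  obtain ⟨b, hb⟩ := Function.ne_iff.1 hne
  refine ⟨∑ σ : W, (((χ σ : ℤˣ) : ℤ) : N) * (σ : N ≃ₐ[F] N) b, ?_, ?_⟩
  · simpa using hb
  · intro τ
    rw [map_sum, Finset.mul_sum]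
    refine Fintype.sum_equiv (Equiv.mulLeft τ) _ _ ?_
    intro σ
    have h1 : ((Equiv.mulLeft τ σ : W) : N ≃ₐ[F] N) b = (τ : N ≃ₐ[F] N) ((σ : N ≃ₐ[F] N) b) := rfl
    have h2 : (Equiv.mulLeft τ) σ = τ * σ := rfl
    rw [h1, h2, map_mul, map_mul, map_intCast, Units.val_mul, Int.cast_mul, ← mul_assoc, ← mul_assoc]
    congr 1
    have h3 : (((χ τ : ℤˣ) : ℤ) : N) * (((χ τ : ℤˣ) : ℤ) : N) = 1 := by
      rw [← Int.cast_mul, ← Units.val_mul, Int.units_mul_self, Units.val_one, Int.cast_one]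
    rw [h3, one_mul]

theorem exists_ext_embedding {A N : Type*} [Field A] [Field N] [Algebra A N]
    [Algebra.IsAlgebraic A N] (φ : A →+* ℂ) :
    ∃ τ : N →+* ℂ, ∀ a : A, τ (algebraMap A N a) = φ a := by
  let _ : Algebra A ℂ := φ.toAlgebra
  let τ : N →ₐ[A] ℂ := IsAlgClosed.lift
  exact ⟨τ, fun a => τ.commutes a⟩

/-- (P3) characters of `Gal(N/A)` which kill the complex conjugations and an element moving `√2`
are trivial -/
theorem char_trivial {F Ω : Type} [Field F] [NumberField F] [Field Ω] [Algebra F Ω]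
    (A N : IntermediateField F Ω) (hAN : A ≤ N) [FiniteDimensional F A] [FiniteDimensional F N]
    [IsGalois F N] [NumberField A] (hX : XM A)
    (hun : ∀ Q : Ideal (𝓞 N), Q.IsPrime → (2 : 𝓞 N) ∉ Q → ∀ σ : N ≃ₐ[F] N,
        (∀ x : N, (x : Ω) ∈ A → σ x = x) → (∀ x y : 𝓞 N, (y : N) = σ x → y - x ∈ Q) → σ = 1)
    (W : Subgroup (N ≃ₐ[F] N)) (hW : ∀ σ, σ ∈ W ↔ ∀ x : N, (x : Ω) ∈ A → σ x = x)
    (χ : W →* ℤˣ)
    (hc : ∀ (τ : N →+* ℂ) (c : W), (∀ x, τ ((c : N ≃ₐ[F] N) x) = starRingEnd ℂ (τ x)) → χ c = 1)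
    (hcW : ∀ (τ : N →+* ℂ), ∃ c : W, ∀ x, τ ((c : N ≃ₐ[F] N) x) = starRingEnd ℂ (τ x))
    (hγ : ∃ (γ : W) (y : N), y ^ 2 = 2 ∧ (γ : N ≃ₐ[F] N) y = -y ∧ χ γ = 1) : χ = 1 := by
  have hNF : NumberField N := NumberField.of_module_finite F N
  let _ : Algebra A N := (inclusion hAN).toRingHom.toAlgebra
  have htow : IsScalarTower F A N := IsScalarTower.of_algebraMap_eq fun _ => rfl
  have hgal : IsGalois A N := IsGalois.tower_top_of_isGalois F A N
  have halg : ∀ x : A, ((algebraMap A N x : N) : Ω) = x := fun x => rfl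
  obtain ⟨y, hy0, hy⟩ := exists_eigenvector W χ
  -- the square lies in `A`
  have hy2 : ∀ σ : W, (σ : N ≃ₐ[F] N) (y ^ 2) = y ^ 2 := by
    intro σ
    rw [map_pow, hy, mul_pow, ← Int.cast_pow, ← Units.val_pow_eq_pow_val, Int.units_sq,
      Units.val_one, Int.cast_one, one_mul]
  obtain ⟨x, hx⟩ : ∃ x : A, algebraMap A N x = y ^ 2 := by
    have h1 : y ^ 2 ∈ restrict hAN := by
      rw [← IsGalois.fixedField_fixingSubgroup (restrict hAN), mem_fixedField_iff]
      intro σ hσ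
      refine hy2 ⟨σ, (hW σ).2 fun z hz => ?_⟩
      exact (IntermediateField.mem_fixingSubgroup_iff _ _).1 hσ z ((mem_restrict hAN z).2 hz)
    rw [mem_restrict] at h1
    exact ⟨⟨_, h1⟩, rfl⟩
  have hx0 : x ≠ 0 := by
    rintro rfl
    rw [map_zero] at hx
    exact hy0 (pow_eq_zero_iff two_ne_zero |>.1 hx.symm)
  obtain ⟨u, hu⟩ : ∃ u : Aˣ, (u : A) = x := ⟨Units.mk0 x hx0, rfl⟩
  obtain ⟨v, hv⟩ : ∃ v : Nˣ, (v : N) = y := ⟨Units.mk0 y hy0, rfl⟩
  have huv : Units.map (algebraMap A N : A →* N) u = v ^ 2 := by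
    apply Units.ext
    rw [Units.coe_map, Units.val_pow_eq_pow_val, hv, hu]
    exact hx
  -- positivity
  have hpos : ∀ φ : A →+* ℝ, 0 < φ u := by
    intro φ
    obtain ⟨τ, hτ⟩ : ∃ τ : N →+* ℂ, ∀ a : A, τ (algebraMap A N a) = φ a := by
      have : Algebra.IsAlgebraic A N := Algebra.IsAlgebraic.tower_top (K := F) A
      exact exists_ext_embedding (Complex.ofRealHom.comp φ)
    obtain ⟨c, hcτ⟩ := hcW τ
    have h1 : (c : N ≃ₐ[F] N) y = y := by
      rw [hy, hc τ c hcτ, Units.val_one, Int.cast_one, one_mul]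
    have h2 : starRingEnd ℂ (τ y) = τ y := by rw [← hcτ, h1]
    obtain ⟨r, hr⟩ := Complex.conj_eq_iff_real.1 h2
    have h3 : ((φ u : ℝ) : ℂ) = ((r ^ 2 : ℝ) : ℂ) := by
      rw [← hτ, hu, hx, map_pow, hr, Complex.ofReal_pow]
    have h4 : φ u = r ^ 2 := Complex.ofReal_injective h3
    have h5 : φ u ≠ 0 := by
      rw [map_ne_zero, hu]
      exact hx0
    rw [h4] at h5 ⊢
    positivity
  -- even orders
  have heven : ∀ P : HeightOneSpectrum (𝓞 A), (2 : 𝓞 A) ∉ P.asIdeal → Even (ord P u) := by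
    intro P hP
    obtain ⟨w, hw⟩ := exists_above A N P
    have hw2 : (2 : 𝓞 N) ∉ w.asIdeal := by
      rw [← two_mem_below_iff A w, hw]
      exact hP
    have hunr : Algebra.IsUnramifiedAt (𝓞 A) w.asIdeal := by
      apply isUnramifiedAt_of_inertia
      intro σ hσ
      have h1 := hun w.asIdeal w.isPrime hw2 (σ.restrictScalars F) (by
        intro z hz
        exact σ.commutes ⟨z, hz⟩) hσ
      apply AlgEquiv.ext
      intro z
      exact DFunLike.congr_fun h1 z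
    have he : w.asIdeal.ramificationIdx (𝓞 A) = 1 := by
      rw [Ideal.ramificationIdx_eq_one_iff]
      exact hunr
    have h1 := ord_algebraMap_eq (K := A) w u
    rw [he, hw, huv, ord_pow] at h1
    refine ⟨ord w v, ?_⟩
    push_cast at h1
    linarith
  -- conclusion
  obtain ⟨z, hz⟩ := hX u hpos heven
  have hfix : ∀ (σ : W) (a : A), (σ : N ≃ₐ[F] N) (algebraMap A N a) = algebraMap A N a :=
    fun σ a => (hW σ).1 σ.2 _ a.2
  rcases hz with hz | hz
  · have h1 : y ^ 2 = (algebraMap A N z) ^ 2 := by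
      rw [← hx, ← hu, hz, Units.val_pow_eq_pow_val, map_pow]
    have h2 : ∀ σ : W, (σ : N ≃ₐ[F] N) y = y := by
      intro σ
      rcases sq_eq_sq_iff_eq_or_eq_neg.1 h1 with h | h
      · rw [h, hfix]
      · rw [h, map_neg, hfix]
    ext σ
    have h3 := hy σ
    rw [h2 σ] at h3
    have h4 : (((χ σ : ℤˣ) : ℤ) : N) = 1 := by
      have := mul_right_cancel₀ hy0 ((one_mul y).trans h3)
      exact this.symm
    have h5 : ((χ σ : ℤˣ) : ℤ) = 1 := by exact_mod_cast h4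
    rw [MonoidHom.one_apply, h5]
    rfl
  · obtain ⟨γ, t, ht, hγt, hγχ⟩ := hγ
    exfalso
    have h1 : y ^ 2 = (t * algebraMap A N z) ^ 2 := by
      rw [← hx, ← hu, hz, mul_pow, ht, Units.val_mul, Units.val_pow_eq_pow_val, map_mul, map_pow]
      rfl
    have h2 : (γ : N ≃ₐ[F] N) y = y := by
      rw [hy, hγχ, Units.val_one, Int.cast_one, one_mul]
    have h3 : (γ : N ≃ₐ[F] N) y = -y := by
      rcases sq_eq_sq_iff_eq_or_eq_neg.1 h1 with h | h
      · rw [h, map_mul, hγt, hfix, neg_mul]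
      · rw [h, map_neg, map_mul, hγt, hfix, neg_mul]
    rw [h2] at h3
    have h4 : 2 * y = 0 := by linear_combination h3
    exact hy0 ((mul_eq_zero.1 h4).resolve_left two_ne_zero)

end Pool.Agent.Lib.MP_aa8fd2_nt
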