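import Mathlib

set_option autoImplicit false

namespace Pool.Agent.Lib.MP_aa8fd2_nt

/-- (P2) complex conjugation -/
theorem exists_conj_elt {F K : Type*} [Field F] [Field K] [Algebra F K] [IsGalois F K]
    (τ : K →+* ℂ) (h : ∀ x : F, (τ (algebraMap F K x)).im = 0) :
    ∃ c : K ≃ₐ[F] K, (∀ x, τ (c x) = starRingEnd ℂ (τ x)) ∧ c ^ 2 = 1 := by
  let _ : Algebra F ℂ := (τ.comp (algebraMap F K)).toAlgebra
  let _ : Algebra K ℂ := τ.toAlgebra
  have : IsScalarTower F K ℂ := IsScalarTower.of_algebraMap_eq fun x => rfl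
  have hconj : ∀ x : F, starRingEnd ℂ (algebraMap F ℂ x) = algebraMap F ℂ x := fun x =>
    Complex.conj_eq_iff_im.mpr (h x)
  let e : ℂ ≃ₐ[F] ℂ := AlgEquiv.ofRingEquiv (f := starRingAut) hconj
  have he : ∀ z, e z = starRingEnd ℂ z := fun z => rfl
  let c : K ≃ₐ[F] K := e.restrictNormal K
  have hc : ∀ x, τ (c x) = starRingEnd ℂ (τ x) := by
    intro x
    have := AlgEquiv.restrictNormal_commutes e K x
    exact this
  refine ⟨c, hc, ?_⟩
  ext x
  apply τ.injective
  rw [pow_two, AlgEquiv.mul_apply, hc, hc, Complex.conj_conj]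
  rfl

/-- (P6) -/
theorem exists_section {G H : Type*} [Group G] [Group H] [Finite G] (ρ : G →* H)
    (hρ : Function.Surjective ρ) (hcop : Nat.Coprime (Nat.card ρ.ker) (Nat.card H)) :
    ∃ s : H →* G, ∀ h, ρ (s h) = h := by
  have hidx : ρ.ker.index = Nat.card H := by
    rw [Subgroup.index_ker, MonoidHom.range_eq_top.mpr hρ]
    exact Nat.card_congr Subgroup.topEquiv.toEquiv
  obtain ⟨K, hK⟩ := Subgroup.exists_right_complement'_of_coprime
    (N := ρ.ker) (by rw [hidx]; exact hcop)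
  let f : K →* H := ρ.comp K.subtype
  have hinj : Function.Injective f := by
    rw [injective_iff_map_eq_one]
    intro k hk
    have h1 : (k : G) ∈ ρ.ker ⊓ K := ⟨hk, k.2⟩
    rw [hK.disjoint.eq_bot] at h1
    exact Subtype.ext (Subgroup.mem_bot.mp h1)
  have hsurj : Function.Surjective f := by
    intro h
    obtain ⟨g, rfl⟩ := hρ h
    obtain ⟨⟨⟨n, hn⟩, k⟩, hnk⟩ := hK.surjective g
    refine ⟨k, ?_⟩
    simp only at hnk
    rw [← hnk, map_mul, MonoidHom.mem_ker.mp hn, one_mul]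
    rfl
  let E : K ≃* H := MulEquiv.ofBijective f ⟨hinj, hsurj⟩
  refine ⟨K.subtype.comp E.symm.toMonoidHom, fun h => ?_⟩
  exact E.apply_symm_apply h

end Pool.Agent.Lib.MP_aa8fd2_nt
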