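import Mathlib

set_option autoImplicit false

namespace Pool.Agent.Lib.MP_aa8fd2_nt

/-- (P5) a non trivial sign character of a normal 2-subgroup which is invariant under a
3-group has an element of sign `-1` centralised by the 3-group. -/
theorem exists_fixed {G H : Type*} [Group G] [Finite G] [Group H] [Finite H] {n : ℕ}
    (hH : Nat.card H = 3 ^ n) (s : H →* G) (W : Subgroup G) [W.Normal] (hW : IsPGroup 2 W)
    (ε : W →* ℤˣ) (hε : ∀ (h : H) (w w' : W), (w' : G) = s h * w * (s h)⁻¹ → ε w' = ε w)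
    (hne : ε ≠ 1) : ∃ γ : W, ε γ = -1 ∧ ∀ h, (γ : G) * s h = s h * γ := by
  classical
  -- a witness with sign -1
  obtain ⟨w₀, hw₀⟩ : ∃ w₀ : W, ε w₀ = -1 := by
    by_contra hcon
    push Not at hcon
    apply hne
    ext w
    rcases Int.units_eq_one_or (ε w) with h | h
    · simp [h]
    · exact absurd h (hcon w)
  let X : Type _ := {w : W // ε w = -1}
  -- the kernel
  have hcard : Nat.card X = Nat.card ε.ker := by
    refine Nat.card_congr ⟨fun x => ⟨w₀⁻¹ * x.1, ?_⟩, fun k => ⟨w₀ * k.1, ?_⟩, ?_, ?_⟩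
    · rw [MonoidHom.mem_ker, map_mul, map_inv, hw₀, x.2]; decide
    · have := k.2
      rw [MonoidHom.mem_ker] at this
      rw [map_mul, hw₀, this, mul_one]
    · intro x; apply Subtype.ext; simp
    · intro k; apply Subtype.ext; simp
  haveI : Fact (Nat.Prime 2) := ⟨Nat.prime_two⟩
  haveI : Fact (Nat.Prime 3) := ⟨Nat.prime_three⟩
  obtain ⟨m, hm⟩ := (IsPGroup.iff_card.mp hW)
  have hker : Nat.card ε.ker ∣ 2 ^ m := hm ▸ Subgroup.card_subgroup_dvd_card ε.ker
  have hnot : ¬ 3 ∣ Nat.card X := by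
    rw [hcard]
    intro h3
    have h := h3.trans hker
    have := (Nat.Prime.dvd_of_dvd_pow Nat.prime_three h)
    omega
  letI act : MulAction H X :=
    { smul := fun h x => ⟨⟨s h * (x.1 : G) * (s h)⁻¹, Subgroup.Normal.conj_mem ‹_› _ x.1.2 _⟩, by
        rw [hε h x.1 _ rfl]; exact x.2⟩
      one_smul := fun x => by
        apply Subtype.ext; apply Subtype.ext
        show s 1 * (x.1 : G) * (s 1)⁻¹ = x.1
        simp
      mul_smul := fun a b x => by
        apply Subtype.ext; apply Subtype.ext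
        show s (a * b) * (x.1 : G) * (s (a * b))⁻¹ = s a * (s b * (x.1 : G) * (s b)⁻¹) * (s a)⁻¹
        simp only [map_mul, mul_inv_rev]
        group }
  have hHp : IsPGroup 3 H := IsPGroup.of_card hH
  obtain ⟨x, hx⟩ := hHp.nonempty_fixed_point_of_prime_not_dvd_card X hnot
  refine ⟨x.1, x.2, fun h => ?_⟩
  have h1 := hx h
  have h2 : s h * (x.1 : G) * (s h)⁻¹ = x.1 := congrArg (fun y : X => ((y.1 : W) : G)) h1
  exact (mul_inv_eq_iff_eq_mul.mp h2).symm

end Pool.Agent.Lib.MP_aa8fd2_nt
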