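import Pool.Agent.Lib.MP_aa8fd2_nt.Basic

set_option autoImplicit false

/-! Elementary group theory for MP_aa8fd2_nt: index-two Schreier bound, the bound for the
iterated squares series, and the extension of homomorphisms by counting. -/

namespace Pool.Agent.Lib.MP_aa8fd2_nt

section Gen

variable {P : Type*} [Group P]

/-- `W` can be generated by at most `n` elements. -/
def GenLE (W : Subgroup P) (n : ℕ) : Prop :=
  ∃ S : Finset P, S.card ≤ n ∧ Subgroup.closure (S : Set P) = W

theorem GenLE.mono {W : Subgroup P} {m n : ℕ} (h : GenLE W m) (hmn : m ≤ n) : GenLE W n := by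
  obtain ⟨S, hS, h⟩ := h
  exact ⟨S, hS.trans hmn, h⟩

theorem closure_aux {C : Subgroup P} {u : P} (huu : u * u ∈ C)
    (hn : ∀ c ∈ C, u * c * u⁻¹ ∈ C) {S : Set P} (hS : ∀ x ∈ S, x ∈ C ∨ u * x ∈ C) :
    ∀ x ∈ Subgroup.closure S, x ∈ C ∨ u * x ∈ C := by
  have hn' : ∀ c ∈ C, u⁻¹ * c * u ∈ C := by
    intro c hc
    have h1 := C.mul_mem (C.mul_mem (C.inv_mem huu) (hn c hc)) huu
    have h2 : (u * u)⁻¹ * (u * c * u⁻¹) * (u * u) = u⁻¹ * c * u := by group
    rwa [h2] at h1
  intro x hx
  induction hx using Subgroup.closure_induction with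
  | mem x hx => exact hS x hx
  | one => exact Or.inl C.one_mem
  | mul x y _ _ ihx ihy =>
    rcases ihx with hx | hx <;> rcases ihy with hy | hy
    · exact Or.inl (C.mul_mem hx hy)
    · right
      have h1 := C.mul_mem (hn x hx) hy
      have h2 : u * x * u⁻¹ * (u * y) = u * (x * y) := by group
      rwa [h2] at h1
    · right
      have h1 := C.mul_mem hx hy
      rwa [mul_assoc] at h1
    · left
      have h1 := C.mul_mem (C.mul_mem (hn' _ hx) (C.inv_mem huu)) hy
      have h2 : u⁻¹ * (u * x) * u * (u * u)⁻¹ * (u * y) = x * y := by group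
      rwa [h2] at h1
  | inv x _ ih =>
    rcases ih with hx | hx
    · exact Or.inl (C.inv_mem hx)
    · right
      have h1 := C.mul_mem (hn _ (C.inv_mem hx)) huu
      have h2 : u * (u * x)⁻¹ * u⁻¹ * (u * u) = u * x⁻¹ := by group
      rwa [h2] at h1

theorem mul_mem_iff_of_relIndex_two {A B : Subgroup P} (h2 : B.relIndex A = 2) {a b : P}
    (ha : a ∈ A) (hb : b ∈ A) : a * b ∈ B ↔ (a ∈ B ↔ b ∈ B) := by
  have := Subgroup.mul_mem_iff_of_index_two (H := B.subgroupOf A) h2
    (a := ⟨a, ha⟩) (b := ⟨b, hb⟩)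
  simpa [Subgroup.mem_subgroupOf] using this

/-- index two Schreier bound -/
theorem GenLE.index_two {A B : Subgroup P} (hBA : B ≤ A) (h2 : B.relIndex A = 2) {d : ℕ}
    (hA : GenLE A d) : GenLE B (2 * d - 1) := by
  classical
  obtain ⟨S, hS, hcl⟩ := hA
  have hSA : ∀ x ∈ S, x ∈ A := fun x hx => hcl ▸ Subgroup.subset_closure (by exact_mod_cast hx)
  have hex : ∃ u ∈ S, u ∉ B := by
    by_contra hcon
    simp only [not_exists, not_and, not_not] at hcon
    have hAB : A ≤ B := by
      rw [← hcl, Subgroup.closure_le]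
      intro x hx
      exact hcon x (by exact_mod_cast hx)
    have : B = A := le_antisymm hBA hAB
    rw [this, Subgroup.relIndex_self] at h2
    omega
  obtain ⟨u, huS, huB⟩ := hex
  have huA := hSA u huS
  set p : P → P := fun x => if x ∈ B then x else x * u⁻¹ with hp
  set T : Finset P := insert (u * u) ((S.erase u).image p ∪
    (S.erase u).image (fun x => u * p x * u⁻¹)) with hT
  have hTcard : T.card ≤ 2 * d - 1 := by
    have h1 : (S.erase u).card = S.card - 1 := Finset.card_erase_of_mem huS
    have h0 : 0 < S.card := Finset.card_pos.mpr ⟨u, huS⟩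
    have h3 : T.card ≤ ((S.erase u).image p ∪
        (S.erase u).image (fun x => u * p x * u⁻¹)).card + 1 := Finset.card_insert_le _ _
    have h4 := Finset.card_union_le ((S.erase u).image p)
        ((S.erase u).image (fun x => u * p x * u⁻¹))
    have h5 : ((S.erase u).image p).card ≤ (S.erase u).card := Finset.card_image_le
    have h6 : ((S.erase u).image (fun x => u * p x * u⁻¹)).card ≤ (S.erase u).card :=
      Finset.card_image_le
    omega
  have hpB : ∀ x ∈ S, p x ∈ B := by
    intro x hx
    by_cases hxB : x ∈ B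
    · simp only [hp, hxB, if_true]
    · simp only [hp, hxB, if_false]
      rw [mul_mem_iff_of_relIndex_two h2 (hSA x hx) (A.inv_mem huA)]
      simp [hxB, huB]
  have hconj : ∀ b ∈ B, u * b * u⁻¹ ∈ B := by
    intro b hb
    rw [mul_mem_iff_of_relIndex_two h2 (A.mul_mem huA (hBA hb)) (A.inv_mem huA),
      mul_mem_iff_of_relIndex_two h2 huA (hBA hb)]
    simp [hb, huB]
  have huuB : u * u ∈ B := by
    rw [mul_mem_iff_of_relIndex_two h2 huA huA]
  refine ⟨T, hTcard, ?_⟩
  set C := Subgroup.closure (T : Set P) with hC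
  have hTC : ∀ x ∈ T, x ∈ C := fun x hx => Subgroup.subset_closure (by exact_mod_cast hx)
  have huu : u * u ∈ C := hTC _ (by simp [hT])
  have hpC : ∀ x ∈ S, x ≠ u → p x ∈ C := fun x hx hxu => hTC _ (by
    rw [hT]
    refine Finset.mem_insert_of_mem (Finset.mem_union_left _ (Finset.mem_image_of_mem _ ?_))
    exact Finset.mem_erase.mpr ⟨hxu, hx⟩)
  have hpC' : ∀ x ∈ S, x ≠ u → u * p x * u⁻¹ ∈ C := fun x hx hxu => hTC _ (by
    rw [hT]
    refine Finset.mem_insert_of_mem (Finset.mem_union_right _ ?_)
    exact Finset.mem_image_of_mem (fun x => u * p x * u⁻¹) (Finset.mem_erase.mpr ⟨hxu, hx⟩))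
  have hCB : C ≤ B := by
    rw [hC, Subgroup.closure_le]
    intro x hx
    have hx' : x ∈ T := by exact_mod_cast hx
    rw [hT, Finset.mem_insert, Finset.mem_union, Finset.mem_image, Finset.mem_image] at hx'
    rcases hx' with rfl | ⟨y, hy, rfl⟩ | ⟨y, hy, rfl⟩
    · exact huuB
    · exact hpB y (Finset.mem_of_mem_erase hy)
    · exact hconj _ (hpB y (Finset.mem_of_mem_erase hy))
  have hn : ∀ c ∈ C, u * c * u⁻¹ ∈ C := by
    intro c hc
    rw [hC] at hc
    induction hc using Subgroup.closure_induction with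
    | mem x hx =>
      have hx' : x ∈ T := by exact_mod_cast hx
      rw [hT, Finset.mem_insert, Finset.mem_union, Finset.mem_image, Finset.mem_image] at hx'
      rcases hx' with rfl | ⟨y, hy, rfl⟩ | ⟨y, hy, rfl⟩
      · have : u * (u * u) * u⁻¹ = u * u := by group
        rw [this]; exact huu
      · rw [Finset.mem_erase] at hy
        exact hpC' y hy.2 hy.1
      · rw [Finset.mem_erase] at hy
        have h1 := C.mul_mem (C.mul_mem huu (hpC y hy.2 hy.1)) (C.inv_mem huu)
        have h3 : u * u * p y * (u * u)⁻¹ = u * (u * p y * u⁻¹) * u⁻¹ := by group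
        rwa [h3] at h1
    | one => simp
    | mul x y _ _ ihx ihy =>
      have h1 := C.mul_mem ihx ihy
      have h3 : u * x * u⁻¹ * (u * y * u⁻¹) = u * (x * y) * u⁻¹ := by group
      rwa [h3] at h1
    | inv x _ ih =>
      have h1 := C.inv_mem ih
      have h3 : (u * x * u⁻¹)⁻¹ = u * x⁻¹ * u⁻¹ := by group
      rwa [h3] at h1
  have hSC : ∀ x ∈ (S : Set P), x ∈ C ∨ u * x ∈ C := by
    intro x hx
    have hx' : x ∈ S := by exact_mod_cast hx
    by_cases hxu : x = u
    · right; rw [hxu]; exact huu
    · by_cases hxB : x ∈ B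
      · left
        have := hpC x hx' hxu
        simpa only [hp, hxB, if_true] using this
      · right
        have h1 := C.mul_mem (hpC' x hx' hxu) huu
        simp only [hp, hxB, if_false] at h1
        have h3 : u * (x * u⁻¹) * u⁻¹ * (u * u) = u * x := by group
        rwa [h3] at h1
  refine le_antisymm hCB ?_
  intro b hb
  have hbA : b ∈ Subgroup.closure (S : Set P) := by rw [hcl]; exact hBA hb
  rcases closure_aux huu hn hSC b hbA with h | h
  · exact h
  · exfalso
    have h1 := hCB h
    rw [mul_mem_iff_of_relIndex_two h2 huA (hBA hb)] at h1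
    exact huB (h1.mpr hb)

/-- From `A` down to a subgroup `B` containing all squares of `A`. -/
theorem GenLE.sq_aux (B : Subgroup P) (S : Finset P) :
    ∀ A : Subgroup P, A = B ⊔ Subgroup.closure (S : Set P) → (∀ a ∈ A, a * a ∈ B) →
      B.relIndex A ≠ 0 ∧ B.relIndex A ≤ 2 ^ S.card ∧
        ∀ d : ℕ, 1 ≤ d → GenLE A d → GenLE B ((d - 1) * B.relIndex A + 1) := by
  classical
  induction S using Finset.induction_on with
  | empty =>
    intro A hA _
    have hAB : A = B := by rw [hA]; simp
    rw [hAB, Subgroup.relIndex_self]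
    refine ⟨one_ne_zero, by simp, fun d hd h => ?_⟩
    exact h.mono (by omega)
  | insert x S hxS ih =>
    intro A hA hsq
    set A' := B ⊔ Subgroup.closure (S : Set P) with hA'
    have hBA' : B ≤ A' := le_sup_left
    have hA'A : A' ≤ A := by
      rw [hA, hA']
      refine sup_le_sup_left (Subgroup.closure_mono ?_) _
      simp
    have hxA : x ∈ A := by
      rw [hA]
      exact Subgroup.mem_sup_right (Subgroup.subset_closure (by simp))
    obtain ⟨h0, hle, hgen⟩ := ih A' rfl (fun a ha => hsq a (hA'A ha))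
    have hxx : x * x ∈ A' := hBA' (hsq x hxA)
    have hn : ∀ c ∈ A', x * c * x⁻¹ ∈ A' := by
      intro c hc
      have h1 : (x * c) * (x * c) ∈ A' := hBA' (hsq _ (A.mul_mem hxA (hA'A hc)))
      have h2 := A'.mul_mem (A'.mul_mem h1 (A'.inv_mem hc)) (A'.inv_mem hxx)
      have h3 : (x * c) * (x * c) * c⁻¹ * (x * x)⁻¹ = x * c * x⁻¹ := by group
      rwa [h3] at h2
    have hcov : ∀ a ∈ A, a ∈ A' ∨ x * a ∈ A' := by
      intro a ha
      have hAcl : A = Subgroup.closure ((B : Set P) ∪ ((insert x S : Finset P) : Set P)) := by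
        rw [Subgroup.closure_union, Subgroup.closure_eq, hA]
      rw [hAcl] at ha
      refine closure_aux hxx hn ?_ a ha
      intro y hy
      rcases hy with hy | hy
      · exact Or.inl (hBA' hy)
      · have hy' : y ∈ insert x S := by exact_mod_cast hy
        rw [Finset.mem_insert] at hy'
        rcases hy' with rfl | hy'
        · exact Or.inr hxx
        · exact Or.inl (Subgroup.mem_sup_right (Subgroup.subset_closure (by exact_mod_cast hy')))
    have hidx : A'.relIndex A = 1 ∨ A'.relIndex A = 2 := by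
      by_cases hx : x ∈ A'
      · left
        have : A' = A := by
          refine le_antisymm hA'A fun a ha => ?_
          rcases hcov a ha with h | h
          · exact h
          · have h1 := A'.mul_mem (A'.inv_mem hx) h
            rwa [inv_mul_cancel_left] at h1
        rw [this, Subgroup.relIndex_self]
      · right
        have : (A'.subgroupOf A).index = 2 := by
          rw [Subgroup.index_eq_two_iff']
          refine ⟨⟨x, hxA⟩, fun b => ?_⟩
          simp only [Subgroup.mem_subgroupOf, Subgroup.coe_mul]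
          rcases hcov b b.2 with h | h
          · refine Or.inr ⟨h, fun h1 => hx ?_⟩
            have h2 := A'.mul_mem h1 (A'.inv_mem h)
            rwa [mul_inv_cancel_right] at h2
          · refine Or.inl ⟨h, fun h1 => hx ?_⟩
            have h2 := A'.mul_mem h (A'.inv_mem h1)
            rwa [mul_inv_cancel_right] at h2
        exact this
    have hmul : B.relIndex A' * A'.relIndex A = B.relIndex A :=
      Subgroup.relIndex_mul_relIndex B A' A hBA' hA'A
    have hcard : (insert x S).card = S.card + 1 := Finset.card_insert_of_notMem hxS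
    rcases hidx with h1 | h2
    · rw [h1, mul_one] at hmul
      have hAA : A' = A := by
        refine le_antisymm hA'A ?_
        exact Subgroup.relIndex_eq_one.mp h1
      rw [← hmul, hcard]
      refine ⟨h0, hle.trans (Nat.pow_le_pow_right (by norm_num) (by omega)), fun d hd h => ?_⟩
      exact hgen d hd (hAA ▸ h)
    · rw [h2] at hmul
      rw [← hmul, hcard]
      refine ⟨by omega, by rw [pow_succ]; omega, fun d hd h => ?_⟩
      have h3 := hgen (2 * d - 1) (by omega) (h.index_two hA'A h2)
      refine h3.mono (le_of_eq ?_)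
      obtain ⟨e, rfl⟩ : ∃ e, d = e + 1 := ⟨d - 1, by omega⟩
      have : 2 * (e + 1) - 1 - 1 = 2 * e := by omega
      rw [this]
      have : e + 1 - 1 = e := by omega
      rw [this]
      ring

/-- The subgroup `B` generated by the squares of `A`. -/
theorem GenLE.sq {A B : Subgroup P} (hBA : B ≤ A) (hsq : ∀ a ∈ A, a * a ∈ B) {d : ℕ}
    (hd : 1 ≤ d) (hA : GenLE A d) :
    B.relIndex A ≠ 0 ∧ B.relIndex A ≤ 2 ^ d ∧ GenLE B ((d - 1) * B.relIndex A + 1) := by
  obtain ⟨S, hS, hcl⟩ := hA
  have hAB : A = B ⊔ Subgroup.closure (S : Set P) := by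
    rw [hcl]; exact (sup_eq_right.mpr hBA).symm
  obtain ⟨h1, h2, h3⟩ := GenLE.sq_aux B S A hAB hsq
  exact ⟨h1, h2.trans (Nat.pow_le_pow_right (by norm_num) hS), h3 d hd ⟨S, hS, hcl⟩⟩

theorem GenLE.top_of {W : Subgroup P} {n : ℕ} (h : GenLE W n) : GenLE (⊤ : Subgroup W) n := by
  classical
  obtain ⟨S, hS, rfl⟩ := h
  refine ⟨S.subtype (fun x => x ∈ Subgroup.closure (S : Set P)), ?_, ?_⟩
  · rw [Finset.card_subtype]
    exact (Finset.card_filter_le _ _).trans hS
  · rw [← Subgroup.closure_closure_coe_preimage (k := (S : Set P))]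
    congr 1
    ext x
    simp

end Gen

section Series

variable {V W : Type*} [Group V] [Group W]

theorem sqSeries_succ_le (i : ℕ) : sqSeries (V := V) (i + 1) ≤ sqSeries (V := V) i := by
  rw [sqSeries, Subgroup.closure_le]
  rintro x ⟨y, hy, rfl⟩
  exact (sqSeries i).pow_mem hy 2

theorem sqSeries_map (f : V →* W) (i : ℕ) : ∀ x ∈ sqSeries (V := V) i, f x ∈ sqSeries (V := W) i := by
  induction i with
  | zero => intro x _; exact Subgroup.mem_top _
  | succ i ih =>
    have : sqSeries (V := V) (i + 1) ≤ (sqSeries (V := W) (i + 1)).comap f := by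
      rw [sqSeries, Subgroup.closure_le]
      rintro x ⟨y, hy, rfl⟩
      change f (y ^ 2) ∈ sqSeries (V := W) (i + 1)
      rw [map_pow]
      exact Subgroup.subset_closure ⟨f y, ih y hy, rfl⟩
    exact fun x hx => this hx

theorem sqSeries_index {d : ℕ} (hd : 1 ≤ d) (h : GenLE (⊤ : Subgroup V) d) (i : ℕ) :
    (sqSeries (V := V) i).index ≠ 0 ∧ (sqSeries (V := V) i).index ≤ bnd d i ∧
      GenLE (sqSeries (V := V) i) ((d - 1) * (sqSeries (V := V) i).index + 1) := by
  induction i with
  | zero =>
    have h1 : (sqSeries (V := V) 0).index = 1 := by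
      rw [sqSeries]; exact Subgroup.index_top
    rw [h1]
    refine ⟨one_ne_zero, le_refl _, ?_⟩
    have : GenLE (sqSeries (V := V) 0) d := by rw [sqSeries]; exact h
    exact this.mono (by omega)
  | succ i ih =>
    obtain ⟨h0, hle, hgen⟩ := ih
    set A := sqSeries (V := V) i with hA
    set B := sqSeries (V := V) (i + 1) with hB
    have hBA : B ≤ A := sqSeries_succ_le i
    have hsq : ∀ a ∈ A, a * a ∈ B := by
      intro a ha
      rw [hB, sqSeries]
      exact Subgroup.subset_closure ⟨a, ha, (sq a).symm⟩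
    obtain ⟨h1, h2, h3⟩ := GenLE.sq hBA hsq (by omega) hgen
    have hmul : B.relIndex A * A.index = B.index := Subgroup.relIndex_mul_index hBA
    refine ⟨?_, ?_, ?_⟩
    · rw [← hmul]; exact Nat.mul_ne_zero h1 h0
    · rw [← hmul, bnd, mul_comm]
      refine Nat.mul_le_mul hle (h2.trans (Nat.pow_le_pow_right (by norm_num) ?_))
      rw [add_comm]
      exact Nat.add_le_add_left (Nat.mul_le_mul_left _ hle) 1
    · refine h3.mono (le_of_eq ?_)
      rw [← hmul, Nat.add_sub_cancel]
      ring

theorem card_le_bnd_of_genLE {d : ℕ} (hd : 1 ≤ d) (h : GenLE (⊤ : Subgroup V) d) (i : ℕ)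
    (hi : sqSeries (V := V) i = ⊥) : Finite V ∧ Nat.card V ≤ bnd d i := by
  obtain ⟨h0, hle, -⟩ := sqSeries_index hd h i
  rw [hi, Subgroup.index_bot] at h0 hle
  exact ⟨Nat.finite_of_card_ne_zero h0, hle⟩

end Series

/-- (M1a) -/
theorem card_le_bnd {V : Type*} [Group V] (d : ℕ) (hd : 1 ≤ d) (s : Fin d → V)
    (hs : Subgroup.closure (Set.range s) = ⊤) (i : ℕ) (hi : sqSeries (V := V) i = ⊥) :
    Finite V ∧ Nat.card V ≤ bnd d i := by
  classical
  refine card_le_bnd_of_genLE hd ⟨Finset.univ.image s, ?_, ?_⟩ i hi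
  · exact Finset.card_image_le.trans (by simp)
  · rw [Finset.coe_image, Finset.coe_univ, Set.image_univ, hs]

section KerGen

variable {P H : Type*} [Group P] [Group H] [Finite H] {ι : Type*} [Fintype ι]

/-- Reidemeister–Schreier for the kernel of `⟨c_j, s(H), γ⟩ → H × C₂`. -/
theorem genLE_ker (c : ι → P) (hcc : ∀ j, c j ^ 2 = 1) (s : H →* P) (γ : P)
    (hγ : ∀ h, γ * s h = s h * γ)
    (hgen : Subgroup.closure (Set.range c ∪ Set.range s ∪ {γ}) = ⊤)
    (Z : Subgroup H) (hZ : ∀ z ∈ Z, ∀ j, c j * s z = s z * c j)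
    (π : P →* H × Multiplicative (ZMod 2)) (hπc : ∀ j, π (c j) = (1, Multiplicative.ofAdd 1))
    (hπs : ∀ h, π (s h) = (h, 1)) (hπγ : (π γ).1 = 1) :
    GenLE π.ker (Z.index * Fintype.card ι + 1) := by
  classical
  have hone : (Multiplicative.ofAdd (1 : ZMod 2)) ≠ 1 := by decide
  have hcc' : ∀ j, c j * c j = 1 := fun j => by rw [← sq]; exact hcc j
  have hcinv : ∀ j, (c j)⁻¹ = c j := fun j => inv_eq_of_mul_eq_one_left (hcc' j)
  set Y : Set P := {x | ∃ j h, x = s h * c j * (s h)⁻¹} ∪ {γ} with hY
  set D := Subgroup.closure Y with hD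
  -- `D` is normalised by `s(H)`
  have hDs : ∀ h, ∀ d ∈ D, s h * d * (s h)⁻¹ ∈ D := by
    intro h d hd
    rw [hD] at hd
    induction hd using Subgroup.closure_induction with
    | mem x hx =>
      rcases hx with ⟨j, h', rfl⟩ | hx
      · refine Subgroup.subset_closure (Or.inl ⟨j, h * h', ?_⟩)
        rw [map_mul]; group
      · rw [Set.mem_singleton_iff] at hx
        subst hx
        have h1 : s h * x * (s h)⁻¹ = x := by rw [← hγ]; group
        rw [h1]
        exact Subgroup.subset_closure (Or.inr rfl)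
    | one => simp
    | mul x y _ _ ihx ihy =>
      have h1 := D.mul_mem ihx ihy
      have h3 : s h * x * (s h)⁻¹ * (s h * y * (s h)⁻¹) = s h * (x * y) * (s h)⁻¹ := by group
      rwa [h3] at h1
    | inv x _ ih =>
      have h1 := D.inv_mem ih
      have h3 : (s h * x * (s h)⁻¹)⁻¹ = s h * x⁻¹ * (s h)⁻¹ := by group
      rwa [h3] at h1
  have hdec : ∀ x : P, ∃ d ∈ D, ∃ h, x = d * s h := by
    intro x
    have hx : x ∈ Subgroup.closure (Set.range c ∪ Set.range s ∪ {γ}) := by
      rw [hgen]; exact Subgroup.mem_top _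
    induction hx using Subgroup.closure_induction with
    | mem x hx =>
      rcases hx with (⟨j, rfl⟩ | ⟨h, rfl⟩) | hx
      · exact ⟨c j, Subgroup.subset_closure (Or.inl ⟨j, 1, by simp⟩), 1, by simp⟩
      · exact ⟨1, D.one_mem, h, by simp⟩
      · rw [Set.mem_singleton_iff] at hx
        exact ⟨x, Subgroup.subset_closure (Or.inr hx), 1, by simp⟩
    | one => exact ⟨1, D.one_mem, 1, by simp⟩
    | mul x y _ _ ihx ihy =>
      obtain ⟨d, hd, h, rfl⟩ := ihx
      obtain ⟨d', hd', h', rfl⟩ := ihy
      refine ⟨d * (s h * d' * (s h)⁻¹), D.mul_mem hd (hDs h d' hd'), h * h', ?_⟩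
      rw [map_mul]; group
    | inv x _ ih =>
      obtain ⟨d, hd, h, rfl⟩ := ih
      refine ⟨s h⁻¹ * d⁻¹ * (s h⁻¹)⁻¹, hDs _ _ (D.inv_mem hd), h⁻¹, ?_⟩
      rw [map_inv]; group
  have hπD : ∀ d ∈ D, (π d).1 = 1 := by
    intro d hd
    rw [hD] at hd
    induction hd using Subgroup.closure_induction with
    | mem x hx =>
      rcases hx with ⟨j, h', rfl⟩ | hx
      · rw [map_mul, map_mul, map_inv, hπc, hπs]; simp
      · rw [Set.mem_singleton_iff] at hx
        subst hx
        exact hπγ
    | one => simp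
    | mul x y _ _ ihx ihy => rw [map_mul, Prod.fst_mul, ihx, ihy, one_mul]
    | inv x _ ih => rw [map_inv, Prod.fst_inv, ih, inv_one]
  have hkerD : ∀ v ∈ π.ker, v ∈ D := by
    intro v hv
    obtain ⟨d, hd, h, rfl⟩ := hdec v
    rw [MonoidHom.mem_ker, map_mul, hπs] at hv
    have h1 := congrArg Prod.fst hv
    rw [Prod.fst_mul, hπD d hd, one_mul] at h1
    have h2 : h = 1 := h1
    rw [h2, map_one, mul_one]
    exact hd
  have hπγ2 : π γ = (1, 1) ∨ π γ = (1, Multiplicative.ofAdd 1) := by
    have : ∀ a : Multiplicative (ZMod 2), a = 1 ∨ a = Multiplicative.ofAdd 1 := by decide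
    rcases this (π γ).2 with h | h
    · exact Or.inl (Prod.ext hπγ h)
    · exact Or.inr (Prod.ext hπγ h)
  rcases isEmpty_or_nonempty ι with hι | ⟨⟨j0⟩⟩
  · -- no involutions
    have hYγ : Y = {γ} := by
      rw [hY]
      ext x
      simp
    have hcardι : Fintype.card ι = 0 := Fintype.card_eq_zero
    rw [hcardι, mul_zero, zero_add]
    rcases hπγ2 with h1 | h1
    · refine ⟨{γ}, by simp, ?_⟩
      refine le_antisymm ?_ ?_
      · rw [Subgroup.closure_le]
        simp only [Finset.coe_singleton, Set.singleton_subset_iff, SetLike.mem_coe,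
          MonoidHom.mem_ker, h1]
        rfl
      · intro v hv
        have := hkerD v hv
        rw [hD, hYγ] at this
        simpa using this
    · refine ⟨{γ * γ}, by simp, ?_⟩
      set C := Subgroup.closure (({γ * γ} : Finset P) : Set P) with hC
      have hγγ : γ * γ ∈ C := Subgroup.subset_closure (by simp)
      have hCle : C ≤ π.ker := by
        rw [hC, Subgroup.closure_le]
        simp only [Finset.coe_singleton, Set.singleton_subset_iff, SetLike.mem_coe,
          MonoidHom.mem_ker, map_mul, h1]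
        refine Prod.ext (by simp) ?_
        change Multiplicative.ofAdd (1 : ZMod 2) * Multiplicative.ofAdd 1 = 1
        decide
      have hn : ∀ x ∈ C, γ * x * γ⁻¹ ∈ C := by
        intro x hx
        rw [hC] at hx
        induction hx using Subgroup.closure_induction with
        | mem x hx =>
          have hx' : x = γ * γ := by simpa using hx
          subst hx'
          have : γ * (γ * γ) * γ⁻¹ = γ * γ := by group
          rw [this]; exact hγγ
        | one => simp
        | mul x y _ _ ihx ihy =>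
          have h1 := C.mul_mem ihx ihy
          have h3 : γ * x * γ⁻¹ * (γ * y * γ⁻¹) = γ * (x * y) * γ⁻¹ := by group
          rwa [h3] at h1
        | inv x _ ih =>
          have h1 := C.inv_mem ih
          have h3 : (γ * x * γ⁻¹)⁻¹ = γ * x⁻¹ * γ⁻¹ := by group
          rwa [h3] at h1
      refine le_antisymm hCle ?_
      intro v hv
      have hvD := hkerD v hv
      rw [hD] at hvD
      rcases closure_aux (C := C) (u := γ) hγγ hn (S := Y) (by
        intro x hx
        rw [hYγ, Set.mem_singleton_iff] at hx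
        subst hx
        exact Or.inr hγγ) v hvD with h | h
      · exact h
      · exfalso
        have h2 := hCle h
        rw [MonoidHom.mem_ker, map_mul, MonoidHom.mem_ker.mp hv, mul_one, h1] at h2
        exact hone (congrArg Prod.snd h2)
  · -- there is an involution
    have : Fintype (H ⧸ Z) := Fintype.ofFinite _
    set y : ι × (H ⧸ Z) → P := fun κ => s κ.2.out * c κ.1 * (s κ.2.out)⁻¹ with hy
    have hyall : ∀ j h, s h * c j * (s h)⁻¹ = y (j, (h : H ⧸ Z)) := by
      intro j h
      obtain ⟨z, hz⟩ := QuotientGroup.mk_out_eq_mul Z h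
      simp only [hy, hz]
      rw [map_mul]
      have h1 := hZ z z.2 j
      have h2 : s h * s z * c j * (s h * s z)⁻¹ = s h * (s z * c j * (s z)⁻¹) * (s h)⁻¹ := by
        group
      rw [h2, ← h1]
      group
    have hyy : ∀ κ, y κ * y κ = 1 := by
      intro κ
      simp only [hy]
      have : s κ.2.out * c κ.1 * (s κ.2.out)⁻¹ * (s κ.2.out * c κ.1 * (s κ.2.out)⁻¹) =
        s κ.2.out * (c κ.1 * c κ.1) * (s κ.2.out)⁻¹ := by group
      rw [this, hcc']
      simp
    have hπy : ∀ κ, π (y κ) = (1, Multiplicative.ofAdd 1) := by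
      intro κ
      simp only [hy]
      rw [map_mul, map_mul, map_inv, hπc, hπs]
      simp
    set κ0 : ι × (H ⧸ Z) := (j0, ((1 : H) : H ⧸ Z)) with hκ0
    have hy0 : y κ0 = c j0 := by
      rw [hκ0, ← hyall]; simp
    set u := c j0 with hu
    have huu : u * u = 1 := hcc' j0
    have huinv : u⁻¹ = u := hcinv j0
    have hπu : π u = (1, Multiplicative.ofAdd 1) := hπc j0
    -- the two elements coming from `γ`
    obtain ⟨g1, g2, hg1, hg2, hg12, hg21, hgγ⟩ : ∃ g1 g2 : P, g1 ∈ π.ker ∧ g2 ∈ π.ker ∧
        u * g1 * u⁻¹ = g2 ∧ u * g2 * u⁻¹ = g1 ∧ (γ = g1 ∨ u * γ = g2) := by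
      rcases hπγ2 with h1 | h1
      · refine ⟨γ, u * γ * u⁻¹, ?_, ?_, rfl, ?_, Or.inl rfl⟩
        · rw [MonoidHom.mem_ker, h1]; rfl
        · rw [MonoidHom.mem_ker, map_mul, map_mul, map_inv, h1, hπu]; simp
        · have : u * (u * γ * u⁻¹) * u⁻¹ = (u * u) * γ * (u * u)⁻¹ := by group
          rw [this, huu]; simp
      · refine ⟨γ * u, u * γ, ?_, ?_, ?_, ?_, Or.inr rfl⟩
        · rw [MonoidHom.mem_ker, map_mul, h1, hπu]
          refine Prod.ext (by simp) ?_
          change Multiplicative.ofAdd (1 : ZMod 2) * Multiplicative.ofAdd 1 = 1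
          decide
        · rw [MonoidHom.mem_ker, map_mul, h1, hπu]
          refine Prod.ext (by simp) ?_
          change Multiplicative.ofAdd (1 : ZMod 2) * Multiplicative.ofAdd 1 = 1
          decide
        · group
        · rw [huinv]
          have : u * (u * γ) * u = (u * u) * γ * u := by group
          rw [this, huu, one_mul]
    set T : Finset P := insert g1 (insert g2 ((Finset.univ.erase κ0).image (fun κ => y κ * u)))
      with hT
    have hTcard : T.card ≤ Z.index * Fintype.card ι + 1 := by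
      have h1 : T.card ≤ ((Finset.univ.erase κ0).image (fun κ => y κ * u)).card + 2 := by
        refine (Finset.card_insert_le _ _).trans ?_
        have := Finset.card_insert_le g2 ((Finset.univ.erase κ0).image (fun κ => y κ * u))
        omega
      have h2 : ((Finset.univ.erase κ0).image (fun κ => y κ * u)).card ≤
        (Finset.univ.erase κ0).card := Finset.card_image_le
      have h3 : (Finset.univ.erase κ0).card = Fintype.card (ι × (H ⧸ Z)) - 1 := by
        rw [Finset.card_erase_of_mem (Finset.mem_univ _), Finset.card_univ]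
      have h4 : Fintype.card (ι × (H ⧸ Z)) = Fintype.card ι * Z.index := by
        rw [Fintype.card_prod, ← Nat.card_eq_fintype_card (α := H ⧸ Z)]
        rfl
      have h5 : 0 < Fintype.card (ι × (H ⧸ Z)) := Fintype.card_pos_iff.mpr ⟨κ0⟩
      rw [h4] at h3 h5
      rw [mul_comm Z.index]
      omega
    refine ⟨T, hTcard, ?_⟩
    set C := Subgroup.closure (T : Set P) with hC
    have hTC : ∀ x ∈ T, x ∈ C := fun x hx => Subgroup.subset_closure (by exact_mod_cast hx)
    have hg1C : g1 ∈ C := hTC _ (by simp [hT])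
    have hg2C : g2 ∈ C := hTC _ (by simp [hT])
    have hyC : ∀ κ, y κ * u ∈ C := by
      intro κ
      by_cases hκ : κ = κ0
      · rw [hκ, hy0, huu]; exact C.one_mem
      · refine hTC _ ?_
        rw [hT]
        refine Finset.mem_insert_of_mem (Finset.mem_insert_of_mem ?_)
        exact Finset.mem_image_of_mem (fun κ => y κ * u)
          (Finset.mem_erase.mpr ⟨hκ, Finset.mem_univ _⟩)
    have hyinv : ∀ κ, (y κ)⁻¹ = y κ := fun κ => inv_eq_of_mul_eq_one_left (hyy κ)
    have huyC : ∀ κ, u * y κ ∈ C := by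
      intro κ
      have h1 := C.inv_mem (hyC κ)
      rwa [mul_inv_rev, huinv, hyinv] at h1
    have hmemT : ∀ x ∈ T, x = g1 ∨ x = g2 ∨ ∃ κ, x = y κ * u := by
      intro x hx
      rw [hT, Finset.mem_insert, Finset.mem_insert, Finset.mem_image] at hx
      rcases hx with h | h | ⟨κ, _, h⟩
      · exact Or.inl h
      · exact Or.inr (Or.inl h)
      · exact Or.inr (Or.inr ⟨κ, h.symm⟩)
    have hCle : C ≤ π.ker := by
      rw [hC, Subgroup.closure_le]
      intro x hx
      rcases hmemT x (by exact_mod_cast hx) with rfl | rfl | ⟨κ, rfl⟩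
      · exact hg1
      · exact hg2
      · change y κ * u ∈ π.ker
        rw [MonoidHom.mem_ker, map_mul, hπy, hπu]
        refine Prod.ext (by simp) ?_
        change Multiplicative.ofAdd (1 : ZMod 2) * Multiplicative.ofAdd 1 = 1
        decide
    have hn : ∀ x ∈ C, u * x * u⁻¹ ∈ C := by
      intro x hx
      rw [hC] at hx
      induction hx using Subgroup.closure_induction with
      | mem x hx =>
        rcases hmemT x (by exact_mod_cast hx) with rfl | rfl | ⟨κ, rfl⟩
        · rw [hg12]; exact hg2C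
        · rw [hg21]; exact hg1C
        · have : u * (y κ * u) * u⁻¹ = u * y κ := by group
          rw [this]
          exact huyC κ
      | one => simp
      | mul x y _ _ ihx ihy =>
        have h1 := C.mul_mem ihx ihy
        have h3 : u * x * u⁻¹ * (u * y * u⁻¹) = u * (x * y) * u⁻¹ := by group
        rwa [h3] at h1
      | inv x _ ih =>
        have h1 := C.inv_mem ih
        have h3 : (u * x * u⁻¹)⁻¹ = u * x⁻¹ * u⁻¹ := by group
        rwa [h3] at h1
    refine le_antisymm hCle ?_
    intro v hv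
    have hvD := hkerD v hv
    rw [hD] at hvD
    rcases closure_aux (C := C) (u := u) (by rw [huu]; exact C.one_mem) hn (S := Y) (by
      intro x hx
      rcases hx with ⟨j, h, rfl⟩ | hx
      · right
        rw [hyall]
        exact huyC _
      · rw [Set.mem_singleton_iff] at hx
        subst hx
        rcases hgγ with h | h
        · left; rw [h]; exact hg1C
        · right; rw [h]; exact hg2C) v hvD with h | h
    · exact h
    · exfalso
      have h2 := hCle h
      rw [MonoidHom.mem_ker, map_mul, MonoidHom.mem_ker.mp hv, mul_one, hπu] at h2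
      exact hone (congrArg Prod.snd h2)

end KerGen

/-- (M1b) -/
theorem exists_hom {G T H : Type*} [Group G] [Group T] [Group H] [Finite G] [Finite H]
    {ι : Type*} [Fintype ι]
    (c : ι → G) (hcc : ∀ j, c j ^ 2 = 1) (s : H →* G) (γ : G) (hγ : ∀ h, γ * s h = s h * γ)
    (hgen : Subgroup.closure (Set.range c ∪ Set.range s ∪ {γ}) = ⊤)
    (Z : Subgroup H) (hZ : ∀ z ∈ Z, ∀ j, c j * s z = s z * c j)
    (π : G →* H × Multiplicative (ZMod 2)) (hπc : ∀ j, π (c j) = (1, Multiplicative.ofAdd 1))
    (hπs : ∀ h, π (s h) = (h, 1)) (hπγ : (π γ).1 = 1)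
    (i : ℕ) (hG : sqSeries (V := π.ker) i = ⊥)
    (hcard : bnd (Z.index * Fintype.card ι + 1) i ≤ Nat.card π.ker)
    (r : H →* T) (X : ι → T) (hX : ∀ j, X j ^ 2 = 1) (hXZ : ∀ z ∈ Z, ∀ j, X j * r z = r z * X j)
    (N : Subgroup T) [N.Normal] (hXN : ∀ j, X j ∈ N)
    (hN : sqSeries (V := N) i = ⊥) :
    ∃ f : G →* T, (∀ j, f (c j) = X j) ∧ (∀ h, f (s h) = r h) ∧ f γ = 1 := by
  classical
  set gens : Set (G × T) := Set.range (fun j => (c j, X j)) ∪ Set.range (fun h => (s h, r h)) ∪
    {(γ, 1)} with hgens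
  set P : Subgroup (G × T) := Subgroup.closure gens with hP
  have hcP : ∀ j, (c j, X j) ∈ P := fun j => Subgroup.subset_closure (Or.inl (Or.inl ⟨j, rfl⟩))
  have hsP : ∀ h, (s h, r h) ∈ P := fun h => Subgroup.subset_closure (Or.inl (Or.inr ⟨h, rfl⟩))
  have hγP : (γ, (1 : T)) ∈ P := Subgroup.subset_closure (Or.inr rfl)
  set c' : ι → P := fun j => ⟨(c j, X j), hcP j⟩ with hc'
  set s' : H →* P := (s.prod r).codRestrict P (fun h => hsP h) with hs'
  set γ' : P := ⟨(γ, 1), hγP⟩ with hγ'
  set π' : P →* H × Multiplicative (ZMod 2) := π.comp ((MonoidHom.fst G T).comp P.subtype) with hπ'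
  have hgen' : Subgroup.closure (Set.range c' ∪ Set.range s' ∪ {γ'}) = ⊤ := by
    rw [eq_top_iff, ← Subgroup.closure_closure_coe_preimage (k := gens), Subgroup.closure_le]
    intro x hx
    refine Subgroup.subset_closure ?_
    rcases hx with (⟨j, hj⟩ | ⟨h, hh⟩) | hx
    · exact Or.inl (Or.inl ⟨j, Subtype.ext hj⟩)
    · exact Or.inl (Or.inr ⟨h, Subtype.ext hh⟩)
    · exact Or.inr (Subtype.ext hx)
  have hker : GenLE π'.ker (Z.index * Fintype.card ι + 1) := by
    refine genLE_ker c' ?_ s' γ' ?_ hgen' Z ?_ π' ?_ ?_ ?_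
    · intro j
      refine Subtype.ext (Prod.ext (hcc j) (hX j))
    · intro h
      refine Subtype.ext (Prod.ext (hγ h) ?_)
      change 1 * r h = r h * 1
      simp
    · intro z hz j
      exact Subtype.ext (Prod.ext (hZ z hz j) (hXZ z hz j))
    · exact fun j => hπc j
    · exact fun h => hπs h
    · exact hπγ
  -- elements of the kernel have second component in `N`
  have hsnd : ∀ p : G × T, p ∈ P → QuotientGroup.mk' N p.2 = QuotientGroup.mk' N (r (π p.1).1) := by
    intro p hp
    rw [hP] at hp
    induction hp using Subgroup.closure_induction with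
    | mem x hx =>
      rcases hx with (⟨j, rfl⟩ | ⟨h, rfl⟩) | hx
      · change QuotientGroup.mk' N (X j) = QuotientGroup.mk' N (r (π (c j)).1)
        rw [hπc]
        simp only [map_one]
        exact (QuotientGroup.eq_one_iff _).mpr (hXN j)
      · change QuotientGroup.mk' N (r h) = QuotientGroup.mk' N (r (π (s h)).1)
        rw [hπs]
      · rw [Set.mem_singleton_iff] at hx
        subst hx
        change QuotientGroup.mk' N 1 = QuotientGroup.mk' N (r (π γ).1)
        rw [hπγ]
        simp
    | one => simp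
    | mul x y _ _ ihx ihy =>
      rw [Prod.snd_mul, map_mul, ihx, ihy, Prod.fst_mul, map_mul, Prod.fst_mul, map_mul, map_mul]
    | inv x _ ih =>
      rw [Prod.snd_inv, map_inv, ih, Prod.fst_inv, map_inv, Prod.fst_inv, map_inv, map_inv]
  have hsndN : ∀ v : π'.ker, ((v : P) : G × T).2 ∈ N := by
    intro v
    have h1 := hsnd _ (v : P).2
    have h2 : π ((v : P) : G × T).1 = 1 := MonoidHom.mem_ker.mp v.2
    rw [h2] at h1
    simp only [Prod.fst_one, map_one] at h1
    exact (QuotientGroup.eq_one_iff _).mp h1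
  have hfst : ∀ v : π'.ker, ((v : P) : G × T).1 ∈ π.ker := fun v => MonoidHom.mem_ker.mp v.2
  set f1 : π'.ker →* π.ker := ((MonoidHom.fst G T).comp (P.subtype.comp π'.ker.subtype)).codRestrict
    π.ker hfst with hf1
  set f2 : π'.ker →* N := ((MonoidHom.snd G T).comp (P.subtype.comp π'.ker.subtype)).codRestrict
    N hsndN with hf2
  have hser : sqSeries (V := π'.ker) i = ⊥ := by
    rw [eq_bot_iff]
    intro v hv
    have h1 := sqSeries_map f1 i v hv
    have h2 := sqSeries_map f2 i v hv
    rw [hG, Subgroup.mem_bot] at h1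
    rw [hN, Subgroup.mem_bot] at h2
    rw [Subgroup.mem_bot]
    refine Subtype.ext (Subtype.ext (Prod.ext ?_ ?_))
    · exact congrArg Subtype.val h1
    · exact congrArg Subtype.val h2
  obtain ⟨hfin, hcardle⟩ := card_le_bnd_of_genLE (by omega) hker.top_of i hser
  have hsurjP : ∀ g : G, ∃ p : P, (p : G × T).1 = g := by
    intro g
    have hg : g ∈ Subgroup.closure (Set.range c ∪ Set.range s ∪ {γ}) := by
      rw [hgen]; exact Subgroup.mem_top _
    induction hg using Subgroup.closure_induction with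
    | mem x hx =>
      rcases hx with (⟨j, rfl⟩ | ⟨h, rfl⟩) | hx
      · exact ⟨c' j, rfl⟩
      · exact ⟨s' h, rfl⟩
      · rw [Set.mem_singleton_iff] at hx
        subst hx
        exact ⟨γ', rfl⟩
    | one => exact ⟨1, rfl⟩
    | mul x y _ _ ihx ihy =>
      obtain ⟨p, rfl⟩ := ihx
      obtain ⟨q, rfl⟩ := ihy
      exact ⟨p * q, rfl⟩
    | inv x _ ih =>
      obtain ⟨p, rfl⟩ := ih
      exact ⟨p⁻¹, rfl⟩
  have hf1surj : Function.Surjective f1 := by
    intro g
    obtain ⟨p, hp⟩ := hsurjP g
    refine ⟨⟨p, ?_⟩, Subtype.ext hp⟩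
    rw [MonoidHom.mem_ker]
    change π (p : G × T).1 = 1
    rw [hp]
    exact MonoidHom.mem_ker.mp g.2
  have hf1bij : Function.Bijective f1 :=
    hf1surj.bijective_of_nat_card_le (hcardle.trans hcard)
  have hinj : Function.Injective ((MonoidHom.fst G T).comp P.subtype) := by
    rw [injective_iff_map_eq_one]
    intro p hp
    have hp' : (p : G × T).1 = 1 := hp
    have hpk : p ∈ π'.ker := by
      rw [MonoidHom.mem_ker]
      change π (p : G × T).1 = 1
      rw [hp', map_one]
    have h1 : f1 ⟨p, hpk⟩ = f1 1 := by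
      refine Subtype.ext ?_
      change (p : G × T).1 = 1
      exact hp'
    have h2 := hf1bij.1 h1
    exact congrArg Subtype.val h2
  set e : P ≃* G := MulEquiv.ofBijective ((MonoidHom.fst G T).comp P.subtype)
    ⟨hinj, fun g => hsurjP g⟩ with he
  refine ⟨((MonoidHom.snd G T).comp P.subtype).comp e.symm.toMonoidHom, ?_, ?_, ?_⟩
  · intro j
    have h1 : e.symm (c j) = c' j := by rw [MulEquiv.symm_apply_eq]; rfl
    change ((e.symm (c j) : P) : G × T).2 = X j
    rw [h1]
  · intro h
    have h1 : e.symm (s h) = s' h := by rw [MulEquiv.symm_apply_eq]; rfl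
    change ((e.symm (s h) : P) : G × T).2 = r h
    rw [h1]
    rfl
  · have h1 : e.symm γ = γ' := by rw [MulEquiv.symm_apply_eq]; rfl
    change ((e.symm γ : P) : G × T).2 = 1
    rw [h1]

end Pool.Agent.Lib.MP_aa8fd2_nt
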