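import Mathlib

set_option autoImplicit false

/-! Characters of 2-groups. -/

namespace Pool.Agent.Lib.MP_aa8fd2_nt

/-- (P4) -/
theorem exists_char_of_ne_top {W : Type*} [Group W] [Finite W] (hW : IsPGroup 2 W)
    (U : Subgroup W) (hU : U ≠ ⊤) : ∃ χ : W →* ℤˣ, (∀ u ∈ U, χ u = 1) ∧ χ ≠ 1 := by
  classical
  obtain ⟨a, ha⟩ := IsPGroup.iff_card.1 hW
  obtain ⟨b, hb⟩ := IsPGroup.iff_card.1 (hW.to_subgroup U)
  have hlt : Nat.card U < Nat.card W := by
    refine lt_of_le_of_ne (Subgroup.card_le_card_group U) ?_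
    intro h
    exact hU ((Subgroup.card_eq_iff_eq_top U).1 h)
  rw [ha, hb] at hlt
  have hba : b < a := (Nat.pow_lt_pow_iff_right (by norm_num : 1 < 2)).1 hlt
  obtain ⟨M, hM, hUM⟩ := Sylow.exists_subgroup_card_pow_prime_le (G := W) (p := 2) (n := b)
    (m := a - 1) (by rw [ha]; exact pow_dvd_pow 2 (by omega)) U hb (by omega)
  have hidx : M.index = 2 := by
    have h1 := M.card_mul_index
    rw [hM, ha] at h1
    have h2 : 2 ^ a = 2 ^ (a - 1) * 2 := by
      rw [← pow_succ]
      congr 1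
      omega
    rw [h2] at h1
    exact Nat.eq_of_mul_eq_mul_left (by positivity) h1
  let χ : W →* ℤˣ :=
    { toFun := fun g => if g ∈ M then 1 else -1
      map_one' := by simp
      map_mul' := fun g h => by
        have h1 := Subgroup.mul_mem_iff_of_index_two hidx (a := g) (b := h)
        by_cases hg : g ∈ M <;> by_cases hh : h ∈ M <;> simp [h1, hg, hh] }
  refine ⟨χ, fun u hu => if_pos (hUM hu), ?_⟩
  intro h
  obtain ⟨g, hg⟩ : ∃ g, g ∉ M := by
    by_contra hcon
    push Not at hcon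
    have : M = ⊤ := eq_top_iff.2 fun g _ => hcon g
    rw [this, Subgroup.index_top] at hidx
    omega
  have h1 := DFunLike.congr_fun h g
  have h2 : χ g = -1 := if_neg hg
  rw [h2, MonoidHom.one_apply] at h1
  exact absurd h1 (by decide)

end Pool.Agent.Lib.MP_aa8fd2_nt
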