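import Pool.Agent.Lib.MP_aa8fd2_nt.Deform

set_option autoImplicit false

/-! `F_S/F` is Galois; restriction of automorphisms. -/

namespace Pool.Agent.Lib.MP_aa8fd2_nt.Mazur

open NumberField IsDedekindDomain

theorem isUnramifiedAt_of_algEquiv {R A B : Type*} [CommRing R] [CommRing A] [CommRing B]
    [Algebra R A] [Algebra R B] (e : A ≃ₐ[R] B) (P : Ideal A) (Q : Ideal B) [P.IsPrime] [Q.IsPrime]
    (hPQ : P = Q.comap (e : A →+* B)) (h : Algebra.IsUnramifiedAt R P) :
    Algebra.IsUnramifiedAt R Q := by
  have hH : Submonoid.map (e.toRingEquiv : A ≃+* B).toMonoidHom P.primeCompl = Q.primeCompl := by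
    ext x
    constructor
    · rintro ⟨y, hy, rfl⟩
      intro hx
      apply hy
      rw [hPQ]
      exact hx
    · intro hx
      refine ⟨e.symm x, ?_, e.apply_symm_apply x⟩
      intro hx'
      rw [hPQ] at hx'
      apply hx
      have h1 : e (e.symm x) ∈ Q := hx'
      rwa [e.apply_symm_apply] at h1
  let E : Localization.AtPrime P ≃+* Localization.AtPrime Q :=
    IsLocalization.ringEquivOfRingEquiv _ _ e.toRingEquiv hH
  let E' : Localization.AtPrime P ≃ₐ[R] Localization.AtPrime Q :=
    { E with
      commutes' := fun r => by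
        change E (algebraMap R (Localization.AtPrime P) r) = _
        rw [IsScalarTower.algebraMap_apply R A (Localization.AtPrime P),
          IsScalarTower.algebraMap_apply R B (Localization.AtPrime Q)]
        rw [IsLocalization.ringEquivOfRingEquiv_eq]
        congr 1
        exact e.commutes r }
  exact Algebra.FormallyUnramified.of_equiv E'

section

variable {F : Type} [Field F] [NumberField F]

omit [NumberField F] in
theorem UnramifiedOutside.of_algEquiv {S : Finset (HeightOneSpectrum (𝓞 F))}
    {E E' : IntermediateField F (AlgebraicClosure F)} (e : E ≃ₐ[F] E')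
    (h : UnramifiedOutside F S E) : UnramifiedOutside F S E' := by
  intro Q hQ hQ0 hv
  let e' : 𝓞 E ≃ₐ[𝓞 F] 𝓞 E' := RingOfIntegers.mapAlgEquiv e
  have hPr : (Q.comap (e' : 𝓞 E →+* 𝓞 E')).IsPrime := Ideal.comap_isPrime _ _
  have hcomap : (Q.comap (e' : 𝓞 E →+* 𝓞 E')).comap (algebraMap (𝓞 F) (𝓞 E)) =
      Q.comap (algebraMap (𝓞 F) (𝓞 E')) := by
    rw [Ideal.comap_comap]
    congr 1
    exact RingHom.ext fun x => e'.commutes x
  refine isUnramifiedAt_of_algEquiv e' _ Q rfl (h _ hPr ?_ ?_)
  · intro h0
    apply hQ0
    rw [eq_bot_iff]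
    intro x hx
    have h1 : e'.symm x ∈ Q.comap (e' : 𝓞 E →+* 𝓞 E') := by
      change e' (e'.symm x) ∈ Q
      rwa [e'.apply_symm_apply]
    rw [h0] at h1
    have h2 : e'.symm x = 0 := h1
    have h3 : x = 0 := by rw [← e'.apply_symm_apply x, h2, map_zero]
    exact h3
  · intro v hvS
    rw [hcomap]
    exact hv v hvS

instance normal_maxExt (S : Finset (HeightOneSpectrum (𝓞 F))) : Normal F (maxExt F S) := by
  rw [IntermediateField.normal_iff_forall_map_le']
  intro σ
  unfold maxExt
  rw [sSup_eq_iSup', IntermediateField.map_iSup, iSup_le_iff, ← sSup_eq_iSup']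
  rintro ⟨E, hE1, hE2⟩
  have hE1 : FiniteDimensional F E := hE1
  apply le_sSup
  refine ⟨?_, ?_⟩
  · exact (E.equivMap (σ : AlgebraicClosure F →ₐ[F] AlgebraicClosure F)).toLinearEquiv.finiteDimensional
  · exact UnramifiedOutside.of_algEquiv (E.equivMap _) hE2

instance isGalois_maxExt (S : Finset (HeightOneSpectrum (𝓞 F))) : IsGalois F (maxExt F S) where

end

section Res

open scoped Pointwise

variable {F Ω : Type} [Field F] [Field Ω] [Algebra F Ω]

/-- Restriction of automorphisms from `E'` to a normal subextension `E`. -/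
noncomputable def res {E E' : IntermediateField F Ω} (h : E ≤ E') [Normal F E] :
    (E' ≃ₐ[F] E') →* (E ≃ₐ[F] E) :=
  letI : Algebra E E' := (IntermediateField.inclusion h).toRingHom.toAlgebra
  haveI : IsScalarTower F E E' := IsScalarTower.of_algebraMap_eq fun _ => rfl
  AlgEquiv.restrictNormalHom E

theorem res_apply {E E' : IntermediateField F Ω} (h : E ≤ E') [Normal F E] (g : E' ≃ₐ[F] E')
    (x : E) : IntermediateField.inclusion h (res h g x) = g (IntermediateField.inclusion h x) := by
  let _ : Algebra E E' := (IntermediateField.inclusion h).toRingHom.toAlgebra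
  have : IsScalarTower F E E' := IsScalarTower.of_algebraMap_eq fun _ => rfl
  exact AlgEquiv.restrictNormal_commutes g E x

theorem coe_res_apply {E E' : IntermediateField F Ω} (h : E ≤ E') [Normal F E] (g : E' ≃ₐ[F] E')
    (x : E) (y : E') (hxy : (y : Ω) = x) : ((res h g x : E) : Ω) = g y := by
  have h1 : IntermediateField.inclusion h x = y := Subtype.ext hxy.symm
  have h2 := congrArg (fun z : E' => (z : Ω)) (res_apply h g x)
  rw [h1] at h2
  exact h2

theorem res_surjective {E E' : IntermediateField F Ω} (h : E ≤ E') [Normal F E] [Normal F E'] :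
    Function.Surjective (res h) := by
  let _ : Algebra E E' := (IntermediateField.inclusion h).toRingHom.toAlgebra
  have : IsScalarTower F E E' := IsScalarTower.of_algebraMap_eq fun _ => rfl
  exact AlgEquiv.restrictNormalHom_surjective (F := F) (K₁ := E) E'

theorem res_res {E E' E'' : IntermediateField F Ω} (h : E ≤ E') (h' : E' ≤ E'') [Normal F E]
    [Normal F E'] (g : E'' ≃ₐ[F] E'') : res h (res h' g) = res (h.trans h') g := by
  apply AlgEquiv.ext
  intro x
  apply Subtype.ext
  rw [coe_res_apply h (res h' g) x (IntermediateField.inclusion h x) rfl,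
    coe_res_apply h' g (IntermediateField.inclusion h x)
      (IntermediateField.inclusion (h.trans h') x) rfl,
    coe_res_apply (h.trans h') g x (IntermediateField.inclusion (h.trans h') x) rfl]

theorem isOpen_res_preimage {E E' : IntermediateField F Ω} (h : E ≤ E') [Normal F E]
    [FiniteDimensional F E] (s : Set (E ≃ₐ[F] E)) : IsOpen (res h ⁻¹' s) := by
  have hfin : FiniteDimensional F (IntermediateField.restrict h) :=
    (IntermediateField.restrictAlgEquiv h).toLinearEquiv.finiteDimensional
  have hU := (IntermediateField.restrict h).fixingSubgroup_isOpen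
  rw [isOpen_iff_forall_mem_open]
  intro g hg
  refine ⟨g • ((IntermediateField.restrict h).fixingSubgroup : Set (E' ≃ₐ[F] E')), ?_,
    hU.smul g, ⟨1, Subgroup.one_mem _, mul_one g⟩⟩
  rintro _ ⟨u, hu, rfl⟩
  have h1 : res h u = 1 := by
    apply AlgEquiv.ext
    intro x
    apply Subtype.ext
    rw [coe_res_apply h u x (IntermediateField.inclusion h x) rfl]
    have h2 := (IntermediateField.mem_fixingSubgroup_iff _ _).mp hu
      (IntermediateField.inclusion h x) ((IntermediateField.mem_restrict h _).mpr x.2)
    rw [h2]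
    rfl
  change res h (g * u) ∈ s
  rw [map_mul, h1, mul_one]
  exact hg

end Res

end Pool.Agent.Lib.MP_aa8fd2_nt.Mazur
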