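import Pool.Agent.Lib.MP_aa8fd2_nt.Propagate

set_option autoImplicit false

/-! `2` is not a square in a totally real field satisfying `XM`. -/

namespace Pool.Agent.Lib.MP_aa8fd2_nt

open NumberField Module

/-- (P3') `2` is not a square in `A` -/
theorem two_not_square {A : Type*} [Field A] [NumberField A] (hreal : IsTotallyReal A)
    (hX : XM A) (y : A) : y ^ 2 ≠ 2 := by
  intro hy
  have h1 := card_EU_sq A
  rw [finrank_EU_of_totallyReal] at h1
  obtain ⟨hs, hTP, -⟩ := XM_count A hX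
  have hy0 : y ≠ 0 := by
    rintro rfl
    norm_num at hy
  obtain ⟨u, hu⟩ : ∃ u : Aˣ, u ^ 2 = twoU A :=
    ⟨Units.mk0 y hy0, Units.ext (by rw [Units.val_pow_eq_pow_val]; exact hy)⟩
  have hle : TP A ⊓ EU A ≤ (EU A).map (sqr Aˣ) := by
    rintro x ⟨hx1, hx2⟩
    obtain ⟨z, hz⟩ : ∃ z : Aˣ, x = z ^ 2 := by
      obtain ⟨z, hz | hz⟩ := hX x hx1 (fun v hv => by rw [(mem_EU A).1 hx2 v hv]; exact Even.zero)
      · exact ⟨z, hz⟩
      · exact ⟨u * z, by rw [hz, mul_pow, hu]⟩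
    refine ⟨z, ?_, hz.symm⟩
    apply EU_of_sq
    rw [← hz]
    exact hx2
  have hle' : (EU A).map (sqr Aˣ) ≤ TP A ⊓ EU A := by
    rintro _ ⟨y, hy, rfl⟩
    refine ⟨?_, ?_⟩
    · intro φ
      rw [sqr_apply, Units.val_pow_eq_pow_val, map_pow]
      have : φ y ≠ 0 := by
        rw [map_ne_zero]; exact y.ne_zero
      positivity
    · exact (EU A).pow_mem hy 2
  have heq : (EU A).map (sqr Aˣ) = TP A ⊓ EU A := le_antisymm hle' hle
  rw [heq, Subgroup.inf_relIndex_right, hTP, hs] at h1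
  have h2 : finrank ℚ A = finrank ℚ A + 1 := Nat.pow_right_injective (le_refl 2) h1
  omega

end Pool.Agent.Lib.MP_aa8fd2_nt
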