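import Pool.Agent.Lib.MP_aa8fd2_nt.TowerSeq
import Pool.Agent.Lib.MP_aa8fd2_nt.Conj
import Pool.Agent.Lib.MP_aa8fd2_nt.TwoNotSq
import Pool.Agent.Lib.MP_aa8fd2_nt.PChar
import Pool.Agent.Lib.MP_aa8fd2_nt.FixedElt
import Pool.Agent.Lib.MP_aa8fd2_nt.GroupTheory
import Pool.Agent.Lib.MP_aa8fd2_nt.Restr
import Pool.Agent.Lib.MP_aa8fd2_nt.CharTriv

set_option autoImplicit false

/-! The main Galois theoretic statement. -/

namespace Pool.Agent.Lib.MP_aa8fd2_nt

open NumberField IntermediateField Mazur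

section sgn

variable {F K : Type} [Field F] [Field K] [Algebra F K]

/-- the sign character of a square root -/
noncomputable def sgnZ (y : K) (hy : y ≠ -y) (h : ∀ g : K ≃ₐ[F] K, g y = y ∨ g y = -y) :
    (K ≃ₐ[F] K) →* ℤˣ := by
  classical
  exact
  { toFun := fun g => if g y = y then 1 else -1
    map_one' := by simp
    map_mul' := fun g g' => by
      have h1 : (g * g') y = g (g' y) := rfl
      rcases h g with hg | hg <;> rcases h g' with hg' | hg'
      · rw [h1, hg', hg]; simp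
      · rw [h1, hg', map_neg, hg]; simp [hy.symm]
      · rw [h1, hg', hg]; simp [hy.symm]
      · rw [h1, hg', map_neg, hg]; simp [hy.symm] }

theorem sgnZ_eq_one {y : K} {hy : y ≠ -y} {h : ∀ g : K ≃ₐ[F] K, g y = y ∨ g y = -y}
    (g : K ≃ₐ[F] K) : sgnZ y hy h g = 1 ↔ g y = y := by
  classical
  change (if g y = y then (1 : ℤˣ) else -1) = 1 ↔ _
  split_ifs with h1
  · simp [h1]
  · simp only [h1, iff_false]
    decide

theorem sgnZ_eq_neg_one {y : K} {hy : y ≠ -y} {h : ∀ g : K ≃ₐ[F] K, g y = y ∨ g y = -y}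
    (g : K ≃ₐ[F] K) : sgnZ y hy h g = -1 ↔ g y = -y := by
  classical
  change (if g y = y then (1 : ℤˣ) else -1) = -1 ↔ _
  split_ifs with h1
  · constructor
    · intro h2
      exact absurd h2 (by decide)
    · intro h2
      exact absurd (h1.symm.trans h2) hy
  · constructor
    · intro _
      exact (h g).resolve_left h1
    · intro _
      rfl

/-- `ℤˣ → ℤ/2` -/
def toZM : ℤˣ →* Multiplicative (ZMod 2) where
  toFun u := if u = 1 then 1 else Multiplicative.ofAdd 1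
  map_one' := by simp
  map_mul' := by decide

theorem toZM_neg_one : toZM (-1) = Multiplicative.ofAdd 1 := by decide

theorem toZM_eq_one {u : ℤˣ} : toZM u = 1 ↔ u = 1 := by
  revert u; decide

end sgn

section res

variable {F Ω : Type} [Field F] [Field Ω] [Algebra F Ω]

theorem eq_one_of_res {N L : IntermediateField F Ω} [Normal F N] [Normal F L]
    (g : (N ⊔ L : IntermediateField F Ω) ≃ₐ[F] (N ⊔ L : IntermediateField F Ω))
    (h1 : res (le_sup_left : N ≤ N ⊔ L) g = 1) (h2 : res (le_sup_right : L ≤ N ⊔ L) g = 1) :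
    g = 1 := by
  have hN : ∀ x : (N ⊔ L : IntermediateField F Ω), (x : Ω) ∈ N → g x = x := by
    intro x hx
    apply Subtype.ext
    rw [← coe_res_apply (le_sup_left : N ≤ N ⊔ L) g ⟨x, hx⟩ x rfl, h1]
    rfl
  have hL : ∀ x : (N ⊔ L : IntermediateField F Ω), (x : Ω) ∈ L → g x = x := by
    intro x hx
    apply Subtype.ext
    rw [← coe_res_apply (le_sup_right : L ≤ N ⊔ L) g ⟨x, hx⟩ x rfl, h2]
    rfl
  have hmem : (N ⊔ L : IntermediateField F Ω) = adjoin F ((N : Set Ω) ∪ L) := by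
    apply le_antisymm
    · rw [sup_le_iff]
      exact ⟨fun x hx => subset_adjoin F _ (Or.inl hx), fun x hx => subset_adjoin F _ (Or.inr hx)⟩
    · rw [adjoin_le_iff]
      rintro x (hx | hx)
      · exact (le_sup_left : N ≤ N ⊔ L) hx
      · exact (le_sup_right : L ≤ N ⊔ L) hx
  ext x
  have h3 := fixed_of_adjoin g ((N : Set Ω) ∪ L) ?_ ?_ x ?_
  · rw [h3]; rfl
  · rw [← adjoin_le_iff, ← hmem]
  · rintro y (hy | hy)
    · exact hN y hy
    · exact hL y hy
  · rw [← hmem]; exact x.2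

theorem res_eq_one_iff {E K : IntermediateField F Ω} (h : E ≤ K) [Normal F E] (g : K ≃ₐ[F] K) :
    res h g = 1 ↔ ∀ x : K, (x : Ω) ∈ E → g x = x := by
  constructor
  · intro h1 x hx
    apply Subtype.ext
    rw [← coe_res_apply h g ⟨x, hx⟩ x rfl, h1]
    rfl
  · intro h1
    apply AlgEquiv.ext
    intro x
    apply Subtype.ext
    rw [coe_res_apply h g x (inclusion h x) rfl, h1 _ x.2]
    rfl

theorem unr6_sup {N L : IntermediateField F Ω} [NumberField F] (hN : Unr6 N) (hL : Unr6 L) :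
    Unr6 (N ⊔ L) := by
  intro K' hK' hfin hgal Q hQ h6 σ hσ
  have h1 := hN K' (le_sup_left.trans hK') hfin hgal Q hQ h6 σ hσ
  have h2 := hL K' (le_sup_right.trans hK') hfin hgal Q hQ h6 σ hσ
  have hmem : (N ⊔ L : IntermediateField F Ω) ≤ adjoin F ((N : Set Ω) ∪ L) := by
    rw [sup_le_iff]
    exact ⟨fun x hx => subset_adjoin F _ (Or.inl hx), fun x hx => subset_adjoin F _ (Or.inr hx)⟩
  intro x hx
  refine fixed_of_adjoin σ ((N : Set Ω) ∪ L) ?_ ?_ x (hmem hx)
  · rintro y (hy | hy)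
    · exact hK' ((le_sup_left : N ≤ N ⊔ L) hy)
    · exact hK' ((le_sup_right : L ≤ N ⊔ L) hy)
  · rintro y (hy | hy)
    · exact h1 y hy
    · exact h2 y hy

end res

section main

variable {F Ω : Type} [Field F] [NumberField F] [Field Ω] [Algebra F Ω] [IsAlgClosure F Ω]

theorem galois_main (hF : ∀ i : F →+* ℂ, ∀ x, (i x).im = 0)
    (L A : IntermediateField F Ω) (hAL : A ≤ L) [FiniteDimensional F L] [FiniteDimensional F A]
    [NumberField A] [IsGalois F L] [IsGalois F A] (n : ℕ) (h3 : Module.finrank F L = 3 ^ n)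
    (hL : TotReal L) (hu : Unr6 L) (huA : Unr6 A) (hX : XM A) (j : ℕ) :
    ∃ K : IntermediateField F Ω, L ≤ K ∧ FiniteDimensional F K ∧ IsGalois F K ∧ Unr6 K ∧
      ∀ (T : Type) [Group T] (r : (L ≃ₐ[F] L) →* T) (N : Subgroup T) [N.Normal] (X : T),
        sqSeries (V := N) j = ⊥ → X ∈ N → X ^ 2 = 1 →
        (∀ z : L ≃ₐ[F] L, (∀ x : L, (x : Ω) ∈ A → z x = x) → X * r z = r z * X) →
        ∃ f : (K ≃ₐ[F] K) →* T,
          (∃ c : K ≃ₐ[F] K, f c = X ∧ ∀ x : K, (x : Ω) ∈ L → c x = x) ∧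
          (∀ h : L ≃ₐ[F] L, ∃ g : K ≃ₐ[F] K,
            f g = r h ∧ ∀ (x : L) (y : K), (y : Ω) = x → (g y : Ω) = h x) ∧
          (∀ (g : K ≃ₐ[F] K) (h : L ≃ₐ[F] L),
            (∀ (x : L) (y : K), (y : Ω) = x → (g y : Ω) = h x) → (r h)⁻¹ * f g ∈ N) := by
  have hac : IsAlgClosed Ω := IsAlgClosure.isAlgClosed F
  obtain ⟨d, hd⟩ : ∃ d, d = Module.finrank F A * Module.finrank ℚ F + 1 := ⟨_, rfl⟩
  obtain ⟨N, hAN, hNfin, hNgal, hNu, ⟨I, hIN, hI⟩, h2N, hP2, hsq, hcard, hun⟩ :=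
    tower_exists A (not_i_of_totReal A L hAL hL) huA d hd (j + 1)
  obtain ⟨t, htN, ht⟩ := h2N (by omega)
  obtain ⟨K, hK⟩ : ∃ K : IntermediateField F Ω, K = N ⊔ L := ⟨_, rfl⟩
  have hNK : N ≤ K := by rw [hK]; exact le_sup_left
  have hLK : L ≤ K := by rw [hK]; exact le_sup_right
  have hKfin : FiniteDimensional F K := by rw [hK]; infer_instance
  have hKnor : Normal F K := by rw [hK]; infer_instance
  have hKgal : IsGalois F K := ⟨⟩
  have hKu : Unr6 K := by rw [hK]; exact unr6_sup hNu hu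
  have hinj : ∀ g : K ≃ₐ[F] K, res hNK g = 1 → res hLK g = 1 → g = 1 := by
    subst hK
    exact fun g h1 h2 => eq_one_of_res g h1 h2
  have hchar : CharZero K := charZero_of_injective_algebraMap (algebraMap F K).injective
  -- the kernel of restriction to `L` is a 2-group
  have hcardH : Nat.card (L ≃ₐ[F] L) = 3 ^ n := by rw [IsGalois.card_aut_eq_finrank, h3]
  have hresA : ∀ g : K ≃ₐ[F] K, res hLK g = 1 → ∀ x : N, (x : Ω) ∈ A → res hNK g x = x := by
    intro g hg x hx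
    apply Subtype.ext
    rw [coe_res_apply hNK g x (inclusion hNK x) rfl,
      (res_eq_one_iff hLK g).1 hg (inclusion hNK x) (hAL hx)]
    rfl
  have h2grp : ∀ g : K ≃ₐ[F] K, res hLK g = 1 → ∃ k : ℕ, g ^ (2 ^ k) = 1 := by
    intro g hg
    obtain ⟨k, hk⟩ := hP2 (res hNK g) (hresA g hg)
    refine ⟨k, hinj _ ?_ ?_⟩
    · rw [map_pow, hk]
    · rw [map_pow, hg, one_pow]
  have hW2 : IsPGroup 2 (res hLK).ker := by
    rintro ⟨g, hg⟩
    obtain ⟨k, hk⟩ := h2grp g hg
    exact ⟨k, Subtype.ext hk⟩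
  -- splitting
  obtain ⟨s, hs⟩ := exists_section (res hLK) (res_surjective hLK) (by
    obtain ⟨a, ha⟩ := IsPGroup.iff_card.1 hW2
    rw [ha, hcardH]
    exact Nat.Coprime.pow _ _ (by norm_num))
  -- roots
  have hsquare : ∀ (y : K) (a : ℤ), y ^ 2 = a → ∀ g : K ≃ₐ[F] K, g y = y ∨ g y = -y := by
    intro y a hy g
    rw [← sq_eq_sq_iff_eq_or_eq_neg, ← map_pow, hy, map_intCast]
  let IK : K := ⟨I, hNK hIN⟩
  have hIK : IK ^ 2 = -1 := Subtype.ext hI
  let tK : K := ⟨t, hNK htN⟩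
  have htK : tK ^ 2 = 2 := Subtype.ext ht
  have hneq : ∀ y : K, y ^ 2 ≠ 0 → y ≠ -y := by
    intro y hy h
    apply hy
    have h4 : 2 * y = 0 := by linear_combination h
    have h5 : y = 0 := (mul_eq_zero.1 h4).resolve_left two_ne_zero
    rw [h5]; ring
  have hI0 : IK ≠ -IK := hneq _ (by rw [hIK]; norm_num)
  have ht0 : tK ≠ -tK := hneq _ (by rw [htK]; norm_num)
  have hsqI : ∀ g : K ≃ₐ[F] K, g IK = IK ∨ g IK = -IK := hsquare IK (-1) (by rw [hIK]; norm_num)
  have hsqt : ∀ g : K ≃ₐ[F] K, g tK = tK ∨ g tK = -tK := hsquare tK 2 (by rw [htK]; norm_num)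
  let sI := sgnZ IK hI0 hsqI
  let st := sgnZ tK ht0 hsqt
  have hsgn_s : ∀ (e : (K ≃ₐ[F] K) →* ℤˣ) (h : L ≃ₐ[F] L), e (s h) = 1 := by
    intro e h
    have h1 : (e (s h)) ^ (3 ^ n) = 1 := by
      rw [← map_pow, ← map_pow, ← hcardH, pow_card_eq_one', map_one, map_one]
    have h2 : (e (s h)) ^ 2 = 1 := Int.units_sq _
    have h4 : orderOf (e (s h)) ∣ Nat.gcd (3 ^ n) 2 :=
      Nat.dvd_gcd (orderOf_dvd_of_pow_eq_one h1) (orderOf_dvd_of_pow_eq_one h2)
    have h5 : Nat.gcd (3 ^ n) 2 = 1 := Nat.Coprime.pow_left _ (by norm_num)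
    rw [h5, Nat.dvd_one, orderOf_eq_one_iff] at h4
    exact h4
  -- complex conjugations
  have hconj : ∀ i : F →+* ℂ, ∃ (τ : K →+* ℂ) (c : K ≃ₐ[F] K), (∀ x : F, τ (algebraMap F K x) = i x) ∧
      (∀ x, τ (c x) = starRingEnd ℂ (τ x)) ∧ c ^ 2 = 1 := by
    intro i
    let _ : Algebra F ℂ := i.toAlgebra
    let τ : K →ₐ[F] ℂ := IsAlgClosed.lift
    have hτ : ∀ x : F, (τ : K →+* ℂ) (algebraMap F K x) = i x := fun x => τ.commutes x
    obtain ⟨c, hc, hc2⟩ := exists_conj_elt (F := F) (τ : K →+* ℂ) (fun x => by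
      rw [hτ]; exact hF i x)
    exact ⟨τ, c, hτ, hc, hc2⟩
  choose τ c hτ hc hc2 using hconj
  have hcL : ∀ i, res hLK (c i) = 1 := by
    intro i
    rw [res_eq_one_iff]
    intro x hx
    apply (τ i).injective
    rw [hc, Complex.conj_eq_iff_im]
    exact hL ((τ i).comp (inclusion hLK : L →+* K)) ⟨x, hx⟩
  have hcI : ∀ i, sI (c i) = -1 := by
    intro i
    rw [sgnZ_eq_neg_one]
    apply (τ i).injective
    have h1 : (τ i IK) ^ 2 = -1 := by rw [← map_pow, hIK, map_neg, map_one]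
    rw [hc, map_neg]
    have h4 : τ i IK = Complex.I ∨ τ i IK = -Complex.I := by
      rw [← sq_eq_sq_iff_eq_or_eq_neg, h1, Complex.I_sq]
    rcases h4 with h4 | h4 <;> rw [h4] <;> simp
  -- the subgroup `Z` of `Gal(L/F)` fixing `A`
  obtain ⟨Z, hZdef⟩ : ∃ Z : Subgroup (L ≃ₐ[F] L), Z = (restrict hAL).fixingSubgroup := ⟨_, rfl⟩
  have hZ : ∀ z : L ≃ₐ[F] L, z ∈ Z ↔ ∀ x : L, (x : Ω) ∈ A → z x = x := by
    intro z
    rw [hZdef, IntermediateField.mem_fixingSubgroup_iff]
    exact ⟨fun h x hx => h x ((mem_restrict hAL x).2 hx),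
      fun h x hx => h x ((mem_restrict hAL x).1 hx)⟩
  have hZidx : Z.index = Module.finrank F A := by
    have h1 := Z.index_mul_card
    rw [IsGalois.card_aut_eq_finrank, hZdef, IsGalois.card_fixingSubgroup_eq_finrank, ← hZdef] at h1
    have h2 : Module.finrank F (restrict hAL) * Module.finrank (restrict hAL) L =
      Module.finrank F L := Module.finrank_mul_finrank F (restrict hAL) L
    have h4 : 0 < Module.finrank (restrict hAL) L := Module.finrank_pos
    have h5 : Module.finrank F (restrict hAL) = Module.finrank F A :=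
      (restrictAlgEquiv hAL).toLinearEquiv.finrank_eq.symm
    rw [← h2, h5] at h1
    exact Nat.eq_of_mul_eq_mul_right h4 h1
  have hsN : ∀ z ∈ Z, res hNK (s z) = 1 := by
    intro z hz
    have h1 : ∀ x : N, (x : Ω) ∈ A → res hNK (s z) x = x := by
      intro x hx
      apply Subtype.ext
      rw [coe_res_apply hNK (s z) x (inclusion hNK x) rfl,
        ← coe_res_apply hLK (s z) ⟨x, hAL hx⟩ (inclusion hNK x) rfl, hs,
        (hZ z).1 hz ⟨x, hAL hx⟩ hx]
    obtain ⟨k, hk⟩ := hP2 _ h1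
    have h2 : (res hNK (s z)) ^ (3 ^ n) = 1 := by
      rw [← map_pow, ← map_pow, ← hcardH, pow_card_eq_one', map_one, map_one]
    have h4 : orderOf (res hNK (s z)) ∣ Nat.gcd (3 ^ n) (2 ^ k) :=
      Nat.dvd_gcd (orderOf_dvd_of_pow_eq_one h2) (orderOf_dvd_of_pow_eq_one hk)
    have h5 : Nat.gcd (3 ^ n) (2 ^ k) = 1 := Nat.Coprime.pow _ _ (by norm_num)
    rw [h5, Nat.dvd_one, orderOf_eq_one_iff] at h4
    exact h4
  have hcomm : ∀ z ∈ Z, ∀ i, c i * s z = s z * c i := by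
    intro z hz i
    have h1 : c i * s z * (s z * c i)⁻¹ = 1 := by
      apply hinj
      · rw [map_mul, map_mul, map_inv, map_mul, hsN z hz, mul_one, one_mul, mul_inv_cancel]
      · rw [map_mul, map_mul, map_inv, map_mul, hcL, hs, one_mul, mul_one, mul_inv_cancel]
    exact mul_inv_eq_one.1 h1
  -- the element `γ`
  have hAreal : IsTotallyReal A := by
    constructor
    intro v
    rw [InfinitePlace.isReal_iff, ComplexEmbedding.isReal_iff]
    obtain ⟨ψ, hψ⟩ : ∃ ψ : L →+* ℂ, ∀ x : A, ψ (inclusion hAL x) = v.embedding x := by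
      let _ : Algebra A ℂ := v.embedding.toAlgebra
      let _ : Algebra A L := (inclusion hAL).toRingHom.toAlgebra
      have : IsScalarTower F A L := IsScalarTower.of_algebraMap_eq fun _ => rfl
      have : Algebra.IsAlgebraic A L := Algebra.IsAlgebraic.tower_top (K := F) A
      let ψ : L →ₐ[A] ℂ := IsAlgClosed.lift
      exact ⟨ψ, fun x => ψ.commutes x⟩
    ext x
    rw [ComplexEmbedding.conjugate_coe_eq, ← hψ, Complex.conj_eq_iff_im]
    exact hL ψ _
  obtain ⟨γ, hγ1, hγ2⟩ := exists_fixed hcardH s (res hLK).ker hW2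
    (st.comp (res hLK).ker.subtype) (by
      intro h w w' hww
      change st (w' : K ≃ₐ[F] K) = st (w : K ≃ₐ[F] K)
      rw [hww, map_mul, map_mul, map_inv, mul_comm (st (s h)), mul_inv_cancel_right]) (by
      intro hne
      have h1 : ∀ g : K ≃ₐ[F] K, st g = 1 := by
        intro g
        have h2 : g * (s (res hLK g))⁻¹ ∈ (res hLK).ker := by
          rw [MonoidHom.mem_ker, map_mul, map_inv, hs, mul_inv_cancel]
        have h4 := DFunLike.congr_fun hne (⟨_, h2⟩ : (res hLK).ker)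
        change st (g * (s (res hLK g))⁻¹) = 1 at h4
        rw [map_mul, map_inv, hsgn_s, inv_one, mul_one] at h4
        exact h4
      have h2 : tK ∈ (⊥ : IntermediateField F K) := by
        rw [IsGalois.mem_bot_iff_fixed]
        intro g
        exact (sgnZ_eq_one g).1 (h1 g)
      rw [mem_bot] at h2
      obtain ⟨a, ha⟩ := h2
      apply two_not_square hAreal hX (algebraMap F A a)
      have h4 : a ^ 2 = 2 := by
        apply (algebraMap F K).injective
        rw [map_pow, ha, htK, map_ofNat]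
      rw [← map_pow, h4, map_ofNat])
  have hγL : res hLK (γ : K ≃ₐ[F] K) = 1 := γ.2
  have hγt : (γ : K ≃ₐ[F] K) tK = -tK :=
    (sgnZ_eq_neg_one (hy := ht0) (h := hsqt) (γ : K ≃ₐ[F] K)).1 hγ1
  -- generation
  obtain ⟨G', hG'⟩ : ∃ G' : Subgroup (K ≃ₐ[F] K),
    G' = Subgroup.closure (Set.range c ∪ Set.range s ∪ {(γ : K ≃ₐ[F] K)}) := ⟨_, rfl⟩
  have hcG : ∀ i, c i ∈ G' := fun i => by
    rw [hG']; exact Subgroup.subset_closure (Or.inl (Or.inl ⟨i, rfl⟩))
  have hsG : ∀ h, s h ∈ G' := fun h => by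
    rw [hG']; exact Subgroup.subset_closure (Or.inl (Or.inr ⟨h, rfl⟩))
  have hγG : (γ : K ≃ₐ[F] K) ∈ G' := by
    rw [hG']; exact Subgroup.subset_closure (Or.inr rfl)
  obtain ⟨WN, hWNdef⟩ : ∃ W : Subgroup (N ≃ₐ[F] N), W = (restrict hAN).fixingSubgroup := ⟨_, rfl⟩
  have hWN : ∀ σ : N ≃ₐ[F] N, σ ∈ WN ↔ ∀ x : N, (x : Ω) ∈ A → σ x = x := by
    intro σ
    rw [hWNdef, IntermediateField.mem_fixingSubgroup_iff]
    exact ⟨fun h x hx => h x ((mem_restrict hAN x).2 hx),
      fun h x hx => h x ((mem_restrict hAN x).1 hx)⟩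
  have hWN2 : IsPGroup 2 WN := by
    rintro ⟨σ, hσ⟩
    obtain ⟨k, hk⟩ := hP2 σ ((hWN σ).1 hσ)
    exact ⟨k, Subtype.ext hk⟩
  have hresW : ∀ g : K ≃ₐ[F] K, res hLK g = 1 → res hNK g ∈ WN := fun g hg =>
    (hWN _).2 (hresA g hg)
  have hAconj : ∀ (ψ : N →+* ℂ) (x : N), (x : Ω) ∈ A → starRingEnd ℂ (ψ x) = ψ x := by
    intro ψ x hx
    rw [Complex.conj_eq_iff_im]
    obtain ⟨v, hv⟩ : ∃ v : InfinitePlace A, v = InfinitePlace.mk (ψ.comp (inclusion hAN : A →+* N)) :=
      ⟨_, rfl⟩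
    have h1 : ComplexEmbedding.IsReal (ψ.comp (inclusion hAN : A →+* N)) := by
      rw [← InfinitePlace.isReal_mk_iff]
      exact IsTotallyReal.isReal _
    exact Complex.conj_eq_iff_im.1 (RingHom.congr_fun h1 ⟨x, hx⟩)
  obtain ⟨U, hUdef⟩ : ∃ U : Subgroup WN,
    U = ((G' ⊓ (res hLK).ker).map (res hNK)).subgroupOf WN := ⟨_, rfl⟩
  have hUmem : ∀ g : K ≃ₐ[F] K, g ∈ G' → ∀ hg : res hLK g = 1,
      (⟨res hNK g, hresW g hg⟩ : WN) ∈ U := by
    intro g hg hg'
    rw [hUdef, Subgroup.mem_subgroupOf]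
    exact ⟨g, ⟨hg, hg'⟩, rfl⟩
  have hU : U = ⊤ := by
    by_contra hne
    obtain ⟨χ, hχU, hχ1⟩ := exists_char_of_ne_top hWN2 U hne
    apply hχ1
    refine char_trivial A N hAN hX hun WN hWN χ ?_ ?_ ?_
    · intro ψ e he
      -- conjugate to one of the chosen complex conjugations
      obtain ⟨i, hi⟩ : ∃ i : F →+* ℂ, i = ψ.comp (algebraMap F N) := ⟨_, rfl⟩
      have h1 : (((τ i).comp (inclusion hNK : N →+* K)).comp (algebraMap F N)) =
          ψ.comp (algebraMap F N) := by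
        rw [← hi]
        ext x
        exact hτ i x
      obtain ⟨σ, hσ⟩ := InfinitePlace.ComplexEmbedding.exists_comp_symm_eq_of_comp_eq _ _ h1
      have hσ' : ∀ x : N, ψ x = τ i (inclusion hNK (σ⁻¹ x)) := fun x =>
        (RingHom.congr_fun hσ x).symm
      obtain ⟨g, hg⟩ := res_surjective hNK σ⁻¹
      obtain ⟨h, hh⟩ : ∃ h, h = res hLK g := ⟨_, rfl⟩
      obtain ⟨w, hw⟩ : ∃ w, w = (s h)⁻¹ * g := ⟨_, rfl⟩
      have hwL : res hLK w = 1 := by rw [hw, map_mul, map_inv, hs, hh, inv_mul_cancel]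
      obtain ⟨u, hu'⟩ : ∃ u, u = (s h)⁻¹ * c i * s h := ⟨_, rfl⟩
      have huL : res hLK u = 1 := by
        rw [hu', map_mul, map_mul, hcL, mul_one, map_inv, inv_mul_cancel]
      have huG : u ∈ G' := by
        rw [hu']
        exact G'.mul_mem (G'.mul_mem (G'.inv_mem (hsG h)) (hcG i)) (hsG h)
      have hkey : (e : N ≃ₐ[F] N) = (res hNK w)⁻¹ * res hNK u * res hNK w := by
        have h2 : (res hNK w)⁻¹ * res hNK u * res hNK w = (res hNK g)⁻¹ * res hNK (c i) * res hNK g := by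
          rw [← map_inv, ← map_mul, ← map_mul, ← map_inv, ← map_mul, ← map_mul, hw, hu']
          congr 1
          group
        rw [h2, hg, inv_inv]
        apply AlgEquiv.ext
        intro x
        apply ψ.injective
        rw [he, hσ' x, hσ']
        change _ = τ i (inclusion hNK (σ⁻¹ (σ (res hNK (c i) (σ⁻¹ x)))))
        have h4 : σ⁻¹ (σ (res hNK (c i) (σ⁻¹ x))) = res hNK (c i) (σ⁻¹ x) :=
          σ.symm_apply_apply _
        rw [h4, res_apply, hc]
      have h5 : e = (⟨res hNK w, hresW w hwL⟩ : WN)⁻¹ * ⟨res hNK u, hresW u huL⟩ *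
          ⟨res hNK w, hresW w hwL⟩ := Subtype.ext hkey
      rw [h5, map_mul, map_mul, map_inv, hχU _ (hUmem u huG huL), mul_one, inv_mul_cancel]
    · intro ψ
      obtain ⟨e, he, -⟩ := exists_conj_elt (F := F) ψ (fun x =>
        hF (ψ.comp (algebraMap F N)) x)
      refine ⟨⟨e, (hWN e).2 fun x hx => ?_⟩, he⟩
      apply ψ.injective
      rw [he]
      exact hAconj ψ x hx
    · refine ⟨⟨res hNK (γ : K ≃ₐ[F] K), hresW _ hγL⟩, ⟨t, htN⟩, Subtype.ext ht, ?_,
        hχU _ (hUmem _ hγG hγL)⟩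
      apply inclusion_injective hNK
      change inclusion hNK (res hNK (γ : K ≃ₐ[F] K) ⟨t, htN⟩) = _
      rw [res_apply, map_neg]
      exact hγt
  have hlift : ∀ σ : WN, ∃ g ∈ G', res hLK g = 1 ∧ res hNK g = σ := by
    intro σ
    have h1 : σ ∈ U := by rw [hU]; exact Subgroup.mem_top _
    rw [hUdef, Subgroup.mem_subgroupOf] at h1
    obtain ⟨g, ⟨hg1, hg2⟩, hg3⟩ := h1
    exact ⟨g, hg1, hg2, hg3⟩
  have hker : ∀ g : K ≃ₐ[F] K, res hLK g = 1 → g ∈ G' := by
    intro g hg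
    obtain ⟨g', hg', h1, h2⟩ := hlift ⟨res hNK g, hresW g hg⟩
    have h4 : g * g'⁻¹ = 1 := by
      apply hinj
      · rw [map_mul, map_inv, h2, mul_inv_cancel]
      · rw [map_mul, map_inv, hg, h1, inv_one, mul_one]
    rw [mul_inv_eq_one.1 h4]
    exact hg'
  have htop : G' = ⊤ := by
    rw [eq_top_iff]
    intro g _
    have h1 : g * (s (res hLK g))⁻¹ ∈ G' := by
      apply hker
      rw [map_mul, map_inv, hs, mul_inv_cancel]
    have h2 := G'.mul_mem h1 (hsG (res hLK g))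
    rwa [inv_mul_cancel_right] at h2
  -- the homomorphism `π`
  obtain ⟨π, hπ⟩ : ∃ π : (K ≃ₐ[F] K) →* (L ≃ₐ[F] L) × Multiplicative (ZMod 2),
    π = (res hLK).prod (toZM.comp sI) := ⟨_, rfl⟩
  have hπ' : ∀ g, π g = (res hLK g, toZM (sI g)) := fun g => by rw [hπ]; rfl
  have hπker : ∀ g, g ∈ π.ker ↔ res hLK g = 1 ∧ sI g = 1 := by
    intro g
    rw [MonoidHom.mem_ker, hπ', Prod.mk_eq_one, toZM_eq_one]
  have hGsq : sqSeries (V := π.ker) (j + 1) = ⊥ := by
    rw [eq_bot_iff]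
    intro v hv
    have h1 := hsq π.ker ((res hNK).comp π.ker.subtype) (by
      intro v x hx
      obtain ⟨hv1, hv2⟩ := (hπker v).1 v.2
      change res hNK (v : K ≃ₐ[F] K) x = x
      rcases hx with hx | hx
      · exact hresA _ hv1 x hx
      · have h2 : x = ⟨I, hIN⟩ ∨ x = -⟨I, hIN⟩ := by
          rw [← sq_eq_sq_iff_eq_or_eq_neg, hx]
          exact Subtype.ext hI.symm
        have h4 : res hNK (v : K ≃ₐ[F] K) ⟨I, hIN⟩ = ⟨I, hIN⟩ := by
          apply inclusion_injective hNK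
          rw [res_apply]
          exact (sgnZ_eq_one (hy := hI0) (h := hsqI) (v : K ≃ₐ[F] K)).1 hv2
        rcases h2 with h2 | h2
        · rw [h2, h4]
        · rw [h2, map_neg, h4]) v hv
    rw [Subgroup.mem_bot]
    apply Subtype.ext
    exact hinj _ h1 ((hπker v).1 v.2).1
  have hcardπ : bnd (Z.index * Fintype.card (F →+* ℂ) + 1) (j + 1) ≤ Nat.card π.ker := by
    have h0 : Z.index * Fintype.card (F →+* ℂ) + 1 = d := by
      rw [hd, hZidx, Embeddings.card F ℂ]
    rw [h0]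
    have e0 : Nat.card WN * Module.finrank F A = Module.finrank F N := by
      rw [hWNdef, IsGalois.card_fixingSubgroup_eq_finrank,
        LinearEquiv.finrank_eq (restrictAlgEquiv hAN).toLinearEquiv, mul_comm]
      exact Module.finrank_mul_finrank F (restrict hAN) N
    have e1 : Nat.card WN ≤ Nat.card (res hLK).ker := by
      refine Nat.card_le_card_of_surjective
        (fun g : (res hLK).ker => (⟨res hNK g, hresW g g.2⟩ : WN)) ?_
      intro σ
      obtain ⟨g, -, h1, h2⟩ := hlift σ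
      exact ⟨⟨g, h1⟩, Subtype.ext h2⟩
    obtain ⟨q, hq⟩ : ∃ q : (res hLK).ker →* ℤˣ, ∀ g, q g = sI (g : K ≃ₐ[F] K) :=
      ⟨sI.comp (res hLK).ker.subtype, fun _ => rfl⟩
    have e2 : Nat.card q.ker * q.ker.index = Nat.card (res hLK).ker := q.ker.card_mul_index
    have e3 : q.ker.index ≤ 2 := by
      rw [Subgroup.index_ker]
      refine (Nat.card_le_card_of_injective q.range.subtype
        (Subgroup.subtype_injective _)).trans ?_
      rw [Nat.card_eq_fintype_card]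
      decide
    have e4 : Nat.card q.ker ≤ Nat.card π.ker := by
      refine Nat.card_le_card_of_injective
        (fun g : q.ker => (⟨((g : (res hLK).ker) : K ≃ₐ[F] K), (hπker _).2 ⟨(g : (res hLK).ker).2, by
          rw [← hq]
          exact g.2⟩⟩ : π.ker)) ?_
      intro a b hab
      exact Subtype.ext (Subtype.ext (congrArg (fun z : π.ker => (z : K ≃ₐ[F] K)) hab))
    have hA0 : 0 < Module.finrank F A := Module.finrank_pos
    have e5 : Nat.card WN ≤ Nat.card π.ker * 2 :=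
      e1.trans (by rw [← e2]; exact Nat.mul_le_mul e4 e3)
    have e6 : bnd d (j + 1) * (2 * Module.finrank F A) ≤ Nat.card π.ker * (2 * Module.finrank F A) := by
      calc bnd d (j + 1) * (2 * Module.finrank F A)
          = 2 * Module.finrank F A * bnd d (j + 1) := by ring
        _ ≤ Module.finrank F N := hcard
        _ = Nat.card WN * Module.finrank F A := e0.symm
        _ ≤ (Nat.card π.ker * 2) * Module.finrank F A := Nat.mul_le_mul_right _ e5
        _ = _ := by ring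
    exact Nat.le_of_mul_le_mul_right e6 (by positivity)
  refine ⟨K, hLK, hKfin, hKgal, hKu, ?_⟩
  intro T _ r N' _ X hN' hXN hX2 hXZ
  obtain ⟨f, hf1, hf2, hf3⟩ := exists_hom c hc2 s (γ : K ≃ₐ[F] K) hγ2 (hG'.symm.trans htop) Z hcomm
    π (fun i => by rw [hπ', hcL, hcI, toZM_neg_one]) (fun h => by rw [hπ', hs, hsgn_s, map_one])
    (by rw [hπ']; exact hγL) (j + 1) hGsq hcardπ r (fun _ => X) (fun _ => hX2)
    (fun z hz _ => hXZ z ((hZ z).1 hz)) N' (fun _ => hXN)
    (le_bot_iff.1 ((sqSeries_succ_le j).trans hN'.le))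
  refine ⟨f, ?_, ?_, ?_⟩
  · obtain ⟨i⟩ : Nonempty (F →+* ℂ) := inferInstance
    exact ⟨c i, hf1 i, (res_eq_one_iff hLK (c i)).1 (hcL i)⟩
  · intro h
    refine ⟨s h, hf2 h, fun x y hxy => ?_⟩
    rw [← coe_res_apply hLK (s h) x y hxy, hs]
  · have hhom : (QuotientGroup.mk' N').comp f = (QuotientGroup.mk' N').comp (r.comp (res hLK)) := by
      apply MonoidHom.eq_of_eqOn_dense (hG'.symm.trans htop)
      rintro g ((⟨i, rfl⟩ | ⟨h, rfl⟩) | hg)
      · rw [MonoidHom.comp_apply, MonoidHom.comp_apply, MonoidHom.comp_apply, hf1, hcL, map_one,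
          map_one]
        exact (QuotientGroup.eq_one_iff X).2 hXN
      · rw [MonoidHom.comp_apply, MonoidHom.comp_apply, MonoidHom.comp_apply, hf2, hs]
      · rw [Set.mem_singleton_iff] at hg
        rw [hg, MonoidHom.comp_apply, MonoidHom.comp_apply, MonoidHom.comp_apply, hf3, hγL,
          map_one, map_one, map_one]
    intro g h hgh
    have h1 : res hLK g = h := by
      apply AlgEquiv.ext
      intro x
      apply Subtype.ext
      rw [coe_res_apply hLK g x (inclusion hLK x) rfl, hgh x (inclusion hLK x) rfl]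
    have h2 := DFunLike.congr_fun hhom g
    rw [MonoidHom.comp_apply, MonoidHom.comp_apply, MonoidHom.comp_apply, h1] at h2
    exact QuotientGroup.eq.1 h2.symm

end main

end Pool.Agent.Lib.MP_aa8fd2_nt
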