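import Pool.Agent.Lib.MP_aa8fd2_nt.Deform
import Pool.Agent.Lib.MP_aa8fd2_nt.Unram

/-!
The maximal extension unramified outside `S` is Galois, and its finite subextensions are exactly
the finite extensions unramified outside `S`.
-/

set_option autoImplicit false

namespace Pool.Agent.Lib.MP_aa8fd2_nt

open NumberField IsDedekindDomain Mazur

/-- Rigidity of unramified algebras: two homomorphisms which agree modulo a prime at which the
source is unramified are equal. -/
theorem eq_of_unramified {R A B : Type*} [CommRing R] [CommRing A] [CommRing B] [Algebra R A]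
    [Algebra R B] [IsNoetherianRing B] [IsDomain B] (f g : A →ₐ[R] B) (P : Ideal B) [P.IsPrime]
    (h : ∀ x, f x - g x ∈ P) (hu : Algebra.IsUnramifiedAt R (P.comap f)) : f = g := by
  let Bp := Localization.AtPrime P
  let ι : B →ₐ[R] Bp := IsScalarTower.toAlgHom R B Bp
  have hι : Function.Injective ι := IsLocalization.injective Bp P.primeCompl_le_nonZeroDivisors
  have hunit : ∀ b : B, b ∉ P → IsUnit (ι b) := fun b hb =>
    IsLocalization.map_units Bp (⟨b, hb⟩ : P.primeCompl)
  have hf : ∀ y : (P.comap f).primeCompl, IsUnit ((ι.comp f) y) := fun y => hunit _ y.2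
  have hg : ∀ y : (P.comap f).primeCompl, IsUnit ((ι.comp g) y) := by
    intro y
    apply hunit
    intro hy
    exact y.2 (by
      show f y ∈ P
      have hy' : g y ∈ P := hy
      have := P.add_mem (h y) hy'
      rwa [sub_add_cancel] at this)
  let F' : Localization.AtPrime (P.comap f) →ₐ[R] Bp := IsLocalization.liftAlgHom hf
  let G' : Localization.AtPrime (P.comap f) →ₐ[R] Bp := IsLocalization.liftAlgHom hg
  have key : F' = G' := by
    have hu' : Algebra.FormallyUnramified R (Localization.AtPrime (P.comap f)) := hu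
    apply Algebra.FormallyUnramified.ext_of_iInf
      (I := IsLocalRing.maximalIdeal Bp)
    · exact Ideal.iInf_pow_eq_bot_of_isLocalRing _ (Ideal.IsPrime.ne_top inferInstance)
    · have hcomp : (Ideal.Quotient.mk (IsLocalRing.maximalIdeal Bp)).comp
          (F' : Localization.AtPrime (P.comap f) →+* Bp) =
          (Ideal.Quotient.mk (IsLocalRing.maximalIdeal Bp)).comp
          (G' : Localization.AtPrime (P.comap f) →+* Bp) := by
        apply IsLocalization.ringHom_ext (P.comap f).primeCompl
        ext x
        simp only [RingHom.comp_apply]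
        rw [Ideal.Quotient.eq]
        have h1 : (F' : Localization.AtPrime (P.comap f) →+* Bp)
            (algebraMap A (Localization.AtPrime (P.comap f)) x) = ι (f x) :=
          IsLocalization.lift_eq _ x
        have h2 : (G' : Localization.AtPrime (P.comap f) →+* Bp)
            (algebraMap A (Localization.AtPrime (P.comap f)) x) = ι (g x) :=
          IsLocalization.lift_eq _ x
        rw [h1, h2, ← map_sub]
        exact (IsLocalization.AtPrime.to_map_mem_maximal_iff Bp P _).2 (h x)
      intro x
      exact RingHom.congr_fun hcomp x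
  apply AlgHom.ext
  intro x
  apply hι
  have h1 : F' (algebraMap A (Localization.AtPrime (P.comap f)) x) = ι (f x) :=
    IsLocalization.lift_eq _ x
  have h2 : G' (algebraMap A (Localization.AtPrime (P.comap f)) x) = ι (g x) :=
    IsLocalization.lift_eq _ x
  rw [← h1, ← h2, key]

section

variable {F : Type} [Field F] [NumberField F] (S : Finset (HeightOneSpectrum (𝓞 F)))

/-- the prime `Q` of `𝓞 N` does not lie above `S` -/
def Away (N : IntermediateField F (AlgebraicClosure F)) (Q : Ideal (𝓞 N)) : Prop :=
  Q.IsPrime ∧ Q ≠ ⊥ ∧ ∀ v ∈ S, Q.comap (algebraMap (𝓞 F) (𝓞 N)) ≠ v.asIdeal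

variable {S}

/-- the inertia group at `Q` acts trivially on the image of an extension unramified outside `S` -/
theorem inertia_fixes {E N : IntermediateField F (AlgebraicClosure F)} [FiniteDimensional F E]
    [FiniteDimensional F N] (hE : UnramifiedOutside F S E) (j : E →ₐ[F] N) (Q : Ideal (𝓞 N))
    (hQ : Away S N Q) (σ : N ≃ₐ[F] N) (hσ : ∀ x y : 𝓞 N, (y : N) = σ x → y - x ∈ Q) (x : E) :
    σ (j x) = j x := by
  have : NumberField E := NumberField.of_module_finite F E
  have : NumberField N := NumberField.of_module_finite F N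
  obtain ⟨hQ1, hQ2, hQ3⟩ := hQ
  let fj : 𝓞 E →ₐ[𝓞 F] 𝓞 N :=
    { RingOfIntegers.mapRingHom (j : E →+* N) with
      commutes' := by
        intro r
        apply RingOfIntegers.ext
        exact j.commutes _ }
  let gj : 𝓞 E →ₐ[𝓞 F] 𝓞 N :=
    { RingOfIntegers.mapRingHom ((σ : N →ₐ[F] N).comp j : E →+* N) with
      commutes' := by
        intro r
        apply RingOfIntegers.ext
        exact ((σ : N →ₐ[F] N).comp j).commutes _ }
  have hfj : ∀ a : 𝓞 E, ((fj a : 𝓞 N) : N) = j (a : E) := fun a => rfl
  have hgj : ∀ a : 𝓞 E, ((gj a : 𝓞 N) : N) = σ (j (a : E)) := fun a => rfl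
  have hcong : ∀ a, fj a - gj a ∈ Q := by
    intro a
    have h1 := hσ (fj a) (gj a) rfl
    have h2 := Q.neg_mem h1
    rwa [neg_sub] at h2
  have hne : Q.comap fj ≠ ⊥ := by
    have hinj : Function.Injective (algebraMap (𝓞 F) (𝓞 N)) :=
      FaithfulSMul.algebraMap_injective (𝓞 F) (𝓞 N)
    intro hbot
    have h1 : Q.comap (algebraMap (𝓞 F) (𝓞 N)) = ⊥ := by
      rw [eq_bot_iff]
      intro r hr
      rw [Ideal.mem_comap, ← fj.commutes r] at hr
      have h2 : algebraMap (𝓞 F) (𝓞 E) r ∈ Q.comap fj := hr
      rw [hbot, Ideal.mem_bot] at h2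
      rw [Ideal.mem_bot]
      exact FaithfulSMul.algebraMap_injective (𝓞 F) (𝓞 E) (by rw [h2, map_zero])
    exact Ideal.IsIntegral.comap_ne_bot (𝓞 F) hQ2 h1
  have hcomap : (Q.comap fj).comap (algebraMap (𝓞 F) (𝓞 E)) = Q.comap (algebraMap (𝓞 F) (𝓞 N)) := by
    ext r
    rw [Ideal.mem_comap, Ideal.mem_comap, Ideal.mem_comap, fj.commutes]
  have hur : Algebra.IsUnramifiedAt (𝓞 F) (Q.comap fj) :=
    hE (Q.comap fj) inferInstance hne (fun v hv => by rw [hcomap]; exact hQ3 v hv)
  have heq := eq_of_unramified fj gj Q hcong hur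
  obtain ⟨a, b, hb, rfl⟩ := IsFractionRing.div_surjective (A := 𝓞 E) x
  have h1 : ∀ a : 𝓞 E, σ (j (algebraMap (𝓞 E) E a)) = j (algebraMap (𝓞 E) E a) := by
    intro a
    have := congrArg (algebraMap (𝓞 N) N) (DFunLike.congr_fun heq a)
    exact this.symm
  rw [map_div₀, map_div₀, h1, h1]

/-- A finite Galois extension all of whose inertia groups outside `S` are trivial is unramified
outside `S`. -/
theorem unramifiedOutside_of_inertia {N : IntermediateField F (AlgebraicClosure F)}
    [FiniteDimensional F N] [IsGalois F N]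
    (h : ∀ (Q : Ideal (𝓞 N)), Away S N Q → ∀ σ : N ≃ₐ[F] N,
      (∀ x y : 𝓞 N, (y : N) = σ x → y - x ∈ Q) → σ = 1) : UnramifiedOutside F S N := by
  have : NumberField N := NumberField.of_module_finite F N
  intro Q hQ hQ0 hQS
  exact isUnramifiedAt_of_inertia Q (h Q ⟨hQ, hQ0, hQS⟩)

theorem unramifiedOutside_normalClosure {E : IntermediateField F (AlgebraicClosure F)}
    [FiniteDimensional F E] (hE : UnramifiedOutside F S E) :
    UnramifiedOutside F S (IntermediateField.normalClosure F E (AlgebraicClosure F)) := by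
  have hfd : FiniteDimensional F (IntermediateField.normalClosure F E (AlgebraicClosure F)) :=
    inferInstance
  have hn : Normal F (IntermediateField.normalClosure F E (AlgebraicClosure F)) := inferInstance
  have hG : IsGalois F (IntermediateField.normalClosure F E (AlgebraicClosure F)) := ⟨⟩
  apply unramifiedOutside_of_inertia
  intro Q hQ σ hσ
  have h3 : ∀ z : IntermediateField.normalClosure F E (AlgebraicClosure F), σ z = z →
      z ∈ IntermediateField.fixedField (Subgroup.zpowers σ) := by
    intro z hz
    have h4 : Subgroup.zpowers σ ≤ MulAction.stabilizer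
        (IntermediateField.normalClosure F E (AlgebraicClosure F) ≃ₐ[F]
        IntermediateField.normalClosure F E (AlgebraicClosure F)) z := by
      rw [Subgroup.zpowers_le]
      exact hz
    rw [IntermediateField.mem_fixedField_iff]
    intro g hg
    exact h4 hg
  have h1 : IntermediateField.normalClosure F E (AlgebraicClosure F) ≤
      (IntermediateField.fixedField (Subgroup.zpowers σ)).map
        (IntermediateField.normalClosure F E (AlgebraicClosure F)).val := by
    rw [normalClosure_le_iff]
    rintro f _ ⟨x, rfl⟩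
    let j : E →ₐ[F] IntermediateField.normalClosure F E (AlgebraicClosure F) :=
      f.codRestrict _ fun x ↦ f.fieldRange_le_normalClosure ⟨x, rfl⟩
    exact ⟨j x, h3 _ (inertia_fixes hE j Q hQ σ hσ x), rfl⟩
  apply AlgEquiv.ext
  intro y
  obtain ⟨z, hz, hzy⟩ := h1 y.2
  have h5 : z = y := Subtype.ext hzy
  have hz' : z ∈ IntermediateField.fixedField (Subgroup.zpowers σ) := hz
  rw [IntermediateField.mem_fixedField_iff, h5] at hz'
  exact hz' σ (Subgroup.mem_zpowers σ)

theorem unramifiedOutside_sup {N₁ N₂ : IntermediateField F (AlgebraicClosure F)}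
    [FiniteDimensional F N₁] [FiniteDimensional F N₂] [IsGalois F N₁] [IsGalois F N₂]
    (h₁ : UnramifiedOutside F S N₁) (h₂ : UnramifiedOutside F S N₂) :
    UnramifiedOutside F S (N₁ ⊔ N₂ : IntermediateField F (AlgebraicClosure F)) := by
  apply unramifiedOutside_of_inertia
  intro Q hQ σ hσ
  have h3 : ∀ z : (N₁ ⊔ N₂ : IntermediateField F (AlgebraicClosure F)), σ z = z →
      z ∈ IntermediateField.fixedField (Subgroup.zpowers σ) := by
    intro z hz
    have h4 : Subgroup.zpowers σ ≤ MulAction.stabilizer
        ((N₁ ⊔ N₂ : IntermediateField F (AlgebraicClosure F)) ≃ₐ[F]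
        (N₁ ⊔ N₂ : IntermediateField F (AlgebraicClosure F))) z := by
      rw [Subgroup.zpowers_le]
      exact hz
    rw [IntermediateField.mem_fixedField_iff]
    intro g hg
    exact h4 hg
  have h1 : (N₁ ⊔ N₂ : IntermediateField F (AlgebraicClosure F)) ≤
      (IntermediateField.fixedField (Subgroup.zpowers σ)).map
        (N₁ ⊔ N₂ : IntermediateField F (AlgebraicClosure F)).val := by
    rw [sup_le_iff]
    constructor
    · intro x hx
      exact ⟨IntermediateField.inclusion le_sup_left ⟨x, hx⟩,
        h3 _ (inertia_fixes h₁ (IntermediateField.inclusion le_sup_left) Q hQ σ hσ ⟨x, hx⟩), rfl⟩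
    · intro x hx
      exact ⟨IntermediateField.inclusion le_sup_right ⟨x, hx⟩,
        h3 _ (inertia_fixes h₂ (IntermediateField.inclusion le_sup_right) Q hQ σ hσ ⟨x, hx⟩), rfl⟩
  apply AlgEquiv.ext
  intro y
  obtain ⟨z, hz, hzy⟩ := h1 y.2
  have h5 : z = y := Subtype.ext hzy
  have hz' : z ∈ IntermediateField.fixedField (Subgroup.zpowers σ) := hz
  rw [IntermediateField.mem_fixedField_iff, h5] at hz'
  exact hz' σ (Subgroup.mem_zpowers σ)

/-- subextensions of extensions unramified outside `S` are unramified outside `S` -/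
theorem unramifiedOutside_mono {E N : IntermediateField F (AlgebraicClosure F)}
    [FiniteDimensional F N] (hEN : E ≤ N) (hN : UnramifiedOutside F S N) :
    UnramifiedOutside F S E := by
  have hfd : FiniteDimensional F E :=
    FiniteDimensional.of_injective (IntermediateField.inclusion hEN).toLinearMap
      (IntermediateField.inclusion_injective hEN)
  have : NumberField E := NumberField.of_module_finite F E
  have : NumberField N := NumberField.of_module_finite F N
  let _ : Algebra E N := (IntermediateField.inclusion hEN).toRingHom.toAlgebra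
  have hst : IsScalarTower F E N := IsScalarTower.of_algebraMap_eq (fun _ => rfl)
  intro Q hQ hQ0 hQS
  obtain ⟨⟨P, hP, hPQ⟩⟩ := (inferInstance : Nonempty (Ideal.primesOver Q (𝓞 N)))
  have hcomap : P.comap (algebraMap (𝓞 F) (𝓞 N)) = Q.comap (algebraMap (𝓞 F) (𝓞 E)) := by
    rw [hPQ.over]
    rfl
  have hP0 : P ≠ ⊥ := by
    rintro rfl
    apply hQ0
    rw [hPQ.over]
    exact Ideal.comap_bot_of_injective _ (FaithfulSMul.algebraMap_injective (𝓞 E) (𝓞 N))
  have hPu : Algebra.IsUnramifiedAt (𝓞 F) P := hN P hP hP0 (fun v hv => by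
    rw [hcomap]; exact hQS v hv)
  exact Algebra.IsUnramifiedAt.of_liesOver (𝓞 F) Q P

variable (F S) in
/-- the finite Galois extensions unramified outside `S` -/
def galSet : Set (IntermediateField F (AlgebraicClosure F)) :=
  {N | FiniteDimensional F N ∧ IsGalois F N ∧ UnramifiedOutside F S N}

lemma exists_galSet_ge {E : IntermediateField F (AlgebraicClosure F)} [FiniteDimensional F E]
    (hE : UnramifiedOutside F S E) : ∃ N ∈ galSet F S, E ≤ N := by
  have hn : Normal F (IntermediateField.normalClosure F E (AlgebraicClosure F)) := inferInstance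
  exact ⟨IntermediateField.normalClosure F E (AlgebraicClosure F),
    ⟨inferInstance, ⟨⟩, unramifiedOutside_normalClosure hE⟩, E.le_normalClosure⟩

variable (F S) in
theorem maxExt_eq_sSup_galSet : maxExt F S = sSup (galSet F S) := by
  apply le_antisymm
  · apply sSup_le
    rintro E ⟨hfd, hE⟩
    obtain ⟨N, hN, hEN⟩ := exists_galSet_ge hE
    exact hEN.trans (le_sSup hN)
  · apply sSup_le_sSup
    rintro N ⟨h1, _, h3⟩
    exact ⟨h1, h3⟩

variable (F S) in
lemma bot_mem_galSet : (⊥ : IntermediateField F (AlgebraicClosure F)) ∈ galSet F S := by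
  refine ⟨inferInstance, inferInstance, ?_⟩
  apply unramifiedOutside_of_inertia
  intro Q _ σ _
  apply AlgEquiv.ext
  rintro ⟨x, hx⟩
  obtain ⟨y, rfl⟩ := IntermediateField.mem_bot.1 hx
  exact σ.commutes y

variable (F S) in
lemma directedOn_galSet : DirectedOn (· ≤ ·) (galSet F S) := by
  rintro N₁ ⟨h1, h2, h3⟩ N₂ ⟨h4, h5, h6⟩
  exact ⟨N₁ ⊔ N₂, ⟨inferInstance, inferInstance, unramifiedOutside_sup h3 h6⟩, le_sup_left, le_sup_right⟩

/-- A finite subextension of `maxExt F S` lies in a finite Galois extension unramified outside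
`S`. -/
theorem exists_galSet_of_le_maxExt {E : IntermediateField F (AlgebraicClosure F)}
    [FiniteDimensional F E] (hE : E ≤ maxExt F S) : ∃ N ∈ galSet F S, E ≤ N := by
  obtain ⟨t, ht⟩ := IntermediateField.essFiniteType_iff.1 (inferInstance : Algebra.EssFiniteType F E)
  have hc : IsCompactElement E := by
    rw [← ht]
    exact IntermediateField.adjoin_finset_isCompactElement t
  rw [CompleteLattice.isCompactElement_iff_le_of_directed_sSup_le] at hc
  exact hc _ ⟨_, bot_mem_galSet F S⟩ (directedOn_galSet F S)
    (by rw [← maxExt_eq_sSup_galSet]; exact hE)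

/-- A finite extension is contained in `maxExt F S` iff it is unramified outside `S`. -/
theorem le_maxExt_iff {E : IntermediateField F (AlgebraicClosure F)}
    [FiniteDimensional F E] : E ≤ maxExt F S ↔ UnramifiedOutside F S E := by
  constructor
  · intro h
    obtain ⟨N, ⟨h1, _, h3⟩, h4⟩ := exists_galSet_of_le_maxExt h
    exact unramifiedOutside_mono h4 h3
  · intro h
    exact le_sSup ⟨inferInstance, h⟩

variable (F S) in
instance normal_maxExt : Normal F (maxExt F S) := by
  rw [maxExt_eq_sSup_galSet, sSup_eq_iSup']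
  have : ∀ i : galSet F S, Normal F i.1 := fun i => i.2.2.1.to_normal
  exact IntermediateField.normal_iSup _ _ _

variable (F S) in
instance isGalois_maxExt : IsGalois F (maxExt F S) := ⟨⟩

end

end Pool.Agent.Lib.MP_aa8fd2_nt
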