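import Pool.Agent.Lib.MP_aa8fd2_nt.RhoBar
import Pool.Agent.Lib.MP_aa8fd2_nt.MaxExt
import Pool.Agent.Lib.MP_aa8fd2_nt.Example
import Pool.Agent.Lib.MP_aa8fd2_nt.GaloisMain

set_option autoImplicit false

/-! The counterexample: everything except the existence of the universal deformation ring. -/

namespace Pool.Agent.Lib.MP_aa8fd2_nt.Mazur

open NumberField IsDedekindDomain

theorem real_base {F Ω : Type} [Field F] [Field Ω] [Algebra F Ω]
    (L : IntermediateField F Ω) [FiniteDimensional F L] (hL : TotReal L) (i : F →+* ℂ) (x : F) :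
    (i x).im = 0 := by
  let _ : Algebra F ℂ := i.toAlgebra
  have j : L →ₐ[F] ℂ := IsAlgClosed.lift
  have h1 := hL (j : L →+* ℂ) (algebraMap F L x)
  have h2 : (j : L →+* ℂ) (algebraMap F L x) = i x := j.commutes x
  rwa [h2] at h1

/-- Subextensions of extensions unramified outside 6 are unramified outside 6. -/
theorem unr6_mono {F : Type} [Field F] [NumberField F]
    {A L : IntermediateField F (AlgebraicClosure F)} (hAL : A ≤ L) [FiniteDimensional F L]
    [IsGalois F L] [FiniteDimensional F A] (hu : Unr6 L) : Unr6 A := by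
  intro K' hK' hfin hgal Q hQ h6 σ hσ x hx
  have hnf : NumberField K' := NumberField.of_module_finite F K'
  by_cases hQ0 : Q = ⊥
  · -- the inertia group at the zero ideal is trivial
    have h1 : ∀ a : 𝓞 K', σ (a : K') = a := by
      intro a
      have hint : IsIntegral ℤ (σ (a : K')) := a.2.map σ.toRingEquiv.toRingHom.toIntAlgHom
      obtain ⟨b, hb⟩ : ∃ b : 𝓞 K', (b : K') = σ (a : K') := ⟨⟨σ (a : K'), hint⟩, rfl⟩
      have h2 := hσ a b hb
      rw [hQ0, Ideal.mem_bot] at h2
      rw [← hb, sub_eq_zero.1 h2]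
    obtain ⟨a, b, hb, rfl⟩ := IsFractionRing.div_surjective (A := 𝓞 K') x
    rw [map_div₀]
    exact congrArg₂ (· / ·) (h1 a) (h1 b)
  · have hA : UnramifiedOutside F (placesSix F) A :=
      unramifiedOutside_mono hAL (unramifiedOutside_of_unr6 L hu)
    refine inertia_fixes hA (IntermediateField.inclusion hK') Q ⟨hQ, hQ0, ?_⟩ σ hσ ⟨x, hx⟩
    intro v hv hvQ
    apply h6
    rw [mem_placesSix, ← hvQ, Ideal.mem_comap, map_ofNat] at hv
    exact hv

theorem key {F : Type} [Field F] [NumberField F] (φ : F) (hφ : φ ^ 2 = φ + 1)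
    (hF : Module.finrank ℚ F = 2) {k : Type} [Field k] [CharP k 2] (w : k)
    (hw : w ^ 2 + w + 1 = 0) :
    ∃ ρbar : GFS F (placesSix F) →* GL (Fin 3) k,
      (∀ a, IsOpen (ρbar ⁻¹' {a})) ∧ AbsIrred ρbar ∧ delta ρbar = 1 ∧
      (∃ g, (ρbar g : Matrix (Fin 3) (Fin 3) k) = !![1, 0, 0; 0, w, 0; 0, 0, w ^ 2]) ∧
      (∃ g, (ρbar g : Matrix (Fin 3) (Fin 3) k) = !![0, 1, 0; 0, 0, 1; w, 0, 0]) ∧
      ∀ (R : CoeffRing 2 k) (ρu : GFS F (placesSix F) →* GL (Fin 3) R.carrier),
        IsUniversal ρbar R ρu →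
          2 ≤ ringKrullDim (R.carrier ⧸ Ideal.span {(2 : R.carrier)}) := by
  obtain ⟨L, A, _, _, _, r, hAL, _, _, ⟨n, h3⟩, hreal, hu, hX, ⟨h₂, hT⟩, ⟨h₁, hD⟩, hZ⟩ :=
    exists_example (Ω := AlgebraicClosure F) φ hφ hF w hw
  have hle : L ≤ maxExt F (placesSix F) := le_maxExt_of_unr6 L hu
  have hFr := real_base L hreal
  obtain ⟨g₁, hg₁⟩ := res_surjective hle h₁
  obtain ⟨g₂, hg₂⟩ := res_surjective hle h₂
  have hD' : (r.comp (res hle) g₁ : Matrix (Fin 3) (Fin 3) k) =
      !![1, 0, 0; 0, w, 0; 0, 0, w ^ 2] := by rw [MonoidHom.comp_apply, hg₁, hD]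
  have hT' : (r.comp (res hle) g₂ : Matrix (Fin 3) (Fin 3) k) =
      !![0, 1, 0; 0, 0, 1; w, 0, 0] := by rw [MonoidHom.comp_apply, hg₂, hT]
  refine ⟨r.comp (res hle), ?_, absIrred_of CharTwo.two_eq_zero w hw _ g₁ g₂ hD' hT', ?_,
    ⟨g₁, hD'⟩, ⟨g₂, hT'⟩, ?_⟩
  · intro a
    exact isOpen_res_preimage hle (r ⁻¹' {a})
  · refine delta_eq_one hF hFr _ ?_
    intro v g hg
    rw [MonoidHom.comp_apply, res_eq_one_of_stab hle hreal _ g hg, map_one]
  · intro R ρu hR
    refine two_le_of_lifts _ R ρu hR ?_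
    intro j
    obtain ⟨K, hLK, _, _, huK, hK⟩ := galois_main hFr L A hAL n h3 hreal hu
      (unr6_mono hAL hu) hX j
    have hKle : K ≤ maxExt F (placesSix F) := le_maxExt_of_unr6 K huK
    obtain ⟨f, ⟨c, hc1, hc2⟩, hf2, hf3⟩ := hK (GL (Fin 3) (Trunc k (j + 1)))
      ((Matrix.GeneralLinearGroup.map (n := Fin 3) (truncC k (j + 1))).comp r) (congr k j)
      (upperTrunc j) (sqSeries_congr j) (upperTrunc_mem j) (upper_sq _ _) (by
        intro z hz
        obtain ⟨a, ha⟩ := hZ z hz
        apply Units.ext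
        simp only [Units.val_mul, MonoidHom.comp_apply]
        have h5 : ((Matrix.GeneralLinearGroup.map (n := Fin 3) (truncC k (j + 1)) (r z) :
          GL (Fin 3) (Trunc k (j + 1))) : Matrix (Fin 3) (Fin 3) (Trunc k (j + 1))) =
            Matrix.scalar (Fin 3) (truncC k (j + 1) a) := by
          ext x y
          rw [Matrix.GeneralLinearGroup.map_apply, ha]
          rcases eq_or_ne x y with rfl | hxy
          · simp
          · simp [hxy]
        rw [h5]
        exact ((Matrix.scalar_commute _ (fun r => Commute.all _ r) _).eq).symm)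
    refine ⟨f.comp (res hKle), ⟨?_, ?_⟩, ?_⟩
    · intro m
      exact isOpen_res_preimage hKle {g | ∀ a b,
        (f g : Matrix (Fin 3) (Fin 3) (Trunc k (j + 1))) a b -
          (1 : Matrix (Fin 3) (Fin 3) (Trunc k (j + 1))) a b ∈
            IsLocalRing.maximalIdeal (Trunc k (j + 1)) ^ m}
    · intro g
      have h5 := hf3 (res hKle g) (res hle g) (by
        intro x y hxy
        rw [coe_res_apply hKle g y (IntermediateField.inclusion hKle y) rfl,
          coe_res_apply hle g x (IntermediateField.inclusion hKle y) hxy])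
      have h6 : Matrix.GeneralLinearGroup.map (n := Fin 3) (truncRes k j)
        ((((Matrix.GeneralLinearGroup.map (n := Fin 3) (truncC k (j + 1))).comp r) (res hle g))⁻¹ *
          f (res hKle g)) = 1 := h5
      rw [map_mul, map_inv, inv_mul_eq_one] at h6
      change Matrix.GeneralLinearGroup.map (n := Fin 3) (truncRes k j) (f (res hKle g)) =
        r (res hle g)
      rw [← h6]
      apply Units.ext
      ext x y
      rw [MonoidHom.comp_apply, Matrix.GeneralLinearGroup.map_apply,
        Matrix.GeneralLinearGroup.map_apply, truncRes_truncC]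
    · have key2 : ∀ h : L ≃ₐ[F] L, ∃ g g' : GFS F (placesSix F),
          (f (res hKle g') : Matrix (Fin 3) (Fin 3) (Trunc k (j + 1))).trace -
          (f (res hKle g) : Matrix (Fin 3) (Fin 3) (Trunc k (j + 1))).trace =
            Ideal.Quotient.mk _ (MvPolynomial.X 0) *
              truncC k (j + 1) ((r h : Matrix (Fin 3) (Fin 3) k) 1 0) +
            Ideal.Quotient.mk _ (MvPolynomial.X 1) *
              truncC k (j + 1) ((r h : Matrix (Fin 3) (Fin 3) k) 2 0) := by
        intro h
        obtain ⟨gK, hgK, -⟩ := hf2 h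
        obtain ⟨g, rfl⟩ := res_surjective hKle gK
        obtain ⟨gc, rfl⟩ := res_surjective hKle c
        refine ⟨g, gc * g, ?_⟩
        rw [map_mul, map_mul, hc1, Units.val_mul, upperTrunc, trace_upper_mul, hgK,
          MonoidHom.comp_apply, Matrix.GeneralLinearGroup.map_apply,
          Matrix.GeneralLinearGroup.map_apply]
      have hw0 : w ≠ 0 := by
        rintro rfl
        norm_num at hw
      intro i
      fin_cases i
      · obtain ⟨g, g', hgg⟩ := key2 (h₂ * h₂)
        refine ⟨g, g', w, hw0, ?_⟩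
        refine hgg.trans ?_
        rw [map_mul, Units.val_mul, hT]
        simp [Matrix.mul_apply, Fin.sum_univ_three, mul_comm]
      · obtain ⟨g, g', hgg⟩ := key2 h₂
        refine ⟨g, g', w, hw0, ?_⟩
        refine hgg.trans ?_
        rw [hT]
        simp [mul_comm]

end Pool.Agent.Lib.MP_aa8fd2_nt.Mazur
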