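import Mathlib

set_option autoImplicit false

/-! Shared definitions for the helper files of MP_aa8fd2_nt. -/

namespace Pool.Agent.Lib.MP_aa8fd2_nt

open NumberField

/-- `K` has exactly one prime above 2 and odd class number. -/
structure Good2 (K : Type*) [Field K] [NumberField K] : Prop where
  unique : ∃! P : Ideal (𝓞 K), P.IsPrime ∧ (2 : 𝓞 K) ∈ P
  odd : Odd (NumberField.classNumber K)

/-- `L/K` is unramified at all primes of `L` not above 2. -/
def UnramOut2 (K L : Type*) [Field K] [NumberField K] [Field L] [NumberField L] [Algebra K L] :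
    Prop :=
  ∀ Q : Ideal (𝓞 L), ∀ _ : Q.IsPrime, (2 : 𝓞 L) ∉ Q → Algebra.IsUnramifiedAt (𝓞 K) Q

/-- iterated subgroups generated by squares -/
def sqSeries {V : Type*} [Group V] : ℕ → Subgroup V
  | 0 => ⊤
  | n + 1 => Subgroup.closure {x | ∃ y ∈ sqSeries (V := V) n, x = y ^ 2}

/-- the order of `F_d / sqSeries i` for a free group of rank `d` -/
def bnd (d : ℕ) : ℕ → ℕ
  | 0 => 1
  | i + 1 => bnd d i * 2 ^ (1 + (d - 1) * bnd d i)

end Pool.Agent.Lib.MP_aa8fd2_nt
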