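import Mathlib

set_option autoImplicit false

/-! The Burnside basis theorem for quotients of a topological group. -/

namespace Pool.Agent.Lib.MP_aa8fd2_nt.Mazur

/-- A proper subgroup of a finite `p`-group is contained in the kernel of a nontrivial character
of order `p`. -/
theorem exists_char_of_lt_top {Q : Type*} [Group Q] [Finite Q] (p : ℕ) [hp : Fact p.Prime]
    (hQ : IsPGroup p Q) (M : Subgroup Q) (hM : M ≠ ⊤) :
    ∃ χ : Q →* Multiplicative (ZMod p), χ ≠ 1 ∧ M ≤ χ.ker := by
  obtain ⟨N, hN, hMN⟩ := (eq_top_or_exists_le_coatom M).resolve_left hM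
  have hnil : Group.IsNilpotent Q := hQ.isNilpotent
  have hnorm : N.Normal :=
    Subgroup.NormalizerCondition.normal_of_coatom N Group.normalizerCondition_of_isNilpotent hN
  have hQN : IsPGroup p (Q ⧸ N) := hQ.to_quotient N
  have hnt : Nontrivial (Q ⧸ N) := by
    rw [← not_subsingleton_iff_nontrivial]
    intro h
    exact hN.1 (QuotientGroup.subsingleton_iff.1 h)
  obtain ⟨n, hn⟩ := IsPGroup.iff_card.1 hQN
  have hn0 : n ≠ 0 := by
    rintro rfl
    rw [pow_zero] at hn
    exact not_subsingleton_iff_nontrivial.2 hnt (Nat.card_eq_one_iff_unique.1 hn).1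
  obtain ⟨x, hx⟩ := exists_prime_orderOf_dvd_card' (G := Q ⧸ N) p (hn ▸ dvd_pow_self p hn0)
  have hx1 : x ≠ 1 := by
    rintro rfl
    rw [orderOf_one] at hx
    exact hp.1.one_lt.ne hx
  have htop : Subgroup.zpowers x = ⊤ := by
    have h1 : N ≤ (Subgroup.zpowers x).comap (QuotientGroup.mk' N) := by
      intro y hy
      rw [Subgroup.mem_comap, QuotientGroup.mk'_apply, (QuotientGroup.eq_one_iff y).2 hy]
      exact one_mem _
    have h2 : (Subgroup.zpowers x).comap (QuotientGroup.mk' N) = ⊤ := by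
      by_contra h3
      have h4 : N = (Subgroup.zpowers x).comap (QuotientGroup.mk' N) := by
        by_contra h5
        exact h3 (hN.2 _ (lt_of_le_of_ne h1 h5))
      obtain ⟨y, rfl⟩ := QuotientGroup.mk'_surjective N x
      apply hx1
      have h6 : y ∈ (Subgroup.zpowers (QuotientGroup.mk' N y)).comap (QuotientGroup.mk' N) :=
        Subgroup.mem_zpowers _
      rw [← h4] at h6
      exact (QuotientGroup.eq_one_iff y).2 h6
    rw [eq_top_iff]
    intro z _
    obtain ⟨y, rfl⟩ := QuotientGroup.mk'_surjective N z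
    have : y ∈ (Subgroup.zpowers x).comap (QuotientGroup.mk' N) := by
      rw [h2]; exact Subgroup.mem_top y
    exact this
  have hcard : Nat.card (Q ⧸ N) = p := by
    rw [← Subgroup.card_top (G := Q ⧸ N), ← htop, Nat.card_zpowers, hx]
  have hcard' : Nat.card (Multiplicative (ZMod p)) = p := by
    rw [Nat.card_congr Multiplicative.toAdd, Nat.card_zmod]
  let e : (Q ⧸ N) ≃* Multiplicative (ZMod p) := mulEquivOfPrimeCardEq hcard hcard'
  refine ⟨(e : (Q ⧸ N) →* Multiplicative (ZMod p)).comp (QuotientGroup.mk' N), ?_, ?_⟩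
  · intro h
    apply hx1
    obtain ⟨y, rfl⟩ := QuotientGroup.mk'_surjective N x
    have h1 := DFunLike.congr_fun h y
    exact e.injective (h1.trans (map_one e).symm)
  · intro y hy
    rw [MonoidHom.mem_ker, MonoidHom.comp_apply, QuotientGroup.mk'_apply,
      (QuotientGroup.eq_one_iff y).2 (hMN hy), map_one]

/-- The admissible open subgroups: open normal subgroups of finite index in `H` such that the
quotient of `H` is a `p`-group. -/
structure Adm {G : Type*} [Group G] [TopologicalSpace G] (p : ℕ) (H U : Subgroup G) : Prop where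
  normal : U.Normal
  isOpen : IsOpen (U : Set G)
  le : U ≤ H
  finiteIndex : U.FiniteIndex
  pow_mem : ∀ h ∈ H, ∃ s : ℕ, h ^ p ^ s ∈ U

theorem Adm.inf {G : Type*} [Group G] [TopologicalSpace G] {p : ℕ} {H U V : Subgroup G}
    (hU : Adm p H U) (hV : Adm p H V) : Adm p H (U ⊓ V) where
  normal := have := hU.normal; have := hV.normal; Subgroup.normal_inf_normal U V
  isOpen := hU.isOpen.inter hV.isOpen
  le := inf_le_left.trans hU.le
  finiteIndex := have := hU.finiteIndex; have := hV.finiteIndex; inferInstance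
  pow_mem := by
    intro h hh
    obtain ⟨s, hs⟩ := hU.pow_mem h hh
    obtain ⟨t, ht⟩ := hV.pow_mem h hh
    refine ⟨s + t, ?_, ?_⟩
    · rw [pow_add, pow_mul]
      exact U.pow_mem hs _
    · rw [pow_add, mul_comm, pow_mul]
      exact V.pow_mem ht _

theorem burnside {G : Type} [Group G] [TopologicalSpace G] [IsTopologicalGroup G] (p : ℕ)
    [Fact p.Prime] (H : Subgroup G) [H.Normal] [H.FiniteIndex]
    (hfin : Finite {χ : H →* Multiplicative (ZMod p) // Continuous χ}) :
    ∃ (ι : Type) (_ : Finite ι) (g : ι → G), ∀ U : Subgroup G, Adm p H U →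
      ∀ x : G, ∃ w : FreeGroup ι, (FreeGroup.lift g w)⁻¹ * x ∈ U := by
  let Φ : Subgroup H := ⨅ χ : {χ : H →* Multiplicative (ZMod p) // Continuous χ}, χ.1.ker
  have hΦ : Φ.FiniteIndex := by
    have : ∀ χ : {χ : H →* Multiplicative (ZMod p) // Continuous χ}, χ.1.ker.FiniteIndex :=
      fun χ => inferInstance
    exact Subgroup.finiteIndex_iInf this
  let ι := (G ⧸ H) ⊕ (H ⧸ Φ)
  let g : ι → G := Sum.elim (fun c => c.out) (fun d => (d.out : H))
  refine ⟨ι, inferInstance, g, fun U hU => ?_⟩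
  have := hU.normal
  let Γ : Subgroup G := (FreeGroup.lift g).range ⊔ U
  have hHΓ : H ≤ Γ := by
    by_contra hne
    let H1 := Γ.subgroupOf H
    have hH1 : H1 ≠ ⊤ := fun h => hne (Subgroup.subgroupOf_eq_top.1 h)
    let N := U.subgroupOf H
    have hNn : N.Normal := inferInstance
    have hNf : N.FiniteIndex := by
      have := hU.finiteIndex
      infer_instance
    have hQp : IsPGroup p (H ⧸ N) := by
      intro q
      obtain ⟨h, rfl⟩ := QuotientGroup.mk'_surjective N q
      obtain ⟨s, hs⟩ := hU.pow_mem h h.2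
      refine ⟨s, ?_⟩
      rw [← map_pow, QuotientGroup.mk'_apply, QuotientGroup.eq_one_iff]
      exact hs
    have hNH1 : N ≤ H1 := fun h hh => Subgroup.mem_subgroupOf.2 (Subgroup.mem_sup_right hh)
    have hM : H1.map (QuotientGroup.mk' N) ≠ ⊤ := by
      intro h
      apply hH1
      rw [eq_top_iff]
      intro x _
      have h1 : QuotientGroup.mk' N x ∈ H1.map (QuotientGroup.mk' N) := by
        rw [h]; exact Subgroup.mem_top _
      obtain ⟨y, hy, hxy⟩ := h1
      have h2 : y⁻¹ * x ∈ N := QuotientGroup.eq.1 hxy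
      have h3 := H1.mul_mem hy (hNH1 h2)
      rwa [mul_inv_cancel_left] at h3
    obtain ⟨χ, hχ1, hχ⟩ := exists_char_of_lt_top p hQp _ hM
    let ψ : H →* Multiplicative (ZMod p) := χ.comp (QuotientGroup.mk' N)
    have hψN : N ≤ ψ.ker := by
      intro x hx
      rw [MonoidHom.mem_ker, MonoidHom.comp_apply, QuotientGroup.mk'_apply,
        (QuotientGroup.eq_one_iff x).2 hx, map_one]
    have hNo : IsOpen (N : Set H) := hU.isOpen.preimage continuous_subtype_val
    have hψo : IsOpen (ψ.ker : Set H) := Subgroup.isOpen_mono hψN hNo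
    have hψc : Continuous ψ := by
      apply continuous_of_continuousAt_one
      rw [ContinuousAt, map_one, nhds_discrete (Multiplicative (ZMod p)), Filter.tendsto_pure]
      exact hψo.mem_nhds (one_mem ψ.ker)
    have hΦψ : Φ ≤ ψ.ker := iInf_le (fun χ : {χ : H →* Multiplicative (ZMod p) // Continuous χ} =>
      χ.1.ker) ⟨ψ, hψc⟩
    apply hχ1
    apply MonoidHom.ext
    intro q
    obtain ⟨h, rfl⟩ := QuotientGroup.mk'_surjective N q
    have h1 : ((h : H ⧸ Φ).out)⁻¹ * h ∈ Φ := QuotientGroup.eq.1 (QuotientGroup.out_eq' _)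
    have h2 : ((h : H ⧸ Φ).out) ∈ H1 := by
      rw [Subgroup.mem_subgroupOf]
      apply Subgroup.mem_sup_left
      exact ⟨FreeGroup.of (Sum.inr (h : H ⧸ Φ)), by rw [FreeGroup.lift_apply_of]; rfl⟩
    have h3 : ψ ((h : H ⧸ Φ).out) = 1 := hχ (Subgroup.mem_map_of_mem _ h2)
    have h4 : ψ (((h : H ⧸ Φ).out)⁻¹ * h) = 1 := hΦψ h1
    rw [map_mul, map_inv, h3, inv_one, one_mul] at h4
    exact h4
  have hΓ : Γ = ⊤ := by
    rw [eq_top_iff]
    intro x _
    have h1 : ((x : G ⧸ H).out)⁻¹ * x ∈ H := QuotientGroup.eq.1 (QuotientGroup.out_eq' _)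
    have h2 : ((x : G ⧸ H).out) ∈ Γ := by
      apply Subgroup.mem_sup_left
      exact ⟨FreeGroup.of (Sum.inl (x : G ⧸ H)), by rw [FreeGroup.lift_apply_of]; rfl⟩
    have h3 := Γ.mul_mem h2 (hHΓ h1)
    rwa [mul_inv_cancel_left] at h3
  intro x
  have hx : x ∈ Γ := by rw [hΓ]; exact Subgroup.mem_top x
  obtain ⟨y, ⟨w, rfl⟩, z, hz, hyz⟩ := Subgroup.mem_sup_of_normal_right.1 hx
  refine ⟨w, ?_⟩
  rw [← hyz, inv_mul_cancel_left]
  exact hz

end Pool.Agent.Lib.MP_aa8fd2_nt.Mazur
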