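import Pool.Agent.Lib.MP_aa8fd2_nt.Deform
import Pool.Agent.Lib.MP_aa8fd2_nt.Basic

set_option autoImplicit false

/-! The coefficient rings `k[t₁,t₂]/(t₁,t₂)^(j+1)` and the congruence subgroup of `GL₃`. -/

namespace Pool.Agent.Lib.MP_aa8fd2_nt.Mazur

open MvPolynomial

section Trunc

variable (k : Type) [Field k]

/-- The ideal `(t₁,t₂)`. -/
noncomputable abbrev aug : Ideal (MvPolynomial (Fin 2) k) :=
  Ideal.span (Set.range (MvPolynomial.X : Fin 2 → MvPolynomial (Fin 2) k))

/-- `k[t₁,t₂]/(t₁,t₂)^j`. -/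
abbrev Trunc (j : ℕ) : Type := MvPolynomial (Fin 2) k ⧸ (aug k) ^ j

theorem aug_eq_ker : aug k = RingHom.ker (MvPolynomial.constantCoeff (σ := Fin 2) (R := k)) := by
  apply le_antisymm
  · rw [Ideal.span_le]
    rintro _ ⟨i, rfl⟩
    simp
  · intro p hp
    rw [RingHom.mem_ker] at hp
    have h1 : p ∈ Ideal.span (MvPolynomial.X '' (Set.univ : Set (Fin 2))) := by
      rw [MvPolynomial.mem_ideal_span_X_image]
      intro m hm
      by_contra hcon
      push Not at hcon
      have : m = 0 := by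
        ext i
        exact hcon i (Set.mem_univ _)
      subst this
      rw [MvPolynomial.mem_support_iff] at hm
      exact hm hp
    rwa [Set.image_univ] at h1

/-- The residue map `k[t₁,t₂]/(t₁,t₂)^(j+1) → k`. -/
noncomputable def truncRes (j : ℕ) : Trunc k (j + 1) →+* k :=
  Ideal.Quotient.lift _ (MvPolynomial.constantCoeff (σ := Fin 2) (R := k)) (by
    intro a ha
    have h1 : a ∈ aug k := Ideal.pow_le_self (Nat.succ_ne_zero _) ha
    rw [aug_eq_ker] at h1
    exact h1)

@[simp] theorem truncRes_mk (j : ℕ) (p : MvPolynomial (Fin 2) k) :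
    truncRes k j (Ideal.Quotient.mk _ p) = MvPolynomial.constantCoeff p := rfl

/-- The constants `k → k[t₁,t₂]/(t₁,t₂)^j`. -/
noncomputable def truncC (j : ℕ) : k →+* Trunc k j := (Ideal.Quotient.mk _).comp MvPolynomial.C

@[simp] theorem truncRes_truncC (j : ℕ) (a : k) : truncRes k j (truncC k (j + 1) a) = a := by
  simp [truncC]

theorem truncRes_surjective (j : ℕ) : Function.Surjective (truncRes k j) :=
  fun a => ⟨truncC k _ a, truncRes_truncC k j a⟩

variable {k}

theorem trunc_pow_eq_zero {j : ℕ} {a : Trunc k j} (ha : ∃ p ∈ aug k, Ideal.Quotient.mk _ p = a) :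
    a ^ j = 0 := by
  obtain ⟨p, hp, rfl⟩ := ha
  rw [← map_pow, Ideal.Quotient.eq_zero_iff_mem]
  exact Ideal.pow_mem_pow hp j

theorem mem_aug_of_truncRes {j : ℕ} {a : Trunc k (j + 1)} (ha : truncRes k j a = 0) :
    ∃ p ∈ aug k, Ideal.Quotient.mk _ p = a := by
  obtain ⟨p, rfl⟩ := Ideal.Quotient.mk_surjective a
  refine ⟨p, ?_, rfl⟩
  rw [aug_eq_ker]
  exact ha

instance isLocalHom_truncRes (j : ℕ) : IsLocalHom (truncRes k j) := by
  refine ⟨fun a ha => ?_⟩
  have h0 : truncRes k j a ≠ 0 := ha.ne_zero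
  have h1 : a = truncC k _ (truncRes k j a) + (a - truncC k _ (truncRes k j a)) := by ring
  have h2 : IsNilpotent (a - truncC k (j + 1) (truncRes k j a)) := by
    refine ⟨j + 1, trunc_pow_eq_zero (mem_aug_of_truncRes ?_)⟩
    rw [map_sub, truncRes_truncC, sub_self]
  rw [h1]
  exact h2.isUnit_add_left_of_commute ((isUnit_iff_ne_zero.mpr h0).map _) (Commute.all _ _)

instance nontrivial_trunc (j : ℕ) : Nontrivial (Trunc k (j + 1)) :=
  (truncRes k j).domain_nontrivial

instance isLocalRing_trunc (j : ℕ) : IsLocalRing (Trunc k (j + 1)) :=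
  (truncRes k j).domain_isLocalRing

theorem maximalIdeal_trunc (j : ℕ) :
    IsLocalRing.maximalIdeal (Trunc k (j + 1)) = (aug k).map (Ideal.Quotient.mk _) := by
  have h1 : IsLocalRing.maximalIdeal (Trunc k (j + 1)) = RingHom.ker (truncRes k j) := by
    ext a
    rw [IsLocalRing.mem_maximalIdeal, mem_nonunits_iff, RingHom.mem_ker,
      ← isUnit_map_iff (truncRes k j), isUnit_iff_ne_zero, not_not]
  rw [h1]
  apply le_antisymm
  · intro a ha
    obtain ⟨p, hp, rfl⟩ := mem_aug_of_truncRes ha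
    exact Ideal.mem_map_of_mem _ hp
  · rw [Ideal.map_le_iff_le_comap]
    intro p hp
    rw [aug_eq_ker] at hp
    exact hp

theorem maximalIdeal_trunc_pow (j : ℕ) :
    IsLocalRing.maximalIdeal (Trunc k (j + 1)) ^ (j + 1) = ⊥ := by
  rw [maximalIdeal_trunc, ← Ideal.map_pow, Ideal.map_quotient_self]

theorem isAdicComplete_of_pow_eq_bot {R : Type*} [CommRing R] {I : Ideal R} {n : ℕ}
    (h : I ^ n = ⊥) : IsAdicComplete I R := by
  have haus : IsHausdorff I R := ⟨fun x hx => by
    have := hx n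
    rw [SModEq.zero, h] at this
    simpa using this⟩
  have hprec : IsPrecomplete I R := ⟨fun f hf => by
    refine ⟨f n, fun m => ?_⟩
    rcases le_total m n with hmn | hmn
    · exact hf hmn
    · have h1 := hf hmn
      rw [h] at h1
      have h2 : f n = f m := by
        rw [SModEq.sub_mem] at h1
        simpa [sub_eq_zero] using h1
      rw [h2]⟩
  exact { haus with prec' := hprec.prec' }

instance isAdicComplete_trunc (j : ℕ) :
    IsAdicComplete (IsLocalRing.maximalIdeal (Trunc k (j + 1))) (Trunc k (j + 1)) :=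
  isAdicComplete_of_pow_eq_bot (maximalIdeal_trunc_pow j)

/-- `k[t₁,t₂]/(t₁,t₂)^(j+1)` as a coefficient ring. -/
noncomputable def truncRing (p : ℕ) [Fact p.Prime] (k : Type) [Field k] [CharP k p] (j : ℕ) :
    CoeffRing p k :=
  letI : Algebra (WittVector p k) (Trunc k (j + 1)) :=
    ((truncC k (j + 1)).comp WittVector.constantCoeff).toAlgebra
  { carrier := Trunc k (j + 1)
    residue := truncRes k j
    residue_surjective := truncRes_surjective k j
    residue_algebraMap := fun x => by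
      change truncRes k j (truncC k (j + 1) (WittVector.constantCoeff x)) = x.coeff 0
      rw [truncRes_truncC]
      rfl }

end Trunc

section GLThree

/-- The unipotent matrix with first row `(1, t₁, t₂)`, an involution when `2 = 0`. -/
def upper {A : Type*} [CommRing A] (h2 : (2 : A) = 0) (t : Fin 2 → A) : GL (Fin 3) A where
  val := !![1, t 0, t 1; 0, 1, 0; 0, 0, 1]
  inv := !![1, t 0, t 1; 0, 1, 0; 0, 0, 1]
  val_inv := by
    have h3 : ∀ x : A, x + x = 0 := fun x => by rw [← two_mul, h2, zero_mul]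
    ext i j
    fin_cases i <;> fin_cases j <;> simp [Matrix.mul_apply, Fin.sum_univ_three, h3]
  inv_val := by
    have h3 : ∀ x : A, x + x = 0 := fun x => by rw [← two_mul, h2, zero_mul]
    ext i j
    fin_cases i <;> fin_cases j <;> simp [Matrix.mul_apply, Fin.sum_univ_three, h3]

theorem upper_val {A : Type*} [CommRing A] (h2 : (2 : A) = 0) (t : Fin 2 → A) :
    (upper h2 t : Matrix (Fin 3) (Fin 3) A) = !![1, t 0, t 1; 0, 1, 0; 0, 0, 1] := rfl

theorem upper_sq {A : Type*} [CommRing A] (h2 : (2 : A) = 0) (t : Fin 2 → A) :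
    upper h2 t ^ 2 = 1 := by
  rw [pow_two]
  apply Units.ext
  exact (upper h2 t).val_inv

theorem trace_upper_mul {A : Type*} [CommRing A] (h2 : (2 : A) = 0) (t : Fin 2 → A)
    (M : Matrix (Fin 3) (Fin 3) A) :
    ((upper h2 t : Matrix (Fin 3) (Fin 3) A) * M).trace - M.trace = t 0 * M 1 0 + t 1 * M 2 0 := by
  rw [upper_val]
  simp only [Matrix.trace, Matrix.diag, Matrix.mul_apply, Fin.sum_univ_three]
  simp
  ring

section General

variable {A : Type*} [CommRing A]

/-- matrices congruent to `1` modulo `I` -/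
def congIdeal (I : Ideal A) : Subgroup (GL (Fin 3) A) :=
  (Matrix.GeneralLinearGroup.map (n := Fin 3) (Ideal.Quotient.mk I)).ker

theorem mem_congIdeal (I : Ideal A) (g : GL (Fin 3) A) :
    g ∈ congIdeal I ↔ ∀ a b, ((g : Matrix (Fin 3) (Fin 3) A) - 1) a b ∈ I := by
  constructor
  · intro hg a b
    have h1 : Matrix.GeneralLinearGroup.map (n := Fin 3) (Ideal.Quotient.mk I) g = 1 := hg
    have h2 := congrArg (fun x : GL (Fin 3) (A ⧸ I) => (x : Matrix (Fin 3) (Fin 3) (A ⧸ I)) a b) h1
    simp only [Matrix.GeneralLinearGroup.map_apply] at h2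
    rw [← Ideal.Quotient.eq_zero_iff_mem, Matrix.sub_apply, map_sub, h2]
    rcases eq_or_ne a b with rfl | hab
    · simp
    · simp [hab]
  · intro h
    change Matrix.GeneralLinearGroup.map (n := Fin 3) (Ideal.Quotient.mk I) g = 1
    apply Units.ext
    ext a b
    rw [Matrix.GeneralLinearGroup.map_apply]
    have h2 := h a b
    rw [← Ideal.Quotient.eq_zero_iff_mem, Matrix.sub_apply, map_sub, sub_eq_zero] at h2
    rw [h2]
    rcases eq_or_ne a b with rfl | hab
    · simp
    · simp [hab]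

theorem sq_mem_congIdeal (h2 : (2 : A) = 0) {I : Ideal A} {g : GL (Fin 3) A}
    (hg : g ∈ congIdeal I) : g ^ 2 ∈ congIdeal (I * I) := by
  rw [mem_congIdeal] at hg ⊢
  intro a b
  set Y := (g : Matrix (Fin 3) (Fin 3) A) - 1 with hY
  have h3 : (g : Matrix (Fin 3) (Fin 3) A) = 1 + Y := by rw [hY]; abel
  have h4 : (1 + Y) ^ 2 = 1 + Y * Y + (2 : A) • Y := by
    rw [two_smul]; noncomm_ring
  rw [Units.val_pow_eq_pow_val, h3, h4, h2, zero_smul, add_zero, add_sub_cancel_left,
    Matrix.mul_apply]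
  exact Ideal.sum_mem _ fun e _ => Ideal.mul_mem_mul (hg a e) (hg e b)

end General

variable {k : Type} [Field k]

/-- the congruence subgroup: the kernel of `GL₃(k[t₁,t₂]/(t₁,t₂)^(j+1)) → GL₃(k)` -/
noncomputable def congr (k : Type) [Field k] (j : ℕ) : Subgroup (GL (Fin 3) (Trunc k (j + 1))) :=
  (Matrix.GeneralLinearGroup.map (n := Fin 3) (truncRes k j)).ker

instance normal_congr (j : ℕ) : (congr k j).Normal := by
  unfold congr
  infer_instance

theorem two_eq_zero_trunc [CharP k 2] (j : ℕ) : (2 : Trunc k j) = 0 := by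
  have h : (2 : k) = 0 := CharTwo.two_eq_zero
  calc (2 : Trunc k j) = truncC k j (2 : k) := (map_ofNat _ 2).symm
    _ = truncC k j 0 := congrArg _ h
    _ = 0 := map_zero _

theorem mem_congr {j : ℕ} {g : GL (Fin 3) (Trunc k (j + 1))} (hg : g ∈ congr k j) (a b : Fin 3) :
    ((g : Matrix (Fin 3) (Fin 3) (Trunc k (j + 1))) - 1) a b ∈
      IsLocalRing.maximalIdeal (Trunc k (j + 1)) := by
  have h1 : Matrix.GeneralLinearGroup.map (n := Fin 3) (truncRes k j) g = 1 := hg
  have h2 := congrArg (fun x : GL (Fin 3) k => (x : Matrix (Fin 3) (Fin 3) k) a b) h1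
  simp only [Matrix.GeneralLinearGroup.map_apply] at h2
  rw [IsLocalRing.mem_maximalIdeal, mem_nonunits_iff, ← isUnit_map_iff (truncRes k j),
    isUnit_iff_ne_zero, not_not, Matrix.sub_apply, map_sub, h2]
  rcases eq_or_ne a b with rfl | hab
  · simp
  · simp [hab]

theorem sqSeries_congr_aux [CharP k 2] (j s : ℕ) (x : congr k j)
    (hx : x ∈ sqSeries (V := congr k j) s) (a b : Fin 3) :
    (((x : GL (Fin 3) (Trunc k (j + 1))) : Matrix (Fin 3) (Fin 3) (Trunc k (j + 1))) - 1) a b ∈
      IsLocalRing.maximalIdeal (Trunc k (j + 1)) ^ (s + 1) := by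
  suffices h : (x : GL (Fin 3) (Trunc k (j + 1))) ∈
      congIdeal (IsLocalRing.maximalIdeal (Trunc k (j + 1)) ^ (s + 1)) from
    (mem_congIdeal _ _).mp h a b
  induction s generalizing x with
  | zero =>
    rw [zero_add, pow_one, mem_congIdeal]
    exact mem_congr x.2
  | succ s ih =>
    have hle : sqSeries (V := congr k j) (s + 1) ≤
        (congIdeal (IsLocalRing.maximalIdeal (Trunc k (j + 1)) ^ (s + 1 + 1))).comap
          (congr k j).subtype := by
      change Subgroup.closure _ ≤ _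
      rw [Subgroup.closure_le]
      rintro _ ⟨y, hy, rfl⟩
      change ((y : GL (Fin 3) (Trunc k (j + 1))) ^ 2) ∈ congIdeal _
      have h1 := sq_mem_congIdeal (two_eq_zero_trunc _) (ih y hy)
      rw [mem_congIdeal] at h1 ⊢
      intro a b
      have h2 := h1 a b
      rw [← pow_add] at h2
      exact Ideal.pow_le_pow_right (by omega) h2
    exact hle hx

theorem sqSeries_congr [CharP k 2] (j : ℕ) : sqSeries (V := congr k j) j = ⊥ := by
  rw [eq_bot_iff]
  intro x hx
  rw [Subgroup.mem_bot]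
  apply Subtype.ext
  apply Units.ext
  ext a b
  have h1 := sqSeries_congr_aux j j x hx a b
  rw [maximalIdeal_trunc_pow] at h1
  have h2 : (((x : GL (Fin 3) (Trunc k (j + 1))) : Matrix (Fin 3) (Fin 3) (Trunc k (j + 1))) - 1) a b
    = 0 := h1
  rw [Matrix.sub_apply, sub_eq_zero] at h2
  exact h2

/-- The element `1 + t₁ E₁₂ + t₂ E₁₃` of the congruence subgroup. -/
noncomputable def upperTrunc [CharP k 2] (j : ℕ) : GL (Fin 3) (Trunc k (j + 1)) :=
  upper (two_eq_zero_trunc _) (fun i => Ideal.Quotient.mk _ (MvPolynomial.X i))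

theorem upperTrunc_mem [CharP k 2] (j : ℕ) : upperTrunc (k := k) j ∈ congr k j := by
  change Matrix.GeneralLinearGroup.map (n := Fin 3) (truncRes k j) (upperTrunc j) = 1
  apply Units.ext
  ext a b
  rw [Matrix.GeneralLinearGroup.map_apply, upperTrunc, upper_val]
  fin_cases a <;> fin_cases b <;> simp

end GLThree

end Pool.Agent.Lib.MP_aa8fd2_nt.Mazur
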