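import Pool.Agent.Lib.MP_aa8fd2_nt.CoeffQuot

set_option autoImplicit false

/-! Free coefficient rings (power series rings over `W(k)`). -/

namespace Pool.Agent.Lib.MP_aa8fd2_nt.Mazur

open IsLocalRing

theorem eq_of_forall_pow {A : Type*} [CommRing A] (J : Ideal A) [IsHausdorff J A] {x y : A}
    (h : ∀ n, x - y ∈ J ^ n) : x = y := by
  rw [← sub_eq_zero]
  apply IsHausdorff.haus (I := J) inferInstance
  intro n
  rw [SModEq.zero]
  simpa using h n

theorem lift_adic {R A : Type*} [CommRing R] [CommRing A] (I : Ideal R) (J : Ideal A)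
    [IsAdicComplete J A] (θ : R →+* A) (h : I ≤ J.comap θ) :
    ∃ f : AdicCompletion I R →+* A, ∀ r, f (algebraMap R _ r) = θ r := by
  have hn : ∀ n, I ^ n ≤ (J ^ n).comap θ := fun n =>
    (Ideal.pow_right_mono h n).trans (Ideal.le_comap_pow θ n)
  let F : ∀ n, AdicCompletion I R →+* A ⧸ J ^ n := fun n =>
    (Ideal.quotientMap (J ^ n) θ (hn n)).comp
      (AdicCompletion.evalₐ I n : AdicCompletion I R →+* R ⧸ I ^ n)
  have hF : ∀ {m n : ℕ} (hle : m ≤ n), (Ideal.Quotient.factorPow J hle).comp (F n) = F m := by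
    intro m n hle
    ext x
    obtain ⟨s, rfl⟩ := AdicCompletion.mk_surjective I R x
    simp only [F, RingHom.comp_apply, RingHom.coe_coe, AdicCompletion.evalₐ_mk,
      Ideal.quotientMap_mk]
    have h1 := Ideal.Quotient.eq.1 (AdicCompletion.Ideal.mk_eq_mk I hle s)
    have h2 := hn m h1
    rw [Ideal.mem_comap, map_sub] at h2
    exact Ideal.Quotient.eq.2 h2
  refine ⟨IsAdicComplete.liftRingHom J F hF, fun r => ?_⟩
  apply eq_of_forall_pow J
  intro n
  rw [← Ideal.Quotient.eq, IsAdicComplete.mk_liftRingHom]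
  simp only [F, RingHom.comp_apply, RingHom.coe_coe, AdicCompletion.algebraMap_apply,
    AdicCompletion.evalₐ_of, Ideal.quotientMap_mk]
  erw [AdicCompletion.evalₐ_of]

/-- A complete `W`-algebra with finitely generated ideal of definition and residue ring a
quotient of the Noetherian ring `W` is Noetherian. -/
theorem noetherian_of_complete {W A : Type*} [CommRing W] [IsNoetherianRing W] [CommRing A]
    [Algebra W A] (m : Ideal A) (hfg : m.FG) [IsAdicComplete m A]
    (h : ∀ a, ∃ w : W, a - algebraMap W A w ∈ m) : IsNoetherianRing A := by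
  obtain ⟨n, b, hb⟩ := Submodule.fg_iff_exists_fin_generating_family.1 hfg
  let B := MvPolynomial (Fin n) W
  let θ : B →+* A := (MvPolynomial.aeval b : B →ₐ[W] A)
  let I : Ideal B := MvPolynomial.idealOfVars (Fin n) W
  have hθX : ∀ i, θ (MvPolynomial.X i) = b i := fun i => MvPolynomial.aeval_X b i
  have hmap : I.map θ = m := by
    rw [Ideal.map_span, ← hb]
    congr 1
    ext y
    constructor
    · rintro ⟨_, ⟨i, rfl⟩, rfl⟩
      exact ⟨i, (hθX i).symm⟩
    · rintro ⟨i, rfl⟩
      exact ⟨_, ⟨i, rfl⟩, hθX i⟩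
  obtain ⟨f, hf⟩ := lift_adic I m θ (Ideal.map_le_iff_le_comap.1 hmap.le)
  have hfg' : I.FG := MvPolynomial.idealOfVars_fg (Fin n) W
  have hS : IsNoetherianRing (AdicCompletion I B) :=
    isNoetherianRing_of_ringEquiv (MvPowerSeries (Fin n) W)
      (MvPowerSeries.toAdicCompletionAlgEquiv (Fin n) W).toRingEquiv
  have hc := AdicCompletion.isAdicComplete_self I hfg'
  let Î := I.map (algebraMap B (AdicCompletion I B))
  have hmap' : Î.map f = m := by
    rw [← hmap, Ideal.map_map]
    congr 1
    ext x <;> simp [hf]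
  have hprec : IsPrecomplete Î (AdicCompletion I B) := hc.toIsPrecomplete
  have hh : IsHausdorff (Î.map f) A := by rw [hmap']; infer_instance
  apply isNoetherianRing_of_surjective (AdicCompletion I B) A f
  apply surjective_of_mk_map_comp_surjective (I := Î) f
  intro y
  obtain ⟨a, rfl⟩ := Ideal.Quotient.mk_surjective y
  obtain ⟨w, hw⟩ := h a
  refine ⟨algebraMap B _ (MvPolynomial.C w), ?_⟩
  rw [RingHom.comp_apply, hf]
  symm
  rw [Ideal.Quotient.eq, hmap']
  have : θ (MvPolynomial.C w) = algebraMap W A w := MvPolynomial.aeval_C b w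
  rw [this]
  exact hw

/-- The free coefficient ring on elements with prescribed residues. -/
theorem exists_free {p : ℕ} [Fact p.Prime] {k : Type} [Field k] [Finite k] [CharP k p]
    {σ : Type} [Finite σ] (a : σ → k) :
    ∃ (P : CoeffRing p k) (x : σ → P.carrier), (∀ s, P.residue (x s) = a s) ∧
      (∀ (A : CoeffRing p k) (y : σ → A.carrier), (∀ s, A.residue (y s) = a s) →
        ∃ f : CoeffHom P A, ∀ s, f.toAlgHom (x s) = y s) ∧
      (∀ n (z : P.carrier), ∃ q : MvPolynomial σ (WittVector p k),
        z - MvPolynomial.aeval x q ∈ maximalIdeal P.carrier ^ n) := by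
  let W := WittVector p k
  let R0 := MvPolynomial σ W
  let ev : R0 →+* k := MvPolynomial.eval₂Hom (WittVector.constantCoeff : W →+* k) a
  have hevC : ∀ w : W, ev (MvPolynomial.C w) = w.coeff 0 := fun w =>
    MvPolynomial.eval₂Hom_C _ _ w
  have hevX : ∀ s, ev (MvPolynomial.X s) = a s := fun s => MvPolynomial.eval₂Hom_X' _ _ s
  have hevs : Function.Surjective ev := by
    intro c
    obtain ⟨w, hw⟩ := WittVector.constantCoeff_surjective p c
    exact ⟨MvPolynomial.C w, (hevC w).trans hw⟩
  let m0 : Ideal R0 := RingHom.ker ev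
  have hm0 : m0.IsMaximal := RingHom.ker_isMaximal_of_surjective ev hevs
  have hfg : m0.FG := IsNoetherian.noetherian m0
  let P0 := AdicCompletion m0 R0
  let mP : Ideal P0 := m0.map (algebraMap R0 P0)
  have hmax : mP.IsMaximal := AdicCompletion.isMaximal_map_of_le m0 m0 le_rfl hfg
  have hc : IsAdicComplete mP P0 := AdicCompletion.isAdicComplete_self m0 hfg
  have hloc : IsLocalRing P0 := isLocalRing_of_isAdicComplete_maximal mP
  have hmP : maximalIdeal P0 = mP := (IsLocalRing.eq_maximalIdeal hmax).symm
  let res : P0 →+* k := (RingHom.kerLift ev).comp (AdicCompletion.evalOneₐ m0).toRingHom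
  have hres : ∀ r : R0, res (algebraMap R0 P0 r) = ev r := fun r => rfl
  have hker : ∀ z, res z = 0 ↔ z ∈ mP := by
    intro z
    have hk : RingHom.ker (AdicCompletion.evalOneₐ m0).toRingHom = mP :=
      AdicCompletion.ker_evalOneₐ_eq_map m0 hfg
    rw [← hk, RingHom.mem_ker]
    constructor
    · intro hz
      exact (injective_iff_map_eq_zero _).1 (RingHom.kerLift_injective ev) _ hz
    · intro hz
      show RingHom.kerLift ev ((AdicCompletion.evalOneₐ m0).toRingHom z) = 0
      rw [hz, map_zero]
  have hW : ∀ w : W, res (algebraMap W P0 w) = w.coeff 0 := fun w => hevC w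
  have hnoeth : IsNoetherianRing P0 := by
    have hfg' : mP.FG := hfg.map _
    apply noetherian_of_complete (W := W) mP hfg'
    intro z
    obtain ⟨w, hw⟩ := WittVector.constantCoeff_surjective p (res z)
    refine ⟨w, ?_⟩
    rw [← hker, map_sub, hW, sub_eq_zero]
    exact hw.symm
  let P : CoeffRing p k :=
    { carrier := P0
      isAdicComplete := by rw [hmP]; exact hc
      residue := res
      residue_surjective := fun c => by
        obtain ⟨r, hr⟩ := hevs c
        exact ⟨algebraMap R0 P0 r, hr⟩
      residue_algebraMap := hW }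
  let x : σ → P.carrier := fun s => algebraMap R0 P0 (MvPolynomial.X s)
  have haev : ∀ q : R0, (MvPolynomial.aeval x q : P.carrier) = algebraMap R0 P0 q := by
    intro q
    have h1 : (MvPolynomial.aeval x : R0 →ₐ[W] P.carrier) = IsScalarTower.toAlgHom W R0 P0 := by
      apply MvPolynomial.algHom_ext
      intro s
      rw [MvPolynomial.aeval_X]
      rfl
    rw [h1]
    rfl
  refine ⟨P, x, fun s => hevX s, ?_, ?_⟩
  · intro A y hy
    let θ : R0 →ₐ[W] A.carrier := MvPolynomial.aeval y
    have hθ : A.residue.comp (θ : R0 →+* A.carrier) = ev := by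
      apply MvPolynomial.ringHom_ext
      · intro w
        rw [hevC, ← A.residue_algebraMap w]
        exact congrArg A.residue (MvPolynomial.aeval_C y w)
      · intro s
        rw [hevX, ← hy s]
        exact congrArg A.residue (MvPolynomial.aeval_X y s)
    have hle : m0 ≤ (maximalIdeal A.carrier).comap (θ : R0 →+* A.carrier) := by
      intro r hr
      rw [Ideal.mem_comap, A.mem_max]
      exact (RingHom.congr_fun hθ r).trans hr
    obtain ⟨f, hf⟩ := lift_adic m0 (maximalIdeal A.carrier) (θ : R0 →+* A.carrier) hle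
    have hfW : ∀ w : W, f (algebraMap W P0 w) = algebraMap W A.carrier w := by
      intro w
      have := hf (MvPolynomial.C w)
      exact this.trans (MvPolynomial.aeval_C y w)
    let f' : P.carrier →ₐ[W] A.carrier := { f with commutes' := hfW }
    have hres' : ∀ z, A.residue (f z) = P.residue z := by
      intro z
      obtain ⟨w, hw⟩ := WittVector.constantCoeff_surjective p (res z)
      have h1 : z - algebraMap W P0 w ∈ maximalIdeal P0 := by
        rw [hmP, ← hker, map_sub, hW, sub_eq_zero]
        exact hw.symm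
      have h2 : f (z - algebraMap W P0 w) ∈ maximalIdeal A.carrier := by
        rw [hmP] at h1
        have h3 : mP.map f ≤ maximalIdeal A.carrier := by
          rw [Ideal.map_map, Ideal.map_le_iff_le_comap]
          intro r hr
          rw [Ideal.mem_comap, RingHom.comp_apply, hf]
          exact hle hr
        exact h3 (Ideal.mem_map_of_mem f h1)
      rw [A.mem_max, map_sub, map_sub, hfW, A.residue_algebraMap, sub_eq_zero] at h2
      rw [h2]
      exact hw
    refine ⟨⟨f', hres'⟩, fun s => ?_⟩
    show f (algebraMap R0 P0 (MvPolynomial.X s)) = y s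
    rw [hf]
    exact MvPolynomial.aeval_X y s
  · intro n z
    obtain ⟨q, hq⟩ := Ideal.Quotient.mk_surjective (AdicCompletion.evalₐ m0 n z)
    refine ⟨q, ?_⟩
    rw [haev]
    have h1 : AdicCompletion.eval m0 R0 n (z - algebraMap R0 P0 q) = 0 := by
      have h2 : AdicCompletion.evalₐ m0 n (z - algebraMap R0 P0 q) = 0 := by
        rw [map_sub, ← hq, sub_eq_zero]
        exact (AdicCompletion.evalₐ_of m0 n q).symm
      have h3 : (m0 ^ n • ⊤ : Ideal R0) = m0 ^ n := by ext x; simp
      rw [← AdicCompletion.factor_evalₐ_eq_eval m0 _ h3.ge, h2, map_zero]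
    have h4 : z - algebraMap R0 P0 q ∈ (m0 ^ n • ⊤ : Submodule R0 P0) := by
      rw [AdicCompletion.pow_smul_top_eq_ker_eval hfg]
      exact h1
    rw [Ideal.smul_top_eq_map, Submodule.restrictScalars_mem, Ideal.map_pow] at h4
    show z - algebraMap R0 P0 q ∈ maximalIdeal P0 ^ n
    rw [hmP]
    exact h4

end Pool.Agent.Lib.MP_aa8fd2_nt.Mazur
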