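import Pool.Agent.Lib.MP_aa8fd2_nt.Deform

set_option autoImplicit false

/-! Basic facts on coefficient rings; quotients of coefficient rings. -/

namespace Pool.Agent.Lib.MP_aa8fd2_nt.Mazur

open IsLocalRing

variable {p : ℕ} [Fact p.Prime] {k : Type} [Field k]

theorem CoeffRing.ker_residue (A : CoeffRing p k) :
    RingHom.ker A.residue = maximalIdeal A.carrier :=
  IsLocalRing.eq_maximalIdeal (RingHom.ker_isMaximal_of_surjective _ A.residue_surjective)

theorem CoeffRing.mem_max (A : CoeffRing p k) {a : A.carrier} :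
    a ∈ maximalIdeal A.carrier ↔ A.residue a = 0 := by
  rw [← A.ker_residue, RingHom.mem_ker]

theorem CoeffRing.isUnit_iff (A : CoeffRing p k) {a : A.carrier} :
    IsUnit a ↔ A.residue a ≠ 0 := by
  rw [Ne, ← A.mem_max, IsLocalRing.mem_maximalIdeal, mem_nonunits_iff, not_not]

theorem CoeffRing.finite_quot [Finite k] (A : CoeffRing p k) (n : ℕ) :
    Finite (A.carrier ⧸ maximalIdeal A.carrier ^ n) := by
  have : Finite (A.carrier ⧸ maximalIdeal A.carrier) := by
    rw [← A.ker_residue]
    exact Finite.of_equiv k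
      (RingHom.quotientKerEquivOfSurjective A.residue_surjective).toEquiv.symm
  exact Ideal.finite_quotient_pow (IsNoetherian.noetherian _) n

theorem CoeffHom.map_max {A B : CoeffRing p k} (f : CoeffHom A B) :
    maximalIdeal A.carrier ≤ (maximalIdeal B.carrier).comap (f.toAlgHom : A.carrier →+* B.carrier) := by
  intro a ha
  rw [A.mem_max] at ha
  rw [Ideal.mem_comap, B.mem_max]
  exact (f.residue_comp a).trans ha

theorem CoeffHom.map_max_pow {A B : CoeffRing p k} (f : CoeffHom A B) (n : ℕ) {a : A.carrier}
    (ha : a ∈ maximalIdeal A.carrier ^ n) : f.toAlgHom a ∈ maximalIdeal B.carrier ^ n := by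
  have h1 := Ideal.pow_right_mono f.map_max n
  exact Ideal.le_comap_pow (f.toAlgHom : A.carrier →+* B.carrier) n (h1 ha)

theorem CoeffHom.ext' {A B : CoeffRing p k} {f g : CoeffHom A B}
    (h : ∀ a, f.toAlgHom a = g.toAlgHom a) : f = g := by
  cases f; cases g
  congr
  exact AlgHom.ext h

/-- Precompleteness passes to quotients. -/
theorem isPrecomplete_of_surjective {R : Type*} [CommRing R] (I : Ideal R) {M N : Type*}
    [AddCommGroup M] [Module R M] [AddCommGroup N] [Module R N] (f : M →ₗ[R] N)
    (hf : Function.Surjective f) [IsPrecomplete I M] : IsPrecomplete I N := by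
  rw [← AdicCompletion.of_surjective_iff]
  intro y
  obtain ⟨z, rfl⟩ := AdicCompletion.map_surjective I hf y
  obtain ⟨x, rfl⟩ := AdicCompletion.of_surjective I M z
  exact ⟨f x, (AdicCompletion.map_of I f x).symm⟩

theorem quot_isAdicComplete {R : Type*} [CommRing R] [IsLocalRing R] [IsNoetherianRing R]
    [IsAdicComplete (maximalIdeal R) R] (I : Ideal R) [IsLocalRing (R ⧸ I)] :
    IsAdicComplete (maximalIdeal (R ⧸ I)) (R ⧸ I) := by
  have h1 : maximalIdeal (R ⧸ I) = (maximalIdeal R).map (algebraMap R (R ⧸ I)) := by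
    have h2 : ((maximalIdeal R).map (Ideal.Quotient.mk I)).IsMaximal := by
      have h3 := Ideal.map_eq_top_or_isMaximal_of_surjective (Ideal.Quotient.mk I)
        Ideal.Quotient.mk_surjective (IsLocalRing.maximalIdeal.isMaximal R)
      rcases h3 with h3 | h3
      · exfalso
        have h4 : (1 : R ⧸ I) ∈ (maximalIdeal R).map (Ideal.Quotient.mk I) := by
          rw [h3]; exact Submodule.mem_top
        rw [Ideal.mem_map_iff_of_surjective _ Ideal.Quotient.mk_surjective] at h4
        obtain ⟨x, hx, hx1⟩ := h4
        have h5 : IsUnit (1 - x) := by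
          by_contra hu
          have : (1 : R) ∈ maximalIdeal R := by
            have := Ideal.add_mem _ hx ((IsLocalRing.mem_maximalIdeal _).2 hu)
            simp at this
          exact (maximalIdeal R).ne_top_iff_one.1 (Ideal.IsPrime.ne_top inferInstance) this
        have h6 : (Ideal.Quotient.mk I) (1 - x) = 0 := by rw [map_sub, hx1, map_one, sub_self]
        have h7 := h5.map (Ideal.Quotient.mk I)
        rw [h6] at h7
        exact not_isUnit_zero h7
      · exact h3
    exact (IsLocalRing.eq_maximalIdeal h2).symm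
  have hprec : IsPrecomplete (maximalIdeal R) (R ⧸ I) :=
    isPrecomplete_of_surjective (maximalIdeal R) (Submodule.mkQ I) (Submodule.mkQ_surjective I)
  have hc : IsAdicComplete (maximalIdeal R) (R ⧸ I) := { }
  rw [h1]
  exact (IsAdicComplete.map_algebraMap_iff _ _).2 hc

/-- The quotient of a coefficient ring by a proper ideal. -/
noncomputable def CoeffRing.quot (A : CoeffRing p k) (I : Ideal A.carrier)
    (hI : I ≤ maximalIdeal A.carrier) : CoeffRing p k :=
  have hnt : Nontrivial (A.carrier ⧸ I) :=
    Ideal.Quotient.nontrivial_iff.2 (fun h => Ideal.IsPrime.ne_top inferInstance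
      (top_le_iff.1 (h ▸ hI)))
  have hl : IsLocalRing (A.carrier ⧸ I) :=
    IsLocalRing.of_surjective' (Ideal.Quotient.mk I) Ideal.Quotient.mk_surjective
  { carrier := A.carrier ⧸ I
    isLocalRing := hl
    isAdicComplete := quot_isAdicComplete I
    residue := Ideal.Quotient.lift I A.residue (fun _ ha => A.mem_max.1 (hI ha))
    residue_surjective := by
      intro x
      obtain ⟨a, rfl⟩ := A.residue_surjective x
      exact ⟨Ideal.Quotient.mk I a, Ideal.Quotient.lift_mk _ _ _⟩
    residue_algebraMap := fun x => A.residue_algebraMap x }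

/-- The projection to the quotient. -/
noncomputable def CoeffRing.toQuot (A : CoeffRing p k) (I : Ideal A.carrier)
    (hI : I ≤ maximalIdeal A.carrier) : CoeffHom A (A.quot I hI) where
  toAlgHom := Ideal.Quotient.mkₐ (WittVector p k) I
  residue_comp _ := rfl

theorem CoeffRing.toQuot_surjective (A : CoeffRing p k) (I : Ideal A.carrier)
    (hI : I ≤ maximalIdeal A.carrier) : Function.Surjective (A.toQuot I hI).toAlgHom :=
  Ideal.Quotient.mk_surjective

theorem CoeffRing.toQuot_eq_zero (A : CoeffRing p k) (I : Ideal A.carrier)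
    (hI : I ≤ maximalIdeal A.carrier) {a : A.carrier} : (A.toQuot I hI).toAlgHom a = 0 ↔ a ∈ I :=
  Ideal.Quotient.eq_zero_iff_mem

end Pool.Agent.Lib.MP_aa8fd2_nt.Mazur
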