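import Mathlib

set_option autoImplicit false

/-!
Definitions for the statement of Mazur's dimension conjecture (deformation rings of absolutely
irreducible representations of `G_{F,S}`).
-/

namespace Pool.Agent.Lib.MP_aa8fd2_nt.Mazur

open NumberField IsDedekindDomain

section GaloisGroup

variable (F : Type) [Field F] [NumberField F]

/-- The extension `E/F` inside the algebraic closure of `F` is unramified at every nonzero prime
of `E` lying above a finite place of `F` outside `S`. -/
def UnramifiedOutside (S : Finset (HeightOneSpectrum (𝓞 F)))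
    (E : IntermediateField F (AlgebraicClosure F)) : Prop :=
  ∀ Q : Ideal (𝓞 E), ∀ _ : Q.IsPrime, Q ≠ ⊥ →
    (∀ v ∈ S, Q.comap (algebraMap (𝓞 F) (𝓞 E)) ≠ v.asIdeal) →
      Algebra.IsUnramifiedAt (𝓞 F) Q

/-- `F_S`: the maximal extension of `F` inside its algebraic closure which is unramified outside
the finite places in `S` and the archimedean places: the compositum of all finite extensions
with this property. -/
noncomputable def maxExt (S : Finset (HeightOneSpectrum (𝓞 F))) :
    IntermediateField F (AlgebraicClosure F) :=
  sSup {E | FiniteDimensional F E ∧ UnramifiedOutside F S E}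

/-- `G_{F,S} = Gal(F_S/F)`, with its Krull topology. -/
abbrev GFS (S : Finset (HeightOneSpectrum (𝓞 F))) : Type :=
  maxExt F S ≃ₐ[F] maxExt F S

end GaloisGroup

section Coefficients

/-- A complete Noetherian local `W(k)`-algebra with residue field `k`. -/
structure CoeffRing (p : ℕ) [Fact p.Prime] (k : Type) [Field k] where
  /-- the underlying ring -/
  carrier : Type
  [commRing : CommRing carrier]
  [algebra : Algebra (WittVector p k) carrier]
  [isLocalRing : IsLocalRing carrier]
  [isNoetherianRing : IsNoetherianRing carrier]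
  [isAdicComplete : IsAdicComplete (IsLocalRing.maximalIdeal carrier) carrier]
  /-- the identification of the residue field with `k`, as a surjection onto `k` -/
  residue : carrier →+* k
  residue_surjective : Function.Surjective residue
  residue_algebraMap : ∀ x : WittVector p k, residue (algebraMap _ carrier x) = x.coeff 0

attribute [instance] CoeffRing.commRing CoeffRing.algebra CoeffRing.isLocalRing
  CoeffRing.isNoetherianRing CoeffRing.isAdicComplete

variable {p : ℕ} [Fact p.Prime] {k : Type} [Field k]

/-- Morphisms of coefficient rings: `W(k)`-algebra homomorphisms inducing the identity on the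
residue field `k` (in particular local). -/
structure CoeffHom (A B : CoeffRing p k) where
  /-- the underlying homomorphism -/
  toAlgHom : A.carrier →ₐ[WittVector p k] B.carrier
  residue_comp : ∀ a, B.residue (toAlgHom a) = A.residue a

end Coefficients

section Deformations

variable {p : ℕ} [Fact p.Prime] {k : Type} [Field k] {G : Type} [Group G] [TopologicalSpace G]
  {n : ℕ}

/-- `ρ` is absolutely irreducible: over every extension field `K` of `k` there are no
nontrivial stable subspaces. -/
def AbsIrred (ρ : G →* GL (Fin n) k) : Prop :=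
  ∀ (K : Type) [Field K] [Algebra k K] (W : Submodule K (Fin n → K)),
    (∀ g : G, ∀ w ∈ W, ((ρ g : Matrix (Fin n) (Fin n) k).map (algebraMap k K)).mulVec w ∈ W) →
      W = ⊥ ∨ W = ⊤

/-- A homomorphism `ρ : G → GL_n(A)` is continuous for the topology on `GL_n(A)` given by the
powers of the maximal ideal of `A`. -/
def IsAdicContinuous (A : CoeffRing p k) (ρ : G →* GL (Fin n) A.carrier) : Prop :=
  ∀ m : ℕ, IsOpen {g : G | ∀ i j,
    (ρ g : Matrix (Fin n) (Fin n) A.carrier) i j - (1 : Matrix (Fin n) (Fin n) A.carrier) i j ∈
      IsLocalRing.maximalIdeal A.carrier ^ m}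

/-- `ρ` is a continuous lift of `ρbar` to `A`. -/
structure IsLift (ρbar : G →* GL (Fin n) k) (A : CoeffRing p k)
    (ρ : G →* GL (Fin n) A.carrier) : Prop where
  continuous : IsAdicContinuous A ρ
  reduces : ∀ g, Matrix.GeneralLinearGroup.map A.residue (ρ g) = ρbar g

/-- Two homomorphisms to `GL_n(A)` are strictly equivalent: conjugate by a matrix which reduces
to the identity modulo the maximal ideal. -/
def StrictEquiv (A : CoeffRing p k) (ρ ρ' : G →* GL (Fin n) A.carrier) : Prop :=
  ∃ γ : GL (Fin n) A.carrier, Matrix.GeneralLinearGroup.map A.residue γ = 1 ∧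
    ∀ g, ρ' g = γ * ρ g * γ⁻¹

/-- `R` with the lift `ρu` of `ρbar` represents the functor of deformations of `ρbar`
(a deformation to `A` is a strict equivalence class of continuous lifts to `A`):
every lift to any `A` is strictly equivalent to the push-forward of `ρu` along a unique
morphism `R → A`. -/
def IsUniversal (ρbar : G →* GL (Fin n) k) (R : CoeffRing p k)
    (ρu : G →* GL (Fin n) R.carrier) : Prop :=
  IsLift ρbar R ρu ∧
  ∀ (A : CoeffRing p k) (ρ : G →* GL (Fin n) A.carrier), IsLift ρbar A ρ →
    ∃! f : CoeffHom R A, StrictEquiv A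
      ((Matrix.GeneralLinearGroup.map (n := Fin n)
        (f.toAlgHom : R.carrier →+* A.carrier)).comp ρu) ρ

end Deformations

section Conjecture

variable {F : Type} [Field F] [NumberField F] {S : Finset (HeightOneSpectrum (𝓞 F))}
  {k : Type} [Field k] {n : ℕ}

/-- A chosen place of `F_S` above the archimedean place `v` of `F`. -/
noncomputable def placeAbove (S : Finset (HeightOneSpectrum (𝓞 F))) (v : InfinitePlace F) :
    InfinitePlace (maxExt F S) :=
  Function.surjInv (InfinitePlace.comap_surjective (k := F) (K := maxExt F S)) v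

/-- The decomposition group in `G_{F,S}` of the archimedean place `v` of `F`
(the stabilizer of a place of `F_S` above `v`). -/
noncomputable def decompGroup (S : Finset (HeightOneSpectrum (𝓞 F))) (v : InfinitePlace F) :
    Subgroup (GFS F S) :=
  MulAction.stabilizer (GFS F S) (placeAbove S v)

/-- `H^0(G_v, Ad^0(ρbar))`: the trace zero matrices commuting with `ρbar(G_v)`. -/
def adZeroInvariants (ρbar : GFS F S →* GL (Fin n) k) (D : Subgroup (GFS F S)) :
    Submodule k (Matrix (Fin n) (Fin n) k) where
  carrier := {X | X.trace = 0 ∧ ∀ g ∈ D, (ρbar g : Matrix (Fin n) (Fin n) k) * X =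
    X * (ρbar g : Matrix (Fin n) (Fin n) k)}
  add_mem' := by
    rintro X Y ⟨hX, hX'⟩ ⟨hY, hY'⟩
    refine ⟨by rw [Matrix.trace_add, hX, hY, add_zero], fun g hg => ?_⟩
    rw [mul_add, add_mul, hX' g hg, hY' g hg]
  zero_mem' := ⟨Matrix.trace_zero _ _, fun g _ => by rw [mul_zero, zero_mul]⟩
  smul_mem' := by
    rintro a X ⟨hX, hX'⟩
    refine ⟨by rw [Matrix.trace_smul, hX, smul_zero], fun g hg => ?_⟩
    rw [Matrix.mul_smul, Matrix.smul_mul, hX' g hg]

/-- `δ(ρbar) = (1 + r_2) + (n^2 - 1) [F : ℚ] - ∑_{v ∣ ∞} dim_k H^0(G_v, Ad^0(ρbar))`. -/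
noncomputable def delta (ρbar : GFS F S →* GL (Fin n) k) : ℤ :=
  (1 + (InfinitePlace.nrComplexPlaces F : ℤ)) + ((n : ℤ) ^ 2 - 1) * (Module.finrank ℚ F : ℤ)
    - ∑ v : InfinitePlace F, (Module.finrank k (adZeroInvariants ρbar (decompGroup S v)) : ℤ)

/-- Mazur's dimension conjecture: for every number field `F`, every `n ≥ 1`, every prime `p`
not dividing `n`, every finite set `S` of places of `F` containing the places above `p` and the
archimedean places, every finite field `k` of characteristic `p` and every continuous absolutely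
irreducible `ρbar : G_{F,S} → GL_n(k)`, the universal deformation ring `R` of `ρbar` is flat over
`W(k)` and its relative dimension (the Krull dimension of `R/pR`) is `δ(ρbar)`. -/
def DimensionConjecture : Prop :=
  ∀ (F : Type) [Field F] [NumberField F] (n p : ℕ) [Fact p.Prime] (k : Type) [Field k] [Finite k]
    [CharP k p] (S : Finset (HeightOneSpectrum (𝓞 F))) (ρbar : GFS F S →* GL (Fin n) k),
    1 ≤ n → Nat.Coprime p n →
    (∀ v : HeightOneSpectrum (𝓞 F), (p : 𝓞 F) ∈ v.asIdeal → v ∈ S) →
    (∀ a : GL (Fin n) k, IsOpen (ρbar ⁻¹' {a})) → AbsIrred ρbar →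
    ∀ (R : CoeffRing p k) (ρu : GFS F S →* GL (Fin n) R.carrier), IsUniversal ρbar R ρu →
      Module.Flat (WittVector p k) R.carrier ∧
      ∃ d : ℕ, ringKrullDim (R.carrier ⧸ Ideal.span {(p : R.carrier)}) = d ∧ (d : ℤ) = delta ρbar

end Conjecture

end Pool.Agent.Lib.MP_aa8fd2_nt.Mazur
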