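import Mathlib

/-!
Divisors of elements of the fraction field of a Dedekind domain, away from a set of primes.
-/

namespace Pool.Agent.Lib.MP_aa8fd2_nt

open IsDedekindDomain HeightOneSpectrum nonZeroDivisors WithZero

variable {R : Type*} [CommRing R] [IsDedekindDomain R] {K : Type*} [Field K]
  [Algebra R K] [IsFractionRing R K]

/-- The additive valuation of a nonzero element. -/
noncomputable def ord (v : HeightOneSpectrum R) (x : Kˣ) : ℤ :=
  -(Multiplicative.toAdd (v.valuationOfNeZero x))

lemma valuation_eq_exp_neg_ord (v : HeightOneSpectrum R) (x : Kˣ) :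
    v.valuation K (x : K) = exp (-(ord v x)) := by
  rw [← valuationOfNeZero_eq, ord, neg_neg]
  rfl

lemma ord_one (v : HeightOneSpectrum R) : ord v (1 : Kˣ) = 0 := by simp [ord]

lemma ord_mul (v : HeightOneSpectrum R) (x y : Kˣ) : ord v (x * y) = ord v x + ord v y := by
  simp [ord]; ring

lemma ord_inv (v : HeightOneSpectrum R) (x : Kˣ) : ord v (x⁻¹) = - ord v x := by
  simp [ord]

lemma ord_pow (v : HeightOneSpectrum R) (x : Kˣ) (n : ℕ) : ord v (x ^ n) = n * ord v x := by
  simp [ord]

lemma ord_eq_zero_iff (v : HeightOneSpectrum R) (x : Kˣ) :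
    ord v x = 0 ↔ v.valuation K (x : K) = 1 := by
  rw [valuation_eq_exp_neg_ord]
  constructor
  · intro h; simp [h]
  · intro h
    have : exp (-(ord v x)) = exp (0 : ℤ) := by simpa using h
    rw [exp_inj] at this
    omega

lemma ord_algebraMap (v : HeightOneSpectrum R) (r : R) (hr : r ≠ 0)
    (x : Kˣ) (hx : (x : K) = algebraMap R K r) :
    ord v x = (Associates.mk v.asIdeal).count (Associates.mk (Ideal.span {r})).factors := by
  have h1 := valuation_eq_exp_neg_ord v x
  rw [hx, valuation_of_algebraMap, intValuation_if_neg _ hr, exp_inj] at h1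
  omega

lemma count_spanSingleton (v : HeightOneSpectrum R) (x : Kˣ) :
    FractionalIdeal.count K v (FractionalIdeal.spanSingleton R⁰ (x : K)) = ord v x := by
  obtain ⟨a, b, hb, hab⟩ := IsFractionRing.div_surjective (A := R) (x : K)
  have hb0 : b ≠ 0 := nonZeroDivisors.ne_zero hb
  have hbK : algebraMap R K b ≠ 0 := by simpa using hb0
  have ha0 : a ≠ 0 := by
    rintro rfl
    rw [map_zero, zero_div] at hab
    exact x.ne_zero hab.symm
  have haK : algebraMap R K a ≠ 0 := by simpa using ha0
  have hx : x * Units.mk0 _ hbK = Units.mk0 _ haK := by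
    ext
    simp only [Units.val_mul, Units.val_mk0]
    rw [← hab, div_mul_cancel₀ _ hbK]
  have h1 : ord v x + ord v (Units.mk0 _ hbK) = ord v (Units.mk0 _ haK) := by
    rw [← ord_mul, hx]
  rw [ord_algebraMap v b hb0 (Units.mk0 _ hbK) rfl, ord_algebraMap v a ha0 (Units.mk0 _ haK) rfl] at h1
  have h2 : FractionalIdeal.spanSingleton R⁰ (x : K) *
      ((Ideal.span {b} : Ideal R) : FractionalIdeal R⁰ K) =
      ((Ideal.span {a} : Ideal R) : FractionalIdeal R⁰ K) := by
    rw [FractionalIdeal.coeIdeal_span_singleton, FractionalIdeal.coeIdeal_span_singleton,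
      FractionalIdeal.spanSingleton_mul_spanSingleton, ← hab, div_mul_cancel₀ _ hbK]
  have h3 := congrArg (FractionalIdeal.count K v) h2
  have hne : ∀ c : R, c ≠ 0 → ((Ideal.span {c} : Ideal R) : FractionalIdeal R⁰ K) ≠ 0 := by
    intro c hc
    rw [Ne, FractionalIdeal.coeIdeal_eq_zero, Ideal.span_singleton_eq_bot]
    exact hc
  have hxne : FractionalIdeal.spanSingleton R⁰ (x : K) ≠ 0 := by
    rw [Ne, FractionalIdeal.spanSingleton_eq_zero_iff]
    exact x.ne_zero
  rw [FractionalIdeal.count_mul K v hxne (hne b hb0),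
    FractionalIdeal.count_coe K v (by simpa using hb0),
    FractionalIdeal.count_coe K v (by simpa using ha0)] at h3
  omega

lemma finite_ord_ne_zero (x : Kˣ) : {v : HeightOneSpectrum R | ord v x ≠ 0}.Finite := by
  have h := FractionalIdeal.finite_factors (FractionalIdeal.spanSingleton R⁰ (x : K))
  refine Set.Finite.subset h ?_
  intro v hv
  simpa [count_spanSingleton] using hv

/-- The group of divisors supported away from `S`. -/
abbrev DivG (S : Set (HeightOneSpectrum R)) := Multiplicative ({v // v ∉ S} →₀ ℤ)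

/-- The divisor of an element away from `S`. -/
noncomputable def dv (S : Set (HeightOneSpectrum R)) : Kˣ →* DivG S where
  toFun x := Multiplicative.ofAdd (Finsupp.ofSupportFinite (fun v => ord v.1 x)
    ((finite_ord_ne_zero x).preimage (Subtype.val_injective.injOn)))
  map_one' := by
    apply Multiplicative.toAdd.injective
    ext v
    simp [Finsupp.ofSupportFinite, ord_one]
  map_mul' x y := by
    apply Multiplicative.toAdd.injective
    ext v
    exact ord_mul v.1 x y

lemma dv_apply (S : Set (HeightOneSpectrum R)) (x : Kˣ) (v : {v // v ∉ S}) :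
    Multiplicative.toAdd (dv S x) v = ord v.1 x := rfl

lemma dv_eq_one_iff (S : Set (HeightOneSpectrum R)) (x : Kˣ) :
    dv S x = 1 ↔ ∀ v, v ∉ S → ord v x = 0 := by
  constructor
  · intro h v hv
    rw [← dv_apply S x ⟨v, hv⟩, h]; rfl
  · intro h
    apply Multiplicative.toAdd.injective
    ext v
    rw [dv_apply, h v.1 v.2]; rfl

/-- finiteness of the class group: a fixed power of each divisor is principal -/
lemma exists_ord_eq_mul [Finite (ClassGroup R)] (f : HeightOneSpectrum R →₀ ℤ) :
    ∃ x : Kˣ, ∀ v, ord v x = Nat.card (ClassGroup R) * f v := by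
  classical
  set n := Nat.card (ClassGroup R)
  set J : FractionalIdeal R⁰ K :=
    f.prod (fun v e => (v.asIdeal : FractionalIdeal R⁰ K) ^ e) with hJ
  have hJ0 : J ≠ 0 := by
    rw [hJ]
    unfold Finsupp.prod
    rw [Finset.prod_ne_zero_iff]
    intro v _
    exact zpow_ne_zero _ (FractionalIdeal.coeIdeal_ne_zero.2 v.ne_bot)
  have hcount : ∀ v, FractionalIdeal.count K v J = f v := by
    intro v
    exact FractionalIdeal.count_finsuppProd K v f
  have h1 : (ClassGroup.mk K (Units.mk0 J hJ0)) ^ n = 1 := pow_card_eq_one'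
  rw [← map_pow, ClassGroup.mk_eq_one_iff] at h1
  obtain ⟨x, hx⟩ := h1.principal
  have hx' : J ^ n = FractionalIdeal.spanSingleton R⁰ x := by
    apply FractionalIdeal.coeToSubmodule_injective
    show ((J ^ n : FractionalIdeal R⁰ K) : Submodule R K) =
      ((FractionalIdeal.spanSingleton R⁰ x : FractionalIdeal R⁰ K) : Submodule R K)
    rw [FractionalIdeal.coe_spanSingleton]
    rw [← hx]
    simp
  have hx0 : x ≠ 0 := by
    rintro rfl
    rw [FractionalIdeal.spanSingleton_zero] at hx'
    exact pow_ne_zero n hJ0 hx'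
  refine ⟨Units.mk0 x hx0, fun v => ?_⟩
  rw [← count_spanSingleton, Units.val_mk0, ← hx', FractionalIdeal.count_pow, hcount]

lemma exists_pow_principal [Finite (ClassGroup R)] (S : Set (HeightOneSpectrum R)) (D : DivG S) :
    ∃ x : Kˣ, dv S x = D ^ Nat.card (ClassGroup R) := by
  classical
  obtain ⟨x, hx⟩ := exists_ord_eq_mul (K := K) ((Multiplicative.toAdd D).mapDomain Subtype.val)
  refine ⟨x, ?_⟩
  apply Multiplicative.toAdd.injective
  ext v
  rw [dv_apply, hx, Finsupp.mapDomain_apply Subtype.val_injective, toAdd_pow]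
  simp

end Pool.Agent.Lib.MP_aa8fd2_nt
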