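import Mathlib

set_option autoImplicit false
set_option linter.unusedSectionVars false

/-! The explicit elements generating the field cut out by the residual representation. -/

namespace Pool.Agent.Lib.MP_aa8fd2_nt

/-- The basic data: `φ` the golden ratio, `ζ` a primitive ninth root of unity and
`t ^ 9 = 8 (√5 + √-3)`. -/
structure Dat {Ω : Type*} [Field Ω] (φ ζ t : Ω) : Prop where
  hφ : φ ^ 2 = φ + 1
  hζ : IsPrimitiveRoot ζ 9
  ht : t ^ 9 = 8 * ((2 * φ - 1) + (2 * ζ ^ 3 + 1))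

/-- `x + 2 / x` -/
def cc {Ω : Type*} [Field Ω] (x : Ω) : Ω := x + 2 * x⁻¹

/-- `ζ ^ k` for `k` modulo 9 -/
def ee {Ω : Type*} [Field Ω] (ζ : Ω) (k : ZMod 9) : Ω := ζ ^ k.val

/-- the generators of the field of degree 27 -/
def zz {Ω : Type*} [Field Ω] (ζ t : Ω) (k : ZMod 9) : Ω := cc (ee ζ k * t)

/-- the generators of the field of degree 9 -/
def yy {Ω : Type*} [Field Ω] (ζ t : Ω) (k : ZMod 9) : Ω := cc (ee ζ k * (t ^ 3 / 2))

/-- the multipliers 1, 7, 4 -/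
def mu (e : ZMod 3) : ZMod 9 := if e = 0 then 1 else if e = 1 then 7 else 4

lemma mu_add : ∀ e e' : ZMod 3, mu (e + e') = mu e * mu e' := by decide

lemma mu_zero : mu 0 = 1 := by decide

lemma mu_injective : ∀ e e' : ZMod 3, mu e = mu e' → e = e' := by decide

section

variable {Ω : Type*} [Field Ω]

lemma cc_two_div {x : Ω} (hx : x ≠ 0) (h2 : (2 : Ω) ≠ 0) : cc (2 * x⁻¹) = cc x := by
  unfold cc
  field_simp
  ring

end

namespace Dat

variable {Ω : Type*} [Field Ω] [CharZero Ω] {φ ζ t : Ω} (D : Dat φ ζ t)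

include D

lemma ee_add (a b : ZMod 9) : ee ζ (a + b) = ee ζ a * ee ζ b := by
  unfold ee
  rw [← pow_add, ZMod.val_add]
  have h := pow_mod_orderOf ζ (a.val + b.val)
  rw [← D.hζ.eq_orderOf] at h
  exact h

lemma ee_zero : ee ζ 0 = 1 := by unfold ee; simp

lemma ee_one : ee ζ 1 = ζ := by
  unfold ee
  have : (1 : ZMod 9).val = 1 := by decide
  rw [this, pow_one]

lemma ee_natCast (n : ℕ) : ee ζ (n : ZMod 9) = ζ ^ n := by
  unfold ee
  rw [ZMod.val_natCast]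
  have h := pow_mod_orderOf ζ n
  rw [← D.hζ.eq_orderOf] at h
  exact h

lemma ee_ne (a : ZMod 9) : ee ζ a ≠ 0 := pow_ne_zero _ (D.hζ.ne_zero (by norm_num))

lemma ee_neg (a : ZMod 9) : ee ζ (-a) = (ee ζ a)⁻¹ := by
  have : ee ζ (-a) * ee ζ a = 1 := by rw [← D.ee_add, neg_add_cancel, D.ee_zero]
  exact eq_inv_of_mul_eq_one_left this

lemma ee_pow (a : ZMod 9) (n : ℕ) : ee ζ a ^ n = ee ζ (n * a) := by
  induction n with
  | zero => simp [D.ee_zero]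
  | succ n ih => rw [pow_succ, ih, ← D.ee_add]; push_cast; ring_nf

lemma ee_nine (a : ZMod 9) : ee ζ a ^ 9 = 1 := by
  rw [D.ee_pow]
  have : ((9 : ℕ) : ZMod 9) = 0 := by decide
  rw [this, zero_mul, D.ee_zero]

lemma ee_inj {a b : ZMod 9} (h : ee ζ a = ee ζ b) : a = b := by
  have h1 := D.hζ.pow_inj (ZMod.val_lt a) (ZMod.val_lt b) h
  exact ZMod.val_injective 9 h1

lemma exists_ee {x : Ω} (h : x ^ 9 = 1) : ∃ a : ZMod 9, x = ee ζ a := by
  obtain ⟨i, hi, rfl⟩ := D.hζ.eq_pow_of_pow_eq_one h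
  exact ⟨(i : ZMod 9), (D.ee_natCast i).symm⟩

lemma omega : ζ ^ 6 + ζ ^ 3 + 1 = 0 := by
  have h1 : ζ ^ 9 = 1 := D.hζ.pow_eq_one
  have h2 : ζ ^ 3 ≠ 1 := fun h => by
    have := D.hζ.dvd_of_pow_eq_one 3 h
    omega
  have h3 : (ζ ^ 3 - 1) * (ζ ^ 6 + ζ ^ 3 + 1) = 0 := by ring_nf; rw [h1]; ring
  exact (mul_eq_zero.1 h3).resolve_left (sub_ne_zero.2 h2)

/-- `√5` -/
lemma s5_sq : (2 * φ - 1) ^ 2 = 5 := by linear_combination 4 * D.hφ

lemma s3_sq : (2 * ζ ^ 3 + 1) ^ 2 = -3 := by linear_combination 4 * D.omega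

lemma v_sq : ((2 * φ - 1) * (2 * ζ ^ 3 + 1)) ^ 2 = -15 := by
  rw [mul_pow, D.s5_sq, D.s3_sq]; norm_num

lemma t_ne : t ≠ 0 := by
  intro h
  have h1 := D.ht
  rw [h] at h1
  have h2 : (2 * φ - 1) = - (2 * ζ ^ 3 + 1) := by
    have : (8 : Ω) ≠ 0 := by norm_num
    have h3 : (8 : Ω) * ((2 * φ - 1) + (2 * ζ ^ 3 + 1)) = 0 := by rw [← h1]; simp
    have := (mul_eq_zero.1 h3).resolve_left this
    linear_combination this
  have h3 := D.s5_sq
  rw [h2, neg_sq, D.s3_sq] at h3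
  norm_num at h3

lemma t'_pow : (2 * t⁻¹) ^ 9 = 8 * ((2 * φ - 1) - (2 * ζ ^ 3 + 1)) := by
  have h1 : t ^ 9 * (8 * ((2 * φ - 1) - (2 * ζ ^ 3 + 1))) = 512 := by
    rw [D.ht]
    linear_combination 64 * D.s5_sq - 64 * D.s3_sq
  have h2 : t ^ 9 ≠ 0 := pow_ne_zero _ D.t_ne
  have h3 : (2 * t⁻¹) ^ 9 = 512 * (t ^ 9)⁻¹ := by rw [mul_pow, inv_pow]; norm_num
  rw [h3, ← h1, mul_right_comm, mul_inv_cancel₀ h2, one_mul]

lemma t_18 : t ^ 18 = 128 * (1 + (2 * φ - 1) * (2 * ζ ^ 3 + 1)) := by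
  have : t ^ 18 = (t ^ 9) ^ 2 := by ring
  rw [this, D.ht]
  linear_combination 64 * D.s5_sq + 64 * D.s3_sq

lemma cc_eq {x y : Ω} (hx : x ≠ 0) (hy : y ≠ 0) (h : cc x = cc y) : x = y ∨ x * y = 2 := by
  unfold cc at h
  field_simp at h
  have : (x - y) * (x * y - 2) = 0 := by linear_combination h
  rcases mul_eq_zero.1 this with h | h
  · exact Or.inl (sub_eq_zero.1 h)
  · exact Or.inr (sub_eq_zero.1 h)

lemma zz_inj {i j : ZMod 9} (h : zz ζ t i = zz ζ t j) : i = j := by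
  rcases D.cc_eq (mul_ne_zero (D.ee_ne i) D.t_ne) (mul_ne_zero (D.ee_ne j) D.t_ne) h with h | h
  · exact D.ee_inj (mul_right_cancel₀ D.t_ne h)
  · exfalso
    have h1 : (ee ζ i * t * (ee ζ j * t)) ^ 9 = 512 := by rw [h]; norm_num
    have h2 : (ee ζ i * t * (ee ζ j * t)) ^ 9 = ee ζ i ^ 9 * ee ζ j ^ 9 * t ^ 18 := by ring
    rw [h2, D.ee_nine, D.ee_nine, D.t_18] at h1
    have h3 : (2 * φ - 1) * (2 * ζ ^ 3 + 1) = 3 := by linear_combination h1 / 128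
    have h4 := D.v_sq
    rw [h3] at h4
    norm_num at h4

lemma yy_inj {i j : ZMod 9} (h : yy ζ t i = yy ζ t j) : i = j := by
  have hu : t ^ 3 / 2 ≠ 0 := div_ne_zero (pow_ne_zero _ D.t_ne) (by norm_num)
  rcases D.cc_eq (mul_ne_zero (D.ee_ne i) hu) (mul_ne_zero (D.ee_ne j) hu) h with h | h
  · exact D.ee_inj (mul_right_cancel₀ hu h)
  · exfalso
    have h1 : (ee ζ i * (t ^ 3 / 2) * (ee ζ j * (t ^ 3 / 2))) ^ 9 = 512 := by rw [h]; norm_num
    have h2 : (ee ζ i * (t ^ 3 / 2) * (ee ζ j * (t ^ 3 / 2))) ^ 9 =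
        ee ζ i ^ 9 * ee ζ j ^ 9 * (t ^ 18) ^ 3 / 2 ^ 18 := by ring
    rw [h2, D.ee_nine, D.ee_nine, D.t_18] at h1
    set v := (2 * φ - 1) * (2 * ζ ^ 3 + 1) with hv
    have hv2 : v ^ 2 = -15 := D.v_sq
    have h3 : v = -9 := by
      linear_combination (-1 / 96) * h1 + (1 / 12) * (v + 3) * hv2
    rw [h3] at hv2
    norm_num at hv2

lemma zz_eq (k : ZMod 9) : zz ζ t k = ee ζ k * t + 2 * (ee ζ (-k) * t⁻¹) := by
  unfold zz cc
  rw [D.ee_neg, mul_inv]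

lemma yy_eq (k : ZMod 9) : yy ζ t k = ee ζ k * (t ^ 3 / 2) + 4 * (ee ζ (-k) * (t ^ 3)⁻¹) := by
  unfold yy cc
  rw [D.ee_neg, mul_inv]
  field_simp
  ring

/-- the `yy` in terms of the `zz` -/
lemma yy_of_zz (i : ZMod 9) : yy ζ t i =
    (zz ζ t i * zz ζ t 0 ^ 2 - 4 * zz ζ t i - 2 * zz ζ t (-i)) / 2 := by
  rw [D.zz_eq, D.zz_eq, D.zz_eq, D.yy_eq, neg_zero, neg_neg, D.ee_zero]
  have := D.t_ne
  field_simp
  ring

lemma zz_cube (k : ZMod 9) : zz ζ t k ^ 3 = 6 * zz ζ t k + 2 * yy ζ t (3 * k) := by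
  have h3 : ee ζ (3 * k) = ee ζ k ^ 3 := by rw [D.ee_pow]; norm_num
  rw [D.zz_eq, D.yy_eq, D.ee_neg, D.ee_neg, h3]
  have := D.t_ne
  have := D.ee_ne k
  field_simp
  ring

/-- cubic equations of the `yy` -/
lemma yy_cube (k : ZMod 9) : yy ζ t k ^ 3 = 6 * yy ζ t k +
    (ee ζ (3 * k) * ((2 * φ - 1) + (2 * ζ ^ 3 + 1)) +
      ee ζ (-(3 * k)) * ((2 * φ - 1) - (2 * ζ ^ 3 + 1))) := by
  have h3 : ee ζ (3 * k) = ee ζ k ^ 3 := by rw [D.ee_pow]; norm_num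
  have h4 : ee ζ (-(3 * k)) = (ee ζ k ^ 3)⁻¹ := by rw [D.ee_neg, h3]
  have h5 := D.ht
  have h6 := D.t'_pow
  have h7 : ((2 * φ - 1) + (2 * ζ ^ 3 + 1)) = t ^ 9 / 8 := by rw [h5]; ring
  have h8 : ((2 * φ - 1) - (2 * ζ ^ 3 + 1)) = (2 * t⁻¹) ^ 9 / 8 := by rw [h6]; ring
  rw [D.yy_eq, D.ee_neg, h4, h3, h7, h8]
  have := D.t_ne
  have := D.ee_ne k
  field_simp
  ring

/-! ### Action of automorphisms -/

/-- an automorphism fixing `φ` acts on the `zz` and `yy` by affine maps -/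
lemma action_one (σ : Ω →+* Ω) {c a : ZMod 9} (hc : σ ζ = ee ζ c)
    (ha : σ t = ee ζ a * t) (k : ZMod 9) :
    σ (zz ζ t k) = zz ζ t (c * k + a) ∧ σ (yy ζ t k) = yy ζ t (c * k + 3 * a) := by
  have h1 : σ (ee ζ k) = ee ζ (c * k) := by
    have : ee ζ k = ζ ^ k.val := rfl
    rw [this, map_pow, hc, D.ee_pow]
    congr 1
    rw [ZMod.natCast_val, ZMod.cast_id', id, mul_comm]
  have h3 : ee ζ (3 * a) = ee ζ a ^ 3 := by rw [D.ee_pow]; norm_num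
  have hcc : ∀ x : Ω, σ (cc x) = cc (σ x) := by
    intro x
    unfold cc
    rw [map_add, map_mul, map_inv₀, map_ofNat]
  constructor
  · unfold zz
    rw [hcc, map_mul, h1, ha, D.ee_add, mul_assoc]
  · unfold yy
    rw [hcc, map_mul, h1, map_div₀, map_pow, ha, D.ee_add, h3, map_ofNat]
    congr 1
    ring

lemma action_two (σ : Ω →+* Ω) {c a : ZMod 9} (hc : σ ζ = ee ζ c)
    (ha : σ t = ee ζ a * (2 * t⁻¹)) (k : ZMod 9) :
    σ (zz ζ t k) = zz ζ t (-c * k + -a) ∧ σ (yy ζ t k) = yy ζ t (-c * k + 3 * -a) := by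
  have h1 : σ (ee ζ k) = ee ζ (c * k) := by
    have : ee ζ k = ζ ^ k.val := rfl
    rw [this, map_pow, hc, D.ee_pow]
    congr 1
    rw [ZMod.natCast_val, ZMod.cast_id', id, mul_comm]
  have h3 : ee ζ (3 * a) = ee ζ a ^ 3 := by rw [D.ee_pow]; norm_num
  have hcc : ∀ x : Ω, σ (cc x) = cc (σ x) := by
    intro x
    unfold cc
    rw [map_add, map_mul, map_inv₀, map_ofNat]
  have ht := D.t_ne
  have h2 : (2 : Ω) ≠ 0 := two_ne_zero
  constructor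
  · unfold zz
    rw [hcc, map_mul, h1, ha]
    rw [show -c * k + -a = -(c * k + a) by ring, D.ee_neg, D.ee_add]
    have : ee ζ (c * k) * (ee ζ a * (2 * t⁻¹)) = 2 * ((ee ζ (c * k) * ee ζ a)⁻¹ * t)⁻¹ := by
      rw [mul_inv, inv_inv]; ring
    rw [this, cc_two_div _ h2]
    exact mul_ne_zero (inv_ne_zero (mul_ne_zero (D.ee_ne _) (D.ee_ne _))) ht
  · unfold yy
    rw [hcc, map_mul, h1, map_div₀, map_pow, ha, map_ofNat]
    rw [show -c * k + 3 * -a = -(c * k + 3 * a) by ring, D.ee_neg, D.ee_add, h3]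
    have : ee ζ (c * k) * ((ee ζ a * (2 * t⁻¹)) ^ 3 / 2) =
        2 * ((ee ζ (c * k) * ee ζ a ^ 3)⁻¹ * (t ^ 3 / 2))⁻¹ := by
      rw [mul_inv, inv_inv]; field_simp
    rw [this, cc_two_div _ h2]
    exact mul_ne_zero (inv_ne_zero (mul_ne_zero (D.ee_ne _) (pow_ne_zero _ (D.ee_ne _))))
      (div_ne_zero (pow_ne_zero _ ht) h2)

omit [CharZero Ω] D in
lemma unit_cases : ∀ c : ZMod 9, c * 3 ≠ 0 → (∃ e, c = mu e) ∨ ∃ e, c = - mu e := by
  decide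

omit [CharZero Ω] D in
lemma mu_three : ∀ e : ZMod 3, 3 * mu e = 3 := by decide

theorem action (σ : Ω →+* Ω) (hσ : σ φ = φ) :
    ∃ (a : ZMod 9) (e : ZMod 3), ∀ k : ZMod 9, σ (zz ζ t k) = zz ζ t (mu e * k + a) ∧
      σ (yy ζ t k) = yy ζ t (mu e * k + 3 * a) := by
  have h9 : (σ ζ) ^ 9 = 1 := by rw [← map_pow, D.hζ.pow_eq_one, map_one]
  obtain ⟨c, hc⟩ := D.exists_ee h9
  have hc3 : c * 3 ≠ 0 := by
    intro h
    have h1 : σ (ζ ^ 3) = 1 := by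
      rw [map_pow, hc, D.ee_pow]
      have : ((3 : ℕ) : ZMod 9) * c = 0 := by rw [mul_comm]; exact_mod_cast h
      rw [this, D.ee_zero]
    have h2 : ζ ^ 3 = 1 := σ.injective (by rw [h1, map_one])
    have := D.hζ.dvd_of_pow_eq_one 3 h2
    omega
  rcases unit_cases c hc3 with ⟨e, rfl⟩ | ⟨e, rfl⟩
  · have h1 : σ (ζ ^ 3) = ζ ^ 3 := by
      rw [map_pow, hc, D.ee_pow]
      have : ((3 : ℕ) : ZMod 9) * mu e = 3 := by exact_mod_cast mu_three e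
      rw [this]
      have h3 := D.ee_natCast 3
      exact_mod_cast h3
    have h2 : (σ t) ^ 9 = t ^ 9 := by
      rw [← map_pow, D.ht, map_mul, map_add, map_sub, map_add, map_mul, map_mul, h1, hσ]
      simp only [map_ofNat, map_one]
    have h3 : (σ t / t) ^ 9 = 1 := by
      rw [div_pow, h2, div_self (pow_ne_zero _ D.t_ne)]
    obtain ⟨a, ha⟩ := D.exists_ee h3
    have ha' : σ t = ee ζ a * t := by rw [← ha, div_mul_cancel₀ _ D.t_ne]
    exact ⟨a, e, fun k => D.action_one σ hc ha' k⟩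
  · have h1 : σ (ζ ^ 3) = -1 - ζ ^ 3 := by
      rw [map_pow, hc, D.ee_pow]
      have : ((3 : ℕ) : ZMod 9) * -mu e = ((6 : ℕ) : ZMod 9) := by
        have : ∀ e : ZMod 3, ((3 : ℕ) : ZMod 9) * -mu e = ((6 : ℕ) : ZMod 9) := by decide
        exact this e
      rw [this, D.ee_natCast]
      linear_combination D.omega
    have h2 : (σ t) ^ 9 = (2 * t⁻¹) ^ 9 := by
      rw [← map_pow, D.ht, D.t'_pow, map_mul, map_add, map_sub, map_add, map_mul, map_mul, h1, hσ]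
      simp only [map_ofNat, map_one]
      ring
    have ht' : 2 * t⁻¹ ≠ 0 := mul_ne_zero two_ne_zero (inv_ne_zero D.t_ne)
    have h3 : (σ t / (2 * t⁻¹)) ^ 9 = 1 := by
      rw [div_pow, h2, div_self (pow_ne_zero _ ht')]
    obtain ⟨a, ha⟩ := D.exists_ee h3
    have ha' : σ t = ee ζ a * (2 * t⁻¹) := by rw [← ha, div_mul_cancel₀ _ ht']
    refine ⟨-a, e, fun k => ?_⟩
    have := D.action_two σ hc ha' k
    rwa [neg_neg] at this

/-! ### Integrality -/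

omit [CharZero Ω] D in
lemma nat_int (n : ℕ) : IsIntegral ℤ (n : Ω) := by
  have := isIntegral_algebraMap (R := ℤ) (A := Ω) (x := (n : ℤ))
  simpa using this

lemma zeta_int : IsIntegral ℤ ζ := by
  refine ⟨Polynomial.X ^ 9 - 1, Polynomial.monic_X_pow_sub_C 1 (by norm_num), ?_⟩
  simp [D.hζ.pow_eq_one]

lemma ee_int (k : ZMod 9) : IsIntegral ℤ (ee ζ k) := D.zeta_int.pow _

lemma phi_int : IsIntegral ℤ φ := by
  refine ⟨Polynomial.X ^ 2 - Polynomial.X - 1, ?_, ?_⟩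
  · monicity!
  · simp only [Polynomial.eval₂_sub, Polynomial.eval₂_X_pow, Polynomial.eval₂_X,
      Polynomial.eval₂_one]
    rw [D.hφ]; ring

lemma s5_int : IsIntegral ℤ (2 * φ - 1) := by
  have := D.phi_int
  exact ((nat_int 2).mul this).sub isIntegral_one

lemma s3_int : IsIntegral ℤ (2 * ζ ^ 3 + 1) := by
  have := D.zeta_int.pow 3
  exact ((nat_int 2).mul this).add isIntegral_one

lemma t_int : IsIntegral ℤ t := by
  have h : IsIntegral ℤ (t ^ 9) := by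
    rw [D.ht]
    exact (nat_int 8).mul (D.s5_int.add D.s3_int)
  exact h.of_pow (by norm_num)

lemma t'_int : IsIntegral ℤ (2 * t⁻¹) := by
  have h : IsIntegral ℤ ((2 * t⁻¹) ^ 9) := by
    rw [D.t'_pow]
    exact (nat_int 8).mul (D.s5_int.sub D.s3_int)
  exact h.of_pow (by norm_num)

lemma zz_int (k : ZMod 9) : IsIntegral ℤ (zz ζ t k) := by
  have h : zz ζ t k = ee ζ k * t + ee ζ (-k) * (2 * t⁻¹) := by rw [D.zz_eq]; ring
  rw [h]
  exact ((D.ee_int k).mul D.t_int).add ((D.ee_int (-k)).mul D.t'_int)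

/-- differences of the `zz` divide a power of 6 -/
lemma zz_sub_dvd {i j : ZMod 9} (h : i ≠ j) :
    ∃ w : Ω, IsIntegral ℤ w ∧ (zz ζ t i - zz ζ t j) * w = 6 ^ 4 := by
  -- first factor
  have hξ1 : ee ζ (j - i) ≠ 1 := by
    intro h1
    rw [← D.ee_zero] at h1
    exact h (sub_eq_zero.1 (D.ee_inj h1)).symm
  set ξ := ee ζ (j - i) with hξ
  have hξint : IsIntegral ℤ ξ := D.ee_int _
  have hξ9 : ξ ^ 9 = 1 := D.ee_nine _
  have hsum : ∑ k ∈ Finset.range 9, ξ ^ k = 0 := by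
    have h1 := geom_sum_mul ξ 9
    rw [hξ9, sub_self] at h1
    exact (mul_eq_zero.1 h1).resolve_right (sub_ne_zero.2 hξ1)
  have h1 : (1 - ξ) * (∑ k ∈ Finset.range 9, ∑ l ∈ Finset.range k, ξ ^ l) = 9 := by
    rw [Finset.mul_sum]
    have h2 : ∀ k ∈ Finset.range 9, (1 - ξ) * ∑ l ∈ Finset.range k, ξ ^ l = 1 - ξ ^ k := by
      intro k _
      have := geom_sum_mul ξ k
      linear_combination -this
    rw [Finset.sum_congr rfl h2, Finset.sum_sub_distrib, hsum]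
    simp
  -- second factor
  set y := ee ζ (-i - j) * (2 * t⁻¹) with hy
  have hyint : IsIntegral ℤ y := (D.ee_int _).mul D.t'_int
  have hy9 : y ^ 9 = 8 * ((2 * φ - 1) - (2 * ζ ^ 3 + 1)) := by
    rw [hy, mul_pow, D.ee_nine, one_mul, D.t'_pow]
  have h2 : (t - y) * (∑ k ∈ Finset.range 9, t ^ k * y ^ (9 - 1 - k)) = 16 * (2 * ζ ^ 3 + 1) := by
    have := (Commute.all t y).geom_sum₂_mul 9
    rw [mul_comm, this, D.ht, hy9]
    ring
  have h3 : zz ζ t i - zz ζ t j = ee ζ i * (1 - ξ) * (t - y) := by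
    have e1 : ee ζ j = ee ζ i * ξ := by rw [hξ, ← D.ee_add]; congr 1; ring
    have e2 : ee ζ (-i - j) = ee ζ (-i) * ee ζ (-j) := by rw [← D.ee_add]; congr 1; ring
    have e3 : ee ζ i * ee ζ (-i) = 1 := by rw [← D.ee_add, add_neg_cancel, D.ee_zero]
    have e4 : ee ζ j * ee ζ (-j) = 1 := by rw [← D.ee_add, add_neg_cancel, D.ee_zero]
    rw [D.zz_eq, D.zz_eq, hy, e2]
    have e5 : ee ζ i * (1 - ξ) = ee ζ i - ee ζ j := by rw [e1]; ring
    rw [e5]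
    linear_combination (2 * t⁻¹ * ee ζ (-j)) * e3 - (2 * t⁻¹ * ee ζ (-i)) * e4
  have h4 : ee ζ i * ee ζ (-i) = 1 := by rw [← D.ee_add, add_neg_cancel, D.ee_zero]
  refine ⟨ee ζ (-i) * (∑ k ∈ Finset.range 9, ∑ l ∈ Finset.range k, ξ ^ l) *
    (∑ k ∈ Finset.range 9, t ^ k * y ^ (9 - 1 - k)) * (-(2 * ζ ^ 3 + 1)) * 3, ?_, ?_⟩
  · have i1 : IsIntegral ℤ (∑ k ∈ Finset.range 9, ∑ l ∈ Finset.range k, ξ ^ l) :=
      IsIntegral.sum _ fun k _ => IsIntegral.sum _ fun l _ => hξint.pow l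
    have i2 : IsIntegral ℤ (∑ k ∈ Finset.range 9, t ^ k * y ^ (9 - 1 - k)) :=
      IsIntegral.sum _ fun k _ => (D.t_int.pow k).mul (hyint.pow _)
    exact ((((D.ee_int _).mul i1).mul i2).mul D.s3_int.neg).mul
      (nat_int 3)
  · rw [h3]
    set g := ∑ k ∈ Finset.range 9, ∑ l ∈ Finset.range k, ξ ^ l
    set q := ∑ k ∈ Finset.range 9, t ^ k * y ^ (9 - 1 - k)
    have h5 := D.s3_sq
    calc ee ζ i * (1 - ξ) * (t - y) * (ee ζ (-i) * g * q * (-(2 * ζ ^ 3 + 1)) * 3)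
        = (ee ζ i * ee ζ (-i)) * ((1 - ξ) * g) * ((t - y) * q) * (-(2 * ζ ^ 3 + 1)) * 3 := by ring
      _ = 6 ^ 4 := by
        rw [h4, h1, h2]
        linear_combination (-432) * h5

end Dat

end Pool.Agent.Lib.MP_aa8fd2_nt
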