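import Pool.Agent.Lib.MP_aa8fd2_nt.ExField

set_option autoImplicit false
set_option linter.unusedSectionVars false

/-! Elements of the Galois group of the field of degree 27, from Frobenius elements. -/

namespace Pool.Agent.Lib.MP_aa8fd2_nt

open IntermediateField

section base

variable {F : Type*} [Field F] [NumberField F] {φ : F}

lemma phi_not_rat (hφ : φ ^ 2 = φ + 1) (q : ℚ) : algebraMap ℚ F q ≠ φ := by
  intro h
  have h1 : algebraMap ℚ F (q ^ 2) = algebraMap ℚ F (q + 1) := by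
    rw [map_pow, h, hφ, map_add, h, map_one]
  have h2 : q ^ 2 = q + 1 := (algebraMap ℚ F).injective h1
  have h3 : (2 * q - 1) ^ 2 = 5 := by linear_combination 4 * h2
  have h4 : Irrational (Real.sqrt 5) := Nat.Prime.irrational_sqrt (by norm_num : Nat.Prime 5)
  have h5 : Real.sqrt 5 = |((2 * q - 1 : ℚ) : ℝ)| := by
    rw [← Real.sqrt_sq_eq_abs]
    congr 1
    exact_mod_cast h3.symm
  apply h4
  rw [h5]
  exact ⟨|2 * q - 1|, by push_cast; rfl⟩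

lemma adjoin_phi (hφ : φ ^ 2 = φ + 1) (hF : Module.finrank ℚ F = 2) : ℚ⟮φ⟯ = ⊤ := by
  have h1 : Module.finrank ℚ ℚ⟮φ⟯ * Module.finrank ℚ⟮φ⟯ F = Module.finrank ℚ F :=
    Module.finrank_mul_finrank ℚ ℚ⟮φ⟯ F
  rw [hF] at h1
  have h2 : Module.finrank ℚ ℚ⟮φ⟯ ∣ 2 := ⟨_, h1.symm⟩
  rcases (Nat.dvd_prime Nat.prime_two).1 h2 with h3 | h3
  · exfalso
    rw [finrank_adjoin_simple_eq_one_iff, mem_bot] at h3
    obtain ⟨q, hq⟩ := h3
    exact phi_not_rat hφ q hq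
  · rw [h3] at h1
    have h4 : Module.finrank ℚ⟮φ⟯ F = 1 := by omega
    exact finrank_eq_one_iff_eq_top.1 h4

variable {Ω : Type*} [Field Ω] [Algebra F Ω]

lemma fix_base (hφ : φ ^ 2 = φ + 1) (hF : Module.finrank ℚ F = 2) (f : Ω →+* Ω)
    (h : f (algebraMap F Ω φ) = algebraMap F Ω φ) (x : F) :
    f (algebraMap F Ω x) = algebraMap F Ω x := by
  have hx : x ∈ ℚ⟮φ⟯ := by rw [adjoin_phi hφ hF]; exact mem_top
  induction hx using adjoin_induction with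
  | mem x hx => rw [Set.mem_singleton_iff.1 hx]; exact h
  | algebraMap q =>
    have h1 : (f.comp (algebraMap F Ω)).comp (algebraMap ℚ F) =
        (algebraMap F Ω).comp (algebraMap ℚ F) := RingHom.ext_rat _ _
    exact congrArg (fun g : ℚ →+* Ω => g q) h1
  | add x y _ _ hx hy => rw [map_add, map_add, hx, hy]
  | inv x _ hx => rw [map_inv₀, map_inv₀, hx]
  | mul x y _ _ hx hy => rw [map_mul, map_mul, hx, hy]

end base

section frob

lemma isAlgClosure_rat (F : Type*) [Field F] [NumberField F] (Ω : Type*) [Field Ω] [Algebra F Ω]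
    [IsAlgClosure F Ω] [CharZero Ω] : IsAlgClosure ℚ Ω := by
  have : IsScalarTower ℚ F Ω := inferInstance
  have h1 : Algebra.IsAlgebraic F Ω := IsAlgClosure.isAlgebraic
  have h2 : Algebra.IsAlgebraic ℚ F := inferInstance
  exact ⟨IsAlgClosure.isAlgClosed F, Algebra.IsAlgebraic.trans ℚ F Ω⟩

lemma frob_fix_phi {Ω : Type*} [Field Ω] [CharZero Ω] {φ : Ω} (hφ : φ ^ 2 = φ + 1)
    (p : ℕ) [Fact p.Prime] {R : Subring Ω} {κ : Type*} [Field κ] [CharP κ p] (f : R →+* κ)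
    (σ : Ω ≃ₐ[ℚ] Ω) (hσ : ∀ x ∈ R, σ x ∈ R) (hf : ∀ x : R, f ⟨σ x, hσ x x.2⟩ = f x ^ p)
    (hR : φ ∈ R)
    (n m : ZMod p) (hnm : n + m = 1) (hnm' : n * m = -1) (hne : 5 * (1 : ZMod p) ≠ 0) :
    σ φ = φ := by
  have h1 : (σ φ) ^ 2 = σ φ + 1 := by rw [← map_pow, hφ, map_add, map_one]
  have h2 : (σ φ - φ) * (σ φ - (1 - φ)) = 0 := by linear_combination h1 - hφ
  rcases mul_eq_zero.1 h2 with h | h
  · exact sub_eq_zero.1 h
  · exfalso
    have h3 : σ φ = 1 - φ := sub_eq_zero.1 h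
    have h4 := hf ⟨φ, hR⟩
    have h5 : (⟨σ φ, hσ φ hR⟩ : R) = 1 - ⟨φ, hR⟩ := Subtype.ext h3
    rw [h5, map_sub, map_one] at h4
    set y := f ⟨φ, hR⟩ with hy
    have hy2 : y ^ 2 = y + 1 := by
      rw [hy, ← map_pow, ← map_one f, ← map_add]
      congr 1
      exact Subtype.ext hφ
    -- y is in the prime field
    let ι : ZMod p →+* κ := ZMod.castHom (dvd_refl p) κ
    have h6 : (y - ι n) * (y - ι m) = 0 := by
      have e1 : ι n + ι m = 1 := by rw [← map_add, hnm, map_one]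
      have e2 : ι n * ι m = -1 := by rw [← map_mul, hnm', map_neg, map_one]
      linear_combination hy2 - y * e1 + e2
    have h7 : y ^ p = y := by
      rcases mul_eq_zero.1 h6 with h | h
      · rw [sub_eq_zero.1 h, ← map_pow, ZMod.pow_card]
      · rw [sub_eq_zero.1 h, ← map_pow, ZMod.pow_card]
    rw [h7] at h4
    have h8 : (5 : κ) = 0 := by
      have : 2 * y - 1 = 0 := by linear_combination -h4
      linear_combination (-4) * hy2 + (2 * y - 1) * this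
    apply hne
    have h9 : ι (5 * 1) = 0 := by rw [mul_one, map_ofNat]; exact h8
    exact (map_eq_zero ι).1 h9

lemma nine_eq {K : Type*} [Field K] {ξ : K} (h9 : ξ ^ 9 = 1) (h1 : ξ ≠ 1) :
    (1 - ξ) * (∑ k ∈ Finset.range 9, ∑ l ∈ Finset.range k, ξ ^ l) = 9 := by
  have hsum : ∑ k ∈ Finset.range 9, ξ ^ k = 0 := by
    have h2 := geom_sum_mul ξ 9
    rw [h9, sub_self] at h2
    exact (mul_eq_zero.1 h2).resolve_right (sub_ne_zero.2 h1)
  rw [Finset.mul_sum]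
  have h2 : ∀ k ∈ Finset.range 9, (1 - ξ) * ∑ l ∈ Finset.range k, ξ ^ l = 1 - ξ ^ k := by
    intro k _
    have := geom_sum_mul ξ k
    linear_combination -this
  rw [Finset.sum_congr rfl h2, Finset.sum_sub_distrib, hsum]
  simp

/-- reduction is injective on ninth roots of unity -/
lemma root_inj {Ω : Type*} [Field Ω] {R : Subring Ω} {κ : Type*} [Field κ] (f : R →+* κ)
    (h9 : (9 : κ) ≠ 0) {ξ : Ω} (hξ : ξ ∈ R) (h : ξ ^ 9 = 1) (hf : f ⟨ξ, hξ⟩ = 1) : ξ = 1 := by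
  by_contra h1
  have h2 := nine_eq h h1
  apply h9
  have h3 : (1 - (⟨ξ, hξ⟩ : R)) * (∑ k ∈ Finset.range 9, ∑ l ∈ Finset.range k,
      (⟨ξ, hξ⟩ : R) ^ l) = 9 := by
    apply Subtype.ext
    push_cast
    exact h2
  have h4 := congrArg f h3
  rw [map_mul, map_sub, map_one, hf, sub_self, zero_mul, map_ofNat] at h4
  exact h4.symm

namespace Dat

variable {Ω : Type*} [Field Ω] [CharZero Ω] {φ ζ t : Ω} (D : Dat φ ζ t)

include D

lemma frob_zeta (p : ℕ) {R : Subring Ω} {κ : Type*} [Field κ] (f : R →+* κ)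
    (h9 : (9 : κ) ≠ 0) (σ : Ω ≃ₐ[ℚ] Ω) (hσ : ∀ x ∈ R, σ x ∈ R)
    (hf : ∀ x : R, f ⟨σ x, hσ x x.2⟩ = f x ^ p) (hR : ζ ∈ R) : σ ζ = ee ζ (p : ZMod 9) := by
  have h1 : (σ ζ) ^ 9 = 1 := by rw [← map_pow, D.hζ.pow_eq_one, map_one]
  obtain ⟨c, hc⟩ := D.exists_ee h1
  have hmem : ∀ k, ee ζ k ∈ R := fun k => pow_mem hR _
  have h2 : f ⟨ee ζ c, hmem c⟩ = f ⟨ee ζ p, hmem p⟩ := by
    have h3 := hf ⟨ζ, hR⟩
    have h4 : (⟨σ ζ, hσ ζ hR⟩ : R) = ⟨ee ζ c, hmem c⟩ := Subtype.ext hc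
    have h5 : (⟨ee ζ p, hmem p⟩ : R) = ⟨ζ, hR⟩ ^ p := Subtype.ext (D.ee_natCast p)
    rw [h4] at h3
    rw [h3, h5, map_pow]
  have h6 : ee ζ (c - p) = 1 := by
    apply root_inj f h9 (hmem _) (D.ee_nine _)
    have h7 : (⟨ee ζ (c - p), hmem _⟩ : R) = ⟨ee ζ c, hmem c⟩ * ⟨ee ζ (-p), hmem _⟩ := by
      apply Subtype.ext
      change ee ζ (c - p) = ee ζ c * ee ζ (-p)
      rw [sub_eq_add_neg, D.ee_add]
    rw [h7, map_mul, h2, ← map_mul, ← map_one f]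
    congr 1
    apply Subtype.ext
    change ee ζ p * ee ζ (-p) = 1
    rw [← D.ee_add, add_neg_cancel, D.ee_zero]
  rw [← D.ee_zero] at h6
  have h7 := D.ee_inj h6
  rw [hc, sub_eq_zero.1 h7]

/-- the Frobenius at 19 is not a cube -/
lemma frob_19 {R : Subring Ω} {κ : Type*} [Field κ] [CharP κ 19] (f : R →+* κ)
    (σ : Ω ≃ₐ[ℚ] Ω) (hσ : ∀ x ∈ R, σ x ∈ R)
    (hf : ∀ x : R, f ⟨σ x, hσ x x.2⟩ = f x ^ 19) (hRφ : φ ∈ R) (hR : ζ ∈ R) (hRt : t ∈ R)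
    (hRt' : 2 * t⁻¹ ∈ R) (a : ZMod 9) (ha : σ t = ee ζ a * t) : 3 * a ≠ 0 := by
  intro h3
  have hmem : ∀ k, ee ζ k ∈ R := fun k => pow_mem hR _
  have h1 : f ⟨ee ζ a, hmem a⟩ ^ 3 = 1 := by
    rw [← map_pow, ← map_one f]
    congr 1
    apply Subtype.ext
    change ee ζ a ^ 3 = 1
    rw [D.ee_pow]
    have : ((3 : ℕ) : ZMod 9) * a = 0 := by exact_mod_cast h3
    rw [this, D.ee_zero]
  have ht0 : f ⟨t, hRt⟩ ≠ 0 := by
    intro h
    have h4 : (⟨t, hRt⟩ : R) * ⟨2 * t⁻¹, hRt'⟩ = 2 := by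
      apply Subtype.ext
      change t * (2 * t⁻¹) = 2
      have := D.t_ne
      field_simp
    have h5 := congrArg f h4
    rw [map_mul, h, zero_mul, map_ofNat] at h5
    have h6 : ((2 : ℕ) : κ) = 0 := by exact_mod_cast h5.symm
    rw [CharP.cast_eq_zero_iff κ 19] at h6
    omega
  have h2 : f ⟨ee ζ a, hmem a⟩ = f ⟨t, hRt⟩ ^ 18 := by
    have h4 := hf ⟨t, hRt⟩
    have h5 : (⟨σ t, hσ t hRt⟩ : R) = ⟨ee ζ a, hmem a⟩ * ⟨t, hRt⟩ := Subtype.ext ha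
    rw [h5, map_mul] at h4
    apply mul_right_cancel₀ ht0
    rw [h4]; ring
  have hs : (2 * φ - 1) * (2 * ζ ^ 3 + 1) ∈ R := by
    have h2R : (2 : Ω) ∈ R := by exact_mod_cast natCast_mem R 2
    exact R.mul_mem (R.sub_mem (R.mul_mem h2R hRφ) R.one_mem)
      (R.add_mem (R.mul_mem h2R (R.pow_mem hR 3)) R.one_mem)
  set V := f ⟨(2 * φ - 1) * (2 * ζ ^ 3 + 1), hs⟩ with hV
  have hV2 : V ^ 2 = -15 := by
    rw [hV, ← map_pow]
    have : (⟨(2 * φ - 1) * (2 * ζ ^ 3 + 1), hs⟩ : R) ^ 2 = -15 := by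
      apply Subtype.ext
      change ((2 * φ - 1) * (2 * ζ ^ 3 + 1)) ^ 2 = -15
      exact D.v_sq
    rw [this, map_neg, map_ofNat]
  have h18 : f ⟨t, hRt⟩ ^ 18 = 128 * (1 + V) := by
    rw [← map_pow]
    have : (⟨t, hRt⟩ : R) ^ 18 = 128 * (1 + ⟨(2 * φ - 1) * (2 * ζ ^ 3 + 1), hs⟩) := by
      apply Subtype.ext
      change t ^ 18 = 128 * (1 + (2 * φ - 1) * (2 * ζ ^ 3 + 1))
      exact D.t_18
    rw [this, map_mul, map_add, map_one, map_ofNat]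
  rw [h2, h18] at h1
  have h19 : (19 : κ) = 0 := by exact_mod_cast CharP.cast_eq_zero κ 19
  have h20 : (V - 2) * (V + 2) = 0 := by linear_combination hV2 - h19
  rcases mul_eq_zero.1 h20 with h | h
  · have h21 : V = 2 := by linear_combination h
    rw [h21] at h1
    have h22 : (((128 * 3) ^ 3 - 1 : ℤ) : κ) = 0 := by push_cast; linear_combination h1
    rw [CharP.intCast_eq_zero_iff κ 19] at h22
    norm_num at h22
  · have h21 : V = -2 := by linear_combination h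
    rw [h21] at h1
    have h22 : (((128 * (1 - 2)) ^ 3 - 1 : ℤ) : κ) = 0 := by push_cast; linear_combination h1
    rw [CharP.intCast_eq_zero_iff κ 19] at h22
    norm_num at h22

end Dat

end frob

section final

variable {F : Type*} [Field F] [NumberField F] {φ : F} {Ω : Type*} [Field Ω] [Algebra F Ω]
  [IsAlgClosure F Ω] {ζ t : Ω}

namespace Dat

lemma q19 : (5 : ZMod 19) + 15 = 1 ∧ (5 : ZMod 19) * 15 = -1 ∧ 5 * (1 : ZMod 19) ≠ 0 := by decide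

lemma q61 : (44 : ZMod 61) + 18 = 1 ∧ (44 : ZMod 61) * 18 = -1 ∧ 5 * (1 : ZMod 61) ≠ 0 := by
  decide

/-- from an automorphism of `Ω` fixing `φ` to the Galois group of `LL` -/
lemma of_aut [Normal F Ω] (D : Dat (algebraMap F Ω φ) ζ t) (hφ : φ ^ 2 = φ + 1)
    (hF : Module.finrank ℚ F = 2) [CharZero Ω] (σ : Ω ≃ₐ[ℚ] Ω)
    (hσ : σ (algebraMap F Ω φ) = algebraMap F Ω φ) {a : ZMod 9} {e : ZMod 3}
    (h : ∀ k : ZMod 9, σ (zz ζ t k) = zz ζ t (mu e * k + a)) :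
    ∃ g : LL F ζ t ≃ₐ[F] LL F ζ t, D.ia g = a ∧ D.ie g = e := by
  let τ : Ω ≃ₐ[F] Ω := AlgEquiv.ofRingEquiv (f := σ.toRingEquiv)
    (fun x => fix_base hφ hF (σ : Ω →+* Ω) hσ x)
  have := D.LL_normal
  refine ⟨τ.restrictNormal (LL F ζ t), ?_⟩
  apply D.idx_unique
  intro k
  have h1 := τ.restrictNormal_commutes (LL F ζ t) ⟨zz ζ t k, D.zz_mem k⟩
  rw [← h k]
  exact h1

theorem exists_gal (D : Dat (algebraMap F Ω φ) ζ t) (hφ : φ ^ 2 = φ + 1)
    (hF : Module.finrank ℚ F = 2) (a : ZMod 9) (e : ZMod 3) :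
    ∃ g : LL F ζ t ≃ₐ[F] LL F ζ t, D.ia g = a ∧ D.ie g = e := by
  have := D.charZero
  have := isAlgClosure_rat F Ω
  have : Normal F Ω := IsAlgClosure.normal F Ω
  have hφ' : (algebraMap F Ω φ) ^ 2 = algebraMap F Ω φ + 1 := D.hφ
  have hSfin : ({algebraMap F Ω φ, ζ, t, 2 * t⁻¹} : Set Ω).Finite := Set.toFinite _
  have hSint : ∀ x ∈ ({algebraMap F Ω φ, ζ, t, 2 * t⁻¹} : Set Ω), IsIntegral ℤ x := by
    intro x hx
    rcases hx with rfl | rfl | rfl | hx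
    · exact D.phi_int
    · exact D.zeta_int
    · exact D.t_int
    · rw [Set.mem_singleton_iff.1 hx]; exact D.t'_int
  have f19 : Fact (Nat.Prime 19) := ⟨by norm_num⟩
  have f61 : Fact (Nat.Prime 61) := ⟨by norm_num⟩
  -- Frobenius at 19
  have A : ∃ (a : ZMod 9) (g : LL F ζ t ≃ₐ[F] LL F ζ t), 3 * a ≠ 0 ∧ D.ia g = a ∧ D.ie g = 0 := by
    obtain ⟨σ, R, κ, _, _, f, hσ, hSR, hf⟩ := exists_frob 19 _ hSfin hSint
    have m1 : algebraMap F Ω φ ∈ R := hSR (by simp)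
    have m2 : ζ ∈ R := hSR (by simp)
    have m3 : t ∈ R := hSR (by simp)
    have m4 : 2 * t⁻¹ ∈ R := hSR (by simp)
    have h1 : σ (algebraMap F Ω φ) = algebraMap F Ω φ :=
      frob_fix_phi hφ' 19 f σ hσ hf m1 5 15 q19.1 q19.2.1 q19.2.2
    have h9 : (9 : κ) ≠ 0 := by
      intro h
      have : ((9 : ℕ) : κ) = 0 := by exact_mod_cast h
      rw [CharP.cast_eq_zero_iff κ 19] at this
      omega
    have h2 : σ ζ = ee ζ ((19 : ℕ) : ZMod 9) := D.frob_zeta 19 f h9 σ hσ hf m2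
    have h2' : σ ζ = ee ζ (mu 0) := by rw [h2]; congr 1
    have h3 : σ (ζ ^ 3) = ζ ^ 3 := by
      rw [map_pow, h2', mu_zero, D.ee_one]
    have h4 : (σ t) ^ 9 = t ^ 9 := by
      rw [← map_pow, D.ht, map_mul, map_add, map_sub, map_add, map_mul, map_mul, h3, h1]
      simp only [map_ofNat, map_one]
    have h5 : (σ t / t) ^ 9 = 1 := by
      rw [div_pow, h4, div_self (pow_ne_zero _ D.t_ne)]
    obtain ⟨a, ha⟩ := D.exists_ee h5
    have ha' : σ t = ee ζ a * t := by rw [← ha, div_mul_cancel₀ _ D.t_ne]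
    have h6 : 3 * a ≠ 0 := D.frob_19 f σ hσ hf m1 m2 m3 m4 a ha'
    obtain ⟨g, hg⟩ := D.of_aut hφ hF σ h1 (a := a) (e := 0)
      (fun k => (D.action_one (σ : Ω →+* Ω) h2' ha' k).1)
    exact ⟨a, g, h6, hg⟩
  -- Frobenius at 61
  have B : ∃ g : LL F ζ t ≃ₐ[F] LL F ζ t, D.ie g = 1 := by
    obtain ⟨σ, R, κ, _, _, f, hσ, hSR, hf⟩ := exists_frob 61 _ hSfin hSint
    have m1 : algebraMap F Ω φ ∈ R := hSR (by simp)
    have m2 : ζ ∈ R := hSR (by simp)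
    have h1 : σ (algebraMap F Ω φ) = algebraMap F Ω φ :=
      frob_fix_phi hφ' 61 f σ hσ hf m1 44 18 q61.1 q61.2.1 q61.2.2
    have h9 : (9 : κ) ≠ 0 := by
      intro h
      have : ((9 : ℕ) : κ) = 0 := by exact_mod_cast h
      rw [CharP.cast_eq_zero_iff κ 61] at this
      omega
    have h2 : σ ζ = ee ζ ((61 : ℕ) : ZMod 9) := D.frob_zeta 61 f h9 σ hσ hf m2
    have h2' : σ ζ = ee ζ (mu 1) := by rw [h2]; congr 1
    have h3 : σ (ζ ^ 3) = ζ ^ 3 := by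
      rw [map_pow, h2', D.ee_pow]
      have : ((3 : ℕ) : ZMod 9) * mu 1 = ((3 : ℕ) : ZMod 9) := by decide
      rw [this, D.ee_natCast]
    have h4 : (σ t) ^ 9 = t ^ 9 := by
      rw [← map_pow, D.ht, map_mul, map_add, map_sub, map_add, map_mul, map_mul, h3, h1]
      simp only [map_ofNat, map_one]
    have h5 : (σ t / t) ^ 9 = 1 := by
      rw [div_pow, h4, div_self (pow_ne_zero _ D.t_ne)]
    obtain ⟨a, ha⟩ := D.exists_ee h5
    have ha' : σ t = ee ζ a * t := by rw [← ha, div_mul_cancel₀ _ D.t_ne]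
    obtain ⟨g, hg⟩ := D.of_aut hφ hF σ h1 (a := a) (e := 1)
      (fun k => (D.action_one (σ : Ω →+* Ω) h2' ha' k).1)
    exact ⟨g, hg.2⟩
  -- all translations
  have C : ∀ x : ZMod 9, ∃ g : LL F ζ t ≃ₐ[F] LL F ζ t, D.ia g = x ∧ D.ie g = 0 := by
    obtain ⟨a, g, h1, h2, h3⟩ := A
    have key : ∀ n : ℕ, D.ia (g ^ n) = n * a ∧ D.ie (g ^ n) = 0 := by
      intro n
      induction n with
      | zero => simp [(D.idx_one).2, (D.idx_one).1]
      | succ n ih =>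
        rw [pow_succ, (D.idx_mul _ _).2, (D.idx_mul _ _).1, ih.1, ih.2, h2, h3, mu_zero]
        push_cast
        constructor
        · ring
        · ring
    have h4 : ∀ a : ZMod 9, 3 * a ≠ 0 → ∀ x : ZMod 9, ∃ n : ZMod 9, ((n.val : ℕ) : ZMod 9) * a = x := by
      decide
    intro x
    obtain ⟨n, hn⟩ := h4 a h1 x
    exact ⟨g ^ n.val, by rw [(key _).1, hn], (key _).2⟩
  obtain ⟨g1, h1⟩ := B
  have key : ∀ n : ℕ, D.ie (g1 ^ n) = n := by
    intro n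
    induction n with
    | zero => simp [(D.idx_one).2]
    | succ n ih => rw [pow_succ, (D.idx_mul _ _).2, ih, h1]; push_cast; ring
  obtain ⟨g2, h2, h3⟩ := C (a - D.ia (g1 ^ e.val))
  refine ⟨g2 * g1 ^ e.val, ?_, ?_⟩
  · rw [(D.idx_mul _ _).1, h2, h3, mu_zero]; ring
  · rw [(D.idx_mul _ _).2, h3, key, zero_add, ZMod.natCast_val, ZMod.cast_id', id]

end Dat

end final

end Pool.Agent.Lib.MP_aa8fd2_nt
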