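import Mathlib

set_option autoImplicit false

/-! Existence of Frobenius elements, in elementary form. -/

namespace Pool.Agent.Lib.MP_aa8fd2_nt

open NumberField IntermediateField

/-- Let `S` be a finite set of algebraic integers of an algebraic closure `Ω` of `ℚ`
and `p` a prime. There are an automorphism `σ` of `Ω`, a subring `R` of `Ω` consisting of algebraic
integers, containing `S` and stable under `σ`, and a ring homomorphism `f` from `R` to a field of
characteristic `p` with `f (σ x) = f x ^ p`. -/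
theorem exists_frob.{u} {Ω : Type u} [Field Ω] [CharZero Ω] [IsAlgClosure ℚ Ω] (p : ℕ)
    [hp : Fact p.Prime] (S : Set Ω) (hfin : S.Finite) (hS : ∀ x ∈ S, IsIntegral ℤ x) :
    ∃ (σ : Ω ≃ₐ[ℚ] Ω) (R : Subring Ω) (κ : Type u) (_ : Field κ) (_ : CharP κ p) (f : R →+* κ)
      (hσ : ∀ x ∈ R, σ x ∈ R), S ⊆ R ∧
        ∀ x : R, f ⟨σ x, hσ x x.2⟩ = f x ^ p := by
  have halg : Algebra.IsAlgebraic ℚ Ω := IsAlgClosure.isAlgebraic
  have hac : IsAlgClosed Ω := IsAlgClosure.isAlgClosed ℚ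
  have hnorm : Normal ℚ Ω := IsAlgClosure.normal ℚ Ω
  let E0 : IntermediateField ℚ Ω := adjoin ℚ S
  have : Finite S := hfin
  have hE0 : FiniteDimensional ℚ E0 := by
    apply finiteDimensional_adjoin
    intro x _
    exact (halg.isAlgebraic x).isIntegral
  let E : IntermediateField ℚ Ω := normalClosure ℚ E0 Ω
  have hEfin : FiniteDimensional ℚ E := inferInstance
  have hEnorm : Normal ℚ E := normalClosure.normal ℚ E0 Ω
  have hle : E0 ≤ E := le_normalClosure E0
  have hnf : NumberField E := {}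
  have hgal : IsGalois ℚ E := {}
  -- a prime above `p`
  have hP : (Ideal.span {(p : ℤ)}).IsMaximal :=
    (PrincipalIdealRing.isMaximal_of_irreducible (Nat.prime_iff_prime_int.1 hp.out).irreducible)
  obtain ⟨Q, hQ, hQP⟩ := Ideal.exists_maximal_ideal_liesOver_of_isIntegral (S := 𝓞 E)
    (Ideal.span {(p : ℤ)})
  have hunder : Q.under ℤ = Ideal.span {(p : ℤ)} := hQP.over.symm
  have hQ0 : Q ≠ ⊥ := by
    intro h
    have h1 : (p : ℤ) ∈ Q.under ℤ := by rw [hunder]; exact Ideal.mem_span_singleton_self _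
    rw [h, Ideal.under, Ideal.mem_comap, Ideal.mem_bot] at h1
    have h2 : (p : ℤ) = 0 := (FaithfulSMul.algebraMap_injective ℤ (𝓞 E)) (by rw [h1, map_zero])
    exact hp.out.ne_zero (by exact_mod_cast h2)
  have hfinQ : Finite (𝓞 E ⧸ Q) := Ideal.finiteQuotientOfFreeOfNeBot Q hQ0
  obtain ⟨σ, hσ⟩ := IsArithFrobAt.exists_of_isInvariant ℤ (Gal(E/ℚ)) Q
  have hcard : Nat.card (ℤ ⧸ Q.under ℤ) = p := by
    rw [hunder, Int.card_ideal_quot]
  have hσ' : ∀ x : 𝓞 E, σ • x - x ^ p ∈ Q := by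
    intro x
    have := hσ x
    rw [hcard] at this
    exact this
  let τ : Ω ≃ₐ[ℚ] Ω := σ.liftNormal Ω
  have hτ : ∀ x : E, τ (x : Ω) = (σ x : E) := fun x => AlgEquiv.liftNormal_commutes σ Ω x
  let R : Subring Ω := (integralClosure ℤ Ω).toSubring ⊓ E.toSubalgebra.toSubring
  have hR : ∀ x, x ∈ R ↔ IsIntegral ℤ x ∧ x ∈ E := fun x => Iff.rfl
  have hτR : ∀ x ∈ R, τ x ∈ R := by
    intro x hx
    rw [hR] at hx ⊢
    refine ⟨hx.1.map τ.toAlgHom.toRingHom.toIntAlgHom, ?_⟩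
    have := hτ ⟨x, hx.2⟩
    change τ x = _ at this
    rw [this]
    exact SetLike.coe_mem _
  let g : R →+* 𝓞 E :=
    { toFun := fun x => ⟨⟨x, ((hR x).1 x.2).2⟩, by
        have h1 := ((hR x).1 x.2).1
        have h2 : IsIntegral ℤ (algebraMap E Ω ⟨x, ((hR x).1 x.2).2⟩) := h1
        exact (isIntegral_algebraMap_iff (FaithfulSMul.algebraMap_injective E Ω)).1 h2⟩
      map_one' := rfl
      map_mul' := fun _ _ => rfl
      map_zero' := rfl
      map_add' := fun _ _ => rfl }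
  refine ⟨τ, R, 𝓞 E ⧸ Q, Ideal.Quotient.field Q, ?_, (Ideal.Quotient.mk Q).comp g, hτR, ?_, ?_⟩
  · let _ : Field (𝓞 E ⧸ Q) := Ideal.Quotient.field Q
    have h1 : ((p : ℕ) : 𝓞 E ⧸ Q) = 0 := by
      have h2 : (p : ℤ) ∈ Q.under ℤ := by rw [hunder]; exact Ideal.mem_span_singleton_self _
      rw [Ideal.under, Ideal.mem_comap] at h2
      have h3 := Ideal.Quotient.eq_zero_iff_mem.2 h2
      simpa using h3
    exact (CharP.charP_iff_prime_eq_zero hp.out).2 h1
  · intro x hx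
    exact (hR x).2 ⟨hS x hx, hle (subset_adjoin ℚ S hx)⟩
  · intro x
    have h1 : g ⟨τ x, hτR x x.2⟩ = σ • (g x) := by
      apply RingOfIntegers.ext
      apply Subtype.ext
      exact hτ ⟨x, ((hR x).1 x.2).2⟩
    change Ideal.Quotient.mk Q (g ⟨τ x, hτR x x.2⟩) = (Ideal.Quotient.mk Q (g x)) ^ p
    rw [h1, ← map_pow, Ideal.Quotient.eq]
    exact hσ' _

end Pool.Agent.Lib.MP_aa8fd2_nt
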