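import Pool.Agent.Lib.MP_aa8fd2_nt.ExElems
import Pool.Agent.Lib.MP_aa8fd2_nt.ExFrob

set_option autoImplicit false
set_option linter.unusedSectionVars false

/-! The field of degree 27 and the field of degree 9. -/

namespace Pool.Agent.Lib.MP_aa8fd2_nt

open IntermediateField

variable {F Ω : Type*} [Field F] [CharZero F] [Field Ω] [Algebra F Ω]

variable (F) in
/-- the field cut out by the residual representation -/
def LL (ζ t : Ω) : IntermediateField F Ω := adjoin F (Set.range (zz ζ t))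

variable (F) in
/-- the field cut out by the projective residual representation -/
def AA (ζ t : Ω) : IntermediateField F Ω := adjoin F (Set.range (yy ζ t))

namespace Dat

variable {φ : F} {ζ t : Ω} (D : Dat (algebraMap F Ω φ) ζ t)

include D

lemma charZero : CharZero Ω := charZero_of_injective_algebraMap (algebraMap F Ω).injective

lemma zz_mem (k : ZMod 9) : zz ζ t k ∈ LL F ζ t := subset_adjoin F _ ⟨k, rfl⟩

lemma yy_mem (k : ZMod 9) : yy ζ t k ∈ AA F ζ t := subset_adjoin F _ ⟨k, rfl⟩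

lemma AA_le_LL : AA F ζ t ≤ LL F ζ t := by
  have := D.charZero
  refine adjoin_le_iff.2 ?_
  rintro _ ⟨k, rfl⟩
  change yy ζ t k ∈ LL F ζ t
  rw [D.yy_of_zz]
  refine div_mem (sub_mem (sub_mem (mul_mem (D.zz_mem k) (pow_mem (D.zz_mem 0) 2))
    (mul_mem ?_ (D.zz_mem k))) (mul_mem ?_ (D.zz_mem _))) ?_
  · exact ofNat_mem _ 4
  · exact ofNat_mem _ 2
  · exact ofNat_mem _ 2

lemma LL_fin : FiniteDimensional F (LL F ζ t) := by
  have := D.charZero
  apply finiteDimensional_adjoin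
  rintro _ ⟨k, rfl⟩
  exact (D.zz_int k).tower_top

lemma AA_fin : FiniteDimensional F (AA F ζ t) := by
  have := D.LL_fin
  exact Module.Finite.of_injective (inclusion D.AA_le_LL).toLinearMap
    (inclusion D.AA_le_LL).injective

variable [Normal F Ω]

lemma LL_normal : Normal F (LL F ζ t) := by
  have := D.charZero
  rw [normal_iff_forall_map_le]
  intro σ
  unfold LL
  rw [adjoin_map, adjoin_le_iff]
  rintro _ ⟨_, ⟨k, rfl⟩, rfl⟩
  obtain ⟨a, e, h⟩ := D.action (σ : Ω →+* Ω) (σ.commutes φ)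
  have := (h k).1
  change σ _ = _ at this
  change σ (zz ζ t k) ∈ _
  rw [this]
  exact D.zz_mem _

lemma AA_normal : Normal F (AA F ζ t) := by
  have := D.charZero
  rw [normal_iff_forall_map_le]
  intro σ
  unfold AA
  rw [adjoin_map, adjoin_le_iff]
  rintro _ ⟨_, ⟨k, rfl⟩, rfl⟩
  obtain ⟨a, e, h⟩ := D.action (σ : Ω →+* Ω) (σ.commutes φ)
  have := (h k).2
  change σ _ = _ at this
  change σ (yy ζ t k) ∈ _
  rw [this]
  exact D.yy_mem _

/-- the action of the Galois group of `LL` on the generators -/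
lemma gal_action (h : LL F ζ t ≃ₐ[F] LL F ζ t) : ∃ (a : ZMod 9) (e : ZMod 3), ∀ k : ZMod 9,
    (h ⟨zz ζ t k, D.zz_mem k⟩ : Ω) = zz ζ t (mu e * k + a) ∧
      (h ⟨yy ζ t k, D.AA_le_LL (D.yy_mem k)⟩ : Ω) = yy ζ t (mu e * k + 3 * a) := by
  have := D.charZero
  have := D.LL_normal
  let σ : Ω ≃ₐ[F] Ω := h.liftNormal Ω
  have hσ : ∀ x : LL F ζ t, σ (x : Ω) = h x := fun x => h.liftNormal_commutes Ω x
  obtain ⟨a, e, h1⟩ := D.action (σ : Ω →+* Ω) (σ.commutes φ)
  refine ⟨a, e, fun k => ?_⟩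
  have h2 := h1 k
  rw [← hσ, ← hσ]
  exact h2

/-- two elements of the Galois group with the same action on the generators coincide -/
lemma gal_ext {h h' : LL F ζ t ≃ₐ[F] LL F ζ t}
    (H : ∀ k : ZMod 9, (h ⟨zz ζ t k, D.zz_mem k⟩ : Ω) = h' ⟨zz ζ t k, D.zz_mem k⟩) : h = h' := by
  have hh : (h : LL F ζ t →ₐ[F] LL F ζ t) = h' := by
    apply algHom_ext_of_eq_adjoin (S := LL F ζ t) F rfl
    rintro x ⟨k, rfl⟩
    exact Subtype.ext (H k)
  apply AlgEquiv.ext
  intro x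
  exact congrArg (fun f : LL F ζ t →ₐ[F] LL F ζ t => f x) hh

/-- the translation part -/
noncomputable def ia (h : LL F ζ t ≃ₐ[F] LL F ζ t) : ZMod 9 := (D.gal_action h).choose

/-- the multiplier -/
noncomputable def ie (h : LL F ζ t ≃ₐ[F] LL F ζ t) : ZMod 3 :=
  (D.gal_action h).choose_spec.choose

lemma spec_zz (h : LL F ζ t ≃ₐ[F] LL F ζ t) (k : ZMod 9) :
    (h ⟨zz ζ t k, D.zz_mem k⟩ : Ω) = zz ζ t (mu (D.ie h) * k + D.ia h) :=
  ((D.gal_action h).choose_spec.choose_spec k).1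

lemma spec_yy (h : LL F ζ t ≃ₐ[F] LL F ζ t) (k : ZMod 9) :
    (h ⟨yy ζ t k, D.AA_le_LL (D.yy_mem k)⟩ : Ω) = yy ζ t (mu (D.ie h) * k + 3 * D.ia h) :=
  ((D.gal_action h).choose_spec.choose_spec k).2

lemma idx_unique (h : LL F ζ t ≃ₐ[F] LL F ζ t) {a : ZMod 9} {e : ZMod 3}
    (H : ∀ k : ZMod 9, (h ⟨zz ζ t k, D.zz_mem k⟩ : Ω) = zz ζ t (mu e * k + a)) :
    D.ia h = a ∧ D.ie h = e := by
  have := D.charZero
  have h0 : mu (D.ie h) * 0 + D.ia h = mu e * 0 + a :=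
    D.zz_inj ((D.spec_zz h 0).symm.trans (H 0))
  have h1 : mu (D.ie h) * 1 + D.ia h = mu e * 1 + a :=
    D.zz_inj ((D.spec_zz h 1).symm.trans (H 1))
  rw [mul_zero, mul_zero, zero_add, zero_add] at h0
  rw [h0, mul_one, mul_one] at h1
  exact ⟨h0, mu_injective _ _ (add_right_cancel h1)⟩

lemma idx_mul (h h' : LL F ζ t ≃ₐ[F] LL F ζ t) :
    D.ia (h * h') = D.ia h + mu (D.ie h) * D.ia h' ∧ D.ie (h * h') = D.ie h + D.ie h' := by
  apply D.idx_unique
  intro k
  have h1 : h' ⟨zz ζ t k, D.zz_mem k⟩ =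
      ⟨zz ζ t (mu (D.ie h') * k + D.ia h'), D.zz_mem _⟩ := Subtype.ext (D.spec_zz h' k)
  change ((h (h' ⟨zz ζ t k, D.zz_mem k⟩) : LL F ζ t) : Ω) = _
  rw [h1, D.spec_zz, mu_add]
  congr 1
  ring

lemma idx_one : D.ia (1 : LL F ζ t ≃ₐ[F] LL F ζ t) = 0 ∧
    D.ie (1 : LL F ζ t ≃ₐ[F] LL F ζ t) = 0 := by
  apply D.idx_unique
  intro k
  rw [mu_zero, one_mul, add_zero]
  rfl

lemma idx_inj {h h' : LL F ζ t ≃ₐ[F] LL F ζ t} (h1 : D.ia h = D.ia h') (h2 : D.ie h = D.ie h') :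
    h = h' := by
  apply D.gal_ext
  intro k
  rw [D.spec_zz, D.spec_zz, h1, h2]

/-- the Galois group is a 3-group -/
lemma pow_27 (h : LL F ζ t ≃ₐ[F] LL F ζ t) : h ^ 27 = 1 := by
  have key : ∀ n : ℕ, D.ie (h ^ n) = n * D.ie h := by
    intro n
    induction n with
    | zero => simp [(D.idx_one).2]
    | succ n ih => rw [pow_succ, (D.idx_mul _ _).2, ih]; push_cast; ring
  have e3 : D.ie (h ^ 3) = 0 := by
    rw [key]
    have : ∀ x : ZMod 3, ((3 : ℕ) : ZMod 3) * x = 0 := by decide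
    exact this _
  have key2 : ∀ n : ℕ, D.ia ((h ^ 3) ^ n) = n * D.ia (h ^ 3) ∧ D.ie ((h ^ 3) ^ n) = 0 := by
    intro n
    induction n with
    | zero => simp [(D.idx_one).2, (D.idx_one).1]
    | succ n ih =>
      rw [pow_succ, (D.idx_mul _ _).2, (D.idx_mul _ _).1, ih.1, ih.2, e3, mu_zero]
      push_cast
      constructor
      · ring
      · ring
  have h9 := key2 9
  rw [← pow_mul] at h9
  apply D.idx_inj
  · rw [h9.1, (D.idx_one).1]
    have : ∀ x : ZMod 9, ((9 : ℕ) : ZMod 9) * x = 0 := by decide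
    exact this _
  · rw [h9.2, (D.idx_one).2]

lemma LL_galois : IsGalois F (LL F ζ t) := by
  have := D.LL_normal
  constructor

lemma AA_galois : IsGalois F (AA F ζ t) := by
  have := D.AA_normal
  constructor

/-- the degree of `LL` is a power of 3 -/
lemma LL_finrank : ∃ n, Module.finrank F (LL F ζ t) = 3 ^ n := by
  have := D.LL_fin
  have := D.LL_galois
  rw [← IsGalois.card_aut_eq_finrank]
  have hp : IsPGroup 3 (LL F ζ t ≃ₐ[F] LL F ζ t) := by
    intro g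
    exact ⟨3, D.pow_27 g⟩
  have : Fact (Nat.Prime 3) := ⟨Nat.prime_three⟩
  exact IsPGroup.iff_card.1 hp

/-- an element fixing `AA` is a translation by a multiple of 3 -/
lemma idx_of_fix_AA (h : LL F ζ t ≃ₐ[F] LL F ζ t)
    (H : ∀ x : LL F ζ t, (x : Ω) ∈ AA F ζ t → h x = x) : 3 * D.ia h = 0 ∧ D.ie h = 0 := by
  have := D.charZero
  have h1 : ∀ k : ZMod 9, mu (D.ie h) * k + 3 * D.ia h = k := by
    intro k
    apply D.yy_inj
    rw [← D.spec_yy h k]
    rw [H _ (D.yy_mem k)]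
  have h0 := h1 0
  rw [mul_zero, zero_add] at h0
  have h2 := h1 1
  rw [h0, add_zero, mul_one, ← mu_zero] at h2
  exact ⟨h0, mu_injective _ _ h2⟩

end Dat

end Pool.Agent.Lib.MP_aa8fd2_nt
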