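import Pool.Agent.Lib.MP_aa8fd2_nt.ExExists
import Pool.Agent.Lib.MP_aa8fd2_nt.Setup

set_option autoImplicit false
set_option linter.unusedSectionVars false

/-! The field of degree 27 is totally real and unramified outside 6. -/

namespace Pool.Agent.Lib.MP_aa8fd2_nt

open IntermediateField NumberField

/-- ring homomorphisms out of `F = ℚ(φ)` which agree on `φ` are equal -/
lemma hom_ext_phi {F : Type*} [Field F] [NumberField F] {φ : F} (hφ : φ ^ 2 = φ + 1)
    (hF : Module.finrank ℚ F = 2) {S : Type*} [Field S] [CharZero S] (f g : F →+* S)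
    (h : f φ = g φ) : f = g := by
  ext x
  have hx : x ∈ ℚ⟮φ⟯ := by rw [adjoin_phi hφ hF]; exact mem_top
  induction hx using adjoin_induction with
  | mem x hx => rw [Set.mem_singleton_iff.1 hx]; exact h
  | algebraMap q =>
    have h1 : f.comp (algebraMap ℚ F) = g.comp (algebraMap ℚ F) := RingHom.ext_rat _ _
    exact congrArg (fun g : ℚ →+* S => g q) h1
  | add x y _ _ hx hy => rw [map_add, map_add, hx, hy]
  | inv x _ hx => rw [map_inv₀, map_inv₀, hx]
  | mul x y _ _ hx hy => rw [map_mul, map_mul, hx, hy]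

lemma conj_golden {z : ℂ} (h : z ^ 2 = z + 1) : starRingEnd ℂ z = z := by
  have h1 : (starRingEnd ℂ z) ^ 2 = starRingEnd ℂ z + 1 := by
    rw [← map_pow, h, map_add, map_one]
  have h2 : (starRingEnd ℂ z - z) * (starRingEnd ℂ z + z - 1) = 0 := by
    linear_combination h1 - h
  rcases mul_eq_zero.1 h2 with h3 | h3
  · exact sub_eq_zero.1 h3
  · exfalso
    have h4 : z * starRingEnd ℂ z = -1 := by
      have : starRingEnd ℂ z = 1 - z := by linear_combination h3
      rw [this]; linear_combination -h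
    rw [Complex.mul_conj] at h4
    have h5 : Complex.normSq z = -1 := by exact_mod_cast h4
    have := Complex.normSq_nonneg z
    linarith

section

variable {F : Type*} [Field F] [NumberField F] {φ : F} {Ω : Type*} [Field Ω] [Algebra F Ω]
  [IsAlgClosure F Ω] {ζ t : Ω}

namespace Dat

lemma conj_zz [CharZero Ω] {φ : Ω} (D : Dat φ ζ t) (ι : Ω →+* ℂ) (k : ZMod 9) :
    starRingEnd ℂ (ι (zz ζ t k)) = ι (zz ζ t k) := by
  have hφ : starRingEnd ℂ (ι φ) = ι φ := by
    apply conj_golden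
    rw [← map_pow, D.hφ, map_add, map_one]
  have hζ1 : ‖ι ζ‖ = 1 := (D.hζ.map_of_injective ι.injective).norm'_eq_one (by norm_num)
  have hζ : starRingEnd ℂ (ι ζ) = ι ζ⁻¹ := by
    rw [map_inv₀, Complex.inv_eq_conj hζ1]
  have hee : ∀ j : ZMod 9, starRingEnd ℂ (ι (ee ζ j)) = ι (ee ζ (-j)) := by
    intro j
    have h1 : ee ζ j = ζ ^ j.val := rfl
    rw [D.ee_neg, h1, map_pow, map_pow, hζ, ← map_pow, inv_pow]
  have hζ3 : starRingEnd ℂ (ι (ζ ^ 3)) = ι (-1 - ζ ^ 3) := by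
    have h1 : ζ ^ 3 = ee ζ 3 := by
      have := D.ee_natCast 3
      exact_mod_cast this.symm
    have h2 : ee ζ (-3) = -1 - ζ ^ 3 := by
      have h3 : (-3 : ZMod 9) = ((6 : ℕ) : ZMod 9) := by decide
      rw [h3, D.ee_natCast]
      linear_combination D.omega
    rw [← h2, h1, hee]
  have ht9 : starRingEnd ℂ (ι t) ^ 9 = ι (2 * t⁻¹) ^ 9 := by
    rw [← map_pow, ← map_pow, ← map_pow, D.ht, D.t'_pow]
    simp only [map_mul, map_add, map_sub, map_ofNat, map_one] at hζ3 ⊢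
    rw [map_pow, map_pow] at *
    rw [hφ, hζ3]
    simp only [map_neg, map_one]
    ring
  have ht0 : ι t ≠ 0 := by
    rw [Ne, map_eq_zero]; exact D.t_ne
  have hn : ‖ι t‖ = ‖ι (2 * t⁻¹)‖ := by
    have h1 : ‖starRingEnd ℂ (ι t) ^ 9‖ = ‖ι (2 * t⁻¹) ^ 9‖ := by rw [ht9]
    rw [norm_pow, norm_pow, RCLike.norm_conj] at h1
    exact (pow_left_inj₀ (norm_nonneg _) (norm_nonneg _) (by norm_num)).1 h1
  have hn2 : Complex.normSq (ι t) = 2 := by
    rw [Complex.normSq_eq_norm_sq]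
    rw [map_mul, map_inv₀, norm_mul, norm_inv, map_ofNat] at hn
    have h0 : ‖ι t‖ ≠ 0 := norm_ne_zero_iff.2 ht0
    have h2 : ‖(2 : ℂ)‖ = 2 := by simp
    rw [h2] at hn
    field_simp at hn
    exact hn
  have ht : starRingEnd ℂ (ι t) = ι (2 * t⁻¹) := by
    have h1 : ι t * starRingEnd ℂ (ι t) = 2 := by
      rw [Complex.mul_conj, hn2]; norm_num
    rw [map_mul, map_inv₀, map_ofNat]
    field_simp
    linear_combination h1
  have ht' : starRingEnd ℂ (ι (t⁻¹)) = ι (t / 2) := by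
    rw [map_inv₀, map_inv₀, ht, map_mul, map_inv₀, map_div₀, map_ofNat]
    field_simp
  rw [D.zz_eq]
  simp only [map_add, map_mul, map_ofNat]
  rw [hee, hee, ht, ht', neg_neg]
  simp only [map_mul, map_div₀, map_ofNat]
  ring

theorem totReal (D : Dat (algebraMap F Ω φ) ζ t) (hφ : φ ^ 2 = φ + 1)
    (hF : Module.finrank ℚ F = 2) : TotReal (LL F ζ t) := by
  have := D.charZero
  intro i x
  have : Algebra.IsAlgebraic F Ω := IsAlgClosure.isAlgebraic
  let _ : Algebra (LL F ζ t) ℂ := i.toAlgebra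
  have : Algebra.IsAlgebraic (LL F ζ t) Ω := Algebra.IsAlgebraic.tower_top (K := F) _
  let ι' : Ω →ₐ[LL F ζ t] ℂ := IsAlgClosed.lift
  let ι : Ω →+* ℂ := ι'
  have hι : ∀ y : LL F ζ t, ι (y : Ω) = i y := fun y => ι'.commutes y
  rw [← Complex.conj_eq_iff_im, ← hι]
  obtain ⟨x, hx⟩ := x
  change starRingEnd ℂ (ι x) = ι x
  unfold LL at hx
  induction hx using adjoin_induction with
  | mem x hx => obtain ⟨k, rfl⟩ := hx; exact D.conj_zz ι k
  | algebraMap x =>
    have h1 : (starRingEnd ℂ).comp (ι.comp (algebraMap F Ω)) = ι.comp (algebraMap F Ω) := by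
      apply hom_ext_phi hφ hF
      change starRingEnd ℂ (ι (algebraMap F Ω φ)) = ι (algebraMap F Ω φ)
      apply conj_golden
      rw [← map_pow, D.hφ, map_add, map_one]
    exact congrArg (fun g : F →+* ℂ => g x) h1
  | add x y _ _ hx hy => rw [map_add, map_add, hx, hy]
  | inv x _ hx => rw [map_inv₀, map_inv₀, hx]
  | mul x y _ _ hx hy => rw [map_mul, map_mul, hx, hy]

theorem unr6 (D : Dat (algebraMap F Ω φ) ζ t) : Unr6 (LL F ζ t) := by
  have := D.charZero
  have : Normal F Ω := IsAlgClosure.normal F Ω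
  intro K' hle hfin hgal Q hQ h6 σ hσ
  -- `σ` fixes the generators
  have hgen : ∀ k : ZMod 9, σ ⟨zz ζ t k, hle (D.zz_mem k)⟩ = ⟨zz ζ t k, hle (D.zz_mem k)⟩ := by
    intro k
    let τ : Ω ≃ₐ[F] Ω := σ.liftNormal Ω
    have hτ : ∀ x : K', τ (x : Ω) = σ x := fun x => σ.liftNormal_commutes Ω x
    obtain ⟨a, e, h1⟩ := D.action (τ : Ω →+* Ω) (τ.commutes φ)
    have h2 : (σ ⟨zz ζ t k, hle (D.zz_mem k)⟩ : Ω) = zz ζ t (mu e * k + a) := by
      rw [← hτ]; exact (h1 k).1
    apply Subtype.ext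
    rw [h2]
    change zz ζ t (mu e * k + a) = zz ζ t k
    by_contra hne
    have hne' : mu e * k + a ≠ k := fun h => hne (by rw [h])
    obtain ⟨w, hw, hw2⟩ := D.zz_sub_dvd hne'
    -- elements of `𝓞 K'`
    have hz : ∀ j, zz ζ t j ∈ K' := fun j => hle (D.zz_mem j)
    have hsub : zz ζ t (mu e * k + a) - zz ζ t k ≠ 0 := sub_ne_zero.2 hne
    have hwK : w ∈ K' := by
      have h3 : w = 6 ^ 4 / (zz ζ t (mu e * k + a) - zz ζ t k) := by
        rw [eq_div_iff hsub, ← hw2]; ring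
      rw [h3]
      exact div_mem (pow_mem (ofNat_mem _ 6) 4) (sub_mem (hz _) (hz _))
    have hint : ∀ (x : Ω) (hx : x ∈ K'), IsIntegral ℤ x → IsIntegral ℤ (⟨x, hx⟩ : K') := by
      intro x hx h
      exact (isIntegral_algebraMap_iff (FaithfulSMul.algebraMap_injective K' Ω)).1 h
    let W : 𝓞 K' := ⟨⟨w, hwK⟩, hint _ _ hw⟩
    let X : 𝓞 K' := ⟨⟨zz ζ t k, hz _⟩, hint _ _ (D.zz_int _)⟩
    let Y : 𝓞 K' := ⟨⟨zz ζ t (mu e * k + a), hz _⟩, hint _ _ (D.zz_int _)⟩
    have hXY : Y - X ∈ Q := by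
      apply hσ
      exact Subtype.ext h2.symm
    have h4 : (Y - X) * W = 6 ^ 4 := by
      apply RingOfIntegers.ext
      apply Subtype.ext
      exact hw2
    have h5 : (6 : 𝓞 K') ^ 4 ∈ Q := by rw [← h4]; exact Q.mul_mem_right _ hXY
    exact h6 (hQ.mem_of_pow_mem 4 h5)
  -- hence all of `LL`
  intro x hx
  obtain ⟨x, hxK⟩ := x
  change x ∈ LL F ζ t at hx
  have key : ∀ y : Ω, y ∈ LL F ζ t → ∀ hy : y ∈ K', σ ⟨y, hy⟩ = ⟨y, hy⟩ := by
    intro y hy
    unfold LL at hy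
    induction hy using adjoin_induction with
    | mem x hx => obtain ⟨k, rfl⟩ := hx; exact fun _ => hgen k
    | algebraMap x => intro _; exact σ.commutes x
    | add x y hx hy hx' hy' =>
      intro _
      have := hx' (hle hx)
      have := hy' (hle hy)
      have h : (⟨x + y, by assumption⟩ : K') = ⟨x, hle hx⟩ + ⟨y, hle hy⟩ := rfl
      rw [h, map_add, hx', hy']
    | inv x hx hx' =>
      intro _
      have h : (⟨x⁻¹, by assumption⟩ : K') = ⟨x, hle hx⟩⁻¹ := rfl
      rw [h, map_inv₀, hx']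
    | mul x y hx hy hx' hy' =>
      intro _
      have h : (⟨x * y, by assumption⟩ : K') = ⟨x, hle hx⟩ * ⟨y, hle hy⟩ := rfl
      rw [h, map_mul, hx', hy']
  exact key x hx hxK

end Dat

end

end Pool.Agent.Lib.MP_aa8fd2_nt
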