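import Pool.Agent.Lib.MP_aa8fd2_nt.ExRep

set_option autoImplicit false
set_option linter.unusedSectionVars false

/-! The field `AA` of degree 9 and its four cubic subfields. -/

namespace Pool.Agent.Lib.MP_aa8fd2_nt

open IntermediateField NumberField

/-- 0, 3, 6 -/
def th (j : ZMod 3) : ZMod 9 := if j = 0 then 0 else if j = 1 then 3 else 6

lemma th_add : ∀ i j : ZMod 3, th (i + j) = th i + th j := by decide

lemma mu_th : ∀ e j : ZMod 3, mu e * th j = th j := by decide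

lemma th_inj : ∀ i j : ZMod 3, th i = th j → i = j := by decide

lemma three_mul_eq : ∀ a : ZMod 9, ∃ j : ZMod 3, 3 * a = th j := by decide

lemma th_eq_three_mul : ∀ j : ZMod 3, ∃ a : ZMod 9, 3 * a = th j := by decide

namespace Dat

section

variable {Ω : Type*} [Field Ω] [CharZero Ω] {φ ζ t : Ω} (D : Dat φ ζ t)

include D

lemma yy_mul (i m : ZMod 9) : yy ζ t i ^ 2 - yy ζ t (i + m) * yy ζ t (i - m) =
    4 - 2 * (ee ζ (2 * m) + ee ζ (-(2 * m))) := by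
  have h1 : i - m = i + -m := by ring
  have h2 : 2 * m = m + m := by ring
  rw [h1, h2, D.yy_eq, D.yy_eq, D.yy_eq]
  simp only [neg_add, neg_neg, D.ee_add, D.ee_neg]
  have := D.t_ne
  have := D.ee_ne i
  have := D.ee_ne m
  field_simp
  ring

/-- the generator of the maximal real subfield of `ℚ(ζ)` -/
lemma beta_eq (i : ZMod 9) : ζ + ζ⁻¹ =
    (4 - yy ζ t i ^ 2 + yy ζ t (i + 5) * yy ζ t (i - 5)) / 2 := by
  have h := D.yy_mul i 5
  have h1 : (2 : ZMod 9) * 5 = 1 := by decide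
  rw [h1, D.ee_neg, D.ee_one] at h
  linear_combination (1 / 2) * h

lemma beta_cube : (ζ + ζ⁻¹) ^ 3 = 3 * (ζ + ζ⁻¹) - 1 := by
  have h0 : ζ ≠ 0 := D.hζ.ne_zero (by norm_num)
  field_simp
  linear_combination D.omega

lemma yy_cube_zero : yy ζ t 0 ^ 3 = 6 * yy ζ t 0 + 2 * (2 * φ - 1) := by
  rw [D.yy_cube, mul_zero, neg_zero, D.ee_zero]
  ring

lemma ee_three : ee ζ (3 * 1) = ζ ^ 3 := by
  have : (3 : ZMod 9) * 1 = ((3 : ℕ) : ZMod 9) := by decide
  rw [this, D.ee_natCast]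

lemma ee_neg_three : ee ζ (-(3 * 1)) = -1 - ζ ^ 3 := by
  have : (-((3 : ZMod 9) * 1)) = ((6 : ℕ) : ZMod 9) := by decide
  rw [this, D.ee_natCast]
  linear_combination D.omega

lemma ee_three' : ee ζ (3 * 2) = -1 - ζ ^ 3 := by
  have : (3 : ZMod 9) * 2 = ((6 : ℕ) : ZMod 9) := by decide
  rw [this, D.ee_natCast]
  linear_combination D.omega

lemma ee_neg_three' : ee ζ (-(3 * 2)) = ζ ^ 3 := by
  have : (-((3 : ZMod 9) * 2)) = ((3 : ℕ) : ZMod 9) := by decide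
  rw [this, D.ee_natCast]

lemma yy_cube_one : yy ζ t 1 ^ 3 = 6 * yy ζ t 1 - 2 * φ ^ 2 := by
  rw [D.yy_cube, D.ee_three, D.ee_neg_three, D.hφ]
  linear_combination 4 * D.omega

lemma yy_cube_two : yy ζ t 2 ^ 3 = 6 * yy ζ t 2 + 2 * (2 - φ) := by
  rw [D.yy_cube, D.ee_three', D.ee_neg_three']
  linear_combination (-4) * D.omega

end

variable {F : Type*} [Field F] [NumberField F] {φ : F} {Ω : Type*} [Field Ω] [Algebra F Ω]
  [Normal F Ω] {ζ t : Ω} (D : Dat (algebraMap F Ω φ) ζ t)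

include D

/-- the action of the Galois group of `AA` on the generators -/
lemma galA_action (h : AA F ζ t ≃ₐ[F] AA F ζ t) : ∃ (j e : ZMod 3), ∀ k : ZMod 9,
    (h ⟨yy ζ t k, D.yy_mem k⟩ : Ω) = yy ζ t (mu e * k + th j) := by
  have := D.charZero
  have := D.AA_normal
  let σ : Ω ≃ₐ[F] Ω := h.liftNormal Ω
  have hσ : ∀ x : AA F ζ t, σ (x : Ω) = h x := fun x => h.liftNormal_commutes Ω x
  obtain ⟨a, e, h1⟩ := D.action (σ : Ω →+* Ω) (σ.commutes φ)
  obtain ⟨j, hj⟩ := three_mul_eq a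
  refine ⟨j, e, fun k => ?_⟩
  have h2 := (h1 k).2
  rw [← hσ, ← hj]
  exact h2

lemma galA_ext {h h' : AA F ζ t ≃ₐ[F] AA F ζ t}
    (H : ∀ k : ZMod 9, (h ⟨yy ζ t k, D.yy_mem k⟩ : Ω) = h' ⟨yy ζ t k, D.yy_mem k⟩) : h = h' := by
  have hh : (h : AA F ζ t →ₐ[F] AA F ζ t) = h' := by
    apply algHom_ext_of_eq_adjoin (S := AA F ζ t) F rfl
    rintro x ⟨k, rfl⟩
    exact Subtype.ext (H k)
  apply AlgEquiv.ext
  intro x
  exact congrArg (fun f : AA F ζ t →ₐ[F] AA F ζ t => f x) hh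

/-- the translation part -/
noncomputable def ja (h : AA F ζ t ≃ₐ[F] AA F ζ t) : ZMod 3 := (D.galA_action h).choose

/-- the multiplier -/
noncomputable def je (h : AA F ζ t ≃ₐ[F] AA F ζ t) : ZMod 3 :=
  (D.galA_action h).choose_spec.choose

lemma specA (h : AA F ζ t ≃ₐ[F] AA F ζ t) (k : ZMod 9) :
    (h ⟨yy ζ t k, D.yy_mem k⟩ : Ω) = yy ζ t (mu (D.je h) * k + th (D.ja h)) :=
  (D.galA_action h).choose_spec.choose_spec k

lemma idxA_unique (h : AA F ζ t ≃ₐ[F] AA F ζ t) {j e : ZMod 3}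
    (H : ∀ k : ZMod 9, (h ⟨yy ζ t k, D.yy_mem k⟩ : Ω) = yy ζ t (mu e * k + th j)) :
    D.ja h = j ∧ D.je h = e := by
  have := D.charZero
  have h0 : mu (D.je h) * 0 + th (D.ja h) = mu e * 0 + th j :=
    D.yy_inj ((D.specA h 0).symm.trans (H 0))
  have h1 : mu (D.je h) * 1 + th (D.ja h) = mu e * 1 + th j :=
    D.yy_inj ((D.specA h 1).symm.trans (H 1))
  rw [mul_zero, mul_zero, zero_add, zero_add] at h0
  rw [h0, mul_one, mul_one] at h1
  exact ⟨th_inj _ _ h0, mu_injective _ _ (add_right_cancel h1)⟩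

lemma idxA_mul (h h' : AA F ζ t ≃ₐ[F] AA F ζ t) :
    D.ja (h * h') = D.ja h + D.ja h' ∧ D.je (h * h') = D.je h + D.je h' := by
  apply D.idxA_unique
  intro k
  have h1 : h' ⟨yy ζ t k, D.yy_mem k⟩ =
      ⟨yy ζ t (mu (D.je h') * k + th (D.ja h')), D.yy_mem _⟩ := Subtype.ext (D.specA h' k)
  change ((h (h' ⟨yy ζ t k, D.yy_mem k⟩) : AA F ζ t) : Ω) = _
  rw [h1, D.specA, mu_add, th_add, mul_add, mu_th]
  congr 1
  ring

lemma idxA_one : D.ja (1 : AA F ζ t ≃ₐ[F] AA F ζ t) = 0 ∧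
    D.je (1 : AA F ζ t ≃ₐ[F] AA F ζ t) = 0 := by
  apply D.idxA_unique
  intro k
  have : th 0 = 0 := by decide
  rw [mu_zero, one_mul, this, add_zero]
  rfl

lemma idxA_inj {h h' : AA F ζ t ≃ₐ[F] AA F ζ t} (h1 : D.ja h = D.ja h') (h2 : D.je h = D.je h') :
    h = h' := by
  apply D.galA_ext
  intro k
  rw [D.specA, D.specA, h1, h2]

/-- the Galois group of `AA`, as a group of pairs -/
noncomputable def galAHom : (AA F ζ t ≃ₐ[F] AA F ζ t) →* Multiplicative (ZMod 3 × ZMod 3) :=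
  MonoidHom.mk' (fun h => Multiplicative.ofAdd (D.ja h, D.je h)) (by
    intro h h'
    rw [(D.idxA_mul h h').1, (D.idxA_mul h h').2]
    rfl)

lemma galAHom_injective : Function.Injective D.galAHom := by
  intro h h' H
  have H' : (D.ja h, D.je h) = (D.ja h', D.je h') := H
  exact D.idxA_inj (congrArg Prod.fst H') (congrArg Prod.snd H')

end Dat

section

variable {F : Type*} [Field F] [NumberField F] {φ : F} {Ω : Type*} [Field Ω] [Algebra F Ω]
  [IsAlgClosure F Ω] {ζ t : Ω}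

namespace Dat

lemma galAHom_surjective [Normal F Ω] (D : Dat (algebraMap F Ω φ) ζ t) (hφ : φ ^ 2 = φ + 1)
    (hF : Module.finrank ℚ F = 2) : Function.Surjective D.galAHom := by
  intro x
  obtain ⟨j, e⟩ := x
  obtain ⟨a, ha⟩ := th_eq_three_mul j
  obtain ⟨g, hg1, hg2⟩ := D.exists_gal hφ hF a e
  have := D.LL_normal
  have := D.AA_normal
  let σ : Ω ≃ₐ[F] Ω := g.liftNormal Ω
  have hσ : ∀ x : LL F ζ t, σ (x : Ω) = g x := fun x => g.liftNormal_commutes Ω x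
  refine ⟨σ.restrictNormal (AA F ζ t), ?_⟩
  have h1 : D.ja (σ.restrictNormal (AA F ζ t)) = j ∧
      D.je (σ.restrictNormal (AA F ζ t)) = e := by
    apply D.idxA_unique
    intro k
    have h2 := σ.restrictNormal_commutes (AA F ζ t) ⟨yy ζ t k, D.yy_mem k⟩
    have h3 : (algebraMap (AA F ζ t) Ω) ⟨yy ζ t k, D.yy_mem k⟩ = yy ζ t k := rfl
    rw [h3] at h2
    have h4 : ((σ.restrictNormal (AA F ζ t)) ⟨yy ζ t k, D.yy_mem k⟩ : Ω) = σ (yy ζ t k) := h2
    rw [h4]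
    have h5 := hσ ⟨yy ζ t k, D.AA_le_LL (D.yy_mem k)⟩
    change σ (yy ζ t k) = _ at h5
    rw [h5, D.spec_yy, hg1, hg2, ha]
  change Multiplicative.ofAdd (D.ja _, D.je _) = _
  rw [h1.1, h1.2]
  rfl

/-- the Galois group of `AA` is elementary abelian of order 9 -/
noncomputable def galAEquiv [Normal F Ω] (D : Dat (algebraMap F Ω φ) ζ t) (hφ : φ ^ 2 = φ + 1)
    (hF : Module.finrank ℚ F = 2) :
    (AA F ζ t ≃ₐ[F] AA F ζ t) ≃* Multiplicative (ZMod 3 × ZMod 3) :=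
  MulEquiv.ofBijective D.galAHom ⟨D.galAHom_injective, D.galAHom_surjective hφ hF⟩

lemma finrank_AA [Normal F Ω] (D : Dat (algebraMap F Ω φ) ζ t) (hφ : φ ^ 2 = φ + 1)
    (hF : Module.finrank ℚ F = 2) : Module.finrank F (AA F ζ t) = 9 := by
  have := D.AA_fin
  have := D.AA_galois
  rw [← IsGalois.card_aut_eq_finrank, Nat.card_congr (D.galAEquiv hφ hF).toEquiv]
  simp

lemma galA_cube [Normal F Ω] (D : Dat (algebraMap F Ω φ) ζ t) (g : AA F ζ t ≃ₐ[F] AA F ζ t) :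
    g ^ 3 = 1 := by
  apply D.galAHom_injective
  rw [map_pow, map_one]
  have : ∀ x : ZMod 3 × ZMod 3, 3 • x = 0 := by decide
  exact this (Multiplicative.toAdd (D.galAHom g))

/-- An automorphism of `AA` different from `1` fixes a root of one of four cubic equations. -/
theorem fixed_cubic [Normal F Ω] (D : Dat (algebraMap F Ω φ) ζ t)
    (g : AA F ζ t ≃ₐ[F] AA F ζ t) :
    ∃ x : AA F ζ t, g x = x ∧ (x ^ 3 = 3 * x - 1 ∨
      x ^ 3 = 6 * x + 2 * (2 * algebraMap F (AA F ζ t) φ - 1) ∨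
      x ^ 3 = 6 * x + 2 * algebraMap F (AA F ζ t) φ ^ 2 ∨
      x ^ 3 = 6 * x + 2 * (2 - algebraMap F (AA F ζ t) φ)) := by
  have := D.charZero
  have hφA : ((algebraMap F (AA F ζ t) φ : AA F ζ t) : Ω) = algebraMap F Ω φ := rfl
  -- values
  have hy : ∀ k : ZMod 9, mu (D.je g) * k + th (D.ja g) = k →
      g ⟨yy ζ t k, D.yy_mem k⟩ = ⟨yy ζ t k, D.yy_mem k⟩ := by
    intro k hk
    apply Subtype.ext
    rw [D.specA, hk]
  by_cases he : D.je g = 0
  · -- the real cyclotomic field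
    have hmem : ζ + ζ⁻¹ ∈ AA F ζ t := by
      rw [D.beta_eq 0]
      refine div_mem (add_mem (sub_mem (ofNat_mem _ 4) (pow_mem (D.yy_mem _) 2))
        (mul_mem (D.yy_mem _) (D.yy_mem _))) (ofNat_mem _ 2)
    refine ⟨⟨ζ + ζ⁻¹, hmem⟩, ?_, Or.inl ?_⟩
    · have h1 : ∀ i : ZMod 9, (⟨ζ + ζ⁻¹, hmem⟩ : AA F ζ t) =
          (4 - ⟨yy ζ t i, D.yy_mem i⟩ ^ 2 +
            ⟨yy ζ t (i + 5), D.yy_mem _⟩ * ⟨yy ζ t (i - 5), D.yy_mem _⟩) / 2 := by
        intro i
        apply Subtype.ext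
        exact D.beta_eq i
      have h2 : ∀ i : ZMod 9, g ⟨yy ζ t i, D.yy_mem i⟩ =
          ⟨yy ζ t (i + th (D.ja g)), D.yy_mem _⟩ := by
        intro i
        apply Subtype.ext
        rw [D.specA, he, mu_zero, one_mul]
      conv_lhs => rw [h1 0]
      rw [map_div₀, map_add, map_sub, map_pow, map_mul, h2, h2, h2]
      simp only [map_ofNat]
      rw [h1 (th (D.ja g))]
      have e1 : (0 : ZMod 9) + th (D.ja g) = th (D.ja g) := by ring
      have e2 : (0 : ZMod 9) + 5 + th (D.ja g) = th (D.ja g) + 5 := by ring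
      have e3 : (0 : ZMod 9) - 5 + th (D.ja g) = th (D.ja g) - 5 := by ring
      simp only [e1, e2, e3]
    · apply Subtype.ext
      exact D.beta_cube
  · have key : ∀ j e : ZMod 3, e ≠ 0 → mu e * 0 + th j = 0 ∨ mu e * 1 + th j = 1 ∨
        mu e * 2 + th j = 2 := by decide
    rcases key (D.ja g) (D.je g) he with h | h | h
    · refine ⟨⟨yy ζ t 0, D.yy_mem 0⟩, hy 0 h, Or.inr (Or.inl ?_)⟩
      apply Subtype.ext
      exact D.yy_cube_zero
    · refine ⟨-⟨yy ζ t 1, D.yy_mem 1⟩, by rw [map_neg, hy 1 h], Or.inr (Or.inr (Or.inl ?_))⟩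
      apply Subtype.ext
      change (-yy ζ t 1) ^ 3 = 6 * (-yy ζ t 1) + 2 * (algebraMap F Ω φ) ^ 2
      linear_combination -D.yy_cube_one
    · refine ⟨⟨yy ζ t 2, D.yy_mem 2⟩, hy 2 h, Or.inr (Or.inr (Or.inr ?_))⟩
      apply Subtype.ext
      exact D.yy_cube_two

/-- Every cubic subfield of `AA` contains a root of one of four cubic equations. -/
theorem cubic_subfield [Normal F Ω] (D : Dat (algebraMap F Ω φ) ζ t) (hφ : φ ^ 2 = φ + 1)
    (hF : Module.finrank ℚ F = 2) (K : IntermediateField F (AA F ζ t))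
    (hK : Module.finrank F K = 3) :
    ∃ x : K, (x ^ 3 = 3 * x - 1 ∨
      x ^ 3 = 6 * x + 2 * (2 * algebraMap F K φ - 1) ∨
      x ^ 3 = 6 * x + 2 * algebraMap F K φ ^ 2 ∨
      x ^ 3 = 6 * x + 2 * (2 - algebraMap F K φ)) := by
  have := D.AA_fin
  have := D.AA_galois
  have h1 : Module.finrank K (AA F ζ t) = 3 := by
    have h2 := Module.finrank_mul_finrank F K (AA F ζ t)
    rw [hK, D.finrank_AA hφ hF] at h2
    omega
  have h2 : Nat.card K.fixingSubgroup = 3 := by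
    rw [IsGalois.card_fixingSubgroup_eq_finrank, h1]
  have : Fact (Nat.Prime 3) := ⟨Nat.prime_three⟩
  have hcyc : IsCyclic K.fixingSubgroup := isCyclic_of_prime_card h2
  obtain ⟨g, hg⟩ := IsCyclic.exists_generator (α := K.fixingSubgroup)
  obtain ⟨x, hx, hx'⟩ := D.fixed_cubic (g : AA F ζ t ≃ₐ[F] AA F ζ t)
  have hxK : x ∈ K := by
    rw [← IsGalois.fixedField_fixingSubgroup K, mem_fixedField_iff]
    intro f hf
    obtain ⟨n, hn⟩ := hg ⟨f, hf⟩
    have h3 : f = (g : AA F ζ t ≃ₐ[F] AA F ζ t) ^ n := by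
      have := congrArg Subtype.val hn
      simpa using this.symm
    have h4 : (g : AA F ζ t ≃ₐ[F] AA F ζ t) ∈ MulAction.stabilizer (AA F ζ t ≃ₐ[F] AA F ζ t) x :=
      hx
    have h5 := Subgroup.zpow_mem _ h4 n
    rw [h3]
    exact h5
  refine ⟨⟨x, hxK⟩, ?_⟩
  rcases hx' with h | h | h | h
  · exact Or.inl (Subtype.ext h)
  · exact Or.inr (Or.inl (Subtype.ext h))
  · exact Or.inr (Or.inr (Or.inl (Subtype.ext h)))
  · exact Or.inr (Or.inr (Or.inr (Subtype.ext h)))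

end Dat

end

end Pool.Agent.Lib.MP_aa8fd2_nt
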