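import Mathlib

set_option autoImplicit false

/-! The fields `ℚ(√5)` and `F_4`. -/

namespace Pool.Agent.Lib.MP_aa8fd2_nt.Mazur

open IntermediateField Polynomial

theorem exists_quadratic_field : ∃ (F : Type) (_ : Field F) (_ : NumberField F) (φ : F),
    φ ^ 2 = φ + 1 ∧ Module.finrank ℚ F = 2 := by
  have h1 : (Real.goldenRatio) ^ 2 = Real.goldenRatio + 1 := Real.goldenRatio_sq
  have haeval : aeval Real.goldenRatio (X ^ 2 - X - 1 : ℚ[X]) = 0 := by
    simp
  have hdeg : (X ^ 2 - X - 1 : ℚ[X]).natDegree = 2 := by compute_degree!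
  have hne : (X ^ 2 - X - 1 : ℚ[X]) ≠ 0 := by
    intro h
    rw [h] at hdeg
    simp at hdeg
  have hmonic : (X ^ 2 - X - 1 : ℚ[X]).Monic := by
    monicity!
  have hint : IsIntegral ℚ Real.goldenRatio := ⟨_, hmonic, haeval⟩
  have hfd : FiniteDimensional ℚ ℚ⟮Real.goldenRatio⟯ := adjoin.finiteDimensional hint
  refine ⟨ℚ⟮Real.goldenRatio⟯, inferInstance, ⟨⟩, AdjoinSimple.gen ℚ Real.goldenRatio, ?_, ?_⟩
  · apply Subtype.ext
    exact h1
  · have h2 : Module.finrank ℚ ℚ⟮Real.goldenRatio⟯ ≤ 2 := by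
      rw [adjoin.finrank hint, ← hdeg]
      exact natDegree_le_of_dvd (minpoly.dvd ℚ _ haeval) hne
    have h3 : Module.finrank ℚ ℚ⟮Real.goldenRatio⟯ ≠ 1 := by
      intro h
      rw [finrank_adjoin_simple_eq_one_iff, mem_bot] at h
      obtain ⟨q, hq⟩ := h
      exact Real.goldenRatio_irrational ⟨q, hq⟩
    have h4 : 0 < Module.finrank ℚ ℚ⟮Real.goldenRatio⟯ := Module.finrank_pos
    omega

theorem exists_field_four : ∃ (k : Type) (_ : Field k) (_ : Finite k) (_ : CharP k 2) (w : k),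
    w ^ 2 + w + 1 = 0 := by
  have hcard : Nat.card (GaloisField 2 2) = 2 ^ 2 := GaloisField.card 2 2 (by norm_num)
  have hfin : Finite (GaloisField 2 2) := Nat.finite_of_card_ne_zero (by rw [hcard]; norm_num)
  have : Fintype (GaloisField 2 2) := Fintype.ofFinite _
  refine ⟨GaloisField 2 2, inferInstance, hfin, inferInstance, ?_⟩
  obtain ⟨w, hw0, hw1⟩ : ∃ w : GaloisField 2 2, w ≠ 0 ∧ w ≠ 1 := by
    by_contra hcon
    push Not at hcon
    classical
    have h1 : (Finset.univ : Finset (GaloisField 2 2)) ⊆ {0, 1} := by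
      intro x _
      rw [Finset.mem_insert, Finset.mem_singleton]
      by_cases h : x = 0
      · exact Or.inl h
      · exact Or.inr (hcon x h)
    have h2 := Finset.card_le_card h1
    rw [Finset.card_univ, ← Nat.card_eq_fintype_card, hcard] at h2
    have h3 : ({0, 1} : Finset (GaloisField 2 2)).card ≤ 2 := Finset.card_le_two
    omega
  refine ⟨w, ?_⟩
  have h3 : w ^ 3 = 1 := by
    have := FiniteField.pow_card_sub_one_eq_one w hw0
    rw [← Nat.card_eq_fintype_card, hcard] at this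
    exact this
  have h4 : (w - 1) * (w ^ 2 + w + 1) = 0 := by linear_combination h3
  exact (mul_eq_zero.mp h4).resolve_left (sub_ne_zero.mpr hw1)

end Pool.Agent.Lib.MP_aa8fd2_nt.Mazur
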