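import Pool.Agent.Lib.MP_aa8fd2_nt.Primes

/-!
Finiteness of the set of classes modulo squares of elements with even orders outside a finite
set of primes.
-/

set_option autoImplicit false

namespace Pool.Agent.Lib.MP_aa8fd2_nt

open IsDedekindDomain HeightOneSpectrum NumberField Module nonZeroDivisors

section FG

lemma finite_mod_squares (G : Type*) [CommGroup G] [Group.FG G] :
    ∃ T : Set G, T.Finite ∧ ∀ u : G, ∃ t ∈ T, ∃ y : G, u = t * y ^ 2 := by
  classical
  let Q := G ⧸ (powMonoidHom 2 : G →* G).range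
  have hfin : Finite Q := by
    apply CommGroup.finite_of_fg_isMulTorsion
    intro q
    obtain ⟨g, rfl⟩ := QuotientGroup.mk_surjective q
    rw [isOfFinOrder_iff_pow_eq_one]
    refine ⟨2, by norm_num, ?_⟩
    rw [← QuotientGroup.mk_pow, QuotientGroup.eq_one_iff]
    exact ⟨g, rfl⟩
  refine ⟨Set.range (Quotient.out : Q → G), Set.finite_range _, fun u => ?_⟩
  refine ⟨Quotient.out (QuotientGroup.mk u : Q), ⟨_, rfl⟩, ?_⟩
  have h : (QuotientGroup.mk (Quotient.out (QuotientGroup.mk u : Q)) : Q) = QuotientGroup.mk u :=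
    Quotient.out_eq' _
  rw [QuotientGroup.eq] at h
  obtain ⟨y, hy⟩ := h
  refine ⟨y, ?_⟩
  rw [show y ^ 2 = powMonoidHom 2 y from rfl, hy]
  group

end FG

section Sel

variable {R : Type*} [CommRing R] [IsDedekindDomain R] {K : Type*} [Field K]
  [Algebra R K] [IsFractionRing R K]

/-- `⌊ord v x / 2⌋` as a finitely supported function -/
noncomputable def halfOrd (x : Kˣ) : HeightOneSpectrum R →₀ ℤ :=
  Finsupp.ofSupportFinite (fun v => ord v x / 2)
    ((finite_ord_ne_zero (R := R) x).subset (by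
      intro v hv
      rw [Function.mem_support] at hv
      show ord v x ≠ 0
      intro h
      rw [h] at hv
      exact hv (by norm_num)))

lemma halfOrd_apply (x : Kˣ) (v : HeightOneSpectrum R) : halfOrd x v = ord v x / 2 := rfl

/-- the fractional ideal with prescribed orders -/
noncomputable def fracOf (K : Type*) [Field K] [Algebra R K] [IsFractionRing R K]
    (f : HeightOneSpectrum R →₀ ℤ) : (FractionalIdeal R⁰ K)ˣ :=
  Units.mk0 (f.prod (fun v e => (v.asIdeal : FractionalIdeal R⁰ K) ^ e)) (by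
    unfold Finsupp.prod
    rw [Finset.prod_ne_zero_iff]
    intro v _
    exact zpow_ne_zero _ (FractionalIdeal.coeIdeal_ne_zero.2 v.ne_bot))

lemma count_fracOf (f : HeightOneSpectrum R →₀ ℤ) (v : HeightOneSpectrum R) :
    FractionalIdeal.count K v (fracOf K f : FractionalIdeal R⁰ K) = f v :=
  FractionalIdeal.count_finsuppProd K v f

lemma exists_ord_eq_sub {f g : HeightOneSpectrum R →₀ ℤ}
    (h : ClassGroup.mk K (fracOf K f) = ClassGroup.mk K (fracOf K g)) :
    ∃ b : Kˣ, ∀ v : HeightOneSpectrum R, ord v b = f v - g v := by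
  have h1 : ClassGroup.mk K (fracOf K f / fracOf K g) = 1 := by
    rw [map_div, h, div_self']
  rw [ClassGroup.mk_eq_one_iff] at h1
  obtain ⟨x, hx⟩ := h1.principal
  have hx' : ((fracOf K f / fracOf K g : (FractionalIdeal R⁰ K)ˣ) : FractionalIdeal R⁰ K) =
      FractionalIdeal.spanSingleton R⁰ x := by
    apply FractionalIdeal.coeToSubmodule_injective
    show (((fracOf K f / fracOf K g : (FractionalIdeal R⁰ K)ˣ) : FractionalIdeal R⁰ K) :
      Submodule R K) = ((FractionalIdeal.spanSingleton R⁰ x : FractionalIdeal R⁰ K) : Submodule R K)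
    rw [FractionalIdeal.coe_spanSingleton]
    exact hx
  have hx0 : x ≠ 0 := by
    rintro rfl
    rw [FractionalIdeal.spanSingleton_zero] at hx'
    exact (Units.ne_zero _) hx'
  refine ⟨Units.mk0 x hx0, fun v => ?_⟩
  rw [← count_spanSingleton, Units.val_mk0, ← hx', Units.val_div_eq_div_val, div_eq_mul_inv,
    FractionalIdeal.count_mul K v (Units.ne_zero _) (inv_ne_zero (Units.ne_zero _)),
    FractionalIdeal.count_inv, count_fracOf, count_fracOf]
  ring

end Sel

variable {K : Type*} [Field K] [NumberField K]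

/-- The elements of `K^×` with even orders at the primes outside the finite set `S` form finitely
many classes modulo squares. -/
theorem finite_quadratic (S : Set (HeightOneSpectrum (𝓞 K))) (hS : S.Finite) :
    ∃ T : Set Kˣ, T.Finite ∧ ∀ x : Kˣ, (∀ v : HeightOneSpectrum (𝓞 K), v ∉ S → Even (ord v x)) →
      ∃ t ∈ T, ∃ y : Kˣ, x = t * y ^ 2 := by
  classical
  have hfg : Group.FG (𝓞 K)ˣ := Group.fg_iff_monoid_fg.2 inferInstance
  obtain ⟨T0, hT0, hT0'⟩ := finite_mod_squares (𝓞 K)ˣ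
  have := hS.fintype
  let Φ : Kˣ → (S → ZMod 2) × ClassGroup (𝓞 K) := fun x =>
    (fun v => ((ord v.1 x : ℤ) : ZMod 2), ClassGroup.mk K (fracOf K (halfOrd x)))
  let Sel : Set Kˣ := {x | ∀ v : HeightOneSpectrum (𝓞 K), v ∉ S → Even (ord v x)}
  -- choose a representative of each fibre
  let rep : (S → ZMod 2) × ClassGroup (𝓞 K) → Kˣ := fun a =>
    if h : ∃ x ∈ Sel, Φ x = a then h.choose else 1
  let m : (𝓞 K)ˣ →* Kˣ := Units.map (algebraMap (𝓞 K) K : 𝓞 K →* K)
  refine ⟨Set.image2 (fun a u => rep a * m u) Set.univ T0, Set.Finite.image2 _ Set.finite_univ hT0,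
    fun x hx => ?_⟩
  have hex : ∃ x' ∈ Sel, Φ x' = Φ x := ⟨x, hx, rfl⟩
  have hrep : rep (Φ x) = hex.choose := dif_pos hex
  obtain ⟨hr1, hr2⟩ := hex.choose_spec
  rw [← hrep] at hr1 hr2
  set r := rep (Φ x) with hr
  have hΦ := Prod.ext_iff.1 hr2
  obtain ⟨hp, hc⟩ := hΦ
  obtain ⟨b, hb⟩ := exists_ord_eq_sub (K := K) hc
  -- `r / (x * b ^ 2)` has trivial orders
  have hord : ∀ v : HeightOneSpectrum (𝓞 K), ord v (x * b ^ 2 * r⁻¹) = 0 := by
    intro v
    have hpar : (ord v r) % 2 = (ord v x) % 2 := by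
      by_cases hv : v ∈ S
      · have h1 := congrFun hp ⟨v, hv⟩
        exact (ZMod.intCast_eq_intCast_iff' _ _ 2).1 h1
      · have h1 := (hr1 v hv)
        have h2 := hx v hv
        rw [Int.even_iff] at h1 h2
        rw [h1, h2]
    have h3 := hb v
    rw [halfOrd_apply, halfOrd_apply] at h3
    rw [ord_mul, ord_mul, ord_pow, ord_inv, h3]
    push_cast
    omega
  obtain ⟨u, hu⟩ := exists_unit_of_ord_eq_zero K _ hord
  obtain ⟨t, ht, y, hy⟩ := hT0' u
  refine ⟨r * m t, ⟨Φ x, trivial, t, ht, rfl⟩, m y * b⁻¹, ?_⟩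
  have h4 : x * b ^ 2 * r⁻¹ = m t * m y ^ 2 := by
    rw [← hu, hy, map_mul, map_pow]
  have h5 : x = (m t * m y ^ 2) * r * (b ^ 2)⁻¹ := by
    rw [← h4]
    group
  have h6 : m t * m y ^ 2 * r * (b ^ 2)⁻¹ = r * m t * (m y * b⁻¹) ^ 2 := by
    rw [mul_pow, inv_pow]
    ac_rfl
  exact h5.trans h6

end Pool.Agent.Lib.MP_aa8fd2_nt
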