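import Pool.Agent.Lib.MP_aa8fd2_nt.MaxExt
import Pool.Agent.Lib.MP_aa8fd2_nt.FiniteQuadratic

/-!
An open subgroup of `G_{F,S}` has only finitely many continuous homomorphisms to `ℤ/2`.
-/

set_option autoImplicit false

namespace Pool.Agent.Lib.MP_aa8fd2_nt

open NumberField IsDedekindDomain Mazur

lemma zmod2_eq {x y : Multiplicative (ZMod 2)} (hx : x ≠ 1) (hy : y ≠ 1) : x = y := by
  revert x y
  decide

/-- Kummer theory for quadratic characters of a subgroup of an infinite Galois group. -/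
theorem exists_kummer {F Ω : Type*} [Field F] [Field Ω] [Algebra F Ω] [IsGalois F Ω]
    (U : Subgroup (Ω ≃ₐ[F] Ω)) (f : U →* Multiplicative (ZMod 2))
    (hW : IsClosed ((f.ker.map U.subtype : Subgroup (Ω ≃ₐ[F] Ω)) : Set (Ω ≃ₐ[F] Ω))) :
    ∃ b : Ω, b ≠ 0 ∧ ∀ σ : U, (f σ = 1 → (σ : Ω ≃ₐ[F] Ω) b = b) ∧
      (f σ ≠ 1 → (σ : Ω ≃ₐ[F] Ω) b = -b) := by
  by_cases htriv : ∀ σ, f σ = 1
  · exact ⟨1, one_ne_zero, fun σ => ⟨fun _ => map_one _, fun h => absurd (htriv σ) h⟩⟩
  push Not at htriv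
  obtain ⟨τ, hτ⟩ := htriv
  set W : Subgroup (Ω ≃ₐ[F] Ω) := f.ker.map U.subtype with hWdef
  have hmem : ∀ σ : U, (σ : Ω ≃ₐ[F] Ω) ∈ W ↔ f σ = 1 := by
    intro σ
    rw [hWdef, Subgroup.mem_map]
    constructor
    · rintro ⟨x, hx, hxσ⟩
      have : x = σ := Subtype.ext hxσ
      rw [← this]; exact hx
    · intro h
      exact ⟨σ, h, rfl⟩
  have hgal : (IntermediateField.fixedField W).fixingSubgroup = W :=
    InfiniteGalois.fixingSubgroup_fixedField (⟨W, hW⟩ : ClosedSubgroup (Ω ≃ₐ[F] Ω))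
  have hτW : (τ : Ω ≃ₐ[F] Ω) ∉ W := fun h => hτ ((hmem τ).1 h)
  have hτ' : (τ : Ω ≃ₐ[F] Ω) ∉ (IntermediateField.fixedField W).fixingSubgroup := by
    rw [hgal]
    exact hτW
  rw [IntermediateField.mem_fixingSubgroup_iff] at hτ'
  push Not at hτ'
  obtain ⟨c, hc, hcτ⟩ := hτ'
  rw [IntermediateField.mem_fixedField_iff] at hc
  have hcW : ∀ σ : U, f σ = 1 → (σ : Ω ≃ₐ[F] Ω) c = c := fun σ h => hc _ ((hmem σ).2 h)
  refine ⟨c - (τ : Ω ≃ₐ[F] Ω) c, sub_ne_zero.2 (Ne.symm hcτ), fun σ => ⟨fun hσ => ?_, fun hσ => ?_⟩⟩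
  · have h1 : (σ : Ω ≃ₐ[F] Ω) ((τ : Ω ≃ₐ[F] Ω) c) = (τ : Ω ≃ₐ[F] Ω) c := by
      have h2 := hcW (τ⁻¹ * σ * τ) (by rw [map_mul, map_mul, hσ, map_inv, mul_one, inv_mul_cancel])
      have h3 : (σ : Ω ≃ₐ[F] Ω) ((τ : Ω ≃ₐ[F] Ω) c) =
          (τ : Ω ≃ₐ[F] Ω) (((τ⁻¹ * σ * τ : U) : Ω ≃ₐ[F] Ω) c) := by
        have h4 : (σ * τ : U) = τ * (τ⁻¹ * σ * τ) := by group
        have h5 := congrArg (fun g : U => (g : Ω ≃ₐ[F] Ω) c) h4
        exact h5
      rw [h3, h2]
    rw [map_sub, hcW σ hσ, h1]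
  · have hσv : f σ = f τ := zmod2_eq hσ hτ
    have h1 : (σ : Ω ≃ₐ[F] Ω) c = (τ : Ω ≃ₐ[F] Ω) c := by
      have h2 := hcW (τ⁻¹ * σ) (by rw [map_mul, hσv, map_inv, inv_mul_cancel])
      have h3 : (σ : Ω ≃ₐ[F] Ω) c = (τ : Ω ≃ₐ[F] Ω) (((τ⁻¹ * σ : U) : Ω ≃ₐ[F] Ω) c) := by
        have h4 : (σ : U) = τ * (τ⁻¹ * σ) := by group
        have h5 := congrArg (fun g : U => (g : Ω ≃ₐ[F] Ω) c) h4
        exact h5
      rw [h3, h2]
    have h6 : (σ : Ω ≃ₐ[F] Ω) ((τ : Ω ≃ₐ[F] Ω) c) = c := by
      have h2 := hcW (σ * τ) (by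
        rw [map_mul, hσv]
        generalize f τ = z
        revert z
        decide)
      exact h2
    rw [map_sub, h1, h6, neg_sub]

section

variable {F : Type} [Field F] [NumberField F] {S : Finset (HeightOneSpectrum (𝓞 F))}

lemma finite_above (K : Type*) [Field K] [NumberField K] [Algebra F K]
    (S : Finset (HeightOneSpectrum (𝓞 F))) :
    {v : HeightOneSpectrum (𝓞 K) | below F v ∈ S}.Finite := by
  have h1 : ∀ s ∈ S, {v : HeightOneSpectrum (𝓞 K) | below F v = s}.Finite := by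
    intro s _
    have h2 : (Ideal.primesOver s.asIdeal (𝓞 K)).Finite := Algebra.QuasiFinite.finite_primesOver _
    refine Set.Finite.of_finite_image (f := fun v => v.asIdeal) (h2.subset ?_) ?_
    · rintro _ ⟨v, hv, rfl⟩
      rw [Set.mem_ofPred_eq] at hv
      refine ⟨v.isPrime, ⟨?_⟩⟩
      rw [← hv]
      rfl
    · intro v _ w _ h
      exact HeightOneSpectrum.ext h
  have h3 : {v : HeightOneSpectrum (𝓞 K) | below F v ∈ S} =
      ⋃ s ∈ S, {v : HeightOneSpectrum (𝓞 K) | below F v = s} := by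
    ext v
    simp
  rw [h3]
  exact S.finite_toSet.biUnion h1

/-- the square of an element of an extension unramified outside `S` has even orders
outside `S` -/
lemma even_ord_of_sq {K M : IntermediateField F (AlgebraicClosure F)} [NumberField K]
    [NumberField M] [FiniteDimensional F M] (hKM : K ≤ M) (hM : UnramifiedOutside F S M)
    (a : (K : Type)ˣ) (b : M) (hb : ((a : K) : AlgebraicClosure F) = (b : AlgebraicClosure F) ^ 2)
    (v : HeightOneSpectrum (𝓞 K)) (hv : below F v ∉ S) : Even (ord v a) := by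
  let _ : Algebra K M := (IntermediateField.inclusion hKM).toRingHom.toAlgebra
  have hst : IsScalarTower F K M := IsScalarTower.of_algebraMap_eq (fun _ => rfl)
  obtain ⟨w, hw⟩ := exists_above K M v
  have hb0 : b ≠ 0 := by
    rintro rfl
    apply a.ne_zero
    apply Subtype.ext
    rw [hb]
    simp
  have hbu : Units.map (algebraMap K M : K →* M) a = (Units.mk0 b hb0) ^ 2 := by
    apply Units.ext
    apply Subtype.ext
    exact hb
  have hcomap : w.asIdeal.comap (algebraMap (𝓞 F) (𝓞 M)) = (below F v).asIdeal := by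
    rw [← hw]
    rfl
  have hu : Algebra.IsUnramifiedAt (𝓞 F) w.asIdeal := hM w.asIdeal w.isPrime w.ne_bot
    (fun s hs h => by
      rw [hcomap] at h
      apply hv
      rw [HeightOneSpectrum.ext h]
      exact hs)
  have hu' : Algebra.IsUnramifiedAt (𝓞 K) w.asIdeal :=
    Algebra.FormallyUnramified.of_restrictScalars (𝓞 F) (𝓞 K) (Localization.AtPrime w.asIdeal)
  have he : w.asIdeal.ramificationIdx (𝓞 K) = 1 := Ideal.ramificationIdx_eq_one_iff.2 hu'
  have h1 := ord_algebraMap_eq K w a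
  rw [hbu, ord_pow, he, hw] at h1
  refine ⟨ord w (Units.mk0 b hb0), ?_⟩
  push_cast at h1
  linarith

/-- `G_{F,S}`: open subgroups have only finitely many continuous characters of order two. -/
theorem finite_hom (U : Subgroup (GFS F S)) (hU : IsOpen (U : Set (GFS F S))) :
    Finite {f : U →* Multiplicative (ZMod 2) // Continuous f} := by
  classical
  let K0 : IntermediateField F (maxExt F S) := IntermediateField.fixedField U
  have hUc : IsClosed (U : Set (GFS F S)) := U.isClosed_of_isOpen hU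
  have hfix : K0.fixingSubgroup = U :=
    InfiniteGalois.fixingSubgroup_fixedField (⟨U, hUc⟩ : ClosedSubgroup (GFS F S))
  have hfd0 : FiniteDimensional F K0 := by
    rw [← InfiniteGalois.isOpen_iff_finite]
    show IsOpen (K0.fixingSubgroup : Set (GFS F S))
    rw [hfix]
    exact hU
  let K : IntermediateField F (AlgebraicClosure F) := IntermediateField.lift K0
  have hfdK : FiniteDimensional F K :=
    LinearEquiv.finiteDimensional (IntermediateField.liftAlgEquiv K0).toLinearEquiv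
  have hKle : K ≤ maxExt F S := IntermediateField.lift_le K0
  have : NumberField K := NumberField.of_module_finite F K
  obtain ⟨T, hT, hT'⟩ := finite_quadratic (K := K) {v : HeightOneSpectrum (𝓞 K) | below F v ∈ S}
    (finite_above K S)
  have key : ∀ f : {f : U →* Multiplicative (ZMod 2) // Continuous f},
      ∃ (b : maxExt F S) (t : (K : Type)ˣ) (y : (K : Type)ˣ), b ≠ 0 ∧ t ∈ T ∧
        (∀ σ : U, (f.1 σ = 1 → (σ : GFS F S) b = b) ∧ (f.1 σ ≠ 1 → (σ : GFS F S) b = -b)) ∧
        (b : AlgebraicClosure F) ^ 2 = ((t : K) : AlgebraicClosure F) *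
          ((y : K) : AlgebraicClosure F) ^ 2 := by
    rintro ⟨f, hf⟩
    have hker : IsOpen ((f.ker : Subgroup U) : Set U) := by
      have h1 : ((f.ker : Subgroup U) : Set U) = f ⁻¹' {1} := by
        ext x
        simp [MonoidHom.mem_ker]
      rw [h1]
      exact (isOpen_discrete _).preimage hf
    have hW : IsOpen ((f.ker.map U.subtype : Subgroup (GFS F S)) : Set (GFS F S)) := by
      rw [Subgroup.coe_map]
      exact hU.isOpenMap_subtype_val _ hker
    obtain ⟨b, hb0, hb⟩ := exists_kummer U f (Subgroup.isClosed_of_isOpen _ hW)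
    have hbK0 : b ^ 2 ∈ K0 := by
      rw [IntermediateField.mem_fixedField_iff]
      intro σ hσ
      rw [map_pow]
      by_cases h : f ⟨σ, hσ⟩ = 1
      · have h1 := (hb ⟨σ, hσ⟩).1 h
        have h2 : σ b = b := h1
        rw [h2]
      · have h1 := (hb ⟨σ, hσ⟩).2 h
        have h2 : σ b = -b := h1
        rw [h2, neg_sq]
    have hbK : (b : AlgebraicClosure F) ^ 2 ∈ K := by
      have h1 := (IntermediateField.mem_lift (b ^ 2)).2 hbK0
      exact h1
    have hb0' : (b : AlgebraicClosure F) ≠ 0 := fun h => hb0 (Subtype.ext h)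
    let a : (K : Type)ˣ := Units.mk0 ⟨(b : AlgebraicClosure F) ^ 2, hbK⟩ (by
      intro h
      exact pow_ne_zero 2 hb0' (congrArg Subtype.val h))
    have hbint : IsIntegral F (b : AlgebraicClosure F) :=
      (AlgebraicClosure.isAlgebraic F).isAlgebraic _ |>.isIntegral
    have hfdb : FiniteDimensional F (IntermediateField.adjoin F {(b : AlgebraicClosure F)}) :=
      IntermediateField.adjoin.finiteDimensional hbint
    let M : IntermediateField F (AlgebraicClosure F) :=
      K ⊔ IntermediateField.adjoin F {(b : AlgebraicClosure F)}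
    have hfdM : FiniteDimensional F M := IntermediateField.finiteDimensional_sup _ _
    have : NumberField M := NumberField.of_module_finite F M
    have hMle : M ≤ maxExt F S := by
      apply sup_le hKle
      rw [IntermediateField.adjoin_simple_le_iff]
      exact b.2
    have hMu : UnramifiedOutside F S M := le_maxExt_iff.1 hMle
    have hbM : (b : AlgebraicClosure F) ∈ M :=
      (le_sup_right : IntermediateField.adjoin F {(b : AlgebraicClosure F)} ≤ M)
        (IntermediateField.mem_adjoin_simple_self F _)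
    obtain ⟨t, ht, y, hty⟩ := hT' a (fun v hv =>
      even_ord_of_sq (le_sup_left : K ≤ M) hMu a ⟨b, hbM⟩ rfl v hv)
    refine ⟨b, t, y, hb0, ht, hb, ?_⟩
    have h2 := congrArg (fun z : (K : Type)ˣ => ((z : K) : AlgebraicClosure F)) hty
    have h3 : ((a : K) : AlgebraicClosure F) = ((t : K) : AlgebraicClosure F) *
          ((y : K) : AlgebraicClosure F) ^ 2 := by simpa using h2
    exact h3
  choose b t y hb0 ht hb hbt using key
  have : Finite T := hT
  apply Finite.of_injective (β := T) (fun f => ⟨t f, ht f⟩)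
  intro f g hfg
  have htfg : t f = t g := congrArg Subtype.val hfg
  apply Subtype.ext
  apply MonoidHom.ext
  intro σ
  -- `b f / y f = ± b g / y g`
  have hyK : ∀ z : K, ∀ τ : U, ∃ z' : maxExt F S, (z' : AlgebraicClosure F) = z ∧
      ∀ τ : U, (τ : GFS F S) z' = z' := by
    intro z τ
    refine ⟨⟨z, hKle z.2⟩, rfl, fun τ => ?_⟩
    have h1 : (⟨z, hKle z.2⟩ : maxExt F S) ∈ K0 := by
      rw [← IntermediateField.mem_lift]
      exact z.2
    rw [IntermediateField.mem_fixedField_iff] at h1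
    exact h1 _ τ.2
  obtain ⟨yf, hyf, hyf'⟩ := hyK (y f) 1
  obtain ⟨yg, hyg, hyg'⟩ := hyK (y g) 1
  have hyf0 : yf ≠ 0 := by
    rintro rfl
    apply (y f).ne_zero
    apply Subtype.ext
    rw [← hyf]; rfl
  have hyg0 : yg ≠ 0 := by
    rintro rfl
    apply (y g).ne_zero
    apply Subtype.ext
    rw [← hyg]; rfl
  have hsq : (b f * yg) ^ 2 = (b g * yf) ^ 2 := by
    apply Subtype.ext
    have h1 := hbt f
    have h2 := hbt g
    rw [← hyf] at h1
    rw [← hyg, ← htfg] at h2
    push_cast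
    rw [mul_pow, mul_pow, h1, h2]
    ring
  have hpm := sq_eq_sq_iff_eq_or_eq_neg.1 hsq
  have hne : b f * yg ≠ 0 := mul_ne_zero (hb0 f) hyg0
  have hne' : b g * yf ≠ 0 := mul_ne_zero (hb0 g) hyf0
  have h2ne : (2 : maxExt F S) ≠ 0 := two_ne_zero
  have hneg : ∀ z : maxExt F S, z ≠ 0 → z ≠ -z := by
    intro z hz h
    apply hz
    have : 2 * z = 0 := by linear_combination h
    exact (mul_eq_zero.1 this).resolve_left h2ne
  by_cases h1 : f.1 σ = 1
  · by_cases h2 : g.1 σ = 1
    · rw [h1, h2]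
    · exfalso
      have h3 : (σ : GFS F S) (b f * yg) = b f * yg := by rw [map_mul, (hb f σ).1 h1, hyg']
      have h4 : (σ : GFS F S) (b g * yf) = -(b g * yf) := by
        rw [map_mul, (hb g σ).2 h2, hyf', neg_mul]
      rcases hpm with h5 | h5
      · rw [h5, h4] at h3
        exact hneg _ hne' h3.symm
      · rw [h5, map_neg, h4, neg_neg] at h3
        exact hneg _ hne' h3
  · by_cases h2 : g.1 σ = 1
    · exfalso
      have h3 : (σ : GFS F S) (b f * yg) = -(b f * yg) := by
        rw [map_mul, (hb f σ).2 h1, hyg', neg_mul]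
      have h4 : (σ : GFS F S) (b g * yf) = b g * yf := by
        rw [map_mul, (hb g σ).1 h2, hyf']
      rcases hpm with h5 | h5
      · rw [h5, h4] at h3
        exact hneg _ hne' h3
      · rw [h5, map_neg, h4, neg_neg] at h3
        exact hneg _ hne' h3.symm
    · exact zmod2_eq h1 h2

end

end Pool.Agent.Lib.MP_aa8fd2_nt
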