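import Mathlib

/-!
Abelian groups with an involution: the Herbrand index identity and the
abstract form of the ambiguous class argument (used for quadratic extensions).
All groups are written multiplicatively.
-/

namespace Pool.Agent.Lib.MP_aa8fd2_nt

section Index

variable {E : Type*} [CommGroup E] (s : E →* E)

/-- `a ↦ a * s a` -/
def nrm : E →* E where
  toFun a := a * s a
  map_one' := by simp
  map_mul' a b := by simp [mul_mul_mul_comm]

/-- `a ↦ a / s a` -/
def dif : E →* E where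
  toFun a := a / s a
  map_one' := by simp
  map_mul' a b := by simp [mul_div_mul_comm]

/-- `a ↦ a ^ 2` -/
def sqr (E : Type*) [CommGroup E] : E →* E where
  toFun a := a ^ 2
  map_one' := by simp
  map_mul' a b := by simp [mul_pow]

@[simp] lemma nrm_apply (a : E) : nrm s a = a * s a := rfl
@[simp] lemma dif_apply (a : E) : dif s a = a / s a := rfl
@[simp] lemma sqr_apply (a : E) : sqr E a = a ^ 2 := rfl

/-- fixed elements -/
def fixP : Subgroup E := (dif s).ker

/-- elements of norm one -/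
def fixM : Subgroup E := (nrm s).ker

variable {s}

lemma mem_fixP {a : E} : a ∈ fixP s ↔ s a = a := by
  rw [fixP, MonoidHom.mem_ker, dif_apply, div_eq_one, eq_comm]

lemma mem_fixM {a : E} : a ∈ fixM s ↔ a * s a = 1 := by
  simp [fixM, MonoidHom.mem_ker]

lemma div_of_mem_fixM {a : E} (ha : a ∈ fixM s) : a / s a = a ^ 2 := by
  have : s a = a⁻¹ := (inv_eq_of_mul_eq_one_right (mem_fixM.1 ha)).symm
  rw [this, div_inv_eq_mul, pow_two]

/-- Herbrand index identity for an involution, in the case of trivial `H^1`. -/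
theorem index_identity (hs : ∀ a, s (s a) = a)
    (hH1 : ∀ a, a * s a = 1 → ∃ b, a = b / s b) :
    ((fixP s).map (sqr E)).relIndex (fixP s) =
      ((nrm s).range).relIndex (fixP s) * ((fixM s).map (sqr E)).relIndex (fixM s) := by
  have h1 : (fixP s).map (sqr E) = (fixP s).map (nrm s) := by
    ext x
    simp only [Subgroup.mem_map, sqr_apply, nrm_apply]
    constructor
    · rintro ⟨a, ha, rfl⟩
      exact ⟨a, ha, by rw [mem_fixP.1 ha, pow_two]⟩
    · rintro ⟨a, ha, rfl⟩
      exact ⟨a, ha, by rw [mem_fixP.1 ha, pow_two]⟩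
  have h2 : (fixM s).map (sqr E) = (fixM s).map (dif s) := by
    ext x
    simp only [Subgroup.mem_map, sqr_apply, dif_apply]
    constructor
    · rintro ⟨a, ha, rfl⟩
      exact ⟨a, ha, div_of_mem_fixM ha⟩
    · rintro ⟨a, ha, rfl⟩
      exact ⟨a, ha, (div_of_mem_fixM ha).symm⟩
  have h3 : (nrm s).range ≤ fixP s := by
    rintro _ ⟨a, rfl⟩
    rw [mem_fixP]
    simp [hs, mul_comm]
  have h4 : (dif s).range = fixM s := by
    apply le_antisymm
    · rintro _ ⟨a, rfl⟩
      rw [mem_fixM]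
      simp [hs]
    · intro a ha
      obtain ⟨b, hb⟩ := hH1 a (mem_fixM.1 ha)
      exact ⟨b, hb.symm⟩
  have h5 : ((fixP s).map (nrm s)).relIndex ((nrm s).range) = (fixP s ⊔ fixM s).index := by
    rw [MonoidHom.range_eq_map, Subgroup.relIndex_map_map]
    simp [fixM]
  have h6 : ((fixM s).map (dif s)).relIndex ((dif s).range) = (fixP s ⊔ fixM s).index := by
    rw [MonoidHom.range_eq_map, Subgroup.relIndex_map_map]
    simp [fixP, sup_comm]
  rw [h1, h2, ← Subgroup.relIndex_mul_relIndex _ _ _ (Subgroup.map_le_range _ _) h3, h5, ← h6, h4,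
    mul_comm]

end Index

section Ambiguous

variable {A D : Type*} [CommGroup A] [CommGroup D] {sA : A →* A} {sD : D →* D} {d : A →* D}

/-- `H¹` of the kernel of `d` vanishes. -/
theorem H1_ker_trivial (hd : ∀ a, d (sA a) = sD (d a))
    (h90 : ∀ x : A, x * sA x = 1 → ∃ y, x = y / sA y)
    {m : ℕ} (hm : Odd m) (hinv : ∀ D, sD D = D → ∃ z : A, sA z = z ∧ d z = D ^ m)
    {e : A} (he : d e = 1) (hN : e * sA e = 1) : ∃ η, d η = 1 ∧ e = η / sA η := by
  obtain ⟨y, hy⟩ := h90 e hN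
  have hdy : sD (d y) = d y := by
    rw [← hd]
    have : d y / d (sA y) = 1 := by rw [← map_div, ← hy, he]
    exact (div_eq_one.1 this).symm
  obtain ⟨z, hz, hdz⟩ := hinv _ hdy
  -- e ^ m = η / sA η with η = y ^ m / z
  obtain ⟨k, rfl⟩ := hm
  have h1 : e ^ (2 * k + 1) = (y ^ (2 * k + 1) / z) / sA (y ^ (2 * k + 1) / z) := by
    rw [hy, map_div, hz, map_pow]
    rw [div_pow, div_div_div_cancel_right]
  have h2 : e ^ 2 = e / sA e := by
    have : sA e = e⁻¹ := (inv_eq_of_mul_eq_one_right hN).symm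
    rw [this, div_inv_eq_mul, pow_two]
  refine ⟨(y ^ (2 * k + 1) / z) / e ^ k, ?_, ?_⟩
  · rw [map_div, map_div, map_pow, map_pow, hdz, he]
    simp
  · rw [map_div, div_div_div_comm, ← h1, map_pow, ← div_pow, ← h2, ← pow_mul, pow_succ,
      mul_div_cancel_left]

/-- Odd class exponent propagates. -/
theorem odd_exponent (hd : ∀ a, d (sA a) = sD (d a)) (hs : ∀ x, sD (sD x) = x)
    (h90 : ∀ x : A, x * sA x = 1 → ∃ y, x = y / sA y)
    {m : ℕ} (hm : Odd m) (hinv : ∀ D, sD D = D → ∃ z : A, d z = D ^ m)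
    (hNm : ∀ x : A, d (x * sA x) = 1 → ∃ η, d η = 1 ∧ x * sA x = η * sA η)
    {n : ℕ} (hn : n ≠ 0) (hfin : ∀ x, ∃ z, d z = x ^ n) :
    ∃ m', Odd m' ∧ ∀ x, ∃ z, d z = x ^ m' := by
  -- Step A
  have stepA : ∀ x : D, (∃ z, d z = x ^ 2) → (∃ z, d z = x / sD x) → ∃ z, d z = x := by
    rintro x ⟨w, hw⟩ ⟨z, hz⟩
    have h1 : d (z * sA z) = 1 := by
      rw [map_mul, hd, hz, map_div, hs]
      simp
    obtain ⟨η, hη, hη'⟩ := hNm z h1
    obtain ⟨y, hy⟩ := h90 (z / η) (by
      rw [map_div, div_mul_div_comm, hη', div_self'])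
    have h2 : d z = d y / sD (d y) := by
      rw [← hd, ← map_div, ← hy, map_div, hη, div_one]
    have h3 : sD (x / d y) = x / d y := by
      rw [map_div]
      rw [hz, div_eq_div_iff_mul_eq_mul] at h2
      rw [div_eq_div_iff_mul_eq_mul, h2, mul_comm]
    obtain ⟨u, hu⟩ := hinv _ h3
    obtain ⟨k, rfl⟩ := hm
    refine ⟨u * y ^ (2 * k + 1) / w ^ k, ?_⟩
    rw [map_div, map_mul, map_pow, map_pow, hu, hw, div_pow, div_mul_cancel, ← pow_mul, pow_succ,
      mul_div_cancel_left]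
  have stepB : ∀ x : D, (∃ z, d z = x ^ 2) → ∃ z, d z = x := by
    rintro x ⟨w, hw⟩
    have hT : ∃ z, d z = x * sD x := by
      apply stepA
      · exact ⟨w * sA w, by rw [map_mul, hd, hw, map_pow, mul_pow]⟩
      · exact ⟨1, by rw [map_one, map_mul, hs, mul_comm (sD x), div_self']⟩
    obtain ⟨t, ht⟩ := hT
    apply stepA _ ⟨w, hw⟩
    refine ⟨w / t, ?_⟩
    rw [map_div, hw, ht, pow_two, mul_div_mul_left_eq_div]
  have stepC : ∀ (a : ℕ) (x : D), (∃ z, d z = x ^ (2 ^ a)) → ∃ z, d z = x := by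
    intro a
    induction a with
    | zero => intro x hx; simpa using hx
    | succ a ih =>
      rintro x ⟨z, hz⟩
      apply stepB
      apply ih
      exact ⟨z, by rw [hz, ← pow_mul, pow_succ, mul_comm]⟩
  obtain ⟨a, m', hm', hn'⟩ := Nat.exists_eq_two_pow_mul_odd hn
  refine ⟨m', hm', fun x => ?_⟩
  apply stepC a
  obtain ⟨z, hz⟩ := hfin x
  exact ⟨z, by rw [hz, ← pow_mul, hn', mul_comm]⟩

end Ambiguous

end Pool.Agent.Lib.MP_aa8fd2_nt
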