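import Pool.Agent.Lib.MP_aa8fd2_nt.Herbrand

/-!
`[A : A²] = 2 ^ rank A * #A[2]` for a finitely generated abelian group `A`.
-/

namespace Pool.Agent.Lib.MP_aa8fd2_nt

open Module

/-- the doubling map -/
abbrev dbl (N : Type*) [AddCommGroup N] : N →+ N := nsmulAddMonoidHom 2

lemma dbl_index_congr {N N' : Type*} [AddCommGroup N] [AddCommGroup N'] (e : N ≃+ N') :
    (dbl N).range.index = (dbl N').range.index := by
  have h : (dbl N).range.map e.toAddMonoidHom = (dbl N').range := by
    ext x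
    simp only [AddSubgroup.mem_map, AddMonoidHom.mem_range]
    constructor
    · rintro ⟨_, ⟨y, rfl⟩, rfl⟩
      exact ⟨e y, by simp⟩
    · rintro ⟨y, rfl⟩
      exact ⟨2 • e.symm y, ⟨e.symm y, by simp⟩, by simp⟩
  rw [← h]
  exact (AddSubgroup.index_map_equiv _ e).symm

lemma dbl_ker_congr {N N' : Type*} [AddCommGroup N] [AddCommGroup N'] (e : N ≃+ N') :
    Nat.card (dbl N).ker = Nat.card (dbl N').ker := by
  refine Nat.card_congr ⟨fun x => ⟨e x.1, ?_⟩, fun x => ⟨e.symm x.1, ?_⟩, ?_, ?_⟩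
  · have := x.2
    rw [AddMonoidHom.mem_ker] at this ⊢
    show (2 : ℕ) • e x.1 = 0
    rw [← map_nsmul, show (2 : ℕ) • x.1 = 0 from this, map_zero]
  · have := x.2
    rw [AddMonoidHom.mem_ker] at this ⊢
    show (2 : ℕ) • e.symm x.1 = 0
    rw [← map_nsmul, show (2 : ℕ) • x.1 = 0 from this, map_zero]
  · intro x; ext; simp
  · intro x; ext; simp

lemma dbl_index_finite {T : Type*} [AddCommGroup T] [Finite T] :
    (dbl T).range.index = Nat.card (dbl T).ker := by
  have h1 := AddSubgroup.card_mul_index (dbl T).range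
  have h2 := AddSubgroup.card_mul_index (dbl T).ker
  rw [AddSubgroup.index_ker] at h2
  have h3 : 0 < Nat.card (dbl T).range := Nat.card_pos
  rw [← h2, mul_comm] at h1
  exact Nat.eq_of_mul_eq_mul_right h3 h1

lemma dbl_index_free (n : ℕ) : (dbl (Fin n → ℤ)).range.index = 2 ^ n := by
  let f : (Fin n → ℤ) →+ (Fin n → ZMod 2) :=
    { toFun := fun x i => (x i : ZMod 2)
      map_zero' := by ext; simp
      map_add' := by intro x y; ext; simp }
  have h : (dbl (Fin n → ℤ)).range = f.ker := by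
    ext x
    rw [AddMonoidHom.mem_range, AddMonoidHom.mem_ker]
    constructor
    · rintro ⟨y, rfl⟩
      ext i
      show (((2 • y) i : ℤ) : ZMod 2) = 0
      rw [ZMod.intCast_zmod_eq_zero_iff_dvd]
      simp
    · intro hx
      have : ∀ i, ∃ y : ℤ, x i = 2 * y := by
        intro i
        have h2 := congrFun hx i
        have h3 : ((x i : ℤ) : ZMod 2) = 0 := h2
        rw [ZMod.intCast_zmod_eq_zero_iff_dvd] at h3
        exact h3
      choose y hy using this
      refine ⟨y, ?_⟩
      ext i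
      rw [hy i]
      simp
  have hs : Function.Surjective f := by
    intro y
    refine ⟨fun i => ((y i).val : ℤ), ?_⟩
    ext i
    show ((((y i).val : ℕ) : ℤ) : ZMod 2) = y i
    simp
  rw [h, AddSubgroup.index_ker]
  rw [AddMonoidHom.range_eq_top.2 hs]
  rw [Nat.card_congr (AddSubgroup.topEquiv (G := Fin n → ZMod 2)).toEquiv]
  simp

lemma dbl_index_prod {A B : Type*} [AddCommGroup A] [AddCommGroup B] :
    (dbl (A × B)).range.index = (dbl A).range.index * (dbl B).range.index := by
  have h : (dbl (A × B)).range = (dbl A).range.prod (dbl B).range := by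
    ext ⟨a, b⟩
    simp only [AddMonoidHom.mem_range, AddSubgroup.mem_prod]
    constructor
    · rintro ⟨⟨x, y⟩, hxy⟩
      simp only [nsmulAddMonoidHom_apply, Prod.smul_mk, Prod.mk.injEq] at hxy
      exact ⟨⟨x, hxy.1⟩, ⟨y, hxy.2⟩⟩
    · rintro ⟨⟨x, hx⟩, ⟨y, hy⟩⟩
      simp only [nsmulAddMonoidHom_apply] at hx hy
      exact ⟨(x, y), by simp [hx, hy]⟩
  rw [h, AddSubgroup.index_prod]

lemma dbl_ker_prod {A B : Type*} [AddCommGroup A] [AddCommGroup B] :
    Nat.card (dbl (A × B)).ker = Nat.card (dbl A).ker * Nat.card (dbl B).ker := by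
  rw [← Nat.card_prod]
  refine Nat.card_congr ⟨fun x => (⟨x.1.1, ?_⟩, ⟨x.1.2, ?_⟩), fun x => ⟨(x.1.1, x.2.1), ?_⟩, ?_, ?_⟩
  · have := x.2
    rw [AddMonoidHom.mem_ker] at this ⊢
    exact congrArg Prod.fst this
  · have := x.2
    rw [AddMonoidHom.mem_ker] at this ⊢
    exact congrArg Prod.snd this
  · have h1 := x.1.2
    have h2 := x.2.2
    rw [AddMonoidHom.mem_ker] at h1 h2 ⊢
    exact Prod.ext h1 h2
  · intro x; rfl
  · intro x; rfl

lemma dbl_ker_free (n : ℕ) : Nat.card (dbl (Fin n → ℤ)).ker = 1 := by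
  have : (dbl (Fin n → ℤ)).ker = ⊥ := by
    rw [eq_bot_iff]
    intro x hx
    rw [AddMonoidHom.mem_ker] at hx
    rw [AddSubgroup.mem_bot]
    ext i
    have := congrFun hx i
    simp at this
    exact this
  rw [this]; simp

theorem dbl_index (N : Type*) [AddCommGroup N] [Module.Finite ℤ N] :
    (dbl N).range.index = 2 ^ finrank ℤ N * Nat.card (dbl N).ker := by
  have hG : AddGroup.FG N := Module.Finite.iff_addGroup_fg.1 inferInstance
  obtain ⟨n, ι, _, p, hp, e, ⟨f⟩⟩ := AddCommGroup.equiv_free_prod_directSum_zmod N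
  have : ∀ i, NeZero (p i ^ e i) := fun i => ⟨pow_ne_zero _ (hp i).ne_zero⟩
  classical
  let T := ∀ i : ι, ZMod (p i ^ e i)
  let g : N ≃+ (Fin n → ℤ) × T :=
    f.trans (AddEquiv.prodCongr (Finsupp.linearEquivFunOnFinite ℤ ℤ (Fin n)).toAddEquiv
      (DirectSum.addEquivProd (fun i : ι => ZMod (p i ^ e i))))
  have hr : finrank ℤ N = n := by
    have h1 : finrank ℤ N = finrank ℤ ((Fin n → ℤ) × T) :=
      LinearEquiv.finrank_eq g.toIntLinearEquiv
    rw [h1]
    have h2 := Submodule.finrank_quotient_add_finrank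
      (LinearMap.ker (LinearMap.fst ℤ (Fin n → ℤ) T))
    have h3 : finrank ℤ (((Fin n → ℤ) × T) ⧸ (LinearMap.ker (LinearMap.fst ℤ (Fin n → ℤ) T))) = n := by
      rw [LinearEquiv.finrank_eq ((LinearMap.fst ℤ (Fin n → ℤ) T).quotKerEquivOfSurjective
        LinearMap.fst_surjective)]
      simp
    have h4 : finrank ℤ (LinearMap.ker (LinearMap.fst ℤ (Fin n → ℤ) T)) = 0 := by
      have : Finite (LinearMap.ker (LinearMap.fst ℤ (Fin n → ℤ) T)) := by
        apply Finite.of_injective (β := T) (fun x => x.1.2)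
        intro x y hxy
        have hx := x.2
        have hy := y.2
        rw [LinearMap.mem_ker] at hx hy
        ext1
        exact Prod.ext (hx.trans hy.symm) hxy
      rw [Module.finrank_eq_zero_iff]
      intro x
      refine ⟨(Nat.card (LinearMap.ker (LinearMap.fst ℤ (Fin n → ℤ) T)) : ℤ), ?_, ?_⟩
      · exact_mod_cast Nat.card_pos.ne'
      · rw [natCast_zsmul]
        exact card_nsmul_eq_zero'
    rw [h3, h4] at h2
    omega
  rw [dbl_index_congr g, dbl_ker_congr g, dbl_index_prod, dbl_ker_prod, dbl_index_free,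
    dbl_ker_free, dbl_index_finite, hr, one_mul]

/-- multiplicative version, for a subgroup -/
theorem sqr_relIndex {E : Type*} [CommGroup E] (P : Subgroup E)
    [Module.Finite ℤ (Additive P)] :
    (P.map (sqr E)).relIndex P =
      2 ^ finrank ℤ (Additive P) * Nat.card {x : P // (x : E) ^ 2 = 1} := by
  have h := dbl_index (Additive P)
  have h1 : (dbl (Additive P)).range.index = (P.map (sqr E)).relIndex P := by
    have : (P.map (sqr E)).subgroupOf P = AddSubgroup.toSubgroup' (dbl (Additive P)).range := by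
      ext x
      rw [Subgroup.mem_subgroupOf, Subgroup.mem_map]
      constructor
      · rintro ⟨y, hy, hyx⟩
        exact ⟨Additive.ofMul ⟨y, hy⟩, Subtype.ext hyx⟩
      · rintro ⟨y, hy⟩
        exact ⟨(Additive.toMul y : P), (Additive.toMul y : P).2, congrArg Subtype.val hy⟩
    rw [Subgroup.relIndex, this]
    rfl
  rw [← h1, h]
  congr 1
  refine Nat.card_congr ⟨fun x => ⟨Additive.toMul x.1, ?_⟩, fun x => ⟨Additive.ofMul x.1, ?_⟩,
    fun _ => rfl, fun _ => rfl⟩
  · exact congrArg (fun z => ((Additive.toMul z : P) : E)) (AddMonoidHom.mem_ker.1 x.2)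
  · rw [AddMonoidHom.mem_ker]
    exact Subtype.ext x.2

end Pool.Agent.Lib.MP_aa8fd2_nt
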