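import Mathlib

set_option autoImplicit false

/-! A criterion for Krull dimension at least two. -/

namespace Pool.Agent.Lib.MP_aa8fd2_nt

open MvPolynomial

theorem length_quot_pow_le {R : Type*} [CommRing R] (x : R) (j : ℕ) :
    Module.length R (R ⧸ Ideal.span {x ^ j}) ≤ j * Module.length R (R ⧸ Ideal.span {x}) := by
  induction j with
  | zero =>
    have : Subsingleton (R ⧸ Ideal.span {x ^ 0}) := by
      rw [Submodule.Quotient.subsingleton_iff, pow_zero, Ideal.span_singleton_one]
    simp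
  | succ j ih =>
    have hle : Ideal.span {x ^ (j + 1)} ≤ Ideal.span {x ^ j} := by
      rw [Ideal.span_singleton_le_span_singleton, pow_succ]
      exact Dvd.intro x rfl
    let g : (R ⧸ Ideal.span {x ^ (j + 1)}) →ₗ[R] (R ⧸ Ideal.span {x ^ j}) :=
      Submodule.factor hle
    have hg : Function.Surjective g := Submodule.factor_surjective hle
    have h1 := Module.length_eq_add_of_exact (LinearMap.ker g).subtype g
      (Submodule.subtype_injective _) hg (LinearMap.exact_subtype_ker_map g)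
    have hf0 : Ideal.span {x} ≤ Submodule.comap (LinearMap.mulLeft R (x ^ j))
        (Ideal.span {x ^ (j + 1)}) := by
      rw [Ideal.span_singleton_le_iff_mem, Submodule.mem_comap, LinearMap.mulLeft_apply,
        ← pow_succ]
      exact Ideal.mem_span_singleton_self _
    let f : (R ⧸ Ideal.span {x}) →ₗ[R] (R ⧸ Ideal.span {x ^ (j + 1)}) :=
      Submodule.mapQ _ _ (LinearMap.mulLeft R (x ^ j)) hf0
    have hfk : ∀ y, f y ∈ LinearMap.ker g := by
      intro y
      obtain ⟨y, rfl⟩ := Submodule.Quotient.mk_surjective _ y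
      rw [LinearMap.mem_ker]
      show Submodule.Quotient.mk (x ^ j * y) = _
      rw [Submodule.Quotient.mk_eq_zero]
      exact Ideal.mul_mem_right _ _ (Ideal.mem_span_singleton_self _)
    have h2 : Module.length R (LinearMap.ker g) ≤ Module.length R (R ⧸ Ideal.span {x}) := by
      apply Module.length_le_of_surjective (f.codRestrict _ hfk)
      rintro ⟨z, hz⟩
      obtain ⟨z, rfl⟩ := Submodule.Quotient.mk_surjective _ z
      rw [LinearMap.mem_ker] at hz
      have hz' : (Submodule.Quotient.mk z : R ⧸ Ideal.span {x ^ j}) = 0 := hz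
      rw [Submodule.Quotient.mk_eq_zero, Ideal.mem_span_singleton] at hz'
      obtain ⟨c, rfl⟩ := hz'
      exact ⟨Submodule.Quotient.mk c, Subtype.ext rfl⟩
    rw [h1]
    calc _ ≤ Module.length R (R ⧸ Ideal.span {x}) + j * Module.length R (R ⧸ Ideal.span {x}) :=
          add_le_add h2 ih
      _ = _ := by push_cast; ring

theorem exists_param {R : Type*} [CommRing R] [IsLocalRing R] [IsNoetherianRing R]
    (h : ringKrullDim R < 2) :
    ∃ x ∈ IsLocalRing.maximalIdeal R, Module.length R (R ⧸ Ideal.span {x}) ≠ ⊤ := by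
  obtain ⟨s, hs, hc⟩ :=
    Ideal.exists_finset_card_eq_height_of_isNoetherianRing (IsLocalRing.maximalIdeal R)
  rw [← IsLocalRing.maximalIdeal_height_eq_ringKrullDim, ← hc] at h
  have hc1 : s.card ≤ 1 := by
    have h' : ((s.card : ℕ∞) : WithBot ℕ∞) < ((2 : ℕ∞) : WithBot ℕ∞) := h
    rw [WithBot.coe_lt_coe] at h'
    have h'' : s.card < 2 := by exact_mod_cast h'
    omega
  obtain ⟨x, hx⟩ : ∃ x : R, Ideal.span (s : Set R) = Ideal.span {x} := by
    rcases Nat.le_one_iff_eq_zero_or_eq_one.1 hc1 with h0 | h0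
    · rw [Finset.card_eq_zero] at h0
      exact ⟨0, by rw [h0]; simp⟩
    · rw [Finset.card_eq_one] at h0
      obtain ⟨x, rfl⟩ := h0
      exact ⟨x, by simp⟩
  rw [hx] at hs
  have hart := IsLocalRing.quotient_artinian_of_mem_minimalPrimes_of_isLocalRing _ hs
  refine ⟨x, hs.1.2 (Ideal.mem_span_singleton_self x), ?_⟩
  rw [Module.length_eq_of_surjective (R := R ⧸ Ideal.span {x}) (S := R)
    (M := R ⧸ Ideal.span {x}) Ideal.Quotient.mk_surjective]
  exact Module.length_ne_top

/-- The ideals used in the chain. -/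
def bigSet (N t : ℕ) : Set (Fin 2 →₀ ℕ) := {m | t ≤ m 0 + N * m 1 ∨ 2 * N ≤ m 0 + m 1}

theorem bigSet_upper (N t : ℕ) : IsUpperSet (bigSet N t) := by
  intro a b hab ha
  have h0 := hab 0
  have h1 := hab 1
  have h2 : N * a 1 ≤ N * b 1 := Nat.mul_le_mul_left _ h1
  rcases ha with ha | ha
  · left; omega
  · right; omega

theorem bigSet_anti (N : ℕ) {s t : ℕ} (h : s ≤ t) : bigSet N t ⊆ bigSet N s := by
  rintro m (hm | hm)
  · left; omega
  · right; exact hm

/-- The ideal of polynomials with all monomials in `bigSet N t`. -/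
noncomputable def bigIdeal (k : Type*) [Field k] (N t : ℕ) : Ideal (MvPolynomial (Fin 2) k) :=
  restrictSupportIdeal (R := k) (s := bigSet N t) (hs := bigSet_upper N t)

theorem mem_bigIdeal {k : Type*} [Field k] {N t : ℕ} {p : MvPolynomial (Fin 2) k} :
    p ∈ bigIdeal k N t ↔ ∀ m ∈ p.support, m ∈ bigSet N t := by
  show p ∈ restrictSupport k (bigSet N t) ↔ _
  rw [mem_restrictSupport_iff]
  rfl

theorem pow_le_bigIdeal (k : Type*) [Field k] (N t : ℕ) :
    Ideal.span (Set.range (X : Fin 2 → MvPolynomial (Fin 2) k)) ^ (2 * N) ≤ bigIdeal k N t := by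
  intro p hp
  rw [mem_bigIdeal]
  intro m hm
  have h1 := (mem_pow_idealOfVars_iff (2 * N) p).1 hp m hm
  right
  rw [Finsupp.degree_eq_sum, Fin.sum_univ_two] at h1
  exact h1

/-- (E3) -/
theorem two_le_ringKrullDim {R k : Type*} [CommRing R] [IsLocalRing R] [IsNoetherianRing R]
    [Field k] (φ : ∀ j : ℕ, R →+* (MvPolynomial (Fin 2) k) ⧸ (Ideal.span (Set.range (MvPolynomial.X : Fin 2 → MvPolynomial (Fin 2) k)) ^ j))
    (hloc : ∀ j, ∀ r ∈ IsLocalRing.maximalIdeal R,
      ∃ p ∈ Ideal.span (Set.range (MvPolynomial.X : Fin 2 → MvPolynomial (Fin 2) k)),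
        φ j r = Ideal.Quotient.mk _ p)
    (hmem : ∀ j, ∀ i : Fin 2, Ideal.Quotient.mk _ (MvPolynomial.X i) ∈ (φ j).range) :
    2 ≤ ringKrullDim R := by
  by_contra hlt
  rw [not_le] at hlt
  obtain ⟨x, hxm, hx⟩ := exists_param hlt
  obtain ⟨C, hC⟩ := ENat.ne_top_iff_exists.1 hx
  let N := 2 * C + 1
  let I : Ideal (MvPolynomial (Fin 2) k) := Ideal.span (Set.range MvPolynomial.X)
  let J : ℕ → Ideal R := fun t =>
    Ideal.comap (φ (2 * N)) (Ideal.map (Ideal.Quotient.mk (I ^ (2 * N))) (bigIdeal k N t))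
  have hJ : ∀ t r p, φ (2 * N) r = Ideal.Quotient.mk _ p → (r ∈ J t ↔ p ∈ bigIdeal k N t) := by
    intro t r p hrp
    rw [Ideal.mem_comap, hrp]
    exact Ideal.mem_quotient_iff_mem (pow_le_bigIdeal k N t)
  have hxJ : ∀ t, Ideal.span {x ^ (2 * N)} ≤ J t := by
    intro t
    rw [Ideal.span_singleton_le_iff_mem]
    obtain ⟨p, hp, hxp⟩ := hloc (2 * N) x hxm
    rw [hJ t (x ^ (2 * N)) (p ^ (2 * N)) (by rw [map_pow, hxp, map_pow])]
    exact pow_le_bigIdeal k N t (Ideal.pow_mem_pow hp _)
  have hstep : ∀ t, t < N * N → J (t + 1) < J t := by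
    intro t ht
    have hle : J (t + 1) ≤ J t := by
      apply Ideal.comap_mono
      apply Ideal.map_mono
      intro p hp
      rw [mem_bigIdeal] at hp ⊢
      exact fun m hm => bigSet_anti N (Nat.le_succ t) (hp m hm)
    obtain ⟨r0, hr0⟩ := hmem (2 * N) 0
    obtain ⟨r1, hr1⟩ := hmem (2 * N) 1
    let a := t % N
    let b := t / N
    have hN : 0 < N := Nat.succ_pos _
    have ha : a < N := Nat.mod_lt _ hN
    have hb : b < N := Nat.div_lt_of_lt_mul ht
    have hab : a + N * b = t := Nat.mod_add_div t N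
    let m : Fin 2 →₀ ℕ := Finsupp.single 0 a + Finsupp.single 1 b
    have hm0 : m 0 = a := by simp [m]
    have hm1 : m 1 = b := by simp [m]
    have hφ : φ (2 * N) (r0 ^ a * r1 ^ b) = Ideal.Quotient.mk _ (monomial m (1 : k)) := by
      rw [map_mul, map_pow, map_pow, hr0, hr1, ← map_pow, ← map_pow, ← map_mul]
      congr 1
      rw [X_pow_eq_monomial, X_pow_eq_monomial, monomial_mul, one_mul]
    have hsupp : (monomial m (1 : k)).support = {m} := by
      classical
      rw [support_monomial, if_neg one_ne_zero]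
    refine lt_of_le_of_ne hle ?_
    intro heq
    have h1 : r0 ^ a * r1 ^ b ∈ J t := by
      rw [hJ t _ _ hφ, mem_bigIdeal, hsupp]
      intro m' hm'
      rw [Finset.mem_singleton] at hm'
      rw [hm']
      left
      rw [hm0, hm1, hab]
    rw [← heq, hJ (t + 1) _ _ hφ, mem_bigIdeal, hsupp] at h1
    rcases h1 m (Finset.mem_singleton_self m) with h2 | h2
    · rw [hm0, hm1, hab] at h2
      omega
    · rw [hm0, hm1] at h2
      omega
  have hmono : StrictMono (fun i : Fin (N * N + 1) => J (N * N - i)) := by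
    rw [Fin.strictMono_iff_lt_succ]
    intro i
    have hi := i.2
    have h1 := hstep (N * N - (i + 1)) (by omega)
    have h2 : N * N - (i + 1) + 1 = N * N - i := by omega
    rw [h2] at h1
    exact h1
  let S : LTSeries (Ideal R) := LTSeries.mk (N * N) _ hmono
  have h1 : (S.length : ℕ∞) ≤ Order.coheight (Ideal.span {x ^ (2 * N)}) :=
    Order.length_le_coheight (hxJ _)
  have h2 : Module.length R (R ⧸ Ideal.span {x ^ (2 * N)}) =
      Order.coheight (Ideal.span {x ^ (2 * N)}) := Module.length_quotient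
  rw [← h2] at h1
  have h3 := h1.trans (length_quot_pow_le x (2 * N))
  rw [← hC] at h3
  have h4 : N * N ≤ 2 * N * C := by exact_mod_cast h3
  have hN : 0 < N := Nat.succ_pos _
  have h5 : N * N ≤ N * (2 * C) := by
    calc N * N ≤ 2 * N * C := h4
      _ = N * (2 * C) := by ring
  have h6 := Nat.le_of_mul_le_mul_left h5 hN
  simp only [N] at h6
  omega

end Pool.Agent.Lib.MP_aa8fd2_nt
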