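import Pool.Agent.Lib.MP_aa8fd2_nt.TwoUnits

/-!
Primes in extensions of number fields: transport of orders, restriction, quadratic extensions.
-/

set_option linter.unusedSectionVars false

namespace Pool.Agent.Lib.MP_aa8fd2_nt

open IsDedekindDomain HeightOneSpectrum NumberField Module

section transport

variable {R : Type*} [CommRing R] [IsDedekindDomain R] {K : Type*} [Field K]
  [Algebra R K] [IsFractionRing R K]
  {R' : Type*} [CommRing R'] [IsDedekindDomain R'] {K' : Type*} [Field K']
  [Algebra R' K'] [IsFractionRing R' K']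

lemma le_ord_iff (v : HeightOneSpectrum R) {r : R}
    (x : Kˣ) (hx : (x : K) = algebraMap R K r) (n : ℕ) : (n : ℤ) ≤ ord v x ↔ r ∈ v.asIdeal ^ n := by
  have h1 : v.valuation K (algebraMap R K r) = v.intValuation r := valuation_of_algebraMap v r
  rw [← intValuation_le_pow_iff_mem, ← h1, ← hx, valuation_eq_exp_neg_ord, WithZero.exp_le_exp]
  omega

lemma ord_nonneg_of_integral (v : HeightOneSpectrum R) {r : R}
    (x : Kˣ) (hx : (x : K) = algebraMap R K r) : 0 ≤ ord v x := by
  have := (le_ord_iff v x hx 0).2 (by simp)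
  simpa using this

lemma exists_div (x : Kˣ) : ∃ (a b : R) (y z : Kˣ), (y : K) = algebraMap R K a ∧
    (z : K) = algebraMap R K b ∧ x * z = y := by
  obtain ⟨a, b, hb, hab⟩ := IsFractionRing.div_surjective (A := R) (x : K)
  have hb0 : b ≠ 0 := nonZeroDivisors.ne_zero hb
  have hbK : algebraMap R K b ≠ 0 := by simpa using hb0
  have ha0 : a ≠ 0 := by
    rintro rfl
    rw [map_zero, zero_div] at hab
    exact x.ne_zero hab.symm
  have haK : algebraMap R K a ≠ 0 := by simpa using ha0
  refine ⟨a, b, Units.mk0 _ haK, Units.mk0 _ hbK, rfl, rfl, ?_⟩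
  ext
  simp only [Units.val_mul, Units.val_mk0]
  rw [← hab, div_mul_cancel₀ _ hbK]

/-- transport of primes along a ring isomorphism -/
def cm (e : R ≃+* R') : HeightOneSpectrum R' ≃ HeightOneSpectrum R := (equivOfRingEquiv e).symm

lemma cm_asIdeal (e : R ≃+* R') (v : HeightOneSpectrum R') :
    (cm e v).asIdeal = v.asIdeal.comap (e : R →+* R') := rfl

lemma ord_comap (e : R ≃+* R') (E : K ≃+* K')
    (hE : ∀ r, E (algebraMap R K r) = algebraMap R' K' (e r)) (v : HeightOneSpectrum R') (x : Kˣ) :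
    ord (cm e v) x = ord v (Units.map (E : K →* K') x) := by
  have key : ∀ (a : R) (y : Kˣ), (y : K) = algebraMap R K a →
      ord (cm e v) y = ord v (Units.map (E : K →* K') y) := by
    intro a y hy
    have hy' : ((Units.map (E : K →* K') y : K'ˣ) : K') = algebraMap R' K' (e a) := by
      rw [← hE, ← hy]; rfl
    have h1 := ord_nonneg_of_integral (cm e v) y hy
    have h2 := ord_nonneg_of_integral v _ hy'
    obtain ⟨n1, hn1⟩ := Int.eq_ofNat_of_zero_le h1
    obtain ⟨n2, hn2⟩ := Int.eq_ofNat_of_zero_le h2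
    have h3 : ∀ n : ℕ, (n : ℤ) ≤ ord (cm e v) y ↔
        (n : ℤ) ≤ ord v (Units.map (E : K →* K') y) := by
      intro n
      rw [le_ord_iff _ y hy, le_ord_iff _ _ hy', cm_asIdeal]
      have : Ideal.comap (e : R →+* R') v.asIdeal ^ n = Ideal.comap (e : R →+* R') (v.asIdeal ^ n) := by
        have h5 : ∀ I : Ideal R', Ideal.comap (e : R →+* R') I = Ideal.map (e.symm : R' →+* R) I := by
          intro I
          exact Ideal.comap_symm (I := I) e.symm
        rw [h5, h5, Ideal.map_pow]
      rw [this, Ideal.mem_comap]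
      rfl
    have h4 := (h3 n1).1 hn1.ge
    have h5 := (h3 n2).2 hn2.ge
    omega
  obtain ⟨a, b, y, z, hy, hz, hxy⟩ := exists_div (R := R) x
  have h1 := key a y hy
  have h2 := key b z hz
  rw [← hxy, map_mul, ord_mul, ord_mul] at h1
  omega

end transport

section restrict

variable (K : Type*) {L : Type*} [Field K] [NumberField K] [Field L] [NumberField L] [Algebra K L]

/-- the prime below -/
def below (w : HeightOneSpectrum (𝓞 L)) : HeightOneSpectrum (𝓞 K) where
  asIdeal := w.asIdeal.under (𝓞 K)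
  isPrime := Ideal.IsPrime.under (𝓞 K) w.asIdeal
  ne_bot := Ideal.IsIntegral.comap_ne_bot (𝓞 K) w.ne_bot

instance (w : HeightOneSpectrum (𝓞 L)) : w.asIdeal.LiesOver (below K w).asIdeal := ⟨rfl⟩

lemma two_mem_below_iff (w : HeightOneSpectrum (𝓞 L)) :
    (2 : 𝓞 K) ∈ (below K w).asIdeal ↔ (2 : 𝓞 L) ∈ w.asIdeal := by
  show algebraMap (𝓞 K) (𝓞 L) 2 ∈ w.asIdeal ↔ _
  rw [map_ofNat]

variable (L) in
lemma exists_above (v : HeightOneSpectrum (𝓞 K)) : ∃ w : HeightOneSpectrum (𝓞 L), below K w = v := by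
  obtain ⟨⟨P, hP, hPv⟩⟩ := (inferInstance : Nonempty (Ideal.primesOver v.asIdeal (𝓞 L)))
  refine ⟨⟨P, hP, ?_⟩, ?_⟩
  · rintro rfl
    apply v.ne_bot
    rw [hPv.over]
    exact Ideal.comap_bot_of_injective _ (FaithfulSMul.algebraMap_injective (𝓞 K) (𝓞 L))
  · ext1
    exact hPv.over.symm

lemma ord_algebraMap_eq (w : HeightOneSpectrum (𝓞 L)) (x : Kˣ) :
    ord w (Units.map (algebraMap K L : K →* L) x) =
      w.asIdeal.ramificationIdx (𝓞 K) * ord (below K w) x := by
  have h := valuation_liesOver L (below K w) w (x : K)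
  rw [Ideal.ramificationIdx'_eq_ramificationIdx _ _ (below K w).ne_bot] at h
  have h1 := valuation_eq_exp_neg_ord w (Units.map (algebraMap K L : K →* L) x)
  have h2 := valuation_eq_exp_neg_ord (below K w) x
  rw [Units.coe_map, MonoidHom.coe_coe, ← h, h2, ← WithZero.exp_nsmul, WithZero.exp_inj] at h1
  rw [nsmul_eq_mul] at h1
  linarith

end restrict

end Pool.Agent.Lib.MP_aa8fd2_nt
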