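import Pool.Agent.Lib.MP_aa8fd2_nt.Primes

/-!
Quadratic extensions of number fields.
-/

set_option linter.unusedSectionVars false

namespace Pool.Agent.Lib.MP_aa8fd2_nt

open IsDedekindDomain HeightOneSpectrum NumberField Module

section galois

variable {K L : Type*} [Field K] [NumberField K] [Field L] [NumberField L] [Algebra K L]

/-- the automorphism of the ring of integers -/
noncomputable def sInt (s : L ≃ₐ[K] L) : 𝓞 L ≃+* 𝓞 L :=
  RingOfIntegers.mapRingEquiv (s : L ≃+* L)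

lemma sInt_coe (s : L ≃ₐ[K] L) (a : 𝓞 L) : algebraMap (𝓞 L) L (sInt s a) = s (algebraMap (𝓞 L) L a) :=
  rfl

/-- the automorphism of the unit group of the field -/
def sU (s : L ≃ₐ[K] L) : Lˣ →* Lˣ := Units.map (s : L →* L)

@[simp] lemma sU_val (s : L ≃ₐ[K] L) (x : Lˣ) : ((sU s x : Lˣ) : L) = s x := rfl

lemma ord_sU (s : L ≃ₐ[K] L) (w : HeightOneSpectrum (𝓞 L)) (x : Lˣ) :
    ord w (sU s x) = ord (cm (sInt s) w) x := by
  rw [ord_comap (sInt s) (s : L ≃+* L) (fun r => (sInt_coe s r).symm) w x]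
  rfl

lemma two_mem_cm (s : L ≃ₐ[K] L) (w : HeightOneSpectrum (𝓞 L)) :
    (2 : 𝓞 L) ∈ (cm (sInt s) w).asIdeal ↔ (2 : 𝓞 L) ∈ w.asIdeal := by
  rw [cm_asIdeal, Ideal.mem_comap, map_ofNat]

lemma below_cm (s : L ≃ₐ[K] L) (w : HeightOneSpectrum (𝓞 L)) :
    below K (cm (sInt s) w) = below K w := by
  ext x
  show sInt s (algebraMap (𝓞 K) (𝓞 L) x) ∈ w.asIdeal ↔ algebraMap (𝓞 K) (𝓞 L) x ∈ w.asIdeal
  have : sInt s (algebraMap (𝓞 K) (𝓞 L) x) = algebraMap (𝓞 K) (𝓞 L) x := by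
    apply RingOfIntegers.ext
    exact s.commutes _
  rw [this]

lemma exists_cm_eq [IsGalois K L] (w w' : HeightOneSpectrum (𝓞 L)) (h : below K w = below K w') :
    ∃ s : L ≃ₐ[K] L, w' = cm (sInt s) w := by
  have h1 : w.asIdeal.LiesOver (below K w).asIdeal := ⟨rfl⟩
  have h2 : w'.asIdeal.LiesOver (below K w).asIdeal := ⟨by rw [h]; rfl⟩
  obtain ⟨σ, hσ⟩ := Ideal.exists_smul_eq_of_isGaloisGroup (below K w).asIdeal w'.asIdeal w.asIdeal
    (L ≃ₐ[K] L)
  refine ⟨σ, ?_⟩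
  ext x
  rw [cm_asIdeal, Ideal.mem_comap, ← hσ]
  exact (Ideal.smul_mem_pointwise_smul_iff (a := σ) (S := w'.asIdeal) (x := x)).symm

/-- permutation of the primes away from 2 -/
noncomputable def tau (s : L ≃ₐ[K] L) :
    {w // w ∉ S2 L} ≃ {w // w ∉ S2 L} :=
  (cm (sInt s)).subtypeEquiv (fun w => not_congr (two_mem_cm s w).symm)

lemma tau_val (s : L ≃ₐ[K] L) (w : {w // w ∉ S2 L}) : (tau s w).1 = cm (sInt s) w.1 := rfl

/-- action on divisors -/
noncomputable def sDiv (s : L ≃ₐ[K] L) : DivG (S2 L) →* DivG (S2 L) :=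
  AddMonoidHom.toMultiplicative (Finsupp.domCongr (tau s).symm).toAddMonoidHom

lemma sDiv_apply (s : L ≃ₐ[K] L) (D : DivG (S2 L)) (w : {w // w ∉ S2 L}) :
    Multiplicative.toAdd (sDiv s D) w = Multiplicative.toAdd D (tau s w) := rfl

lemma dv_sU (s : L ≃ₐ[K] L) (x : Lˣ) : dv (S2 L) (sU s x) = sDiv s (dv (S2 L) x) := by
  apply Multiplicative.toAdd.injective
  ext w
  rw [sDiv_apply, dv_apply, dv_apply, ord_sU]
  rfl

lemma cm_cm (s : L ≃ₐ[K] L) (hs : ∀ x, s (s x) = x) (w : HeightOneSpectrum (𝓞 L)) :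
    cm (sInt s) (cm (sInt s) w) = w := by
  ext x
  rw [cm_asIdeal, Ideal.mem_comap, cm_asIdeal, Ideal.mem_comap]
  have : sInt s (sInt s x) = x := RingOfIntegers.ext (hs _)
  show sInt s (sInt s x) ∈ w.asIdeal ↔ _
  rw [this]

lemma sDiv_sDiv (s : L ≃ₐ[K] L) (hs : ∀ x, s (s x) = x) (D : DivG (S2 L)) :
    sDiv s (sDiv s D) = D := by
  apply Multiplicative.toAdd.injective
  ext w
  rw [sDiv_apply, sDiv_apply]
  congr 1
  apply Subtype.ext
  exact cm_cm s hs _

end galois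

/-- the class exponent away from 2 is odd -/
def OddExp (K : Type*) [Field K] [NumberField K] : Prop :=
  ∃ m : ℕ, Odd m ∧ ∀ D : DivG (S2 K), ∃ z : Kˣ, dv (S2 K) z = D ^ m

/-- unramified outside 2 -/
def Unr2 (K L : Type*) [Field K] [NumberField K] [Field L] [NumberField L] [Algebra K L] : Prop :=
  ∀ w : HeightOneSpectrum (𝓞 L), (2 : 𝓞 L) ∉ w.asIdeal → w.asIdeal.ramificationIdx (𝓞 K) = 1

section quadratic

variable (K L : Type*) [Field K] [NumberField K] [Field L] [NumberField L] [Algebra K L]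
  [Algebra.IsQuadraticExtension K L]

lemma exists_involution : ∃ s : L ≃ₐ[K] L, s ≠ 1 ∧ (∀ g : L ≃ₐ[K] L, g = 1 ∨ g = s) ∧
    (∀ x, s (s x) = x) := by
  have h1 : Nat.card (L ≃ₐ[K] L) = 2 := by
    rw [IsGalois.card_aut_eq_finrank, Algebra.IsQuadraticExtension.finrank_eq_two]
  rw [Nat.card_eq_two_iff' (1 : L ≃ₐ[K] L)] at h1
  obtain ⟨s, hs, hs'⟩ := h1
  refine ⟨s, hs, ?_, ?_⟩
  · intro g
    by_cases hg : g = 1
    · exact Or.inl hg
    · exact Or.inr (hs' g hg)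
  · intro x
    have : s * s = 1 := by
      by_contra h
      have h2 := hs' _ h
      rw [mul_eq_left] at h2
      exact hs h2
    exact DFunLike.congr_fun this x

variable {K L}

lemma fixed_mem {s : L ≃ₐ[K] L} (hs : ∀ g : L ≃ₐ[K] L, g = 1 ∨ g = s) {x : L} (hx : s x = x) :
    ∃ y : K, algebraMap K L y = x := by
  have := (IsGalois.mem_range_algebraMap_iff_fixed (F := K) (E := L) x).2 (by
    intro g
    rcases hs g with rfl | rfl
    · rfl
    · exact hx)
  exact this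

lemma fixed_unit_mem {s : L ≃ₐ[K] L} (hs : ∀ g : L ≃ₐ[K] L, g = 1 ∨ g = s) {x : Lˣ}
    (hx : sU s x = x) : ∃ y : Kˣ, Units.map (algebraMap K L : K →* L) y = x := by
  obtain ⟨y, hy⟩ := fixed_mem hs (x := (x : L)) (congrArg Units.val hx)
  have hy0 : y ≠ 0 := by
    rintro rfl
    rw [map_zero] at hy
    exact x.ne_zero hy.symm
  exact ⟨Units.mk0 y hy0, Units.ext hy⟩

/-- Hilbert 90 -/
lemma hilbert90 {s : L ≃ₐ[K] L} (hs1 : s ≠ 1) (hss : ∀ x, s (s x) = x) (x : Lˣ)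
    (hx : x * sU s x = 1) : ∃ y : Lˣ, x = y / sU s y := by
  by_cases h : (x : L) = -1
  · obtain ⟨a, ha⟩ : ∃ a, s a ≠ a := by
      by_contra hcon
      push Not at hcon
      exact hs1 (AlgEquiv.ext hcon)
    have h0 : a - s a ≠ 0 := sub_ne_zero.2 (Ne.symm ha)
    refine ⟨Units.mk0 _ h0, ?_⟩
    rw [eq_div_iff_mul_eq']
    ext
    rw [Units.val_mul, sU_val, Units.val_mk0, map_sub, hss, h]
    ring
  · have h0 : 1 + (x : L) ≠ 0 := by
      intro h1
      apply h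
      linear_combination h1
    refine ⟨Units.mk0 _ h0, ?_⟩
    rw [eq_div_iff_mul_eq']
    ext
    have h2 : (x : L) * s x = 1 := by
      have := congrArg Units.val hx
      rwa [Units.val_mul, sU_val, Units.val_one] at this
    rw [Units.val_mul, sU_val, Units.val_mk0, map_add, map_one]
    linear_combination h2

/-- invariant divisors come from below -/
lemma inv_div {s : L ≃ₐ[K] L} (hs : ∀ g : L ≃ₐ[K] L, g = 1 ∨ g = s)
    (hunr : Unr2 K L) {m : ℕ} (hm : ∀ D : DivG (S2 K), ∃ z : Kˣ, dv (S2 K) z = D ^ m)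
    (D : DivG (S2 L)) (hD : sDiv s D = D) : ∃ z : Lˣ, sU s z = z ∧ dv (S2 L) z = D ^ m := by
  classical
  choose ab hab using exists_above K L
  let f : {v // v ∉ S2 K} → {w // w ∉ S2 L} := fun v => ⟨ab v.1, fun h => v.2 (by
    have := (two_mem_below_iff K (ab v.1)).2 h
    rwa [hab] at this)⟩
  have hf : Function.Injective f := by
    intro v v' h
    have h1 := congrArg (fun w => below K w.1) h
    simp only [f, hab] at h1
    exact Subtype.ext h1
  obtain ⟨z, hz⟩ := hm (Multiplicative.ofAdd ((Multiplicative.toAdd D).comapDomain f hf.injOn))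
  refine ⟨Units.map (algebraMap K L : K →* L) z, Units.ext (s.commutes _), ?_⟩
  apply Multiplicative.toAdd.injective
  ext w
  rw [dv_apply, ord_algebraMap_eq, hunr w.1 w.2, Nat.cast_one, one_mul]
  have hv : below K w.1 ∉ S2 K := fun h => w.2 ((two_mem_below_iff K w.1).1 h)
  have h1 := congrArg (fun D' : DivG (S2 K) =>
    Multiplicative.toAdd D' (⟨below K w.1, hv⟩ : {v // v ∉ S2 K})) hz
  simp only [toAdd_pow, Finsupp.smul_apply, toAdd_ofAdd, Finsupp.comapDomain_apply] at h1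
  rw [dv_apply] at h1
  rw [h1, toAdd_pow, Finsupp.smul_apply]
  congr 1
  obtain ⟨g, hg⟩ := exists_cm_eq (K := K) (f ⟨below K w.1, hv⟩).1 w.1 (hab _)
  generalize f ⟨below K w.1, hv⟩ = w0 at hg
  rcases hs g with rfl | rfl
  · congr 1
    apply Subtype.ext
    rw [hg]
    ext x
    rw [cm_asIdeal, Ideal.mem_comap]
    rfl
  · have h2 : w = tau g w0 := Subtype.ext hg
    rw [h2, ← sDiv_apply, hD]

end quadratic

end Pool.Agent.Lib.MP_aa8fd2_nt
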