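import Pool.Agent.Lib.MP_aa8fd2_nt.CoeffQuot

set_option autoImplicit false

/-! Diagonalization over coefficient rings and normal forms of lifts. -/

namespace Pool.Agent.Lib.MP_aa8fd2_nt.Mazur

open IsLocalRing Polynomial

variable {p : ℕ} [Fact p.Prime] {k : Type} [Field k] {n : ℕ}

theorem CoeffRing.hensel (A : CoeffRing p k) (f : A.carrier[X]) (hf : f.Monic) (a : k)
    (h0 : (f.map A.residue).eval a = 0) (h1 : (f.map A.residue).derivative.eval a ≠ 0) :
    ∃ b : A.carrier, f.eval b = 0 ∧ A.residue b = a := by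
  obtain ⟨a, rfl⟩ := A.residue_surjective a
  rw [eval_map_apply] at h0
  rw [derivative_map, eval_map_apply] at h1
  have h2 : IsUnit (f.derivative.eval a) := A.isUnit_iff.2 h1
  obtain ⟨b, hb, hba⟩ := HenselianRing.is_henselian (I := maximalIdeal A.carrier) f hf a
    (A.mem_max.2 h0) (h2.map _)
  refine ⟨b, hb, ?_⟩
  rw [A.mem_max, map_sub, sub_eq_zero] at hba
  exact hba

theorem CoeffRing.exists_GL (A : CoeffRing p k) (X : Matrix (Fin n) (Fin n) A.carrier)
    (g : GL (Fin n) k) (h : ∀ i j, A.residue (X i j) = (g : Matrix (Fin n) (Fin n) k) i j) :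
    ∃ γ : GL (Fin n) A.carrier, (γ : Matrix (Fin n) (Fin n) A.carrier) = X ∧
      Matrix.GeneralLinearGroup.map A.residue γ = g := by
  have h1 : X.map A.residue = (g : Matrix (Fin n) (Fin n) k) := by
    ext i j; exact h i j
  have h2 : IsUnit X.det := by
    rw [A.isUnit_iff, RingHom.map_det, RingHom.mapMatrix_apply, h1]
    exact g.det_ne_zero
  refine ⟨Matrix.GeneralLinearGroup.mk'' X h2, rfl, ?_⟩
  apply Matrix.GeneralLinearGroup.ext
  exact h

theorem exists_diagonalizer (A : CoeffRing p k) (M : Matrix (Fin n) (Fin n) A.carrier)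
    (d : Fin n → k) (hd : Function.Injective d) (hM : M.map A.residue = Matrix.diagonal d) :
    ∃ γ : GL (Fin n) A.carrier, Matrix.GeneralLinearGroup.map A.residue γ = 1 ∧
      ∃ l : Fin n → A.carrier, M * (γ : Matrix (Fin n) (Fin n) A.carrier) =
        (γ : Matrix (Fin n) (Fin n) A.carrier) * Matrix.diagonal l := by
  classical
  have hchar : M.charpoly.map A.residue = ∏ i, (X - C (d i)) := by
    rw [← Matrix.charpoly_map, hM, Matrix.charpoly_diagonal]
  have hroot : ∀ i, (M.charpoly.map A.residue).eval (d i) = 0 := by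
    intro i
    rw [hchar, eval_prod]
    exact Finset.prod_eq_zero (Finset.mem_univ i) (by simp)
  have hder : ∀ i, (M.charpoly.map A.residue).derivative.eval (d i) ≠ 0 := by
    intro i
    have hs : (M.charpoly.map A.residue).Separable := by
      rw [hchar, separable_prod_X_sub_C_iff]
      exact hd
    have h1 := hs.aeval_derivative_ne_zero (x := d i) (by
      rw [coe_aeval_eq_eval]; exact hroot i)
    rwa [coe_aeval_eq_eval] at h1
  choose l hl1 hl2 using fun i => A.hensel M.charpoly M.charpoly_monic (d i) (hroot i) (hder i)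
  have hunit : ∀ i j, i ≠ j → IsUnit (l i - l j) := by
    intro i j hij
    rw [A.isUnit_iff, map_sub, hl2, hl2]
    exact sub_ne_zero.2 (hd.ne hij)
  have hprod : M.charpoly = ∏ i, (X - C (l i)) := by
    apply eq_of_monic_of_dvd_of_natDegree_le
    · exact monic_prod_of_monic _ _ (fun i _ => monic_X_sub_C (l i))
    · exact M.charpoly_monic
    · apply Finset.prod_dvd_of_coprime
      · intro i _ j _ hij
        exact isCoprime_X_sub_C_of_isUnit_sub (hunit i j hij)
      · intro i _
        exact dvd_iff_isRoot.2 (hl1 i)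
    · rw [M.charpoly_natDegree_eq_dim, natDegree_prod_of_monic _ _
        (fun i _ => monic_X_sub_C (l i))]
      simp
  let q : Fin n → A.carrier[X] := fun b => ∏ j ∈ Finset.univ.erase b, (X - C (l j))
  have hq : ∀ b, (X - C (l b)) * q b = M.charpoly := by
    intro b
    rw [hprod]
    exact Finset.mul_prod_erase Finset.univ (fun j => X - C (l j)) (Finset.mem_univ b)
  have hMq : ∀ b, M * aeval M (q b) = l b • aeval M (q b) := by
    intro b
    have h1 : aeval M ((X - C (l b)) * q b) = 0 := by rw [hq]; exact M.aeval_self_charpoly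
    rw [map_mul, map_sub, aeval_X, aeval_C, sub_mul, sub_eq_zero, Algebra.algebraMap_eq_smul_one,
      smul_mul_assoc, one_mul] at h1
    exact h1
  have hqu : ∀ b, IsUnit ((q b).eval (l b)) := by
    intro b
    rw [eval_prod]
    rw [IsUnit.prod_iff]
    intro j hj
    rw [eval_sub, eval_X, eval_C]
    exact hunit b j (Finset.ne_of_mem_erase hj).symm
  choose u hu using hqu
  have hqres : ∀ b, (q b).map A.residue = ∏ j ∈ Finset.univ.erase b, (X - C (d j)) := by
    intro b
    rw [Polynomial.map_prod]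
    apply Finset.prod_congr rfl
    intro j _
    rw [Polynomial.map_sub, map_X, map_C, hl2]
  have hres : ∀ b i j, A.residue (aeval M (q b) i j) =
      Matrix.diagonal (fun i => ((q b).map A.residue).eval (d i)) i j := by
    intro b i j
    have h1 : A.residue.mapMatrix (aeval M (q b)) =
        aeval (A.residue.mapMatrix M) ((q b).map A.residue) := by
      apply map_aeval_eq_aeval_map
      ext a i j
      simp [Matrix.algebraMap_matrix_apply]
      split_ifs <;> simp
    have h2 : A.residue.mapMatrix M = Matrix.diagonalAlgHom k d := by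
      rw [RingHom.mapMatrix_apply, hM]; rfl
    rw [h2, aeval_algHom_apply] at h1
    have h3 := congrFun (congrFun h1 i) j
    rw [RingHom.mapMatrix_apply, Matrix.map_apply] at h3
    rw [h3]
    show Matrix.diagonal (aeval d ((q b).map A.residue)) i j = _
    congr 2
    ext i
    have h4 := aeval_algHom_apply (Pi.evalAlgHom k (fun _ : Fin n => k) i) d ((q b).map A.residue)
    rw [← coe_aeval_eq_eval]
    exact h4.symm
  let V : Matrix (Fin n) (Fin n) A.carrier :=
    Matrix.of fun a b => ((u b)⁻¹ : A.carrierˣ) * aeval M (q b) a b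
  have hVa : ∀ a b, V a b = ((u b)⁻¹ : A.carrierˣ) * aeval M (q b) a b := fun _ _ => rfl
  have hV : ∀ i j, A.residue (V i j) = ((1 : GL (Fin n) k) : Matrix (Fin n) (Fin n) k) i j := by
    intro i j
    rw [hVa, map_mul, hres, Units.val_one]
    by_cases hij : i = j
    · subst hij
      rw [Matrix.diagonal_apply_eq, Matrix.one_apply_eq]
      have h5 : ((q i).map A.residue).eval (d i) = A.residue ((u i : A.carrierˣ) : A.carrier) := by
        rw [hu, ← hl2 i, eval_map_apply]
      rw [h5, ← map_mul, Units.inv_mul, map_one]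
    · rw [Matrix.diagonal_apply_ne _ hij, Matrix.one_apply_ne hij, mul_zero]
  obtain ⟨γ, hγV, hγ⟩ := A.exists_GL V 1 hV
  refine ⟨γ, hγ, l, ?_⟩
  rw [hγV]
  ext a b
  rw [Matrix.mul_diagonal, Matrix.mul_apply]
  have h6 := congrFun (congrFun (hMq b) a) b
  rw [Matrix.mul_apply, Matrix.smul_apply, smul_eq_mul] at h6
  calc ∑ j, M a j * V j b = ((u b)⁻¹ : A.carrierˣ) * ∑ j, M a j * aeval M (q b) j b := by
        rw [Finset.mul_sum]
        apply Finset.sum_congr rfl
        intro j _
        rw [hVa]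
        ring
    _ = V a b * l b := by
        rw [h6, hVa]
        ring

variable {G : Type} [Group G]

/-- Data for a normal form of the lifts of `ρbar`: an element whose image is diagonal with
distinct entries, and elements whose images have nonzero entries in the row `i0`. -/
structure Slice (p : ℕ) [Fact p.Prime] (ρbar : G →* GL (Fin n) k) where
  i0 : Fin n
  g1 : G
  d : Fin n → k
  d_inj : Function.Injective d
  hg1 : (ρbar g1 : Matrix (Fin n) (Fin n) k) = Matrix.diagonal d
  h : Fin n → G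
  v : Fin n → WittVector p k
  hv : ∀ i, (v i).coeff 0 = (ρbar (h i) : Matrix (Fin n) (Fin n) k) i0 i
  hne : ∀ i, i ≠ i0 → (ρbar (h i) : Matrix (Fin n) (Fin n) k) i0 i ≠ 0

/-- The normal form. -/
structure Slice.IsNormal {ρbar : G →* GL (Fin n) k} (s : Slice p ρbar) (A : CoeffRing p k)
    (ρ : G →* GL (Fin n) A.carrier) : Prop where
  diag : ∀ i j, i ≠ j → (ρ s.g1 : Matrix (Fin n) (Fin n) A.carrier) i j = 0
  row : ∀ i, i ≠ s.i0 →
    (ρ (s.h i) : Matrix (Fin n) (Fin n) A.carrier) s.i0 i = algebraMap _ A.carrier (s.v i)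

theorem conj_eq_mul {R : Type*} [CommRing R] {γ a b : GL (Fin n) R} (h : a = γ * b * γ⁻¹)
    (i j : Fin n) : ((a : Matrix (Fin n) (Fin n) R) * (γ : Matrix (Fin n) (Fin n) R)) i j =
      ((γ : Matrix (Fin n) (Fin n) R) * (b : Matrix (Fin n) (Fin n) R)) i j := by
  have h1 : a * γ = γ * b := by rw [h]; group
  have h2 := congrArg (fun x : GL (Fin n) R => (x : Matrix (Fin n) (Fin n) R) i j) h1
  exact h2

theorem Slice.exists_conj {ρbar : G →* GL (Fin n) k} (s : Slice p ρbar) (A : CoeffRing p k)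
    (ρ : G →* GL (Fin n) A.carrier)
    (hρ : ∀ g, Matrix.GeneralLinearGroup.map A.residue (ρ g) = ρbar g) :
    ∃ γ : GL (Fin n) A.carrier, Matrix.GeneralLinearGroup.map A.residue γ = 1 ∧
      s.IsNormal A ((MulAut.conj γ).toMonoidHom.comp ρ) := by
  classical
  obtain ⟨γ1, hγ1, l, hl⟩ := exists_diagonalizer A (ρ s.g1 : Matrix (Fin n) (Fin n) A.carrier)
    s.d s.d_inj (by
      have := congrArg (fun x : GL (Fin n) k => (x : Matrix (Fin n) (Fin n) k)) (hρ s.g1)
      exact Eq.trans this s.hg1)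
  let ρ1 : G →* GL (Fin n) A.carrier := (MulAut.conj γ1⁻¹).toMonoidHom.comp ρ
  have hρ1 : ∀ g, ρ1 g = γ1⁻¹ * ρ g * γ1⁻¹⁻¹ := fun g => rfl
  have hρ1bar : ∀ g, Matrix.GeneralLinearGroup.map A.residue (ρ1 g) = ρbar g := by
    intro g
    rw [hρ1, map_mul, map_mul, map_inv, map_inv, map_inv, hγ1, hρ]
    simp
  have hρ1bar' : ∀ g i j, A.residue ((ρ1 g : Matrix (Fin n) (Fin n) A.carrier) i j) =
      (ρbar g : Matrix (Fin n) (Fin n) k) i j := by
    intro g i j
    rw [← hρ1bar g]
    rfl
  have hdiag : (ρ1 s.g1 : Matrix (Fin n) (Fin n) A.carrier) = Matrix.diagonal l := by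
    have h1 : (γ1 : Matrix (Fin n) (Fin n) A.carrier) *
        (ρ1 s.g1 : Matrix (Fin n) (Fin n) A.carrier) =
        (γ1 : Matrix (Fin n) (Fin n) A.carrier) * Matrix.diagonal l := by
      rw [← hl]
      have h2 : γ1 * ρ1 s.g1 = ρ s.g1 * γ1 := by rw [hρ1]; group
      exact congrArg (fun x : GL (Fin n) A.carrier => (x : Matrix (Fin n) (Fin n) A.carrier)) h2
    have h3 : ((γ1⁻¹ : GL (Fin n) A.carrier) : Matrix (Fin n) (Fin n) A.carrier) *
        (γ1 : Matrix (Fin n) (Fin n) A.carrier) = 1 := by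
      have h4 := inv_mul_cancel γ1
      exact congrArg (fun x : GL (Fin n) A.carrier => (x : Matrix (Fin n) (Fin n) A.carrier)) h4
    calc _ = (((γ1⁻¹ : GL (Fin n) A.carrier) : Matrix (Fin n) (Fin n) A.carrier) *
        (γ1 : Matrix (Fin n) (Fin n) A.carrier)) *
          (ρ1 s.g1 : Matrix (Fin n) (Fin n) A.carrier) := by rw [h3, one_mul]
      _ = (((γ1⁻¹ : GL (Fin n) A.carrier) : Matrix (Fin n) (Fin n) A.carrier) *
        (γ1 : Matrix (Fin n) (Fin n) A.carrier)) * Matrix.diagonal l := by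
          rw [mul_assoc, h1, mul_assoc]
      _ = _ := by rw [h3, one_mul]
  have hv : ∀ i, A.residue (algebraMap _ A.carrier (s.v i)) =
      (ρbar (s.h i) : Matrix (Fin n) (Fin n) k) s.i0 i := by
    intro i
    rw [A.residue_algebraMap, s.hv]
  have hvu : ∀ i, i ≠ s.i0 → IsUnit (algebraMap _ A.carrier (s.v i)) := by
    intro i hi
    rw [A.isUnit_iff, hv]
    exact s.hne i hi
  have ht : ∀ i, ∃ t : A.carrier, A.residue t = 1 ∧ IsUnit t ∧ (i = s.i0 → t = 1) ∧
      (i ≠ s.i0 → (ρ1 (s.h i) : Matrix (Fin n) (Fin n) A.carrier) s.i0 i =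
        t * algebraMap _ A.carrier (s.v i)) := by
    intro i
    by_cases hi : i = s.i0
    · exact ⟨1, map_one _, isUnit_one, fun _ => rfl, fun h => absurd hi h⟩
    · obtain ⟨u, hu⟩ := hvu i hi
      have h1 : A.residue ((ρ1 (s.h i) : Matrix (Fin n) (Fin n) A.carrier) s.i0 i *
          ((u⁻¹ : A.carrierˣ) : A.carrier)) = 1 := by
        rw [map_mul, hρ1bar', ← hv, ← hu, ← map_mul, Units.mul_inv, map_one]
      refine ⟨_, h1, ?_, fun h => absurd h hi, fun _ => ?_⟩
      · rw [A.isUnit_iff, h1]; exact one_ne_zero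
      · rw [← hu, mul_assoc, Units.inv_mul, mul_one]
  choose t ht1 ht2 ht3 ht4 using ht
  obtain ⟨D, hD, hD1⟩ := A.exists_GL (Matrix.diagonal t) 1 (by
    intro i j
    rw [Units.val_one]
    by_cases hij : i = j
    · subst hij
      rw [Matrix.diagonal_apply_eq, Matrix.one_apply_eq, ht1]
    · rw [Matrix.diagonal_apply_ne _ hij, Matrix.one_apply_ne hij, map_zero])
  refine ⟨D * γ1⁻¹, by rw [map_mul, map_inv, hγ1, hD1]; simp, ?_⟩
  let ρ2 : G →* GL (Fin n) A.carrier := (MulAut.conj (D * γ1⁻¹)).toMonoidHom.comp ρ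
  have hρ2 : ∀ g i j, (ρ2 g : Matrix (Fin n) (Fin n) A.carrier) i j * t j =
      t i * (ρ1 g : Matrix (Fin n) (Fin n) A.carrier) i j := by
    intro g i j
    have h1 : ρ2 g = D * ρ1 g * D⁻¹ := by
      show D * γ1⁻¹ * ρ g * (D * γ1⁻¹)⁻¹ = D * (γ1⁻¹ * ρ g * γ1⁻¹⁻¹) * D⁻¹
      group
    have h2 := conj_eq_mul h1 i j
    rw [hD, Matrix.mul_diagonal, Matrix.diagonal_mul] at h2
    exact h2
  constructor
  · intro i j hij
    have h1 := hρ2 s.g1 i j
    rw [hdiag, Matrix.diagonal_apply_ne _ hij, mul_zero] at h1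
    exact (ht2 j).mul_left_eq_zero.1 h1
  · intro i hi
    have h1 := hρ2 (s.h i) s.i0 i
    rw [ht3 s.i0 rfl, one_mul, ht4 i hi, mul_comm] at h1
    exact (ht2 i).mul_left_cancel h1

theorem Slice.eq_of_conj {ρbar : G →* GL (Fin n) k} (s : Slice p ρbar) (A : CoeffRing p k)
    (ρ ρ' : G →* GL (Fin n) A.carrier)
    (hρ : ∀ g, Matrix.GeneralLinearGroup.map A.residue (ρ g) = ρbar g)
    (hρ' : ∀ g, Matrix.GeneralLinearGroup.map A.residue (ρ' g) = ρbar g)
    (hn : s.IsNormal A ρ) (hn' : s.IsNormal A ρ') (γ : GL (Fin n) A.carrier)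
    (hγ : ∀ g, ρ' g = γ * ρ g * γ⁻¹) : ρ = ρ' := by
  classical
  have hres : ∀ i, A.residue ((ρ s.g1 : Matrix (Fin n) (Fin n) A.carrier) i i) = s.d i := by
    intro i
    have h1 := congrArg (fun x : GL (Fin n) k => (x : Matrix (Fin n) (Fin n) k) i i) (hρ s.g1)
    simp only [s.hg1, Matrix.diagonal_apply_eq] at h1
    exact h1
  have hres' : ∀ i, A.residue ((ρ' s.g1 : Matrix (Fin n) (Fin n) A.carrier) i i) = s.d i := by
    intro i
    have h1 := congrArg (fun x : GL (Fin n) k => (x : Matrix (Fin n) (Fin n) k) i i) (hρ' s.g1)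
    simp only [s.hg1, Matrix.diagonal_apply_eq] at h1
    exact h1
  have hoff : ∀ i j, i ≠ j → (γ : Matrix (Fin n) (Fin n) A.carrier) i j = 0 := by
    intro i j hij
    have h1 := conj_eq_mul (hγ s.g1) i j
    rw [Matrix.mul_apply, Matrix.mul_apply, Finset.sum_eq_single i, Finset.sum_eq_single j] at h1
    · have h2 : (γ : Matrix (Fin n) (Fin n) A.carrier) i j *
          ((ρ s.g1 : Matrix (Fin n) (Fin n) A.carrier) j j -
            (ρ' s.g1 : Matrix (Fin n) (Fin n) A.carrier) i i) = 0 := by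
        rw [mul_sub, ← h1]; ring
      have h3 : IsUnit ((ρ s.g1 : Matrix (Fin n) (Fin n) A.carrier) j j -
            (ρ' s.g1 : Matrix (Fin n) (Fin n) A.carrier) i i) := by
        rw [A.isUnit_iff, map_sub, hres, hres']
        exact sub_ne_zero.2 (s.d_inj.ne hij.symm)
      exact h3.mul_left_eq_zero.1 h2
    · intro b _ hb
      rw [hn.diag b j hb, mul_zero]
    · intro h; exact absurd (Finset.mem_univ _) h
    · intro b _ hb
      rw [hn'.diag i b (Ne.symm hb), zero_mul]
    · intro h; exact absurd (Finset.mem_univ _) h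
  have hdiag : ∀ i, (γ : Matrix (Fin n) (Fin n) A.carrier) i i =
      (γ : Matrix (Fin n) (Fin n) A.carrier) s.i0 s.i0 := by
    intro i
    by_cases hi : i = s.i0
    · rw [hi]
    have h1 := conj_eq_mul (hγ (s.h i)) s.i0 i
    rw [Matrix.mul_apply, Matrix.mul_apply, Finset.sum_eq_single i,
      Finset.sum_eq_single s.i0, hn.row i hi, hn'.row i hi, mul_comm] at h1
    · have hvu : IsUnit (algebraMap _ A.carrier (s.v i)) := by
        rw [A.isUnit_iff, A.residue_algebraMap, s.hv]
        exact s.hne i hi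
      exact hvu.mul_right_cancel h1
    · intro b _ hb
      rw [hoff s.i0 b hb.symm, zero_mul]
    · intro h; exact absurd (Finset.mem_univ _) h
    · intro b _ hb
      rw [hoff b i hb, mul_zero]
    · intro h; exact absurd (Finset.mem_univ _) h
  have hscal : (γ : Matrix (Fin n) (Fin n) A.carrier) =
      Matrix.scalar (Fin n) ((γ : Matrix (Fin n) (Fin n) A.carrier) s.i0 s.i0) := by
    ext i j
    rw [Matrix.scalar_apply]
    by_cases hij : i = j
    · subst hij
      rw [Matrix.diagonal_apply_eq, hdiag]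
    · rw [Matrix.diagonal_apply_ne _ hij, hoff i j hij]
  have hcomm : ∀ x : GL (Fin n) A.carrier, γ * x = x * γ := by
    intro x
    apply Units.ext
    rw [Units.val_mul, Units.val_mul, hscal]
    exact (Matrix.scalar_commute _ (fun r => Commute.all _ r) _).eq
  apply MonoidHom.ext
  intro g
  rw [hγ g, hcomm, mul_assoc, mul_inv_cancel, mul_one]

end Pool.Agent.Lib.MP_aa8fd2_nt.Mazur
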