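import Pool.Agent.Lib.MP_aa8fd2_nt.CoeffFree
import Pool.Agent.Lib.MP_aa8fd2_nt.Burnside
import Pool.Agent.Lib.MP_aa8fd2_nt.Slice

set_option autoImplicit false

/-! Existence of universal deformation rings. -/

namespace Pool.Agent.Lib.MP_aa8fd2_nt.Mazur

open IsLocalRing

section Congr

variable {n : ℕ}

theorem red_eq_iff {R : Type*} [CommRing R] (J : Ideal R) (X Y : GL (Fin n) R) :
    Matrix.GeneralLinearGroup.map (Ideal.Quotient.mk J) X =
      Matrix.GeneralLinearGroup.map (Ideal.Quotient.mk J) Y ↔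
      ∀ i j, (X : Matrix (Fin n) (Fin n) R) i j - (Y : Matrix (Fin n) (Fin n) R) i j ∈ J := by
  rw [Matrix.GeneralLinearGroup.ext_iff]
  constructor
  · intro h i j
    exact Ideal.Quotient.eq.1 (h i j)
  · intro h i j
    exact Ideal.Quotient.eq.2 (h i j)

theorem red_eq_one_iff {R : Type*} [CommRing R] (J : Ideal R) (X : GL (Fin n) R) :
    Matrix.GeneralLinearGroup.map (Ideal.Quotient.mk J) X = 1 ↔
      ∀ i j, (X : Matrix (Fin n) (Fin n) R) i j - (1 : Matrix (Fin n) (Fin n) R) i j ∈ J := by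
  have h := red_eq_iff J X 1
  rw [map_one] at h
  exact h

theorem matrix_mul_mem {R : Type*} [CommRing R] (I J : Ideal R) (X Y : Matrix (Fin n) (Fin n) R)
    (hX : ∀ i j, X i j ∈ I) (hY : ∀ i j, Y i j ∈ J) (i j : Fin n) : (X * Y) i j ∈ I * J := by
  rw [Matrix.mul_apply]
  exact Ideal.sum_mem _ (fun l _ => Ideal.mul_mem_mul (hX i l) (hY l j))

variable {p : ℕ} [Fact p.Prime] {k : Type} [Field k]

theorem pow_p_congr [CharP k p] (A : CoeffRing p k) (γ : GL (Fin n) A.carrier)
    (h : Matrix.GeneralLinearGroup.map A.residue γ = 1) (s : ℕ) (i j : Fin n) :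
    ((γ ^ p ^ s : GL (Fin n) A.carrier) : Matrix (Fin n) (Fin n) A.carrier) i j -
      (1 : Matrix (Fin n) (Fin n) A.carrier) i j ∈ maximalIdeal A.carrier ^ (s + 1) := by
  induction s generalizing i j with
  | zero =>
    simp only [pow_zero, zero_add, pow_one]
    rw [A.mem_max, map_sub, sub_eq_zero]
    have h1 := congrArg (fun x : GL (Fin n) k => (x : Matrix (Fin n) (Fin n) k) i j) h
    refine Eq.trans h1 ?_
    show (1 : Matrix (Fin n) (Fin n) k) i j = _
    rw [Matrix.one_apply, Matrix.one_apply]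
    split_ifs
    · rw [map_one]
    · rw [map_zero]
  | succ s ih =>
    let Y : Matrix (Fin n) (Fin n) A.carrier :=
      ((γ ^ p ^ s : GL (Fin n) A.carrier) : Matrix (Fin n) (Fin n) A.carrier)
    have hY : ((γ ^ p ^ (s + 1) : GL (Fin n) A.carrier) : Matrix (Fin n) (Fin n) A.carrier) =
        Y ^ p := by
      rw [pow_succ, pow_mul, Units.val_pow_eq_pow_val]
    have hgeom := geom_sum_mul Y p
    have hres : ∀ a b, (∑ l ∈ Finset.range p, Y ^ l) a b ∈ maximalIdeal A.carrier := by
      intro a b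
      rw [A.mem_max]
      have h1 : A.residue.mapMatrix Y = 1 := by
        ext a b
        have h2 := Ideal.pow_le_self (Nat.succ_ne_zero s) (ih a b)
        rw [A.mem_max, map_sub, sub_eq_zero] at h2
        refine Eq.trans h2 ?_
        rw [Matrix.one_apply, Matrix.one_apply]
        split_ifs
        · rw [map_one]
        · rw [map_zero]
      have h3 : A.residue.mapMatrix (∑ l ∈ Finset.range p, Y ^ l) = 0 := by
        rw [map_sum]
        simp only [map_pow, h1, one_pow, Finset.sum_const, Finset.card_range]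
        rw [← Nat.cast_smul_eq_nsmul k, CharP.cast_eq_zero, zero_smul]
      exact congrFun (congrFun h3 a) b
    have h4 := matrix_mul_mem _ _ _ _ hres ih i j
    rw [← pow_succ'] at h4
    have h5 : ((γ ^ p ^ (s + 1) : GL (Fin n) A.carrier) : Matrix (Fin n) (Fin n) A.carrier) i j -
      (1 : Matrix (Fin n) (Fin n) A.carrier) i j = ((∑ l ∈ Finset.range p, Y ^ l) * (Y - 1)) i j := by
      rw [hgeom, hY]; rfl
    rw [h5]
    exact h4

variable {G : Type} [Group G] [TopologicalSpace G]

theorem adm_of_lift [Finite k] [CharP k p] {ρbar : G →* GL (Fin n) k} {A : CoeffRing p k}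
    {ρ : G →* GL (Fin n) A.carrier} (hρ : IsLift ρbar A ρ) (N : ℕ) :
    Adm p ρbar.ker ((Matrix.GeneralLinearGroup.map
      (Ideal.Quotient.mk (maximalIdeal A.carrier ^ (N + 1)))).comp ρ).ker where
  normal := MonoidHom.normal_ker _
  isOpen := by
    have h := hρ.continuous (N + 1)
    convert h using 1
    ext g
    exact red_eq_one_iff _ _
  le := by
    intro g hg
    rw [MonoidHom.mem_ker, MonoidHom.comp_apply, red_eq_one_iff] at hg
    rw [MonoidHom.mem_ker, ← hρ.reduces]
    apply Matrix.GeneralLinearGroup.ext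
    intro i j
    have h1 := Ideal.pow_le_self (Nat.succ_ne_zero N) (hg i j)
    rw [A.mem_max, map_sub, sub_eq_zero] at h1
    refine Eq.trans h1 ?_
    show A.residue ((1 : Matrix (Fin n) (Fin n) A.carrier) i j) =
      (1 : Matrix (Fin n) (Fin n) k) i j
    rw [Matrix.one_apply, Matrix.one_apply]
    split_ifs
    · rw [map_one]
    · rw [map_zero]
  finiteIndex := by
    have := A.finite_quot (N + 1)
    infer_instance
  pow_mem := by
    intro h hh
    refine ⟨N, ?_⟩
    rw [MonoidHom.mem_ker, MonoidHom.comp_apply, red_eq_one_iff, map_pow]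
    apply pow_p_congr
    rw [hρ.reduces]
    exact hh

end Congr

section Extend

variable {p : ℕ} [Fact p.Prime] {k : Type} [Field k] {n : ℕ} {G : Type} [Group G]

/-- Extension of a homomorphism by continuity. -/
theorem extend_hom {F : Type} [Group F] (φ : F →* G) (R : CoeffRing p k)
    (V : F →* GL (Fin n) R.carrier) (𝓤 : Subgroup G → Prop)
    (hinf : ∀ U U', 𝓤 U → 𝓤 U' → 𝓤 (U ⊓ U')) (hnorm : ∀ U, 𝓤 U → U.Normal)
    (hdense : ∀ U, 𝓤 U → ∀ x, ∃ w, (φ w)⁻¹ * x ∈ U)
    (hV : ∀ N : ℕ, ∃ U, 𝓤 U ∧ ∀ w, φ w ∈ U → Matrix.GeneralLinearGroup.map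
      (Ideal.Quotient.mk (maximalIdeal R.carrier ^ N)) (V w) = 1) :
    ∃ ρ : G →* GL (Fin n) R.carrier, (∀ w, ρ (φ w) = V w) ∧ ∀ N : ℕ, ∃ U, 𝓤 U ∧ ∀ x ∈ U,
      Matrix.GeneralLinearGroup.map
        (Ideal.Quotient.mk (maximalIdeal R.carrier ^ N)) (ρ x) = 1 := by
  choose U0 hU0 hU0V using hV
  let U : ℕ → Subgroup G := fun N => Nat.rec (U0 0) (fun N u => u ⊓ U0 (N + 1)) N
  have hUsucc : ∀ N, U (N + 1) = U N ⊓ U0 (N + 1) := fun N => rfl
  have hU : ∀ N, 𝓤 (U N) := by
    intro N
    induction N with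
    | zero => exact hU0 0
    | succ N ih => rw [hUsucc]; exact hinf _ _ ih (hU0 _)
  have hUle : ∀ N, U N ≤ U0 N := by
    intro N
    cases N with
    | zero => exact le_rfl
    | succ N => rw [hUsucc]; exact inf_le_right
  let red : ∀ N : ℕ, GL (Fin n) R.carrier →* GL (Fin n) (R.carrier ⧸ maximalIdeal R.carrier ^ N) :=
    fun N => Matrix.GeneralLinearGroup.map (Ideal.Quotient.mk (maximalIdeal R.carrier ^ N))
  choose wd hwd using fun N x => hdense (U N) (hU N) x
  have hkey : ∀ N x w w', (φ w)⁻¹ * x ∈ U N → (φ w')⁻¹ * x ∈ U N → red N (V w) = red N (V w') := by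
    intro N x w w' hw hw'
    have h1 : φ (w⁻¹ * w') ∈ U N := by
      have h2 : φ (w⁻¹ * w') = ((φ w)⁻¹ * x) * ((φ w')⁻¹ * x)⁻¹ := by
        rw [map_mul, map_inv]; group
      rw [h2]
      exact (U N).mul_mem hw ((U N).inv_mem hw')
    have h3 : red N (V (w⁻¹ * w')) = 1 := hU0V N _ (hUle N h1)
    rw [map_mul, map_mul, map_inv, map_inv, inv_mul_eq_one] at h3
    exact h3
  have hlim : ∀ x i j, ∃ L : R.carrier, ∀ N,
      (V (wd N x) : Matrix (Fin n) (Fin n) R.carrier) i j - L ∈ maximalIdeal R.carrier ^ N := by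
    intro x i j
    have hstep : ∀ N, (V (wd N x) : Matrix (Fin n) (Fin n) R.carrier) i j -
        (V (wd (N + 1) x) : Matrix (Fin n) (Fin n) R.carrier) i j ∈
          maximalIdeal R.carrier ^ N := by
      intro N
      have h1 := hkey N x (wd N x) (wd (N + 1) x) (hwd N x) (by
        have h2 := hwd (N + 1) x
        rw [hUsucc] at h2
        exact h2.1)
      exact (red_eq_iff _ _ _).1 h1 i j
    have hC : ∀ {a b : ℕ}, a ≤ b → (V (wd a x) : Matrix (Fin n) (Fin n) R.carrier) i j ≡
        (V (wd b x) : Matrix (Fin n) (Fin n) R.carrier) i j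
          [SMOD (maximalIdeal R.carrier ^ a • ⊤ : Ideal R.carrier)] := by
      intro a b hab
      rw [SModEq.sub_mem, smul_eq_mul, Ideal.mul_top]
      induction b, hab using Nat.le_induction with
      | base => rw [sub_self]; exact zero_mem _
      | succ b hab ih =>
        have h3 := Ideal.pow_le_pow_right hab (hstep b)
        have h4 := add_mem ih h3
        rwa [sub_add_sub_cancel] at h4
    obtain ⟨L, hL⟩ := IsPrecomplete.prec (R.isAdicComplete.toIsPrecomplete) hC
    refine ⟨L, fun N => ?_⟩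
    have h5 := hL N
    rw [SModEq.sub_mem, smul_eq_mul, Ideal.mul_top] at h5
    exact h5
  choose L hL using hlim
  let mred : ∀ N : ℕ, Matrix (Fin n) (Fin n) R.carrier →+*
      Matrix (Fin n) (Fin n) (R.carrier ⧸ maximalIdeal R.carrier ^ N) :=
    fun N => (Ideal.Quotient.mk (maximalIdeal R.carrier ^ N)).mapMatrix
  have hmred : ∀ N (X : GL (Fin n) R.carrier), mred N (X : Matrix (Fin n) (Fin n) R.carrier) =
      (red N X : Matrix (Fin n) (Fin n) (R.carrier ⧸ maximalIdeal R.carrier ^ N)) :=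
    fun N X => rfl
  have hext : ∀ X Y : Matrix (Fin n) (Fin n) R.carrier, (∀ N, mred N X = mred N Y) → X = Y := by
    intro X Y h
    ext i j
    apply eq_of_forall_pow (maximalIdeal R.carrier)
    intro N
    exact Ideal.Quotient.eq.1 (congrFun (congrFun (h N) i) j)
  let Lm : G → Matrix (Fin n) (Fin n) R.carrier := fun x => Matrix.of (L x)
  have hLm : ∀ N x w, (φ w)⁻¹ * x ∈ U N → mred N (Lm x) = mred N (V w) := by
    intro N x w hw
    rw [hmred, ← hkey N x (wd N x) w (hwd N x) hw, ← hmred]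
    symm
    ext i j
    exact Ideal.Quotient.eq.2 (hL x i j N)
  let f : G →* Matrix (Fin n) (Fin n) R.carrier :=
    { toFun := Lm
      map_one' := by
        apply hext
        intro N
        rw [hLm N 1 1 (by simp [one_mem]), map_one, Units.val_one]
      map_mul' := by
        intro x y
        apply hext
        intro N
        have := hnorm _ (hU N)
        have h1 : (φ (wd N x * wd N y))⁻¹ * (x * y) ∈ U N := by
          have h2 : (φ (wd N x * wd N y))⁻¹ * (x * y) =
              ((φ (wd N y))⁻¹ * ((φ (wd N x))⁻¹ * x) * (φ (wd N y))⁻¹⁻¹) *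
                ((φ (wd N y))⁻¹ * y) := by
            rw [map_mul]; group
          rw [h2]
          exact (U N).mul_mem (this.conj_mem _ (hwd N x) _) (hwd N y)
        rw [hLm N _ _ h1, map_mul, map_mul, Units.val_mul, map_mul, hLm N x _ (hwd N x),
          hLm N y _ (hwd N y)] }
  have hfV : ∀ w, f (φ w) = V w := by
    intro w
    apply hext
    intro N
    exact hLm N (φ w) w (by rw [inv_mul_cancel]; exact one_mem _)
  refine ⟨f.toHomUnits, fun w => Units.ext (hfV w), fun N => ⟨U N, hU N, fun x hx => ?_⟩⟩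
  apply Units.ext
  have h1 : mred N (Lm x) = mred N (V 1) := hLm N x 1 (by rw [map_one, inv_one, one_mul]; exact hx)
  rw [map_one, Units.val_one, map_one] at h1
  exact h1

end Extend

section Chevalley

variable {p : ℕ} [Fact p.Prime] {k : Type} [Field k] [Finite k]

theorem finite_ideals_above (P : CoeffRing p k) (N : ℕ) :
    {I : Ideal P.carrier | maximalIdeal P.carrier ^ N ≤ I}.Finite := by
  have := P.finite_quot N
  have hfin : Finite (Ideal (P.carrier ⧸ maximalIdeal P.carrier ^ N)) :=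
    Finite.of_injective (fun J => (J : Set (P.carrier ⧸ maximalIdeal P.carrier ^ N)))
      SetLike.coe_injective
  refine Set.Finite.of_finite_image
    (f := fun I => I.map (Ideal.Quotient.mk (maximalIdeal P.carrier ^ N))) (Set.toFinite _) ?_
  intro I hI J hJ h
  have h1 := congrArg (Ideal.comap (Ideal.Quotient.mk (maximalIdeal P.carrier ^ N))) h
  simp only at h1
  rwa [Ideal.comap_map_mk hI, Ideal.comap_map_mk hJ] at h1

/-- A version of Chevalley's theorem for complete local rings. -/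
theorem chevalley (P : CoeffRing p k) (Good : Ideal P.carrier → Prop)
    (hmax : Good (maximalIdeal P.carrier)) (hle : ∀ I, Good I → I ≤ maximalIdeal P.carrier)
    (hinf : ∀ I J, Good I → Good J → Good (I ⊓ J))
    (hmono : ∀ I J, Good I → I ≤ J → J ≤ maximalIdeal P.carrier → Good J)
    (hpow : ∀ I, Good I → ∃ N : ℕ, maximalIdeal P.carrier ^ N ≤ I) (N : ℕ) :
    ∃ I, Good I ∧ I ≤ sInf {I | Good I} ⊔ maximalIdeal P.carrier ^ (N + 1) := by
  have hex : ∀ N : ℕ, ∃ I, (Good I ∧ maximalIdeal P.carrier ^ (N + 1) ≤ I) ∧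
      ∀ J, Good J → maximalIdeal P.carrier ^ (N + 1) ≤ J → I ≤ J := by
    intro N
    have hf : {I | Good I ∧ maximalIdeal P.carrier ^ (N + 1) ≤ I}.Finite :=
      (finite_ideals_above P (N + 1)).subset (fun I hI => hI.2)
    obtain ⟨I, hI⟩ := hf.exists_minimal
      ⟨maximalIdeal P.carrier, hmax, Ideal.pow_le_self (Nat.succ_ne_zero N)⟩
    refine ⟨I, hI.1, fun J hJ hJ' => ?_⟩
    have h1 : I ≤ I ⊓ J := hI.2 ⟨hinf _ _ hI.1.1 hJ, le_inf hI.1.2 hJ'⟩ inf_le_left
    exact h1.trans inf_le_right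
  choose I hI hleast using hex
  have hstep : ∀ N, I N ≤ I (N + 1) ⊔ maximalIdeal P.carrier ^ (N + 1) := by
    intro N
    apply hleast N _ _ le_sup_right
    apply hmono (I (N + 1)) _ (hI (N + 1)).1 le_sup_left
    exact sup_le (hle _ (hI (N + 1)).1) (Ideal.pow_le_self (Nat.succ_ne_zero N))
  have hanti : ∀ N, I (N + 1) ≤ I N := fun N => hleast (N + 1) (I N) (hI N).1
    ((Ideal.pow_le_pow_right (Nat.le_succ (N + 1))).trans (hI N).2)
  have hanti' : Antitone I := antitone_nat_of_succ_le hanti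
  refine ⟨I N, (hI N).1, fun z hz => ?_⟩
  have hch : ∀ (t : ℕ) (y : P.carrier), y ∈ I t → ∃ y' ∈ I (t + 1),
      y - y' ∈ maximalIdeal P.carrier ^ (t + 1) := by
    intro t y hy
    obtain ⟨a, ha, b, hb, hab⟩ := Submodule.mem_sup.1 (hstep t hy)
    exact ⟨a, ha, by rw [← hab, add_sub_cancel_left]; exact hb⟩
  choose s hs1 hs2 using hch
  obtain ⟨f, hf0, hfI, hf⟩ : ∃ f : ℕ → P.carrier, f 0 = z ∧ (∀ j, f j ∈ I (N + j)) ∧
      ∀ j, f j - f (j + 1) ∈ maximalIdeal P.carrier ^ (N + j + 1) := by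
    let f : ∀ j : ℕ, {y : P.carrier // y ∈ I (N + j)} := fun j =>
      Nat.rec ⟨z, hz⟩ (fun j y => ⟨s (N + j) y.1 y.2, hs1 (N + j) y.1 y.2⟩) j
    exact ⟨fun j => (f j).1, rfl, fun j => (f j).2, fun j => hs2 (N + j) (f j).1 (f j).2⟩
  let F : ℕ → P.carrier := fun t => f (t - (N + 1))
  have hFstep : ∀ t, F t - F (t + 1) ∈ maximalIdeal P.carrier ^ t := by
    intro t
    rcases Nat.lt_or_ge t (N + 1) with h | h
    · have h1 : t - (N + 1) = 0 := by omega
      have h2 : t + 1 - (N + 1) = 0 := by omega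
      simp only [F, h1, h2, sub_self]
      exact zero_mem _
    · obtain ⟨j, rfl⟩ := Nat.exists_eq_add_of_le h
      have h1 : N + 1 + j - (N + 1) = j := by omega
      have h2 : N + 1 + j + 1 - (N + 1) = j + 1 := by omega
      simp only [F, h1, h2]
      have h3 := hf j
      have h4 : N + j + 1 = N + 1 + j := by omega
      rwa [h4] at h3
  have hC : ∀ {a b : ℕ}, a ≤ b → F a ≡ F b
      [SMOD (maximalIdeal P.carrier ^ a • ⊤ : Ideal P.carrier)] := by
    intro a b hab
    rw [SModEq.sub_mem, smul_eq_mul, Ideal.mul_top]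
    induction b, hab using Nat.le_induction with
    | base => rw [sub_self]; exact zero_mem _
    | succ b hab ih =>
      have h3 := Ideal.pow_le_pow_right hab (hFstep b)
      have h4 := add_mem ih h3
      rwa [sub_add_sub_cancel] at h4
  obtain ⟨L, hL⟩ := IsPrecomplete.prec (P.isAdicComplete.toIsPrecomplete) hC
  have hL' : ∀ t, F t - L ∈ maximalIdeal P.carrier ^ t := by
    intro t
    have h5 := hL t
    rw [SModEq.sub_mem, smul_eq_mul, Ideal.mul_top] at h5
    exact h5
  have hLI : ∀ j, L ∈ I (N + j) := by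
    intro j
    have h6 := hL' (N + 1 + j)
    have h1 : N + 1 + j - (N + 1) = j := by omega
    simp only [F, h1] at h6
    have h7 : maximalIdeal P.carrier ^ (N + 1 + j) ≤ I (N + j) := by
      have h8 : N + 1 + j = N + j + 1 := by omega
      rw [h8]
      exact (hI (N + j)).2
    have h9 := (I (N + j)).sub_mem (hfI j) (h7 h6)
    rwa [sub_sub_cancel] at h9
  have hLinf : L ∈ sInf {I | Good I} := by
    rw [Submodule.mem_sInf]
    intro J hJ
    obtain ⟨t, ht⟩ := hpow J hJ
    have h10 : I t ≤ J := hleast t J hJ ((Ideal.pow_le_pow_right (Nat.le_succ t)).trans ht)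
    exact h10 (hanti' (Nat.le_add_left t N) (hLI t))
  have h11 := hL' (N + 1)
  have h12 : F (N + 1) = z := by
    simp only [F, Nat.sub_self]
    exact hf0
  rw [h12] at h11
  have h13 := Submodule.add_mem_sup hLinf h11
  rwa [add_sub_cancel] at h13

end Chevalley

section Main

variable {p : ℕ} [Fact p.Prime] {k : Type} [Field k] {n : ℕ}

theorem sub_one_mem_of_res (A : CoeffRing p k) (γ : GL (Fin n) A.carrier)
    (h : Matrix.GeneralLinearGroup.map A.residue γ = 1) (i j : Fin n) :
    (γ : Matrix (Fin n) (Fin n) A.carrier) i j - (1 : Matrix (Fin n) (Fin n) A.carrier) i j ∈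
      maximalIdeal A.carrier := by
  rw [A.mem_max, map_sub, sub_eq_zero]
  have h1 := congrArg (fun x : GL (Fin n) k => (x : Matrix (Fin n) (Fin n) k) i j) h
  refine Eq.trans h1 ?_
  show (1 : Matrix (Fin n) (Fin n) k) i j = _
  rw [Matrix.one_apply, Matrix.one_apply]
  split_ifs
  · rw [map_one]
  · rw [map_zero]

theorem res_of_sub_one_mem (A : CoeffRing p k) (γ : GL (Fin n) A.carrier)
    (h : ∀ i j, (γ : Matrix (Fin n) (Fin n) A.carrier) i j -
      (1 : Matrix (Fin n) (Fin n) A.carrier) i j ∈ maximalIdeal A.carrier) :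
    Matrix.GeneralLinearGroup.map A.residue γ = 1 := by
  apply Matrix.GeneralLinearGroup.ext
  intro i j
  have h1 := h i j
  rw [A.mem_max, map_sub, sub_eq_zero] at h1
  refine Eq.trans h1 ?_
  show A.residue ((1 : Matrix (Fin n) (Fin n) A.carrier) i j) =
    (1 : Matrix (Fin n) (Fin n) k) i j
  rw [Matrix.one_apply, Matrix.one_apply]
  split_ifs
  · rw [map_one]
  · rw [map_zero]

theorem gl_ext (A : CoeffRing p k) (X Y : GL (Fin n) A.carrier)
    (h : ∀ N : ℕ, Matrix.GeneralLinearGroup.map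
      (Ideal.Quotient.mk (maximalIdeal A.carrier ^ N)) X =
        Matrix.GeneralLinearGroup.map (Ideal.Quotient.mk (maximalIdeal A.carrier ^ N)) Y) :
    X = Y := by
  apply Matrix.GeneralLinearGroup.ext
  intro i j
  apply eq_of_forall_pow (maximalIdeal A.carrier)
  intro N
  exact (red_eq_iff _ _ _).1 (h N) i j

theorem red_map {A B : CoeffRing p k} (f : CoeffHom A B) (N : ℕ) (X : GL (Fin n) A.carrier)
    (h : Matrix.GeneralLinearGroup.map (Ideal.Quotient.mk (maximalIdeal A.carrier ^ N)) X = 1) :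
    Matrix.GeneralLinearGroup.map (Ideal.Quotient.mk (maximalIdeal B.carrier ^ N))
      (Matrix.GeneralLinearGroup.map (f.toAlgHom : A.carrier →+* B.carrier) X) = 1 := by
  rw [red_eq_one_iff] at h ⊢
  intro i j
  have h1 := f.map_max_pow N (h i j)
  rw [map_sub] at h1
  have h2 : f.toAlgHom ((1 : Matrix (Fin n) (Fin n) A.carrier) i j) =
      (1 : Matrix (Fin n) (Fin n) B.carrier) i j := by
    rw [Matrix.one_apply, Matrix.one_apply]
    split_ifs
    · rw [map_one]
    · rw [map_zero]
  rw [h2] at h1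
  exact h1

variable {G : Type} [Group G] [TopologicalSpace G]

theorem burnside' [IsTopologicalGroup G] (p : ℕ) [Fact p.Prime] (H : Subgroup G) [H.Normal]
    [H.FiniteIndex] (hfin : Finite {χ : H →* Multiplicative (ZMod p) // Continuous χ})
    (κ : Type) [Finite κ] (e : κ → G) :
    ∃ (ι : Type) (_ : Finite ι) (g : ι → G) (j : κ → ι), (∀ c, g (j c) = e c) ∧
      ∀ U : Subgroup G, Adm p H U → ∀ x : G, ∃ w : FreeGroup ι, (FreeGroup.lift g w)⁻¹ * x ∈ U := by
  obtain ⟨ι, hι, g, hg⟩ := burnside p H hfin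
  refine ⟨κ ⊕ ι, inferInstance, Sum.elim e g, Sum.inl, fun c => rfl, fun U hU x => ?_⟩
  obtain ⟨w, hw⟩ := hg U hU x
  refine ⟨FreeGroup.map Sum.inr w, ?_⟩
  have h1 : (FreeGroup.lift (Sum.elim e g)).comp (FreeGroup.map Sum.inr) = FreeGroup.lift g := by
    apply FreeGroup.ext_hom
    intro a
    simp
  have h2 := DFunLike.congr_fun h1 w
  rw [MonoidHom.comp_apply] at h2
  rw [h2]
  exact hw

theorem IsLift.conj {ρbar : G →* GL (Fin n) k} {A : CoeffRing p k}
    {ρ : G →* GL (Fin n) A.carrier} (hρ : IsLift ρbar A ρ) (γ : GL (Fin n) A.carrier)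
    (hγ : Matrix.GeneralLinearGroup.map A.residue γ = 1) :
    IsLift ρbar A ((MulAut.conj γ).toMonoidHom.comp ρ) where
  continuous := by
    intro m
    have h := hρ.continuous m
    convert h using 1
    ext g
    rw [Set.mem_ofPred_eq, Set.mem_ofPred_eq, ← red_eq_one_iff, ← red_eq_one_iff]
    show Matrix.GeneralLinearGroup.map _ (γ * ρ g * γ⁻¹) = 1 ↔ _
    rw [map_mul, map_mul, map_inv, conj_eq_one_iff]
  reduces := by
    intro g
    show Matrix.GeneralLinearGroup.map _ (γ * ρ g * γ⁻¹) = _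
    rw [map_mul, map_mul, map_inv, hγ, hρ.reduces]
    simp

/-- Existence of the universal deformation ring. -/
theorem exists_universal [Finite k] [CharP k p] [IsTopologicalGroup G]
    (ρbar : G →* GL (Fin n) k) (hopen : IsOpen (ρbar.ker : Set G))
    (hfin : Finite {χ : ρbar.ker →* Multiplicative (ZMod p) // Continuous χ})
    (s : Slice p ρbar) :
    ∃ (R : CoeffRing p k) (ρu : G →* GL (Fin n) R.carrier), IsUniversal ρbar R ρu := by
  classical
  have hH : ρbar.ker.FiniteIndex := inferInstance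
  have hadmH : Adm p ρbar.ker ρbar.ker :=
    ⟨inferInstance, hopen, le_rfl, hH, fun h hh => ⟨0, by simpa using hh⟩⟩
  obtain ⟨ι, _, g, j, hj, hdense⟩ := burnside' p ρbar.ker hfin (Option (Fin n))
    (fun o => o.elim s.g1 s.h)
  have hj0 : g (j none) = s.g1 := hj none
  have hji : ∀ i, g (j (some i)) = s.h i := fun i => hj (some i)
  let φ : FreeGroup ι →* G := FreeGroup.lift g
  have hφ : ∀ l, φ (FreeGroup.of l) = g l := fun l => FreeGroup.lift_apply_of
  obtain ⟨P, x, hx, hPuniv, hPdense⟩ := exists_free (p := p)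
    (fun t : ι × Fin n × Fin n => (ρbar (g t.1) : Matrix (Fin n) (Fin n) k) t.2.1 t.2.2)
  choose X hX hXres using fun l => P.exists_GL (Matrix.of fun a b => x (l, a, b)) (ρbar (g l))
    (fun a b => hx (l, a, b))
  have hXa : ∀ l a b, (X l : Matrix (Fin n) (Fin n) P.carrier) a b = x (l, a, b) := by
    intro l a b
    rw [hX]; rfl
  let Vd : FreeGroup ι →* GL (Fin n) P.carrier := FreeGroup.lift X
  have hVdof : ∀ l, Vd (FreeGroup.of l) = X l := fun l => FreeGroup.lift_apply_of
  have hVd : ∀ w, Matrix.GeneralLinearGroup.map P.residue (Vd w) = ρbar (φ w) := by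
    have h1 : (Matrix.GeneralLinearGroup.map P.residue).comp Vd = ρbar.comp φ := by
      apply FreeGroup.ext_hom
      intro l
      rw [MonoidHom.comp_apply, MonoidHom.comp_apply, hVdof, hφ, hXres]
    exact fun w => DFunLike.congr_fun h1 w
  let E : Set P.carrier := {z | (∃ a b, a ≠ b ∧ z = x (j none, a, b)) ∨
    ∃ i, i ≠ s.i0 ∧ z = x (j (some i), s.i0, i) - algebraMap _ P.carrier (s.v i)}
  have hEm : ∀ z ∈ E, z ∈ maximalIdeal P.carrier := by
    rintro z (⟨a, b, hab, rfl⟩ | ⟨i, hi, rfl⟩)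
    · rw [P.mem_max, hx]
      show (ρbar (g (j none)) : Matrix (Fin n) (Fin n) k) a b = 0
      rw [hj0, s.hg1, Matrix.diagonal_apply_ne _ hab]
    · rw [P.mem_max, map_sub, hx, P.residue_algebraMap, s.hv, sub_eq_zero]
      show (ρbar (g (j (some i))) : Matrix (Fin n) (Fin n) k) s.i0 i = _
      rw [hji]
  let Good : Ideal P.carrier → Prop := fun I => I ≤ maximalIdeal P.carrier ∧
    (∃ N : ℕ, maximalIdeal P.carrier ^ N ≤ I) ∧ (∀ z ∈ E, z ∈ I) ∧
    ∃ U, Adm p ρbar.ker U ∧ ∀ w, φ w ∈ U → ∀ a b,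
      (Vd w : Matrix (Fin n) (Fin n) P.carrier) a b -
        (1 : Matrix (Fin n) (Fin n) P.carrier) a b ∈ I
  have hmax : Good (maximalIdeal P.carrier) := by
    refine ⟨le_rfl, ⟨1, (pow_one _).le⟩, hEm, ρbar.ker, hadmH, fun w hw => ?_⟩
    apply sub_one_mem_of_res
    rw [hVd]
    exact hw
  have hle : ∀ I, Good I → I ≤ maximalIdeal P.carrier := fun I hI => hI.1
  have hinf : ∀ I J, Good I → Good J → Good (I ⊓ J) := by
    rintro I J ⟨hI1, ⟨N, hN⟩, hIE, U, hU, hUI⟩ ⟨hJ1, ⟨M, hM⟩, hJE, U', hU', hUJ⟩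
    refine ⟨inf_le_left.trans hI1, ⟨N + M, le_inf ?_ ?_⟩, fun z hz => ⟨hIE z hz, hJE z hz⟩,
      U ⊓ U', hU.inf hU', fun w hw a b => ⟨hUI w hw.1 a b, hUJ w hw.2 a b⟩⟩
    · exact (Ideal.pow_le_pow_right (Nat.le_add_right N M)).trans hN
    · exact (Ideal.pow_le_pow_right (Nat.le_add_left M N)).trans hM
  have hmono : ∀ I J, Good I → I ≤ J → J ≤ maximalIdeal P.carrier → Good J := by
    rintro I J ⟨hI1, ⟨N, hN⟩, hIE, U, hU, hUI⟩ hIJ hJ
    exact ⟨hJ, ⟨N, hN.trans hIJ⟩, fun z hz => hIJ (hIE z hz), U, hU,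
      fun w hw a b => hIJ (hUI w hw a b)⟩
  have hpow : ∀ I, Good I → ∃ N : ℕ, maximalIdeal P.carrier ^ N ≤ I := fun I hI => hI.2.1
  let J : Ideal P.carrier := sInf {I | Good I}
  have hJm : J ≤ maximalIdeal P.carrier := sInf_le hmax
  let R := P.quot J hJm
  let π : CoeffHom P R := P.toQuot J hJm
  have hπs : Function.Surjective π.toAlgHom := P.toQuot_surjective J hJm
  have hπ0 : ∀ z, π.toAlgHom z = 0 ↔ z ∈ J := fun z => P.toQuot_eq_zero J hJm
  let V : FreeGroup ι →* GL (Fin n) R.carrier :=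
    (Matrix.GeneralLinearGroup.map (π.toAlgHom : P.carrier →+* R.carrier)).comp Vd
  have hVa : ∀ w a b, (V w : Matrix (Fin n) (Fin n) R.carrier) a b =
      π.toAlgHom ((Vd w : Matrix (Fin n) (Fin n) P.carrier) a b) := fun w a b => rfl
  have hπ1 : ∀ a b, π.toAlgHom ((1 : Matrix (Fin n) (Fin n) P.carrier) a b) =
      (1 : Matrix (Fin n) (Fin n) R.carrier) a b := by
    intro a b
    rw [Matrix.one_apply, Matrix.one_apply]
    split_ifs
    · rw [map_one]
    · rw [map_zero]
  have hV : ∀ N : ℕ, ∃ U, Adm p ρbar.ker U ∧ ∀ w, φ w ∈ U → Matrix.GeneralLinearGroup.map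
      (Ideal.Quotient.mk (maximalIdeal R.carrier ^ N)) (V w) = 1 := by
    intro N
    obtain ⟨I, hI, hIJ⟩ := chevalley P Good hmax hle hinf hmono hpow N
    obtain ⟨-, -, -, U, hU, hUI⟩ := hI
    refine ⟨U, hU, fun w hw => ?_⟩
    rw [red_eq_one_iff]
    intro a b
    obtain ⟨u, hu, v, hv, huv⟩ := Submodule.mem_sup.1 (hIJ (hUI w hw a b))
    rw [hVa, ← hπ1, ← map_sub, ← huv, map_add, (hπ0 u).2 hu, zero_add]
    exact Ideal.pow_le_pow_right (Nat.le_succ N) (π.map_max_pow (N + 1) hv)
  obtain ⟨ρu, hρuV, hρuU⟩ := extend_hom φ R V (Adm p ρbar.ker) (fun _ _ h h' => h.inf h')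
    (fun _ h => h.normal) hdense hV
  have hρures : ∀ y, Matrix.GeneralLinearGroup.map R.residue (ρu y) = ρbar y := by
    intro y
    obtain ⟨U, hU, hUρ⟩ := hρuU 1
    obtain ⟨w, hw⟩ := hdense U hU y
    have h1 : y = φ w * ((φ w)⁻¹ * y) := by group
    have h2 := hUρ _ hw
    rw [red_eq_one_iff, pow_one] at h2
    have h3 := res_of_sub_one_mem R _ h2
    have h4 : ρbar ((φ w)⁻¹ * y) = 1 := hU.le hw
    have h5 : Matrix.GeneralLinearGroup.map R.residue (V w) = ρbar (φ w) := by
      rw [← hVd]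
      apply Matrix.GeneralLinearGroup.ext
      intro a b
      exact π.residue_comp _
    calc Matrix.GeneralLinearGroup.map R.residue (ρu y) =
        Matrix.GeneralLinearGroup.map R.residue (ρu (φ w)) *
          Matrix.GeneralLinearGroup.map R.residue (ρu ((φ w)⁻¹ * y)) := by
          rw [← map_mul, ← map_mul, ← h1]
      _ = ρbar (φ w) * ρbar ((φ w)⁻¹ * y) := by rw [hρuV, h3, h4, h5]
      _ = ρbar y := by rw [← map_mul, ← h1]
  have hlift : IsLift ρbar R ρu := by
    refine ⟨fun m => ?_, hρures⟩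
    obtain ⟨U, hU, hUρ⟩ := hρuU m
    have h1 : {y : G | ∀ a b, (ρu y : Matrix (Fin n) (Fin n) R.carrier) a b -
        (1 : Matrix (Fin n) (Fin n) R.carrier) a b ∈ maximalIdeal R.carrier ^ m} =
        (((Matrix.GeneralLinearGroup.map
          (Ideal.Quotient.mk (maximalIdeal R.carrier ^ m))).comp ρu).ker : Set G) := by
      ext y
      exact (red_eq_one_iff _ _).symm
    rw [h1]
    exact Subgroup.isOpen_mono (fun y hy => hUρ y hy) hU.isOpen
  have hnormal : s.IsNormal R ρu := by
    constructor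
    · intro a b hab
      rw [← hj0, ← hφ, hρuV, hVa, hVdof, hXa, hπ0]
      rw [Submodule.mem_sInf]
      intro I hI
      exact hI.2.2.1 _ (Or.inl ⟨a, b, hab, rfl⟩)
    · intro i hi
      rw [← hji, ← hφ, hρuV, hVa, hVdof, hXa, ← sub_eq_zero]
      have h1 : algebraMap _ R.carrier (s.v i) =
          π.toAlgHom (algebraMap _ P.carrier (s.v i)) := (π.toAlgHom.commutes _).symm
      rw [h1, ← map_sub, hπ0, Submodule.mem_sInf]
      intro I hI
      exact hI.2.2.1 _ (Or.inr ⟨i, hi, rfl⟩)
  refine ⟨R, ρu, hlift, fun A ρ hρ => ?_⟩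
  obtain ⟨γ0, hγ0, hnorm'⟩ := s.exists_conj A ρ hρ.reduces
  have hρ' := hρ.conj γ0 hγ0
  have hρ'def : ∀ y, ((MulAut.conj γ0).toMonoidHom.comp ρ) y = γ0 * ρ y * γ0⁻¹ := fun y => rfl
  generalize (MulAut.conj γ0).toMonoidHom.comp ρ = ρ' at hnorm' hρ' hρ'def
  obtain ⟨f0, hf0⟩ := hPuniv A
    (fun t => (ρ' (g t.1) : Matrix (Fin n) (Fin n) A.carrier) t.2.1 t.2.2) (by
      intro t
      rw [← hρ'.reduces]
      rfl)
  have hf0V : ∀ w, Matrix.GeneralLinearGroup.map (f0.toAlgHom : P.carrier →+* A.carrier) (Vd w) =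
      ρ' (φ w) := by
    have h1 : (Matrix.GeneralLinearGroup.map (f0.toAlgHom : P.carrier →+* A.carrier)).comp Vd =
        ρ'.comp φ := by
      apply FreeGroup.ext_hom
      intro l
      rw [MonoidHom.comp_apply, MonoidHom.comp_apply, hVdof, hφ]
      apply Matrix.GeneralLinearGroup.ext
      intro a b
      show f0.toAlgHom ((X l : Matrix (Fin n) (Fin n) P.carrier) a b) = _
      rw [hXa, hf0]
    exact fun w => DFunLike.congr_fun h1 w
  have hker : ∀ z ∈ J, f0.toAlgHom z = 0 := by
    intro z hz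
    apply eq_of_forall_pow (maximalIdeal A.carrier)
    intro N
    rw [sub_zero]
    cases N with
    | zero => rw [pow_zero, Ideal.one_eq_top]; exact Submodule.mem_top
    | succ N =>
      let I : Ideal P.carrier :=
        (maximalIdeal A.carrier ^ (N + 1)).comap (f0.toAlgHom : P.carrier →+* A.carrier)
      have hI : Good I := by
        refine ⟨?_, ⟨N + 1, fun y hy => f0.map_max_pow (N + 1) hy⟩, ?_, _, adm_of_lift hρ' N, ?_⟩
        · intro y hy
          have h1 : f0.toAlgHom y ∈ maximalIdeal A.carrier :=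
            Ideal.pow_le_self (Nat.succ_ne_zero N) hy
          rw [A.mem_max, f0.residue_comp] at h1
          rwa [P.mem_max]
        · rintro y (⟨a, b, hab, rfl⟩ | ⟨i, hi, rfl⟩)
          · have h1 : f0.toAlgHom (x (j none, a, b)) = 0 := by
              rw [hf0]
              show (ρ' (g (j none)) : Matrix (Fin n) (Fin n) A.carrier) a b = 0
              rw [hj0]
              exact hnorm'.diag a b hab
            show f0.toAlgHom (x (j none, a, b)) ∈ maximalIdeal A.carrier ^ (N + 1)
            rw [h1]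
            exact zero_mem _
          · have h1 : f0.toAlgHom (x (j (some i), s.i0, i) - algebraMap _ P.carrier (s.v i)) =
                0 := by
              rw [map_sub, hf0, f0.toAlgHom.commutes, sub_eq_zero]
              show (ρ' (g (j (some i))) : Matrix (Fin n) (Fin n) A.carrier) s.i0 i = _
              rw [hji]
              exact hnorm'.row i hi
            show f0.toAlgHom (x (j (some i), s.i0, i) - algebraMap _ P.carrier (s.v i)) ∈
              maximalIdeal A.carrier ^ (N + 1)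
            rw [h1]
            exact zero_mem _
        · intro w hw a b
          rw [MonoidHom.mem_ker, MonoidHom.comp_apply, ← hf0V, red_eq_one_iff] at hw
          have h1 := hw a b
          have h2 : f0.toAlgHom ((1 : Matrix (Fin n) (Fin n) P.carrier) a b) =
              (1 : Matrix (Fin n) (Fin n) A.carrier) a b := by
            rw [Matrix.one_apply, Matrix.one_apply]
            split_ifs
            · rw [map_one]
            · rw [map_zero]
          rw [← h2] at h1
          have h4 : f0.toAlgHom ((Vd w : Matrix (Fin n) (Fin n) P.carrier) a b -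
              (1 : Matrix (Fin n) (Fin n) P.carrier) a b) ∈ maximalIdeal A.carrier ^ (N + 1) := by
            rw [map_sub]
            exact h1
          exact h4
      have h3 : z ∈ I := (Submodule.mem_sInf.1 hz) I hI
      exact h3
  let f : CoeffHom R A :=
    { toAlgHom := Ideal.Quotient.liftₐ J f0.toAlgHom hker
      residue_comp := by
        intro a
        obtain ⟨z, rfl⟩ := hπs a
        exact f0.residue_comp z }
  have hfπ : ∀ z, f.toAlgHom (π.toAlgHom z) = f0.toAlgHom z := fun z => rfl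
  have hfV : ∀ w, Matrix.GeneralLinearGroup.map (f.toAlgHom : R.carrier →+* A.carrier) (V w) =
      ρ' (φ w) := by
    intro w
    rw [← hf0V]
    rfl
  have hfρ : (Matrix.GeneralLinearGroup.map (n := Fin n)
      (f.toAlgHom : R.carrier →+* A.carrier)).comp ρu = ρ' := by
    apply MonoidHom.ext
    intro y
    apply gl_ext
    intro N
    obtain ⟨U, hU, hUρ⟩ := hρuU N
    obtain ⟨w, hw⟩ := hdense _ (hU.inf (adm_of_lift hρ' N)) y
    obtain ⟨u, hu⟩ : ∃ u, u = (φ w)⁻¹ * y := ⟨_, rfl⟩
    have h1 : y = φ w * u := by rw [hu]; group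
    have hw1 : u ∈ U := by rw [hu]; exact hw.1
    have hw' : u ∈ ((Matrix.GeneralLinearGroup.map
        (Ideal.Quotient.mk (maximalIdeal A.carrier ^ (N + 1)))).comp ρ').ker := by
      rw [hu]; exact hw.2
    have h2 := red_map f N _ (hUρ _ hw1)
    have h3 : Matrix.GeneralLinearGroup.map
        (Ideal.Quotient.mk (maximalIdeal A.carrier ^ N)) (ρ' u) = 1 := by
      rw [MonoidHom.mem_ker, MonoidHom.comp_apply, red_eq_one_iff] at hw'
      rw [red_eq_one_iff]
      exact fun a b => Ideal.pow_le_pow_right (Nat.le_succ N) (hw' a b)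
    rw [MonoidHom.comp_apply, h1, map_mul, map_mul, map_mul, map_mul, map_mul, h2, h3, hρuV, hfV]
  refine ⟨f, ?_, ?_⟩
  · refine ⟨γ0⁻¹, by rw [map_inv, hγ0, inv_one], fun y => ?_⟩
    rw [hfρ, hρ'def]
    group
  · rintro f' ⟨γ1, hγ1, hf'⟩
    let ρ1 : G →* GL (Fin n) A.carrier := (Matrix.GeneralLinearGroup.map (n := Fin n)
      (f'.toAlgHom : R.carrier →+* A.carrier)).comp ρu
    have hρ1a : ∀ y a b, (ρ1 y : Matrix (Fin n) (Fin n) A.carrier) a b =
        f'.toAlgHom ((ρu y : Matrix (Fin n) (Fin n) R.carrier) a b) := fun _ _ _ => rfl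
    have hρ1 : ρ1 = ρ' := by
      apply s.eq_of_conj A ρ1 ρ' _ hρ'.reduces _ hnorm' (γ0 * γ1)
      · intro y
        have h1 : ρ y = γ1 * ρ1 y * γ1⁻¹ := hf' y
        rw [hρ'def, h1]
        group
      · intro y
        rw [← hρures]
        apply Matrix.GeneralLinearGroup.ext
        intro a b
        exact f'.residue_comp _
      · constructor
        · intro a b hab
          rw [hρ1a, hnormal.diag a b hab, map_zero]
        · intro i hi
          rw [hρ1a, hnormal.row i hi]
          exact f'.toAlgHom.commutes _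
    apply CoeffHom.ext'
    intro r
    obtain ⟨z, rfl⟩ := hπs r
    rw [hfπ]
    let f1 : P.carrier →ₐ[WittVector p k] A.carrier := f'.toAlgHom.comp π.toAlgHom
    have hf1x : ∀ t, f1 (x t) = f0.toAlgHom (x t) := by
      rintro ⟨l, a, b⟩
      rw [hf0]
      show _ = (ρ' (g l) : Matrix (Fin n) (Fin n) A.carrier) a b
      rw [← hρ1, hρ1a, ← hφ, hρuV, hVa, hVdof, hXa]
      rfl
    have hf1q : ∀ q : MvPolynomial (ι × Fin n × Fin n) (WittVector p k),
        f1 (MvPolynomial.aeval x q) = f0.toAlgHom (MvPolynomial.aeval x q) := by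
      intro q
      have h1 : f1.comp (MvPolynomial.aeval x) = f0.toAlgHom.comp (MvPolynomial.aeval x) := by
        apply MvPolynomial.algHom_ext
        intro t
        show f1 (MvPolynomial.aeval x (MvPolynomial.X t)) =
          f0.toAlgHom (MvPolynomial.aeval x (MvPolynomial.X t))
        rw [MvPolynomial.aeval_X]
        exact hf1x t
      exact DFunLike.congr_fun h1 q
    show f1 z = f0.toAlgHom z
    apply eq_of_forall_pow (maximalIdeal A.carrier)
    intro N
    obtain ⟨q, hq⟩ := hPdense N z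
    have h1 : f1 (z - MvPolynomial.aeval x q) ∈ maximalIdeal A.carrier ^ N :=
      f'.map_max_pow N (π.map_max_pow N hq)
    have h2 := f0.map_max_pow N hq
    have h3 := sub_mem h1 h2
    rw [map_sub, map_sub, hf1q, sub_sub_sub_cancel_right] at h3
    exact h3

end Main

end Pool.Agent.Lib.MP_aa8fd2_nt.Mazur
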