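import Pool.Agent.Lib.MP_aa8fd2_nt.Rep

set_option autoImplicit false

/-! Existence of the universal deformation ring for the representations used here. -/

namespace Pool.Agent.Lib.MP_aa8fd2_nt.Mazur

theorem exists_universal_three {G : Type} [Group G] [TopologicalSpace G] [IsTopologicalGroup G]
    {k : Type} [Field k] [Finite k] [CharP k 2] (w : k) (hw : w ^ 2 + w + 1 = 0)
    (ρbar : G →* GL (Fin 3) k) (hopen : IsOpen (ρbar.ker : Set G))
    (hfin : Finite {f : ρbar.ker →* Multiplicative (ZMod 2) // Continuous f}) (g1 g2 : G)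
    (h1 : (ρbar g1 : Matrix (Fin 3) (Fin 3) k) = !![1, 0, 0; 0, w, 0; 0, 0, w ^ 2])
    (h2 : (ρbar g2 : Matrix (Fin 3) (Fin 3) k) = !![0, 1, 0; 0, 0, 1; w, 0, 0]) :
    ∃ (R : CoeffRing 2 k) (ρu : G →* GL (Fin 3) R.carrier), IsUniversal ρbar R ρu := by
  have h20 : (2 : k) = 0 := by exact_mod_cast CharP.cast_eq_zero k 2
  have hw1 : w ≠ 1 := by
    rintro rfl
    have h3 : (1 : k) = 0 := by linear_combination hw - h20
    exact one_ne_zero h3
  have hw0 : w ≠ 0 := by
    rintro rfl
    simp at hw
  have hw2 : w ^ 2 ≠ 1 := by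
    intro h
    have h3 : (w - 1) * (w + 1) = 0 := by linear_combination h
    have h4 : w + 1 = w - 1 := by linear_combination h20
    rw [h4] at h3
    exact hw1 (sub_eq_zero.1 (mul_self_eq_zero.1 h3))
  have hw3 : w ^ 2 ≠ w := by
    intro h
    have h3 : w * (w - 1) = 0 := by linear_combination h
    rcases mul_eq_zero.1 h3 with h4 | h4
    · exact hw0 h4
    · exact hw1 (sub_eq_zero.1 h4)
  have h22 : (ρbar (g2 ^ 2) : Matrix (Fin 3) (Fin 3) k) 0 2 = 1 := by
    rw [map_pow, Units.val_pow_eq_pow_val, h2, pow_two, Matrix.mul_apply, Fin.sum_univ_three]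
    simp
  have hc1 : (1 : WittVector 2 k).coeff 0 = 1 := WittVector.one_coeff_zero 2 k
  let s : Slice 2 ρbar :=
    { i0 := 0
      g1 := g1
      d := ![1, w, w ^ 2]
      d_inj := by
        intro a b hab
        fin_cases a <;> fin_cases b <;> simp at hab ⊢
        · exact hw1 hab.symm
        · exact hw2 hab.symm
        · exact hw1 hab
        · exact hw3 hab.symm
        · rcases hab with h | h
          · exact hw1 h
          · exact hw2 (by rw [h]; ring)
        · exact hw3 hab
      hg1 := by
        rw [h1]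
        ext a b
        fin_cases a <;> fin_cases b <;> simp
      h := ![1, g2, g2 ^ 2]
      v := fun _ => 1
      hv := by
        intro i
        rw [hc1]
        fin_cases i
        · simp
        · simp [h2]
        · exact h22.symm
      hne := by
        intro i hi
        fin_cases i
        · exact absurd rfl hi
        · simp [h2]
        · show (ρbar (g2 ^ 2) : Matrix (Fin 3) (Fin 3) k) 0 2 ≠ 0
          rw [h22]
          exact one_ne_zero }
  exact exists_universal ρbar hopen hfin s

end Pool.Agent.Lib.MP_aa8fd2_nt.Mazur
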