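import Pool.Agent.Lib.MP_aa8fd2_nt.Coeff
import Pool.Agent.Lib.MP_aa8fd2_nt.KrullDim

set_option autoImplicit false

/-! From lifts to `k[t₁,t₂]/(t₁,t₂)^(j+1)` to the Krull dimension of `R/2R`. -/

namespace Pool.Agent.Lib.MP_aa8fd2_nt.Mazur

open MvPolynomial

variable {k : Type} [Field k] [CharP k 2]

theorem two_mem_maximalIdeal (R : CoeffRing 2 k) :
    (2 : R.carrier) ∈ IsLocalRing.maximalIdeal R.carrier := by
  rw [IsLocalRing.mem_maximalIdeal, mem_nonunits_iff]
  intro h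
  have h1 := h.map R.residue
  rw [map_ofNat, CharTwo.two_eq_zero] at h1
  exact not_isUnit_zero h1

theorem span_two_ne_top (R : CoeffRing 2 k) : Ideal.span {(2 : R.carrier)} ≠ ⊤ := by
  intro h
  have h1 : Ideal.span {(2 : R.carrier)} ≤ IsLocalRing.maximalIdeal R.carrier := by
    rw [Ideal.span_le, Set.singleton_subset_iff]
    exact two_mem_maximalIdeal R
  rw [h, top_le_iff] at h1
  exact (IsLocalRing.maximalIdeal.isMaximal R.carrier).ne_top h1

instance nontrivial_modTwo (R : CoeffRing 2 k) :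
    Nontrivial (R.carrier ⧸ Ideal.span {(2 : R.carrier)}) :=
  Ideal.Quotient.nontrivial_iff.mpr (span_two_ne_top R)

instance isLocalRing_modTwo (R : CoeffRing 2 k) :
    IsLocalRing (R.carrier ⧸ Ideal.span {(2 : R.carrier)}) :=
  IsLocalRing.of_surjective' (Ideal.Quotient.mk _) Ideal.Quotient.mk_surjective

/-- The ring homomorphism underlying a morphism `R → k[t₁,t₂]/(t₁,t₂)^(j+1)`. -/
noncomputable def coeffMap {R : CoeffRing 2 k} {j : ℕ} (f : CoeffHom R (truncRing 2 k j)) :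
    R.carrier →+* Trunc k (j + 1) :=
  f.toAlgHom.toRingHom

theorem truncRes_coeffMap {R : CoeffRing 2 k} {j : ℕ} (f : CoeffHom R (truncRing 2 k j))
    (r : R.carrier) : truncRes k j (coeffMap f r) = R.residue r := f.residue_comp r

theorem truncC_mem_range {R : CoeffRing 2 k} {j : ℕ} (f : CoeffHom R (truncRing 2 k j))
    (a : k) : truncC k (j + 1) a ∈ (coeffMap f).range := by
  obtain ⟨x, hx⟩ : ∃ x : WittVector 2 k, WittVector.constantCoeff x = a :=
    ⟨WittVector.teichmuller 2 a, WittVector.teichmuller_coeff_zero 2 a⟩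
  refine ⟨algebraMap (WittVector 2 k) R.carrier x, ?_⟩
  have h1 := f.toAlgHom.commutes x
  rw [← hx]
  exact h1

theorem two_le_of_maps (R : CoeffRing 2 k)
    (h : ∀ j : ℕ, ∃ f : CoeffHom R (truncRing 2 k j), ∀ i : Fin 2,
      (Ideal.Quotient.mk _ (X i) : Trunc k (j + 1)) ∈ (coeffMap f).range) :
    2 ≤ ringKrullDim (R.carrier ⧸ Ideal.span {(2 : R.carrier)}) := by
  choose f hf using h
  have h2 : ∀ j, ∀ a ∈ Ideal.span {(2 : R.carrier)}, coeffMap (f j) a = 0 := by
    intro j a ha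
    rw [Ideal.mem_span_singleton] at ha
    obtain ⟨b, rfl⟩ := ha
    rw [map_mul, map_ofNat, two_eq_zero_trunc, zero_mul]
  let g : ∀ j, (R.carrier ⧸ Ideal.span {(2 : R.carrier)}) →+* Trunc k (j + 1) := fun j =>
    Ideal.Quotient.lift _ (coeffMap (f j)) (h2 j)
  let q : ∀ j : ℕ, Trunc k (j + 1) →+* Trunc k j := fun j =>
    Ideal.Quotient.factor (Ideal.pow_le_pow_right (Nat.le_succ j))
  refine two_le_ringKrullDim (k := k) (fun j => (q j).comp (g j)) ?_ ?_
  · intro j r hr
    obtain ⟨r, rfl⟩ := Ideal.Quotient.mk_surjective r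
    have h3 : R.residue r = 0 := by
      by_contra hne
      have h4 : IsUnit r := by
        by_contra hnu
        have h5 : r ∈ IsLocalRing.maximalIdeal R.carrier := hnu
        have h6 : RingHom.ker R.residue = IsLocalRing.maximalIdeal R.carrier := by
          have := RingHom.ker_isMaximal_of_surjective R.residue R.residue_surjective
          exact IsLocalRing.eq_maximalIdeal this
        rw [← h6] at h5
        exact hne h5
      exact hr (h4.map _)
    have h4 : truncRes k j (coeffMap (f j) r) = 0 := by rw [truncRes_coeffMap, h3]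
    obtain ⟨p, hp, hp'⟩ := mem_aug_of_truncRes h4
    refine ⟨p, hp, ?_⟩
    change q j (coeffMap (f j) r) = _
    rw [← hp']
    rfl
  · intro j i
    obtain ⟨r, hr⟩ := hf j i
    refine ⟨Ideal.Quotient.mk _ r, ?_⟩
    change q j (coeffMap (f j) r) = _
    rw [hr]
    rfl

variable {G : Type} [Group G] [TopologicalSpace G]

omit [CharP k 2] [TopologicalSpace G] in
theorem trace_of_strictEquiv {n : ℕ} {R A : CoeffRing 2 k} (f : CoeffHom R A)
    {ρu : G →* GL (Fin n) R.carrier} {ρ : G →* GL (Fin n) A.carrier}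
    (h : StrictEquiv A ((Matrix.GeneralLinearGroup.map (n := Fin n)
        (f.toAlgHom : R.carrier →+* A.carrier)).comp ρu) ρ) (g : G) :
    (ρ g : Matrix (Fin n) (Fin n) A.carrier).trace =
      f.toAlgHom ((ρu g : Matrix (Fin n) (Fin n) R.carrier).trace) := by
  obtain ⟨γ, -, hγ⟩ := h
  rw [hγ g, MonoidHom.comp_apply]
  simp only [Units.val_mul]
  rw [Matrix.trace_mul_comm, ← mul_assoc, Units.inv_mul, one_mul]
  simp [Matrix.trace]

theorem two_le_of_lifts (ρbar : G →* GL (Fin 3) k) (R : CoeffRing 2 k)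
    (ρu : G →* GL (Fin 3) R.carrier) (hR : IsUniversal ρbar R ρu)
    (h : ∀ j : ℕ, ∃ ρ : G →* GL (Fin 3) (Trunc k (j + 1)), IsLift ρbar (truncRing 2 k j) ρ ∧
      ∀ i : Fin 2, ∃ (g g' : G) (a : k), a ≠ 0 ∧
        (ρ g' : Matrix (Fin 3) (Fin 3) (Trunc k (j + 1))).trace -
          (ρ g : Matrix (Fin 3) (Fin 3) (Trunc k (j + 1))).trace =
          truncC k (j + 1) a * Ideal.Quotient.mk _ (X i)) :
    2 ≤ ringKrullDim (R.carrier ⧸ Ideal.span {(2 : R.carrier)}) := by
  apply two_le_of_maps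
  intro j
  obtain ⟨ρ, hρ, htr⟩ := h j
  obtain ⟨f, hf, -⟩ := hR.2 (truncRing 2 k j) ρ hρ
  refine ⟨f, fun i => ?_⟩
  have htrace : ∀ g : G, (ρ g : Matrix (Fin 3) (Fin 3) (Trunc k (j + 1))).trace =
      coeffMap f ((ρu g : Matrix (Fin 3) (Fin 3) R.carrier).trace) := by
    intro g
    exact trace_of_strictEquiv f hf g
  obtain ⟨g, g', a, ha, hg⟩ := htr i
  obtain ⟨b, hb⟩ := truncC_mem_range f a⁻¹
  refine ⟨b * ((ρu g' : Matrix (Fin 3) (Fin 3) R.carrier).trace -
    (ρu g : Matrix (Fin 3) (Fin 3) R.carrier).trace), ?_⟩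
  rw [map_mul, map_sub, ← htrace, ← htrace, hg, hb, ← mul_assoc, ← map_mul,
    inv_mul_cancel₀ ha, map_one, one_mul]

end Pool.Agent.Lib.MP_aa8fd2_nt.Mazur
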