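import Pool.Agent.Lib.MP_aa8fd2_nt.Restr
import Pool.Agent.Lib.MP_aa8fd2_nt.Unram
import Pool.Agent.Lib.MP_aa8fd2_nt.TwoLe

set_option autoImplicit false

/-! Properties of the residual representation: containment in `F_S`, decomposition groups at
infinity, `δ(ρbar) = 1`, absolute irreducibility. -/

namespace Pool.Agent.Lib.MP_aa8fd2_nt.Mazur

open NumberField IsDedekindDomain

section Places

variable {F : Type} [Field F] [NumberField F]

theorem finite_above_six : {v : HeightOneSpectrum (𝓞 F) | (6 : 𝓞 F) ∈ v.asIdeal}.Finite := by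
  have h := Ideal.finite_factors (I := Ideal.span {(6 : 𝓞 F)}) (by
    rw [Ne, Ideal.zero_eq_bot, Ideal.span_singleton_eq_bot]
    norm_num)
  refine h.subset ?_
  intro v hv
  change v.asIdeal ∣ _
  rw [Ideal.dvd_span_singleton]
  exact hv

/-- The finite places above 2 and 3. -/
noncomputable def placesSix (F : Type) [Field F] [NumberField F] :
    Finset (HeightOneSpectrum (𝓞 F)) :=
  (finite_above_six (F := F)).toFinset

theorem mem_placesSix {v : HeightOneSpectrum (𝓞 F)} : v ∈ placesSix F ↔ (6 : 𝓞 F) ∈ v.asIdeal := by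
  simp [placesSix]

theorem mem_placesSix_of_two {v : HeightOneSpectrum (𝓞 F)} (h : (2 : 𝓞 F) ∈ v.asIdeal) :
    v ∈ placesSix F := by
  rw [mem_placesSix]
  have h1 : (6 : 𝓞 F) = 3 * 2 := by norm_num
  rw [h1]
  exact Ideal.mul_mem_left _ _ h

theorem unramifiedOutside_of_unr6 (K : IntermediateField F (AlgebraicClosure F))
    [FiniteDimensional F K] [IsGalois F K] (hu : Unr6 K) :
    UnramifiedOutside F (placesSix F) K := by
  intro Q hQ hQ0 hv
  apply isUnramifiedAt_of_unr6 K hu Q
  intro h6
  have hnf : NumberField K := NumberField.of_module_finite F K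
  have hP0 : Q.comap (algebraMap (𝓞 F) (𝓞 K)) ≠ ⊥ := by
    intro h0
    have h1 : (6 : 𝓞 F) ∈ Q.comap (algebraMap (𝓞 F) (𝓞 K)) := by
      rw [Ideal.mem_comap, map_ofNat]
      exact h6
    rw [h0, Ideal.mem_bot] at h1
    norm_num at h1
  refine hv ⟨Q.comap (algebraMap (𝓞 F) (𝓞 K)), Ideal.comap_isPrime _ _, hP0⟩ ?_ rfl
  rw [mem_placesSix]
  change (6 : 𝓞 F) ∈ Q.comap (algebraMap (𝓞 F) (𝓞 K))
  rw [Ideal.mem_comap, map_ofNat]
  exact h6

theorem le_maxExt_of_unr6 (K : IntermediateField F (AlgebraicClosure F))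
    [FiniteDimensional F K] [IsGalois F K] (hu : Unr6 K) : K ≤ maxExt F (placesSix F) := by
  apply le_sSup
  exact ⟨inferInstance, unramifiedOutside_of_unr6 K hu⟩

end Places

section Stab

variable {F Ω : Type} [Field F] [Field Ω] [Algebra F Ω]

theorem res_eq_one_of_stab {L E' : IntermediateField F Ω} (h : L ≤ E') [Normal F L]
    (hL : TotReal L) (w : InfinitePlace E') (g : E' ≃ₐ[F] E') (hg : g • w = w) :
    res h g = 1 := by
  suffices h1 : res h g⁻¹ = 1 by
    rw [map_inv, inv_eq_one] at h1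
    exact h1
  apply AlgEquiv.ext
  intro x
  have hreal : ∀ y : L, starRingEnd ℂ (w.embedding (IntermediateField.inclusion h y)) =
      w.embedding (IntermediateField.inclusion h y) := fun y =>
    Complex.conj_eq_iff_im.mpr
      (hL (w.embedding.comp (IntermediateField.inclusion h : L →+* E')) y)
  have key : w.embedding (IntermediateField.inclusion h (res h g⁻¹ x)) =
      w.embedding (IntermediateField.inclusion h x) := by
    have h2 : InfinitePlace.mk (w.embedding.comp (g.symm : E' →+* E')) =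
        InfinitePlace.mk w.embedding := by
      rw [← InfinitePlace.smul_mk, InfinitePlace.mk_embedding, hg]
    have h3 : g.symm (IntermediateField.inclusion h x) =
        IntermediateField.inclusion h (res h g⁻¹ x) := by
      rw [res_apply]
      rfl
    rcases InfinitePlace.mk_eq_iff.mp h2 with h4 | h4
    · have h5 := RingHom.congr_fun h4 (IntermediateField.inclusion h x)
      rw [← h3]
      exact h5
    · have h5 := RingHom.congr_fun h4 (IntermediateField.inclusion h x)
      have h6 : starRingEnd ℂ (w.embedding (g.symm (IntermediateField.inclusion h x))) =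
        w.embedding (IntermediateField.inclusion h x) := h5
      rw [h3, hreal] at h6
      exact h6
  exact IntermediateField.inclusion_injective h (w.embedding.injective key)

end Stab

section Delta

variable {F : Type} [Field F] [NumberField F] {S : Finset (HeightOneSpectrum (𝓞 F))}
  {k : Type} [Field k]

omit [NumberField F] in
theorem finrank_adZeroInvariants (ρbar : GFS F S →* GL (Fin 3) k)
    (D : Subgroup (GFS F S)) (hD : ∀ g ∈ D, ρbar g = 1) :
    Module.finrank k (adZeroInvariants ρbar D) = 8 := by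
  have h1 : adZeroInvariants ρbar D = LinearMap.ker (Matrix.traceLinearMap (Fin 3) k k) := by
    ext X
    constructor
    · intro hX
      exact hX.1
    · intro hX
      refine ⟨hX, fun g hg => ?_⟩
      rw [hD g hg]
      simp
  rw [h1]
  have h2 := LinearMap.finrank_range_add_finrank_ker (Matrix.traceLinearMap (Fin 3) k k)
  have h3 : LinearMap.range (Matrix.traceLinearMap (Fin 3) k k) = ⊤ := by
    rw [LinearMap.range_eq_top]
    intro a
    refine ⟨Matrix.single 0 0 a, ?_⟩
    simp
  rw [h3, finrank_top, Module.finrank_self, Module.finrank_matrix] at h2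
  simp at h2
  omega

theorem delta_eq_one (hF : Module.finrank ℚ F = 2) (hreal : ∀ i : F →+* ℂ, ∀ x, (i x).im = 0)
    (ρbar : GFS F S →* GL (Fin 3) k)
    (hρ : ∀ v : InfinitePlace F, ∀ g ∈ decompGroup S v, ρbar g = 1) :
    delta ρbar = 1 := by
  have htr : IsTotallyReal F := by
    constructor
    intro v
    rw [InfinitePlace.isReal_iff, ComplexEmbedding.isReal_iff]
    ext x
    exact Complex.conj_eq_iff_im.mpr (hreal _ x)
  have h1 : InfinitePlace.nrComplexPlaces F = 0 := IsTotallyReal.nrComplexPlaces_eq_zero F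
  have h2 : Fintype.card (InfinitePlace F) = 2 := by
    have h3 := InfinitePlace.card_add_two_mul_card_eq_rank F
    rw [InfinitePlace.card_eq_nrRealPlaces_add_nrComplexPlaces]
    omega
  unfold delta
  rw [h1, hF]
  rw [Finset.sum_congr rfl (fun v _ => by
    rw [finrank_adZeroInvariants ρbar (decompGroup S v) (hρ v)])]
  rw [Finset.sum_const, Finset.card_univ, h2]
  norm_num

end Delta

section Irred

theorem stable_eq_top {K : Type} [Field K] (h2 : (2 : K) = 0) (w : K) (hw : w ^ 2 + w + 1 = 0)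
    (W : Submodule K (Fin 3 → K))
    (hD : ∀ v ∈ W, (!![1, 0, 0; 0, w, 0; 0, 0, w ^ 2] : Matrix (Fin 3) (Fin 3) K).mulVec v ∈ W)
    (hT : ∀ v ∈ W, (!![0, 1, 0; 0, 0, 1; w, 0, 0] : Matrix (Fin 3) (Fin 3) K).mulVec v ∈ W) :
    W = ⊥ ∨ W = ⊤ := by
  have hw3 : w ^ 3 = 1 := by linear_combination (w - 1) * hw
  have hw0 : w ≠ 0 := by
    rintro rfl
    norm_num at hw
  have hD' : ∀ a b c : K, ![a, b, c] ∈ W → ![a, w * b, w ^ 2 * c] ∈ W := by
    intro a b c hv
    have := hD _ hv
    convert this using 1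
    ext i
    fin_cases i <;> simp [Matrix.mulVec, dotProduct, Fin.sum_univ_three]
  have hT' : ∀ a b c : K, ![a, b, c] ∈ W → ![b, c, w * a] ∈ W := by
    intro a b c hv
    have := hT _ hv
    convert this using 1
    ext i
    fin_cases i <;> simp [Matrix.mulVec, dotProduct, Fin.sum_univ_three]
  have hadd : ∀ a b c a' b' c' : K, ![a, b, c] ∈ W → ![a', b', c'] ∈ W →
      ![a + a', b + b', c + c'] ∈ W := by
    intro a b c a' b' c' h h'
    simpa using W.add_mem h h'
  have hsmul : ∀ x a b c : K, ![a, b, c] ∈ W → ![x * a, x * b, x * c] ∈ W := by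
    intro x a b c h
    simpa using W.smul_mem x h
  -- projections
  have hproj : ∀ a b c x : K, ![a, b, c] ∈ W →
      ![(1 + x + x ^ 2) * a, (1 + x * w + (x * w) ^ 2) * b,
        (1 + x * w ^ 2 + (x * w ^ 2) ^ 2) * c] ∈ W := by
    intro a b c x hv
    have h3 := hD' _ _ _ hv
    have h4 := hD' _ _ _ h3
    have h5 := hadd _ _ _ _ _ _ (hadd _ _ _ _ _ _ hv (hsmul x _ _ _ h3)) (hsmul (x ^ 2) _ _ _ h4)
    convert h5 using 2
    · ring
    · congr 1
      · ring
      · congr 1
        ring
  have h31 : (1 : K) + 1 + 1 = 1 := by linear_combination h2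
  -- if one basis vector is in W then W = ⊤
  have htop : ∀ a : K, a ≠ 0 → ![a, 0, 0] ∈ W → W = ⊤ := by
    intro a ha h
    have h0 : ![(1 : K), 0, 0] ∈ W := by
      have := hsmul a⁻¹ _ _ _ h
      rwa [inv_mul_cancel₀ ha, mul_zero] at this
    have h1 : ![(0 : K), 0, 1] ∈ W := by
      have := hsmul w⁻¹ _ _ _ (hT' _ _ _ h0)
      rwa [mul_one, inv_mul_cancel₀ hw0, mul_zero] at this
    have h2 : ![(0 : K), 1, 0] ∈ W := by
      have := hT' _ _ _ h1
      rwa [mul_zero] at this
    rw [eq_top_iff]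
    intro v _
    have h5 := hadd _ _ _ _ _ _ (hadd _ _ _ _ _ _ (hsmul (v 0) _ _ _ h0) (hsmul (v 1) _ _ _ h2))
      (hsmul (v 2) _ _ _ h1)
    simp only [mul_one, mul_zero, add_zero, zero_add] at h5
    convert h5 using 1
    ext i
    fin_cases i <;> rfl
  rcases eq_or_ne W ⊥ with h | h
  · exact Or.inl h
  right
  obtain ⟨v, hv, hv0⟩ := W.exists_mem_ne_zero_of_ne_bot h
  obtain ⟨a, b, c, rfl⟩ : ∃ a b c : K, v = ![a, b, c] :=
    ⟨v 0, v 1, v 2, by ext i; fin_cases i <;> rfl⟩
  by_cases h0 : a = 0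
  · by_cases h1 : b = 0
    · have h2' : c ≠ 0 := by
        rintro rfl
        apply hv0
        subst h0 h1
        simp
      -- v = (0,0,v2); T v = (0, v2, 0), T T v = (v2, 0, 0)
      subst h0 h1
      have h6 := hT' _ _ _ (hT' _ _ _ hv)
      rw [mul_zero] at h6
      exact htop c h2' h6
    · subst h0
      have h6 := hproj _ _ _ (w ^ 2) hv
      have e1 : (1 + w ^ 2 * w + (w ^ 2 * w) ^ 2) * b = b := by
        linear_combination b * (hw3 + (w ^ 3 + 1) * hw3) + b * h2
      have e2 : (1 + w ^ 2 * w ^ 2 + (w ^ 2 * w ^ 2) ^ 2) * c = 0 := by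
        linear_combination c * (hw + w * hw3 + (w ^ 5 + w ^ 2) * hw3)
      rw [e1, e2, mul_zero] at h6
      exact htop b h1 (by simpa using hT' _ _ _ h6)
  · have h6 := hproj _ _ _ 1 hv
    have e0 : (1 + 1 + 1 ^ 2) * a = a := by linear_combination a * h2
    have e1 : (1 + 1 * w + (1 * w) ^ 2) * b = 0 := by linear_combination b * hw
    have e2 : (1 + 1 * w ^ 2 + (1 * w ^ 2) ^ 2) * c = 0 := by
      linear_combination c * (hw + w * hw3)
    rw [e0, e1, e2] at h6
    exact htop a h0 h6


variable {k : Type} [Field k] {G : Type} [Group G]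

theorem absIrred_of (h2 : (2 : k) = 0) (w : k) (hw : w ^ 2 + w + 1 = 0) (ρ : G →* GL (Fin 3) k)
    (g₁ g₂ : G)
    (h1 : (ρ g₁ : Matrix (Fin 3) (Fin 3) k) = !![1, 0, 0; 0, w, 0; 0, 0, w ^ 2])
    (h2' : (ρ g₂ : Matrix (Fin 3) (Fin 3) k) = !![0, 1, 0; 0, 0, 1; w, 0, 0]) :
    AbsIrred ρ := by
  intro K _ _ W hW
  have e2 : (2 : K) = 0 := by
    have := congrArg (algebraMap k K) h2
    rwa [map_ofNat, map_zero] at this
  have ew : (algebraMap k K w) ^ 2 + algebraMap k K w + 1 = 0 := by
    rw [← map_pow, ← map_add, ← map_one (algebraMap k K), ← map_add, hw, map_zero]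
  refine stable_eq_top e2 (algebraMap k K w) ew W ?_ ?_
  · intro v hv
    have h3 := hW g₁ v hv
    rw [h1] at h3
    convert h3 using 2
    ext i j
    fin_cases i <;> fin_cases j <;> simp
  · intro v hv
    have h3 := hW g₂ v hv
    rw [h2'] at h3
    convert h3 using 2
    ext i j
    fin_cases i <;> fin_cases j <;> simp

end Irred

end Pool.Agent.Lib.MP_aa8fd2_nt.Mazur
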