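import Pool.Agent.Lib.MP_aa8fd2_nt.Setup

/-!
The tower step: adjoin the square roots of all 2-units.
-/

set_option autoImplicit false

namespace Pool.Agent.Lib.MP_aa8fd2_nt

open IsDedekindDomain HeightOneSpectrum NumberField IntermediateField Module

section

variable {K : Type*} [Field K] [NumberField K]

lemma one_le_ord_two (v : HeightOneSpectrum (𝓞 K)) (hv : (2 : 𝓞 K) ∈ v.asIdeal) :
    1 ≤ ord v (twoU K) := by
  have := (le_ord_iff v (r := (2 : 𝓞 K)) (twoU K) (by rw [map_ofNat]; rfl) 1).2 (by simpa using hv)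
  exact_mod_cast this

lemma exists_pow_integral {x : Kˣ} (hx : x ∈ EU K) : ∃ m : ℕ, IsIntegral ℤ (2 ^ m * (x : K)) := by
  classical
  obtain ⟨m, hm⟩ : ∃ m : ℕ, ∀ v ∈ S2 K, - ord v x ≤ m := by
    obtain ⟨b, hb⟩ := ((S2_finite K).image (fun v => - ord v x)).bddAbove
    exact ⟨b.toNat, fun v hv => (hb ⟨v, hv, rfl⟩).trans (Int.self_le_toNat b)⟩
  refine ⟨m, ?_⟩
  have h : ∀ v : HeightOneSpectrum (𝓞 K), v.valuation K (((twoU K) ^ m * x : Kˣ) : K) ≤ 1 := by
    intro v
    rw [valuation_eq_exp_neg_ord, ord_mul, ord_pow, ← WithZero.exp_zero, WithZero.exp_le_exp]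
    by_cases hv : (2 : 𝓞 K) ∈ v.asIdeal
    · have h1 := one_le_ord_two v hv
      have h2 := hm v hv
      nlinarith
    · rw [(mem_EU K).1 hx v hv, (mem_EU K).1 (twoU_mem_EU (M := K)) v hv]
      simp
  obtain ⟨a, ha⟩ := mem_integers_of_valuation_le_one (R := 𝓞 K) K _ h
  have h2 : (2 : K) ^ m * (x : K) = algebraMap (𝓞 K) K a := by
    rw [ha]; rfl
  rw [h2]
  exact RingOfIntegers.isIntegral_coe a

lemma exists_pow_integral_two {x : Kˣ} (hx : x ∈ EU K) :
    ∃ m : ℕ, IsIntegral ℤ (2 ^ m * (x : K)) ∧ IsIntegral ℤ (2 ^ m * (x : K)⁻¹) := by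
  obtain ⟨m, hm⟩ := exists_pow_integral hx
  obtain ⟨n, hn⟩ := exists_pow_integral (inv_mem hx)
  rw [Units.val_inv_eq_inv_val] at hn
  have h2 : ∀ k : ℕ, IsIntegral ℤ ((2 : K) ^ k) := fun k =>
    IsIntegral.pow (by simpa using (isIntegral_algebraMap (R := ℤ) (A := K) (x := 2))) k
  refine ⟨m + n, ?_, ?_⟩
  · rw [pow_add, mul_comm ((2 : K) ^ m), mul_assoc]
    exact (h2 n).mul hm
  · rw [pow_add, mul_assoc]
    exact (h2 m).mul hn

end

section

variable {F Ω : Type*} [Field F] [Field Ω] [Algebra F Ω]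
variable (K : IntermediateField F Ω)

/-- square roots of the 2-units of `K` -/
def SqR [NumberField K] : Set Ω := {y | ∃ e ∈ EU K, y ^ 2 = ((e : K) : Ω)}

/-- the field `K(√E)`, `E` the 2-units of `K` -/
def tow [NumberField K] : IntermediateField F Ω := adjoin F ((K : Set Ω) ∪ SqR K)

lemma le_tow [NumberField K] : K ≤ tow K := fun _ hx => subset_adjoin F _ (Or.inl hx)

lemma sqR_mem_tow [NumberField K] {y : Ω} (hy : y ∈ SqR K) : y ∈ tow K :=
  subset_adjoin F _ (Or.inr hy)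

end

section

variable {F Ω : Type*} [Field F] [Field Ω] [Algebra F Ω]
variable {K : IntermediateField F Ω}

lemma fixed_of_adjoin {K'' : IntermediateField F Ω} (σ : K'' ≃ₐ[F] K'') (S : Set Ω)
    (hSK : S ⊆ K'') (hS : ∀ x : K'', (x : Ω) ∈ S → σ x = x) :
    ∀ x : K'', (x : Ω) ∈ adjoin F S → σ x = x := by
  intro x hx
  have h1 : adjoin F S ≤ (fixedField (Subgroup.zpowers σ)).map K''.val := by
    rw [adjoin_le_iff]
    intro y hy
    refine ⟨⟨y, hSK hy⟩, ?_, rfl⟩
    show (⟨y, hSK hy⟩ : K'') ∈ (fixedField (Subgroup.zpowers σ))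
    rw [mem_fixedField_iff]
    intro f hf
    have h2 : Subgroup.zpowers σ ≤ MulAction.stabilizer (K'' ≃ₐ[F] K'') (⟨y, hSK hy⟩ : K'') := by
      rw [Subgroup.zpowers_le, MulAction.mem_stabilizer_iff]
      exact hS _ hy
    exact h2 hf
  obtain ⟨z, hz, hzx⟩ := h1 hx
  have h3 : z = x := Subtype.ext hzx
  rw [← h3]
  exact (mem_fixedField_iff _ _).1 hz σ (Subgroup.mem_zpowers σ)

lemma sigma_sqR [NumberField K] {K'' : IntermediateField F Ω} (σ : K'' ≃ₐ[F] K'')
    (hσ : ∀ x : K'', (x : Ω) ∈ K → σ x = x) (x : K'') (hx : (x : Ω) ∈ SqR K) :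
    σ x = x ∨ σ x = -x := by
  obtain ⟨e, he, h⟩ := hx
  rw [← sq_eq_sq_iff_eq_or_eq_neg, ← map_pow]
  apply hσ
  rw [SubmonoidClass.coe_pow, h]
  exact (e : K).2

lemma sqR_ne_zero [NumberField K] {y : Ω} (hy : y ∈ SqR K) : y ≠ 0 := by
  obtain ⟨e, he, h⟩ := hy
  rintro rfl
  rw [zero_pow two_ne_zero] at h
  have : ((e : K) : Ω) ≠ 0 := by simp
  exact this h.symm

lemma tow_sq [NumberField K] (σ : tow K ≃ₐ[F] tow K)
    (hσ : ∀ x : tow K, (x : Ω) ∈ K → σ x = x) : σ * σ = 1 := by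
  ext x
  have h := fixed_of_adjoin (σ * σ) ((K : Set Ω) ∪ SqR K) (subset_adjoin F _) ?_ x x.2
  · rw [h]; rfl
  · intro y hy
    rw [AlgEquiv.mul_apply]
    rcases hy with hy | hy
    · rw [hσ y hy, hσ y hy]
    · rcases sigma_sqR σ hσ y hy with h | h
      · rw [h, h]
      · rw [h, map_neg, h, neg_neg]

lemma tow_unr6 [NumberField K] (hu : Unr6 K) : Unr6 (tow K) := by
  intro K'' hK'' hfin hgal Q hQ h6 σ hσ
  have hK : ∀ x : K'', (x : Ω) ∈ K → σ x = x :=
    hu K'' ((le_tow K).trans hK'') hfin hgal Q hQ h6 σ hσ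
  refine fixed_of_adjoin σ ((K : Set Ω) ∪ SqR K) ((subset_adjoin F _).trans hK'') ?_
  intro x hx
  rcases hx with hx | hx
  · exact hK x hx
  rcases sigma_sqR σ hK x hx with h | h
  · exact h
  exfalso
  have h2 : (2 : 𝓞 K'') ∉ Q := by
    intro h2
    apply h6
    have : (6 : 𝓞 K'') = 3 * 2 := by norm_num
    rw [this]
    exact Q.mul_mem_left _ h2
  obtain ⟨e, he, hxe⟩ := hx
  obtain ⟨m, hm1, hm2⟩ := exists_pow_integral_two he
  have hx0 : (x : Ω) ≠ 0 := sqR_ne_zero ⟨e, he, hxe⟩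
  let j : K →ₐ[F] K'' := inclusion ((le_tow K).trans hK'')
  have hje : x ^ 2 = j (e : K) := Subtype.ext (by rw [SubmonoidClass.coe_pow, hxe]; rfl)
  have hx0' : x ≠ 0 := fun h => hx0 (by rw [h]; rfl)
  have h3 : IsIntegral ℤ (2 ^ m * x) := by
    refine IsIntegral.of_pow two_pos ?_
    have h4 : (2 ^ m * x) ^ 2 = 2 ^ m * (j : K →+* K'') (2 ^ m * (e : K)) := by
      rw [mul_pow, hje, map_mul, map_pow, map_ofNat]
      simp only [RingHom.coe_coe]
      ring
    rw [h4]
    refine IsIntegral.mul (IsIntegral.pow (by simpa using (isIntegral_algebraMap (R := ℤ) (A := K'') (x := 2))) _) ?_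
    exact hm1.map (j : K →+* K'').toIntAlgHom
  have h5 : IsIntegral ℤ ((j : K →+* K'') (2 ^ m * (e : K)⁻¹)) :=
    hm2.map (j : K →+* K'').toIntAlgHom
  have h6' : (2 ^ m * x) ^ 2 * (j : K →+* K'') (2 ^ m * (e : K)⁻¹) = 2 ^ (3 * m) := by
    rw [mul_pow, hje, map_mul, map_pow, map_ofNat, map_inv₀]
    have : (j : K →+* K'') (e : K) ≠ 0 := by simp
    simp only [RingHom.coe_coe] at this ⊢
    field_simp
    ring
  obtain ⟨z, hz⟩ : ∃ z : 𝓞 K'', (z : K'') = 2 ^ m * x := ⟨⟨_, h3⟩, rfl⟩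
  obtain ⟨w, hw⟩ : ∃ w : 𝓞 K'', (w : K'') = (j : K →+* K'') (2 ^ m * (e : K)⁻¹) := ⟨⟨_, h5⟩, rfl⟩
  have h7 : z ∈ Q := by
    have h8 := hσ z (-z) (by
      show -(z : K'') = σ (z : K'')
      rw [hz, map_mul, map_pow, map_ofNat, h]
      ring)
    have h9 : -z - z = (-2) * z := by ring
    rw [h9] at h8
    rcases hQ.mem_or_mem h8 with h10 | h10
    · exact absurd (neg_mem_iff.1 h10) h2
    · exact h10
  have h8 : (2 : 𝓞 K'') ^ (3 * m) ∈ Q := by
    have h9 : (2 : 𝓞 K'') ^ (3 * m) = z ^ 2 * w := by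
      apply FaithfulSMul.algebraMap_injective (𝓞 K'') K''
      rw [map_pow, map_ofNat, map_mul, map_pow]
      rw [← h6']
      show _ = (z : K'') ^ 2 * (w : K'')
      rw [hz, hw]
    rw [h9]
    exact Q.mul_mem_right _ (Q.pow_mem_of_mem h7 2 two_pos)
  exact h2 (hQ.mem_of_pow_mem _ h8)

lemma tow_totComplex [NumberField K] (hc : TotComplex K) : TotComplex (tow K) := by
  intro i
  obtain ⟨x, hx⟩ := hc (i.comp (inclusion (le_tow K)).toRingHom)
  exact ⟨inclusion (le_tow K) x, hx⟩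

lemma tow_sqrt_two [IsAlgClosed Ω] [NumberField K] : ∃ y ∈ tow K, y ^ 2 = (2 : Ω) := by
  obtain ⟨y, hy⟩ := IsAlgClosed.exists_pow_nat_eq (2 : Ω) two_pos
  refine ⟨y, sqR_mem_tow K ⟨twoU K, twoU_mem_EU (M := K), ?_⟩, hy⟩
  rw [hy]; rfl

end

section

variable {F Ω : Type*} [Field F] [Field Ω] [Algebra F Ω] [IsAlgClosed Ω]
variable (K : IntermediateField F Ω)

/-- square classes of 2-units -/
abbrev SC (K : Type*) [Field K] [NumberField K] : Type _ :=
  EU K ⧸ (((EU K).map (sqr Kˣ)).subgroupOf (EU K))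

lemma card_SC (K : Type*) [Field K] [NumberField K] :
    Nat.card (SC K) = 2 ^ (finrank ℤ (Additive (EU K)) + 1) :=
  card_EU_sq K

instance finite_SC (K : Type*) [Field K] [NumberField K] : Finite (SC K) := by
  apply Nat.finite_of_card_ne_zero
  rw [card_SC]
  positivity

/-- square roots of representatives of the square classes -/
noncomputable def rt [NumberField K] (q : SC K) : Ω :=
  (IsAlgClosed.exists_pow_nat_eq ((((q.out : EU K) : Kˣ) : K) : Ω) two_pos).choose

lemma rt_sq [NumberField K] (q : SC K) : (rt K q) ^ 2 = ((((q.out : EU K) : Kˣ) : K) : Ω) :=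
  (IsAlgClosed.exists_pow_nat_eq ((((q.out : EU K) : Kˣ) : K) : Ω) two_pos).choose_spec

lemma rt_mem [NumberField K] (q : SC K) : rt K q ∈ SqR K := ⟨_, (q.out : EU K).2, rt_sq K q⟩

lemma tow_le [NumberField K] : tow K ≤ K ⊔ adjoin F (Set.range (rt K)) := by
  rw [tow, adjoin_le_iff, Set.union_subset_iff]
  refine ⟨fun x hx => (le_sup_left : K ≤ K ⊔ adjoin F (Set.range (rt K))) hx, ?_⟩
  rintro y ⟨e, he, hy⟩
  obtain ⟨⟨h, hh⟩, hq⟩ := QuotientGroup.mk_out_eq_mul
    (((EU K).map (sqr Kˣ)).subgroupOf (EU K)) ⟨e, he⟩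
  rw [Subgroup.mem_subgroupOf] at hh
  obtain ⟨f, hf, hfh⟩ := hh
  rw [sqr_apply] at hfh
  set q : SC K := ((⟨e, he⟩ : EU K) : SC K) with hqdef
  have h1 : (rt K q) ^ 2 = (y * ((f : K) : Ω)) ^ 2 := by
    rw [rt_sq, hq, mul_pow, hy]
    simp only [Subgroup.coe_mul, ← hfh]
    push_cast
    rfl
  have hf0 : ((f : K) : Ω) ≠ 0 := by simp
  have hfm : ((f : K) : Ω) ∈ K ⊔ adjoin F (Set.range (rt K)) :=
    (le_sup_left : K ≤ K ⊔ adjoin F (Set.range (rt K))) (f : K).2
  have hrm : rt K q ∈ K ⊔ adjoin F (Set.range (rt K)) :=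
    (le_sup_right : adjoin F (Set.range (rt K)) ≤ K ⊔ adjoin F (Set.range (rt K)))
      (subset_adjoin F _ ⟨q, rfl⟩)
  rcases sq_eq_sq_iff_eq_or_eq_neg.1 h1 with h2 | h2
  · have : y = rt K q / ((f : K) : Ω) := by rw [h2]; field_simp
    rw [this]
    exact div_mem hrm hfm
  · have : y = - rt K q / ((f : K) : Ω) := by rw [h2]; field_simp
    rw [this]
    exact div_mem (neg_mem hrm) hfm

lemma tow_fin [FiniteDimensional F K] [NumberField K] : FiniteDimensional F (tow K) := by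
  have h1 : FiniteDimensional F (adjoin F (Set.range (rt K))) := by
    apply finiteDimensional_adjoin
    rintro _ ⟨q, rfl⟩
    refine IsIntegral.of_pow two_pos ?_
    rw [rt_sq]
    exact (IsIntegral.of_finite F ((((q.out : EU K) : Kˣ) : K))).map K.val
  have h2 : FiniteDimensional F (K ⊔ adjoin F (Set.range (rt K)) : IntermediateField F Ω) :=
    inferInstance
  exact FiniteDimensional.of_injective (inclusion (tow_le K)).toLinearMap
    (inclusion_injective (tow_le K))

lemma exists_conj [FiniteDimensional F K] [Normal F K] (e : K) (t : Ω)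
    (ht : Polynomial.aeval t (minpoly F (e : Ω)) = 0) :
    ∃ σ : K ≃ₐ[F] K, t = ((σ e : K) : Ω) := by
  have he : IsIntegral F e := IsIntegral.of_finite F e
  have hm : minpoly F (e : Ω) = minpoly F e := minpoly.algHom_eq K.val K.val.injective e
  rw [hm] at ht
  have htK : t ∈ K := by
    have h1 := (splits_iff_mem (p := minpoly F e) (F := K) (L := Ω)
      (IsAlgClosed.splits _)).1 (Normal.splits inferInstance e)
    apply h1
    rw [Polynomial.mem_rootSet]
    exact ⟨minpoly.ne_zero he, ht⟩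
  obtain ⟨σ, hσ⟩ := minpoly.exists_algEquiv_of_root' (K := F) (L := K) (x := ⟨t, htK⟩) (y := e)
    he.isAlgebraic (by
      have h2 := Polynomial.aeval_algHom_apply K.val ⟨t, htK⟩ (minpoly F e)
      apply Subtype.ext
      exact h2.symm.trans ht)
  exact ⟨σ, by rw [hσ]⟩

lemma tow_normal [NumberField F] [FiniteDimensional F K] [Normal F K] [NumberField K] :
    Normal F (tow K) := by
  have hfin := tow_fin K
  refine normal_iff.2 fun x => ⟨IsIntegral.of_finite F x, ?_⟩
  have hm : minpoly F (x : Ω) = minpoly F x :=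
    minpoly.algHom_eq (tow K).val (tow K).val.injective x
  rw [← hm]
  refine splits_of_mem_adjoin F Ω (S := (K : Set Ω) ∪ SqR K) ?_ x.2
  intro s hs
  have hsT : s ∈ tow K := subset_adjoin F _ hs
  have hsI : IsIntegral F s := (IsIntegral.of_finite F (⟨s, hsT⟩ : tow K)).map (tow K).val
  refine ⟨hsI, splits_of_splits (IsAlgClosed.splits _) fun t ht => ?_⟩
  rw [Polynomial.mem_rootSet] at ht
  rcases hs with hs | ⟨e, he, hse⟩
  · obtain ⟨σ, hσ⟩ := exists_conj K ⟨s, hs⟩ t ht.2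
    rw [hσ]
    exact le_tow K (σ ⟨s, hs⟩).2
  · have h1 : Polynomial.aeval (t ^ 2) (minpoly F ((e : K) : Ω)) = 0 := by
      have h2 : minpoly F s ∣ (minpoly F ((e : K) : Ω)).comp (Polynomial.X ^ 2) := by
        apply minpoly.dvd
        rw [Polynomial.aeval_comp, map_pow, Polynomial.aeval_X, hse, minpoly.aeval]
      obtain ⟨g, hg⟩ := h2
      have h3 := congrArg (Polynomial.aeval t) hg
      rw [map_mul, ht.2, zero_mul, Polynomial.aeval_comp, map_pow, Polynomial.aeval_X] at h3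
      exact h3
    obtain ⟨σ, hσ⟩ := exists_conj K (e : K) (t ^ 2) h1
    apply sqR_mem_tow
    exact ⟨sU σ e, sU_mem_EU σ he, by rw [hσ, sU_val]⟩

end

section

variable {F Ω : Type*} [Field F] [Field Ω] [Algebra F Ω] [IsAlgClosed Ω]
variable (K : IntermediateField F Ω)

/-- the root as an element of the tower field -/
noncomputable def rtT [NumberField K] (q : SC K) : tow K := ⟨rt K q, sqR_mem_tow K (rt_mem K q)⟩

lemma rtT_ne_zero [NumberField K] (q : SC K) : rtT K q ≠ 0 := by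
  intro h
  exact sqR_ne_zero (rt_mem K q) (congrArg Subtype.val h)

/-- the subgroup fixing `K` -/
noncomputable abbrev HK [NumberField K] : Subgroup (tow K ≃ₐ[F] tow K) :=
  (restrict (le_tow K)).fixingSubgroup

omit [IsAlgClosed Ω] in
lemma HK_fix [NumberField K] (σ : HK K) (x : tow K) (hx : (x : Ω) ∈ K) :
    (σ : tow K ≃ₐ[F] tow K) x = x :=
  (mem_fixingSubgroup_iff _ _).1 σ.2 x ((mem_restrict (le_tow K) x).2 hx)

/-- the Kummer character of a square class -/
noncomputable def kum [NumberField K] (q : SC K) : HK K →* tow K where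
  toFun σ := (σ : tow K ≃ₐ[F] tow K) (rtT K q) / rtT K q
  map_one' := by
    show rtT K q / rtT K q = 1
    exact div_self (rtT_ne_zero K q)
  map_mul' σ τ := by
    have h0 := rtT_ne_zero K q
    show (σ : tow K ≃ₐ[F] tow K) ((τ : tow K ≃ₐ[F] tow K) (rtT K q)) / rtT K q =
      (σ : tow K ≃ₐ[F] tow K) (rtT K q) / rtT K q * ((τ : tow K ≃ₐ[F] tow K) (rtT K q) / rtT K q)
    rcases sigma_sqR (τ : tow K ≃ₐ[F] tow K) (HK_fix K τ) (rtT K q) (rt_mem K q) with h | h
    · rw [h]; field_simp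
    · rw [h, map_neg]; field_simp

lemma kum_injective [FiniteDimensional F K] [NumberField K] [FiniteDimensional F (tow K)]
    [IsGalois F (tow K)] : Function.Injective (kum K) := by
  intro q r hqr
  have hq0 := rtT_ne_zero K q
  have hr0 := rtT_ne_zero K r
  have h1 : rtT K q / rtT K r ∈ restrict (le_tow K) := by
    rw [← IsGalois.fixedField_fixingSubgroup (restrict (le_tow K)), mem_fixedField_iff]
    intro σ hσ
    have h2 := DFunLike.congr_fun hqr (⟨σ, hσ⟩ : HK K)
    change σ (rtT K q) / rtT K q = σ (rtT K r) / rtT K r at h2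
    have h3 : σ (rtT K r) ≠ 0 := by simpa using hr0
    rw [map_div₀, div_eq_div_iff h3 hr0]
    rw [div_eq_div_iff hq0 hr0] at h2
    rw [h2, mul_comm]
  rw [mem_restrict] at h1
  have hq0' : rt K q ≠ 0 := sqR_ne_zero (rt_mem K q)
  have hr0' : rt K r ≠ 0 := sqR_ne_zero (rt_mem K r)
  have h2 : rt K q / rt K r ∈ K := h1
  obtain ⟨g, hg⟩ : ∃ g : Kˣ, ((g : K) : Ω) = rt K q / rt K r :=
    ⟨Units.mk0 ⟨_, h2⟩ (fun h => div_ne_zero hq0' hr0' (congrArg Subtype.val h)), rfl⟩
  have h3 : g ^ 2 = ((q.out : EU K) : Kˣ) / ((r.out : EU K) : Kˣ) := by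
    apply Units.ext
    apply Subtype.ext
    rw [Units.val_pow_eq_pow_val, SubmonoidClass.coe_pow, hg, div_pow, rt_sq, rt_sq,
      Units.val_div_eq_div_val]
    rfl
  have h4 : g ∈ EU K := by
    apply EU_of_sq
    rw [h3]
    exact div_mem (q.out : EU K).2 (r.out : EU K).2
  rw [← QuotientGroup.out_eq' q, ← QuotientGroup.out_eq' r]
  symm
  rw [QuotientGroup.eq, Subgroup.mem_subgroupOf]
  refine ⟨g, h4, ?_⟩
  rw [sqr_apply, h3, div_eq_mul_inv, mul_comm]
  rfl

lemma card_le [FiniteDimensional F K] [NumberField K] [FiniteDimensional F (tow K)]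
    [IsGalois F (tow K)] : Nat.card (SC K) ≤ Nat.card (HK K) := by
  classical
  have := Fintype.ofFinite (SC K)
  have : Finite (HK K) := inferInstance
  have := Fintype.ofFinite (HK K)
  have h1 : LinearIndependent (tow K) (fun q : SC K => (kum K q : HK K → tow K)) :=
    (linearIndependent_monoidHom (HK K) (tow K)).comp (kum K) (kum_injective K)
  have h2 := h1.fintype_card_le_finrank
  rw [Module.finrank_fintype_fun_eq_card] at h2
  rwa [Nat.card_eq_fintype_card, Nat.card_eq_fintype_card]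

omit [IsAlgClosed Ω] in
lemma isTotallyComplex_of (hc : TotComplex K) : IsTotallyComplex K := by
  constructor
  intro v
  rw [InfinitePlace.isComplex_iff, ComplexEmbedding.isReal_iff]
  intro h
  obtain ⟨x, hx⟩ := hc v.embedding
  apply hx
  rw [← Complex.conj_eq_iff_im]
  exact DFunLike.congr_fun h x

lemma tow_degree [FiniteDimensional F K] [NumberField K] [FiniteDimensional F (tow K)]
    [IsGalois F (tow K)] (hc : TotComplex K) :
    finrank F K * 2 ^ (finrank ℚ K / 2 + 1) ≤ finrank F (tow K) := by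
  have hc' := isTotallyComplex_of K hc
  have h1 : finrank F K * Nat.card (HK K) = finrank F (tow K) := by
    rw [IsGalois.card_fixingSubgroup_eq_finrank,
      LinearEquiv.finrank_eq (restrictAlgEquiv (le_tow K)).toLinearEquiv]
    exact Module.finrank_mul_finrank F (restrict (le_tow K)) (tow K)
  rw [← h1]
  apply Nat.mul_le_mul_left
  refine le_trans ?_ (card_le K)
  rw [card_SC]
  apply Nat.pow_le_pow_right two_pos
  have h2 := finrank_EU_of_totallyComplex K
  have h3 := card_S2_pos K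
  have h4 := IsTotallyComplex.finrank K
  omega

end

theorem tower_step {F Ω : Type*} [Field F] [NumberField F] [Field Ω] [Algebra F Ω] [IsAlgClosed Ω]
    (K : IntermediateField F Ω) [FiniteDimensional F K] [IsGalois F K] (hc : TotComplex K)
    (hu : Unr6 K) :
    ∃ K' : IntermediateField F Ω, K ≤ K' ∧ FiniteDimensional F K' ∧ IsGalois F K' ∧
      Unr6 K' ∧ TotComplex K' ∧ (∃ y ∈ K', y ^ 2 = (2 : Ω)) ∧
      (∀ σ : K' ≃ₐ[F] K', (∀ x : K', (x : Ω) ∈ K → σ x = x) → σ * σ = 1) ∧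
      Module.finrank F K * 2 ^ (Module.finrank ℚ K / 2 + 1) ≤ Module.finrank F K' := by
  have hK : NumberField K := NumberField.of_module_finite F K
  have h1 : FiniteDimensional F (tow K) := tow_fin K
  have h2 : Normal F (tow K) := tow_normal K
  have h3 : IsGalois F (tow K) := IsGalois.mk
  exact ⟨tow K, le_tow K, h1, h3, tow_unr6 hu, tow_totComplex hc, tow_sqrt_two, tow_sq,
    tow_degree K hc⟩

end Pool.Agent.Lib.MP_aa8fd2_nt
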