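import Pool.Agent.Lib.MP_aa8fd2_nt.Tower
import Pool.Agent.Lib.MP_aa8fd2_nt.GroupTheory

/-!
The tower of fields obtained by iterating `tower_step`, starting from `A(i)`.
-/

set_option autoImplicit false

namespace Pool.Agent.Lib.MP_aa8fd2_nt

open IsDedekindDomain HeightOneSpectrum NumberField IntermediateField Module

section

variable {F Ω : Type*} [Field F] [Field Ω] [Algebra F Ω]
variable {K : IntermediateField F Ω}

/-- An element of an inertia group away from 2 fixing `K` fixes square roots of 2-units. -/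
lemma inertia_sqR [NumberField K] {K'' : IntermediateField F Ω} (hK'' : K ≤ K'')
    {Q : Ideal (𝓞 K'')} (hQ : Q.IsPrime) (h2 : (2 : 𝓞 K'') ∉ Q) {σ : K'' ≃ₐ[F] K''}
    (hσ : ∀ x y : 𝓞 K'', (y : K'') = σ x → y - x ∈ Q)
    (hK : ∀ x : K'', (x : Ω) ∈ K → σ x = x) (x : K'') (hx : (x : Ω) ∈ SqR K) : σ x = x := by
  rcases sigma_sqR σ hK x hx with h | h
  · exact h
  exfalso
  obtain ⟨e, he, hxe⟩ := hx
  obtain ⟨m, hm1, hm2⟩ := exists_pow_integral_two he
  have hx0 : (x : Ω) ≠ 0 := sqR_ne_zero ⟨e, he, hxe⟩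
  let j : K →ₐ[F] K'' := inclusion hK''
  have hje : x ^ 2 = j (e : K) := Subtype.ext (by rw [SubmonoidClass.coe_pow, hxe]; rfl)
  have hx0' : x ≠ 0 := fun h => hx0 (by rw [h]; rfl)
  have h3 : IsIntegral ℤ (2 ^ m * x) := by
    refine IsIntegral.of_pow two_pos ?_
    have h4 : (2 ^ m * x) ^ 2 = 2 ^ m * (j : K →+* K'') (2 ^ m * (e : K)) := by
      rw [mul_pow, hje, map_mul, map_pow, map_ofNat]
      simp only [RingHom.coe_coe]
      ring
    rw [h4]
    refine IsIntegral.mul (IsIntegral.pow (by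
      simpa using (isIntegral_algebraMap (R := ℤ) (A := K'') (x := 2))) _) ?_
    exact hm1.map (j : K →+* K'').toIntAlgHom
  have h5 : IsIntegral ℤ ((j : K →+* K'') (2 ^ m * (e : K)⁻¹)) :=
    hm2.map (j : K →+* K'').toIntAlgHom
  have h6' : (2 ^ m * x) ^ 2 * (j : K →+* K'') (2 ^ m * (e : K)⁻¹) = 2 ^ (3 * m) := by
    rw [mul_pow, hje, map_mul, map_pow, map_ofNat, map_inv₀]
    have : (j : K →+* K'') (e : K) ≠ 0 := by simp
    simp only [RingHom.coe_coe] at this ⊢
    field_simp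
    ring
  obtain ⟨z, hz⟩ : ∃ z : 𝓞 K'', (z : K'') = 2 ^ m * x := ⟨⟨_, h3⟩, rfl⟩
  obtain ⟨w, hw⟩ : ∃ w : 𝓞 K'', (w : K'') = (j : K →+* K'') (2 ^ m * (e : K)⁻¹) := ⟨⟨_, h5⟩, rfl⟩
  have h7 : z ∈ Q := by
    have h8 := hσ z (-z) (by
      show -(z : K'') = σ (z : K'')
      rw [hz, map_mul, map_pow, map_ofNat, h]
      ring)
    have h9 : -z - z = (-2) * z := by ring
    rw [h9] at h8
    rcases hQ.mem_or_mem h8 with h10 | h10
    · exact absurd (neg_mem_iff.1 h10) h2
    · exact h10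
  have h8 : (2 : 𝓞 K'') ^ (3 * m) ∈ Q := by
    have h9 : (2 : 𝓞 K'') ^ (3 * m) = z ^ 2 * w := by
      apply FaithfulSMul.algebraMap_injective (𝓞 K'') K''
      rw [map_pow, map_ofNat, map_mul, map_pow]
      rw [← h6']
      show _ = (z : K'') ^ 2 * (w : K'')
      rw [hz, hw]
    rw [h9]
    exact Q.mul_mem_right _ (Q.pow_mem_of_mem h7 2 two_pos)
  exact h2 (hQ.mem_of_pow_mem _ h8)

/-- restriction of automorphisms to a normal subfield -/
lemma exists_restr {N N' : IntermediateField F Ω} (h : N ≤ N') [Normal F N] :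
    ∃ r : (N' ≃ₐ[F] N') →* (N ≃ₐ[F] N), ∀ σ x, inclusion h (r σ x) = σ (inclusion h x) := by
  let alg : Algebra N N' := (inclusion h).toRingHom.toAlgebra
  have tow' : IsScalarTower F N N' := IsScalarTower.of_algebraMap_eq fun x => rfl
  exact ⟨AlgEquiv.restrictNormalHom N, fun σ x => AlgEquiv.restrictNormal_commutes σ N x⟩

/-- `i` is a square root of a 2-unit. -/
lemma i_mem_sqR [NumberField K] {I : Ω} (hI : I ^ 2 = -1) : I ∈ SqR K :=
  ⟨-1, neg_one_mem_EU K, by rw [hI]; simp⟩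

lemma totComplex_of_i {N : IntermediateField F Ω} (h : ∃ I ∈ N, I ^ 2 = (-1 : Ω)) :
    TotComplex N := by
  obtain ⟨I, hI, hI2⟩ := h
  intro τ
  refine ⟨⟨I, hI⟩, ?_⟩
  have h1 : (τ ⟨I, hI⟩) ^ 2 = -1 := by
    rw [← map_pow]
    have : (⟨I, hI⟩ : N) ^ 2 = -1 := Subtype.ext hI2
    rw [this, map_neg, map_one]
  intro h0
  have h2 := congrArg Complex.re h1
  rw [sq, Complex.mul_re, h0] at h2
  simp at h2
  nlinarith [sq_nonneg (τ ⟨I, hI⟩).re]

end

section Base

variable {F Ω : Type*} [Field F] [Field Ω] [Algebra F Ω] [IsAlgClosed Ω]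

/-- the square roots of `-1` -/
def Is (Ω : Type*) [Field Ω] : Set Ω := {x | x ^ 2 = -1}

/-- `A(i)` -/
def Ai (A : IntermediateField F Ω) : IntermediateField F Ω := adjoin F ((A : Set Ω) ∪ Is Ω)

variable (A : IntermediateField F Ω)

omit [IsAlgClosed Ω] in
lemma le_Ai : A ≤ Ai A := fun _ hx => subset_adjoin F _ (Or.inl hx)

omit [IsAlgClosed Ω] in
lemma is_mem_Ai {x : Ω} (hx : x ∈ Is Ω) : x ∈ Ai A := subset_adjoin F _ (Or.inr hx)

lemma exists_i : ∃ I ∈ Ai A, I ^ 2 = (-1 : Ω) := by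
  obtain ⟨I, hI⟩ := IsAlgClosed.exists_pow_nat_eq (-1 : Ω) two_pos
  exact ⟨I, is_mem_Ai A hI, hI⟩

omit [IsAlgClosed Ω] in
lemma is_eq : Is Ω = (Polynomial.X ^ 2 + 1 : Polynomial F).rootSet Ω := by
  ext x
  have hne : (Polynomial.X ^ 2 + 1 : Polynomial F) ≠ 0 := by
    intro h
    have := congrArg (Polynomial.coeff · 2) h
    simp [Polynomial.coeff_one] at this
  rw [Polynomial.mem_rootSet]
  simp only [Is, Set.mem_ofPred_eq, hne, ne_eq, not_false_eq_true, map_add, map_pow,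
    Polynomial.aeval_X, map_one, true_and]
  exact ⟨fun h => by rw [h]; ring, fun h => by linear_combination h⟩

lemma Ai_normal_fin [FiniteDimensional F A] [Normal F A] :
    FiniteDimensional F (Ai A) ∧ Normal F (Ai A) := by
  have h1 : Polynomial.IsSplittingField F (adjoin F (Is Ω)) (Polynomial.X ^ 2 + 1) := by
    rw [is_eq (F := F)]
    exact adjoin_rootSet_isSplittingField (IsAlgClosed.splits _)
  have h2 : FiniteDimensional F (adjoin F (Is Ω)) :=
    Polynomial.IsSplittingField.finiteDimensional _ (Polynomial.X ^ 2 + 1)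
  have h3 : Normal F (adjoin F (Is Ω)) := Normal.of_isSplittingField (Polynomial.X ^ 2 + 1)
  have h4 : Ai A = A ⊔ adjoin F (Is Ω) := by
    rw [Ai, adjoin_union, adjoin_self]
  rw [h4]
  exact ⟨inferInstance, inferInstance⟩

omit [IsAlgClosed Ω] in
/-- fixing `A` and the square roots of `-1` implies fixing `A(i)` -/
lemma fix_Ai {K'' : IntermediateField F Ω} (hK'' : Ai A ≤ K'') (σ : K'' ≃ₐ[F] K'')
    (h : ∀ x : K'', ((x : Ω) ∈ A ∨ x ^ 2 = -1) → σ x = x) :
    ∀ x : K'', (x : Ω) ∈ Ai A → σ x = x := by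
  refine fixed_of_adjoin σ ((A : Set Ω) ∪ Is Ω) ((subset_adjoin F _).trans hK'') ?_
  intro x hx
  apply h
  rcases hx with hx | hx
  · exact Or.inl hx
  · exact Or.inr (Subtype.ext hx)

omit [IsAlgClosed Ω] in
lemma Ai_unr6 [NumberField A] (hu : Unr6 A) : Unr6 (Ai A) := by
  intro K'' hK'' hfin hgal Q hQ h6 σ hσ
  have hAK := (le_Ai A).trans hK''
  have hA : ∀ x : K'', (x : Ω) ∈ A → σ x = x := hu K'' hAK hfin hgal Q hQ h6 σ hσ
  have h2 : (2 : 𝓞 K'') ∉ Q := by
    intro h2
    apply h6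
    have : (6 : 𝓞 K'') = 3 * 2 := by norm_num
    rw [this]
    exact Q.mul_mem_left _ h2
  apply fix_Ai A hK'' σ
  rintro x (hx | hx)
  · exact hA x hx
  · exact inertia_sqR hAK hQ h2 hσ hA x (i_mem_sqR (by
      have := congrArg Subtype.val hx
      simpa using this))

lemma Ai_degree [FiniteDimensional F A] [FiniteDimensional F (Ai A)]
    (hi : ∀ I ∈ A, I ^ 2 ≠ (-1 : Ω)) : 2 * finrank F A ≤ finrank F (Ai A) := by
  have h1 : finrank F A * finrank (restrict (le_Ai A)) (Ai A) = finrank F (Ai A) := by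
    rw [LinearEquiv.finrank_eq (restrictAlgEquiv (le_Ai A)).toLinearEquiv]
    exact Module.finrank_mul_finrank F (restrict (le_Ai A)) (Ai A)
  rw [← h1, mul_comm]
  apply Nat.mul_le_mul_left
  have h2 : 0 < finrank (restrict (le_Ai A)) (Ai A) := finrank_pos
  have h3 : finrank (restrict (le_Ai A)) (Ai A) ≠ 1 := by
    intro h3
    obtain ⟨I, hI, hI2⟩ := exists_i A
    rw [IntermediateField.finrank_eq_one_iff_eq_top] at h3
    have h4 : (⟨I, hI⟩ : Ai A) ∈ restrict (le_Ai A) := by rw [h3]; exact mem_top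
    rw [mem_restrict] at h4
    exact hi I h4 hI2
  omega

end Base

/-- (P1) the tower over `A` -/
theorem tower_exists {F Ω : Type} [Field F] [NumberField F] [Field Ω] [Algebra F Ω]
    [IsAlgClosed Ω] (A : IntermediateField F Ω) [FiniteDimensional F A] [IsGalois F A]
    (hi : ∀ I ∈ A, I ^ 2 ≠ (-1 : Ω))
    (hu : Unr6 A) (d : ℕ) (hd : d = Module.finrank F A * Module.finrank ℚ F + 1) (j : ℕ) :
    ∃ N : IntermediateField F Ω, A ≤ N ∧ FiniteDimensional F N ∧ IsGalois F N ∧ Unr6 N ∧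
      (∃ I ∈ N, I ^ 2 = (-1 : Ω)) ∧ (1 ≤ j → ∃ y ∈ N, y ^ 2 = (2 : Ω)) ∧
      (∀ σ : N ≃ₐ[F] N, (∀ x : N, (x : Ω) ∈ A → σ x = x) → ∃ k : ℕ, σ ^ (2 ^ k) = 1) ∧
      (∀ (V : Type) [Group V] (g : V →* (N ≃ₐ[F] N)),
        (∀ v, ∀ x : N, ((x : Ω) ∈ A ∨ x ^ 2 = -1) → g v x = x) →
          ∀ v ∈ sqSeries (V := V) j, g v = 1) ∧
      (2 * Module.finrank F A * bnd d j ≤ Module.finrank F N) ∧
      (∀ Q : Ideal (𝓞 N), Q.IsPrime → (2 : 𝓞 N) ∉ Q → ∀ σ : N ≃ₐ[F] N,
        (∀ x : N, (x : Ω) ∈ A → σ x = x) → (∀ x y : 𝓞 N, (y : N) = σ x → y - x ∈ Q) →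
          σ = 1) := by
  induction j with
  | zero =>
    have hA : NumberField A := NumberField.of_module_finite F A
    obtain ⟨hfin, hnor⟩ := Ai_normal_fin A
    have hgal : IsGalois F (Ai A) := IsGalois.mk
    refine ⟨Ai A, le_Ai A, hfin, hgal, Ai_unr6 A hu, exists_i A, fun h => absurd h (by omega),
      ?_, ?_, ?_, ?_⟩
    · intro σ hσ
      refine ⟨1, ?_⟩
      rw [pow_one]
      ext x
      have h := fix_Ai A le_rfl (σ ^ 2) ?_ x x.2
      · rw [h]; rfl
      · rintro y (hy | hy)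
        · rw [sq, AlgEquiv.mul_apply, hσ y hy, hσ y hy]
        · have h1 : σ y ^ 2 = y ^ 2 := by rw [← map_pow, hy, map_neg, map_one]
          rcases sq_eq_sq_iff_eq_or_eq_neg.1 h1 with h | h
          · rw [sq, AlgEquiv.mul_apply, h, h]
          · rw [sq, AlgEquiv.mul_apply, h, map_neg, h, neg_neg]
    · intro V _ g hg v _
      ext x
      have h := fix_Ai A le_rfl (g v) (hg v) x x.2
      rw [h]; rfl
    · rw [show bnd d 0 = 1 from rfl, mul_one]
      exact Ai_degree A hi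
    · intro Q hQ h2 σ hσ hin
      ext x
      have h := fix_Ai A le_rfl σ ?_ x x.2
      · rw [h]; rfl
      · rintro y (hy | hy)
        · exact hσ y hy
        · exact inertia_sqR (le_Ai A) hQ h2 hin hσ y (i_mem_sqR (by
            have := congrArg Subtype.val hy
            simpa using this))
  | succ j ih =>
    obtain ⟨N, hAN, hfin, hgal, huN, hIN, h2N, h4, h5, h6, h7⟩ := ih
    have hN : NumberField N := NumberField.of_module_finite F N
    have hfin' : FiniteDimensional F (tow N) := tow_fin N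
    have hnor' : Normal F (tow N) := tow_normal N
    have hgal' : IsGalois F (tow N) := IsGalois.mk
    have hNT : N ≤ tow N := le_tow N
    obtain ⟨r, hr⟩ := exists_restr hNT
    have hrA : ∀ σ : tow N ≃ₐ[F] tow N, (∀ x : tow N, (x : Ω) ∈ A → σ x = x) →
        ∀ x : N, (x : Ω) ∈ A → r σ x = x := by
      intro σ hσ x hx
      apply inclusion_injective hNT
      rw [hr]
      exact hσ _ hx
    have hr1 : ∀ σ : tow N ≃ₐ[F] tow N, r σ = 1 → ∀ x : tow N, (x : Ω) ∈ N → σ x = x := by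
      intro σ h1 x hx
      have h := hr σ ⟨x, hx⟩
      rw [h1] at h
      exact h.symm
    refine ⟨tow N, hAN.trans hNT, hfin', hgal', tow_unr6 huN, ?_, fun _ => tow_sqrt_two,
      ?_, ?_, ?_, ?_⟩
    · obtain ⟨I, hI, hI2⟩ := hIN
      exact ⟨I, hNT hI, hI2⟩
    · intro σ hσ
      obtain ⟨k, hk⟩ := h4 (r σ) (hrA σ hσ)
      refine ⟨k + 1, ?_⟩
      rw [← map_pow] at hk
      rw [pow_succ, pow_mul, sq]
      exact tow_sq _ (hr1 _ hk)
    · intro V _ g hg
      have hg' : ∀ v ∈ sqSeries (V := V) j, (r.comp g) v = 1 := by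
        apply h5 V (r.comp g)
        intro v x hx
        apply inclusion_injective hNT
        rw [MonoidHom.comp_apply, hr]
        apply hg v
        rcases hx with hx | hx
        · exact Or.inl hx
        · right
          rw [← map_pow, hx, map_neg, map_one]
      have h8 : sqSeries (V := V) (j + 1) ≤ g.ker := by
        show Subgroup.closure _ ≤ _
        rw [Subgroup.closure_le]
        rintro _ ⟨y, hy, rfl⟩
        rw [SetLike.mem_coe, MonoidHom.mem_ker, map_pow, sq]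
        exact tow_sq _ (hr1 _ (hg' y hy))
      intro v hv
      exact h8 hv
    · have h8 := tow_degree N (totComplex_of_i hIN)
      refine le_trans ?_ h8
      have h9 : finrank ℚ F * finrank F N = finrank ℚ N := Module.finrank_mul_finrank ℚ F N
      have hd' : d - 1 = finrank F A * finrank ℚ F := by omega
      rw [show bnd d (j + 1) = bnd d j * 2 ^ (1 + (d - 1) * bnd d j) from rfl, ← mul_assoc]
      apply Nat.mul_le_mul h6
      apply Nat.pow_le_pow_right two_pos
      rw [add_comm 1]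
      apply Nat.add_le_add_right
      rw [hd', Nat.le_div_iff_mul_le two_pos, ← h9]
      calc finrank F A * finrank ℚ F * bnd d j * 2
          = finrank ℚ F * (2 * finrank F A * bnd d j) := by ring
        _ ≤ finrank ℚ F * finrank F N := Nat.mul_le_mul_left _ h6
    · intro Q hQ h2 σ hσ hin
      let φ : 𝓞 N →+* 𝓞 (tow N) := RingOfIntegers.mapRingHom (inclusion hNT).toRingHom
      have hφ : ∀ x : 𝓞 N, ((φ x : 𝓞 (tow N)) : tow N) = inclusion hNT (x : N) := fun x => rfl
      have h8 : r σ = 1 := by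
        refine h7 (Q.comap φ) (Ideal.comap_isPrime φ Q) ?_ (r σ) (hrA σ hσ) ?_
        · intro h
          apply h2
          have : φ 2 ∈ Q := h
          rwa [map_ofNat] at this
        · intro x y hxy
          rw [Ideal.mem_comap, map_sub]
          apply hin
          rw [hφ, hφ, hxy, hr]
      have h9 := hr1 σ h8
      ext x
      have h := fixed_of_adjoin σ ((N : Set Ω) ∪ SqR N) (subset_adjoin F _) ?_ x x.2
      · rw [h]; rfl
      · rintro y (hy | hy)
        · exact h9 y hy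
        · exact inertia_sqR hNT hQ h2 hin h9 y hy

/-- `-1` is not a square in a totally real field -/
lemma not_i_of_totReal {F Ω : Type*} [Field F] [NumberField F] [Field Ω] [Algebra F Ω]
    (A L : IntermediateField F Ω) [FiniteDimensional F L] (hAL : A ≤ L) (hL : TotReal L) :
    ∀ I ∈ A, I ^ 2 ≠ (-1 : Ω) := by
  intro I hI h
  have hN : NumberField L := NumberField.of_module_finite F L
  have hne : Nonempty (L →+* ℂ) := inferInstance
  obtain ⟨τ⟩ := hne
  have h1 := hL τ ⟨I, hAL hI⟩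
  have h2 : (τ ⟨I, hAL hI⟩) ^ 2 = -1 := by
    rw [← map_pow]
    have : (⟨I, hAL hI⟩ : L) ^ 2 = -1 := Subtype.ext h
    rw [this, map_neg, map_one]
  have h3 := congrArg Complex.re h2
  rw [sq, Complex.mul_re, h1] at h3
  simp at h3
  nlinarith [sq_nonneg (τ ⟨I, hAL hI⟩).re]

end Pool.Agent.Lib.MP_aa8fd2_nt
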