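import Pool.Agent.Lib.MP_aa8fd2_nt.Divisor
import Pool.Agent.Lib.MP_aa8fd2_nt.IndexSq

/-!
The group of 2-units of a number field and its rank.
-/

namespace Pool.Agent.Lib.MP_aa8fd2_nt

open IsDedekindDomain HeightOneSpectrum NumberField Module

section

variable (K : Type*) [Field K]

/-- primes above 2 -/
def S2 : Set (HeightOneSpectrum (𝓞 K)) := {v | (2 : 𝓞 K) ∈ v.asIdeal}

/-- 2-units -/
noncomputable def EU [NumberField K] : Subgroup Kˣ := (dv (R := 𝓞 K) (K := K) (S2 K)).ker

variable [NumberField K]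

lemma mem_EU {x : Kˣ} : x ∈ EU K ↔ ∀ v : HeightOneSpectrum (𝓞 K), (2 : 𝓞 K) ∉ v.asIdeal →
    ord v x = 0 := by
  rw [EU, MonoidHom.mem_ker, dv_eq_one_iff]
  rfl

lemma S2_finite : (S2 K).Finite := by
  have h : (Ideal.span {(2 : 𝓞 K)}) ≠ ⊥ := by
    rw [Ne, Ideal.span_singleton_eq_bot]
    exact two_ne_zero
  have := Ideal.finite_factors h
  refine this.subset ?_
  intro v hv
  rw [Set.mem_ofPred_eq, Ideal.dvd_span_singleton]
  exact hv

noncomputable instance : Fintype (S2 K) := (S2_finite K).fintype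

/-- orders at the primes above 2 -/
noncomputable def ordS : Additive (EU K) →ₗ[ℤ] (S2 K → ℤ) :=
  AddMonoidHom.toIntLinearMap
    { toFun := fun x v => ord v.1 ((Additive.toMul x : EU K) : Kˣ)
      map_zero' := by
        ext v
        exact ord_one v.1
      map_add' := by
        intro x y
        ext v
        exact ord_mul v.1 _ _ }

lemma ordS_apply (x : Additive (EU K)) (v : S2 K) :
    ordS K x v = ord v.1 ((Additive.toMul x : EU K) : Kˣ) := rfl

lemma exists_unit_of_ord_eq_zero (x : Kˣ) (hx : ∀ v : HeightOneSpectrum (𝓞 K), ord v x = 0) :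
    ∃ u : (𝓞 K)ˣ, Units.map (algebraMap (𝓞 K) K : 𝓞 K →* K) u = x := by
  obtain ⟨a, ha⟩ := mem_integers_of_valuation_le_one (R := 𝓞 K) K (x : K)
    (fun v => ((ord_eq_zero_iff v x).1 (hx v)).le)
  obtain ⟨b, hb⟩ := mem_integers_of_valuation_le_one (R := 𝓞 K) K ((x⁻¹ : Kˣ) : K)
    (fun v => ((ord_eq_zero_iff v x⁻¹).1 (by rw [ord_inv, hx v, neg_zero])).le)
  have hab : a * b = 1 := by
    apply FaithfulSMul.algebraMap_injective (𝓞 K) K
    rw [map_mul, ha, hb, map_one, Units.mul_inv]
  refine ⟨⟨a, b, hab, by rw [mul_comm, hab]⟩, ?_⟩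
  ext
  exact ha

lemma ord_unit (u : (𝓞 K)ˣ) (v : HeightOneSpectrum (𝓞 K)) :
    ord v (Units.map (algebraMap (𝓞 K) K : 𝓞 K →* K) u) = 0 := by
  rw [ord_eq_zero_iff]
  apply le_antisymm
  · exact v.valuation_le_one _
  · by_contra h
    push Not at h
    have h1 : v.valuation K ((Units.map (algebraMap (𝓞 K) K : 𝓞 K →* K) u : Kˣ) : K) *
        v.valuation K ((Units.map (algebraMap (𝓞 K) K : 𝓞 K →* K) u⁻¹ : Kˣ) : K) = 1 := by
      rw [← map_mul, ← Units.val_mul, ← map_mul, mul_inv_cancel, map_one, Units.val_one, map_one]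
    have h2 : v.valuation K ((Units.map (algebraMap (𝓞 K) K : 𝓞 K →* K) u⁻¹ : Kˣ) : K) ≤ 1 :=
      v.valuation_le_one _
    have h3 := mul_lt_mul'' h (lt_of_le_of_ne h2 ?_) zero_le zero_le
    · rw [h1, mul_one] at h3
      exact lt_irrefl _ h3
    · intro h4
      rw [h4, mul_one] at h1
      exact h.ne h1

/-- units as a ℤ-submodule -/
noncomputable def kerEquiv : LinearMap.ker (ordS K) ≃ₗ[ℤ] Additive (𝓞 K)ˣ := by
  let f : Additive (𝓞 K)ˣ →ₗ[ℤ] LinearMap.ker (ordS K) := AddMonoidHom.toIntLinearMap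
    { toFun := fun u => ⟨Additive.ofMul ⟨Units.map (algebraMap (𝓞 K) K : 𝓞 K →* K)
          (Additive.toMul u), by
            rw [mem_EU]
            intro v _
            exact ord_unit K _ v⟩, by
          rw [LinearMap.mem_ker]
          ext v
          exact ord_unit K _ v.1⟩
      map_zero' := by
        apply Subtype.ext
        apply Additive.toMul.injective
        apply Subtype.ext
        exact map_one _
      map_add' := by
        intro x y
        apply Subtype.ext
        apply Additive.toMul.injective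
        apply Subtype.ext
        exact map_mul _ _ _ }
  refine (LinearEquiv.ofBijective f ⟨?_, ?_⟩).symm
  · intro x y hxy
    have h1 := congrArg (fun z : LinearMap.ker (ordS K) =>
      (((Additive.toMul z.1 : EU K) : Kˣ) : K)) hxy
    apply Additive.toMul.injective
    apply Units.ext
    exact FaithfulSMul.algebraMap_injective (𝓞 K) K h1
  · intro x
    have hx : ∀ v : HeightOneSpectrum (𝓞 K), ord v ((Additive.toMul x.1 : EU K) : Kˣ) = 0 := by
      intro v
      by_cases hv : v ∈ S2 K
      · exact congrFun (LinearMap.mem_ker.1 x.2) ⟨v, hv⟩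
      · exact (mem_EU K).1 (Additive.toMul x.1 : EU K).2 v hv
    obtain ⟨u, hu⟩ := exists_unit_of_ord_eq_zero K _ hx
    refine ⟨Additive.ofMul u, ?_⟩
    apply Subtype.ext
    apply Additive.toMul.injective
    apply Subtype.ext
    exact hu

instance finite_EU : Module.Finite ℤ (Additive (EU K)) := by
  have h1 : Module.Finite ℤ (LinearMap.ker (ordS K)) := Module.Finite.equiv (kerEquiv K).symm
  have h2 : Module.Finite ℤ (LinearMap.range (ordS K)) := inferInstance
  have h3 : Module.Finite ℤ (Additive (EU K) ⧸ LinearMap.ker (ordS K)) :=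
    Module.Finite.equiv (ordS K).quotKerEquivRange.symm
  exact Module.Finite.of_submodule_quotient (LinearMap.ker (ordS K))

theorem finrank_EU : finrank ℤ (Additive (EU K)) = Units.rank K + Nat.card (S2 K) := by
  have h1 := Submodule.finrank_quotient_add_finrank (LinearMap.ker (ordS K))
  rw [LinearEquiv.finrank_eq (kerEquiv K), Units.finrank_eq,
    LinearEquiv.finrank_eq (ordS K).quotKerEquivRange] at h1
  have h2 : finrank ℤ (LinearMap.range (ordS K)) = Nat.card (S2 K) := by
    have h3 := Submodule.finrank_quotient_add_finrank (LinearMap.range (ordS K))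
    have h4 : finrank ℤ ((S2 K → ℤ) ⧸ LinearMap.range (ordS K)) = 0 := by
      rw [Module.finrank_eq_zero_iff]
      intro y
      obtain ⟨y, rfl⟩ := Submodule.Quotient.mk_surjective _ y
      refine ⟨(Nat.card (ClassGroup (𝓞 K)) : ℤ), by exact_mod_cast Nat.card_pos.ne', ?_⟩
      rw [← Submodule.Quotient.mk_smul, Submodule.Quotient.mk_eq_zero]
      classical
      obtain ⟨x, hx⟩ := exists_ord_eq_mul (K := K)
        (((Finsupp.linearEquivFunOnFinite ℤ ℤ (S2 K)).symm y).mapDomain Subtype.val)
      have hxE : x ∈ EU K := by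
        rw [mem_EU]
        intro v hv
        rw [hx, Finsupp.mapDomain_of_notMem_range, mul_zero]
        rintro ⟨w, rfl⟩
        exact hv w.2
      refine ⟨Additive.ofMul ⟨x, hxE⟩, ?_⟩
      ext v
      rw [ordS_apply]
      show ord v.1 x = _
      rw [hx, Finsupp.mapDomain_apply Subtype.val_injective]
      simp
    rw [h4, zero_add, Module.finrank_fintype_fun_eq_card] at h3
    rw [h3, Nat.card_eq_fintype_card]
  omega

end

end Pool.Agent.Lib.MP_aa8fd2_nt
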